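import Pool.Graph.R_seed8.H777R4.DM.LS1
import Pool.Graph.R_seed8.H337R3.Lead1
import Pool.Graph.R_seed8.H861R3.DM.LeadN
import Pool.Graph.R_seed8.H358R3.DM.FinalN
import Pool.Graph.R_seed8.H826R3.DM.ShearN

/-!
# The Ihara action in depth one, after deleting the trailing letters `x₀`

`θ (s f g) = θ g * θ f + EE f (θ g)` and `EE f` is a derivation of `ℚ⟨Y⟩`, which is computed on the
letters for `f = (ad x₀)^m x₁`.
-/

set_option autoImplicit false

namespace Pool.Agent.H492.DG

open Pool.Agent.H777R4.DM
open Pool.Agent.H337R3.Lead1 (EE EE_apply emb emb_wd th_wd strip_last eq_strip strip_rep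
  strip_zeros strip_one s_apply th_s wordX_last lin_ext)
open H851R3.DSH (der_mul der_x0 der_x1 der_one wd_append)

attribute [local instance 100] LieRing.ofAssociativeRing

theorem wordX_append (a b : List ℕ) : wordX (a ++ b) = wordX a ++ wordX b := by
  induction a with
  | nil => rfl
  | cons k l ih =>
    show List.replicate k 0 ++ 1 :: wordX (l ++ b) = (List.replicate k 0 ++ 1 :: wordX l) ++ wordX b
    rw [ih, List.append_assoc, List.cons_append]

theorem emb_mul (P Q : AY) : emb (P * Q) = emb P * emb Q := by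
  have h : ∀ l : List ℕ, emb (wd l * Q) = emb (wd l) * emb Q := by
    intro l
    exact lin_ext (φ := emb ∘ₗ LinearMap.mulLeft ℚ (wd l : AY))
      (ψ := LinearMap.mulLeft ℚ (emb (wd l)) ∘ₗ emb) (fun l' => by
        simp only [LinearMap.comp_apply, LinearMap.mulLeft_apply]
        rw [← wd_append, emb_wd, emb_wd, emb_wd, wordX_append, wd_append]) Q
  exact lin_ext (φ := emb ∘ₗ LinearMap.mulRight ℚ Q) (ψ := LinearMap.mulRight ℚ (emb Q) ∘ₗ emb)
    (fun l => by
      simp only [LinearMap.comp_apply, LinearMap.mulRight_apply]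
      exact h l) P

theorem th_emb_mul (P : AY) (g : A) : θ (emb P * g) = P * θ g := by
  have h : ∀ l : List ℕ, θ (emb (wd l) * g) = wd l * θ g := by
    intro l
    exact lin_ext (φ := θ ∘ₗ LinearMap.mulLeft ℚ (emb (wd l)))
      (ψ := LinearMap.mulLeft ℚ (wd l : AY) ∘ₗ θ) (fun u => by
        simp only [LinearMap.comp_apply, LinearMap.mulLeft_apply]
        rw [emb_wd, ← wd_append, th_wd, th_wd, Pool.Agent.H337R3.Lead1.strip_wordX, wd_append]) g
  exact lin_ext (φ := θ ∘ₗ LinearMap.mulRight ℚ g ∘ₗ emb) (ψ := LinearMap.mulRight ℚ (θ g))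
    (fun l => by
      simp only [LinearMap.comp_apply, LinearMap.mulRight_apply]
      exact h l) P

theorem th_one : θ (1 : A) = 1 := by
  have h : (1 : A) = wd [] := Pool.Agent.H337R3.Lead1.wd_nil.symm
  rw [h, th_wd]
  exact Pool.Agent.H337R3.Lead1.wd_nil

theorem th_emb (P : AY) : θ (emb P) = P := by
  have h := th_emb_mul P 1
  rwa [mul_one, th_one, mul_one] at h

theorem emb_th_x1 (Z : A) : emb (θ (Z * x 1)) = Z * x 1 := by
  exact lin_ext (φ := emb ∘ₗ θ ∘ₗ LinearMap.mulRight ℚ (x 1)) (ψ := LinearMap.mulRight ℚ (x 1))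
    (fun u => by
      simp only [LinearMap.comp_apply, LinearMap.mulRight_apply]
      have h1 : (wd u : A) * x 1 = wd (u ++ [1]) := (wd_append _ _).symm
      rw [h1, th_wd, emb_wd]
      conv_rhs => rw [eq_strip (u ++ [1])]
      rw [strip_last, List.replicate_zero, List.append_nil]) Z

theorem s_mul (f g h : A) : s f (g * h) = s f g * h + g * der f h := by
  rw [s_apply, s_apply, der_mul]
  noncomm_ring

/-- all words of `s f (emb P) - emb P * f` end with `x₁` -/
theorem s_emb_ex (f : A) (P : AY) : ∃ Y : AY, s f (emb P) = emb P * f + emb Y := by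
  induction P using Pool.Agent.H777R4.DM.al_induction with
  | h1 l =>
    rcases List.eq_nil_or_concat l with rfl | ⟨l0, a, rfl⟩
    · refine ⟨0, ?_⟩
      rw [map_zero, add_zero, emb_wd]
      show s f (wd []) = wd [] * f
      rw [Pool.Agent.H337R3.Lead1.wd_nil, s_apply, der_one, mul_one, one_mul, add_zero]
    · rw [List.concat_eq_append]
      have h1 : emb (wd (l0 ++ [a])) = wd (wordX l0 ++ List.replicate a 0) * x 1 := by
        rw [emb_wd, wordX_append]
        show wd (wordX l0 ++ (List.replicate a 0 ++ [1])) = _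
        rw [← List.append_assoc, wd_append]
        rfl
      refine ⟨θ ((s f (wd (wordX l0 ++ List.replicate a 0)) -
        wd (wordX l0 ++ List.replicate a 0) * f) * x 1), ?_⟩
      rw [emb_th_x1, h1, s_mul, der_x1]
      noncomm_ring
  | h2 P Q hP hQ =>
    obtain ⟨Y, hY⟩ := hP
    obtain ⟨Z, hZ⟩ := hQ
    refine ⟨Y + Z, ?_⟩
    rw [map_add, map_add, hY, hZ, map_add]
    noncomm_ring
  | h3 c P hP =>
    obtain ⟨Y, hY⟩ := hP
    refine ⟨c • Y, ?_⟩
    rw [map_smul, map_smul, hY, map_smul, smul_mul_assoc, smul_add]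

theorem s_emb (f : A) (P : AY) : s f (emb P) = emb P * f + emb (EE f P) := by
  obtain ⟨Y, hY⟩ := s_emb_ex f P
  have h : EE f P = Y := by
    rw [EE_apply, hY, map_add, th_emb_mul, th_emb]
    noncomm_ring
  rw [h]
  exact hY

theorem th_s_eq (f g : A) : θ (s f g) = θ g * θ f + EE f (θ g) := by
  rw [EE_apply, th_s]
  abel

theorem EE_mul (f : A) (P Q : AY) : EE f (P * Q) = EE f P * Q + P * EE f Q := by
  have h : s f (emb (P * Q)) = emb (P * Q) * f + emb (EE f P * Q + P * EE f Q) := by
    have h1 : der f (emb Q) = emb Q * f + emb (EE f Q) - f * emb Q := by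
      have := s_emb f Q
      rw [s_apply] at this
      rw [← this]
      noncomm_ring
    rw [emb_mul, s_mul, s_emb, h1, map_add, emb_mul, emb_mul]
    noncomm_ring
  rw [EE_apply, h, map_add, th_emb_mul, th_emb]
  noncomm_ring

theorem EE_one (f : A) : EE f 1 = 0 := by
  have h := EE_mul f 1 1
  rw [mul_one, mul_one, one_mul] at h
  exact left_eq_add.mp h

/-- the formula for `(ad x₀)^m x₁` -/
theorem adp_sum (m : ℕ) : adp m = ∑ i ∈ Finset.range (m + 1),
    ((-1 : ℚ) ^ i * (m.choose i : ℚ)) • wd (List.replicate (m - i) 0 ++ 1 :: List.replicate i 0) := by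
  induction m with
  | zero => simp [adp, x]
  | succ m ih =>
    have e : adp (m + 1) = x 0 * adp m - adp m * x 0 := rfl
    have h1 : x 0 * adp m = ∑ i ∈ Finset.range (m + 2), ((-1 : ℚ) ^ i * (m.choose i : ℚ)) •
        wd (List.replicate (m + 1 - i) 0 ++ 1 :: List.replicate i 0) := by
      rw [Finset.sum_range_succ, Nat.choose_succ_self, Nat.cast_zero, mul_zero, zero_smul, add_zero,
        ih, Finset.mul_sum]
      refine Finset.sum_congr rfl fun b hb => ?_
      have hb' : b < m + 1 := Finset.mem_range.mp hb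
      rw [mul_smul_comm, x, ← wd_append]
      have : m + 1 - b = (m - b) + 1 := by omega
      rw [this, List.replicate_succ]
      rfl
    have h2 : adp m * x 0 = - ∑ i ∈ Finset.range (m + 1),
        ((-1 : ℚ) ^ (i + 1) * (m.choose i : ℚ)) •
        wd (List.replicate (m - i) 0 ++ 1 :: List.replicate (i + 1) 0) := by
      rw [ih, Finset.sum_mul, ← Finset.sum_neg_distrib]
      refine Finset.sum_congr rfl fun b hb => ?_
      rw [smul_mul_assoc, x, ← wd_append, List.append_assoc, List.cons_append,
        ← List.replicate_succ', ← neg_smul]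
      congr 1
      ring
    rw [e, h1, h2, sub_neg_eq_add, Finset.sum_range_succ', Finset.sum_range_succ' _ (m + 1)]
    have h3 : ∀ i ∈ Finset.range (m + 1), ((-1 : ℚ) ^ (i + 1) * ((m + 1).choose (i + 1) : ℚ)) •
        (wd (List.replicate (m + 1 - (i + 1)) 0 ++ 1 :: List.replicate (i + 1) 0) : A) =
        ((-1 : ℚ) ^ (i + 1) * (m.choose (i + 1) : ℚ)) •
          (wd (List.replicate (m + 1 - (i + 1)) 0 ++ 1 :: List.replicate (i + 1) 0) : A) +
        ((-1 : ℚ) ^ (i + 1) * (m.choose i : ℚ)) •
          (wd (List.replicate (m - i) 0 ++ 1 :: List.replicate (i + 1) 0) : A) := by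
      intro i _
      have e1 : m + 1 - (i + 1) = m - i := by omega
      rw [e1, ← add_smul]
      congr 1
      rw [Nat.choose_succ_succ]
      push_cast
      ring
    rw [Finset.sum_congr rfl h3, Finset.sum_add_distrib]
    simp only [Nat.choose_zero_right]
    abel

theorem th_adp (m : ℕ) : θ (adp m) = ∑ i ∈ Finset.range (m + 1),
    ((-1 : ℚ) ^ i * (m.choose i : ℚ)) • wd [m - i] := by
  rw [adp_sum, map_sum]
  refine Finset.sum_congr rfl fun i _ => ?_
  rw [map_smul, th_wd, strip_rep, strip_zeros]

theorem EE_letter (f : A) (a : ℕ) : EE f (wd [a]) =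
    θ (f * wd (List.replicate a 0) * x 1) - θ (wd (List.replicate a 0) * f * x 1) := by
  have h1 : emb (wd [a]) = wd (List.replicate a 0) * x 1 := by
    rw [emb_wd]
    show wd (List.replicate a 0 ++ [1]) = _
    rw [wd_append]
    rfl
  have h2 : s f (emb (wd [a])) = emb (wd [a]) * f +
      (f * wd (List.replicate a 0) * x 1 - wd (List.replicate a 0) * f * x 1) := by
    rw [h1, s_mul, der_x1, s_apply]
    have h3 : der f (wd (List.replicate a 0)) = 0 := by
      rw [Pool.Agent.H337R3.Lead1.der_wd]
      have := Pool.Agent.H337R3.Lead1.derW_zeros f [] a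
      rw [List.nil_append] at this
      rw [this]
      simp [derW]
    rw [h3]
    noncomm_ring
  rw [EE_apply, h2, map_add, th_emb_mul, map_sub]
  noncomm_ring

/-- the derivation of `(ad x₀)^m x₁` on the letter `a` -/
theorem EE_adp (m a : ℕ) : EE (adp m) (wd [a]) = ∑ i ∈ Finset.range (m + 1),
    ((-1 : ℚ) ^ i * (m.choose i : ℚ)) • (wd [m - i, a + i] - wd [a + (m - i), i]) := by
  rw [EE_letter, adp_sum, Finset.sum_mul, Finset.sum_mul, Finset.mul_sum, Finset.sum_mul,
    map_sum, map_sum, ← Finset.sum_sub_distrib]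
  refine Finset.sum_congr rfl fun i _ => ?_
  rw [smul_mul_assoc, smul_mul_assoc, mul_smul_comm, smul_mul_assoc, map_smul, map_smul, ← smul_sub]
  congr 1
  have e1 : (wd (List.replicate (m - i) 0 ++ 1 :: List.replicate i 0) : A) *
      wd (List.replicate a 0) * x 1 = wd (wordX [m - i, a + i]) := by
    rw [x, ← wd_append, ← wd_append]
    congr 1
    show _ = List.replicate (m - i) 0 ++ 1 :: (List.replicate (a + i) 0 ++ [1])
    rw [List.append_assoc, List.append_assoc, List.cons_append, ← List.append_assoc (List.replicate i 0),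
      List.replicate_append_replicate, add_comm i a]
  have e2 : (wd (List.replicate a 0) : A) * wd (List.replicate (m - i) 0 ++ 1 :: List.replicate i 0) *
      x 1 = wd (wordX [a + (m - i), i]) := by
    rw [x, ← wd_append, ← wd_append]
    congr 1
    show _ = List.replicate (a + (m - i)) 0 ++ 1 :: (List.replicate i 0 ++ [1])
    rw [← List.append_assoc, List.replicate_append_replicate, List.append_assoc, List.cons_append]
  rw [e1, e2, ← emb_wd, ← emb_wd, th_emb, th_emb]

end Pool.Agent.H492.DG
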