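import Pool.Agent.H492.DG.Dat

/-!
# The critical number of generators: `m + 2`
-/

set_option autoImplicit false

namespace Pool.Agent.H492.DG

open Pool.Agent.H777R4.DM
open Pool.Agent.N568.DSF (Dp)
open Pool.Agent.H337R3.Lead1 (EE)
open Pool.Agent.H358R3.DM (SN SN_wd SN_lie)

attribute [local instance 100] LieRing.ofAssociativeRing

/-- the commutator of two letters -/
noncomputable def brk {n : ℕ} (a b : Fin n) : Al (Fin n) := wd [a] * wd [b] - wd [b] * wd [a]

theorem wd_LieN {n : ℕ} (a : Fin n) : (wd [a] : Al (Fin n)) ∈ LieN n :=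
  LieSubalgebra.subset_lieSpan ⟨a, rfl⟩

theorem brk_mem {n : ℕ} (a b : Fin n) : brk a b ∈ LieN n := by
  unfold brk
  rw [← LieRing.of_associative_ring_bracket]
  exact (LieN n).lie_mem (wd_LieN a) (wd_LieN b)

theorem PhiN_brk {n : ℕ} (F : Fin n → A) (a b : Fin n) : PhiN F (brk a b) = ihara (F a) (F b) := by
  have h := (Pool.Agent.H358R3.DM.taskFinalN n F).2 _ (wd_LieN a) _ (wd_LieN b)
  rw [(Pool.Agent.H358R3.DM.taskFinalN n F).1, (Pool.Agent.H358R3.DM.taskFinalN n F).1] at h
  exact h

/-- the hypotheses on the generators after the linear change -/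
structure Gens (m n : ℕ) (d : Fin n → ℕ) (i0 : Fin n) (F : ℕ → A) (G : A) (cF : ℕ → Fin n → ℚ)
    (cG : Fin n → ℚ) : Prop where
  hm : Even m
  hm2 : 2 ≤ m
  hd : ∀ i, Even (d i)
  hi0 : d i0 = m
  hdi : ∀ i, i ≠ i0 → m + 2 ≤ d i
  datF : ∀ l ≤ m, Dat d (F l) (cF l)
  datG : Dat d G cG
  cF0 : ∀ l ≤ m, cF l i0 = 0
  cG0 : cG i0 = 1
  aF : ∀ l ≤ m, ∀ k ≤ m, co (θ (F l)) [k] = if k = l then 1 else 0
  aG : ∀ k ≤ m, co (θ G) [k] = 0

section

variable {m n : ℕ} {d : Fin n → ℕ} {i0 : Fin n} {F : ℕ → A} {G : A} {cF : ℕ → Fin n → ℚ}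
  {cG : Fin n → ℚ} (h : Gens m n d i0 F G cF cG)

include h

/-- the derivation part of the bracket in low degree -/
theorem Gens.Esum (c c' : Fin n → ℚ) (a a' : ℕ → ℚ) (k l : ℕ) (hkl : k + l ≤ m + 2) :
    (∑ i, if d i ≤ k + l then (be k (d i) - be l (d i)) *
        (c i * a' (k + l - d i) - c' i * a (k + l - d i)) else 0) =
      if m ≤ k + l then (be k m - be l m) * (c i0 * a' (k + l - m) - c' i0 * a (k + l - m)) else 0 := by
  rw [Finset.sum_eq_single i0]
  · rw [h.hi0]
  · intro i _ hi
    have h1 := h.hdi i hi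
    by_cases h2 : d i ≤ k + l
    · have h3 : k + l = d i := by omega
      rw [if_pos h2, be_symm (h.hd i) h3, sub_self, zero_mul]
    · rw [if_neg h2]
  · intro h1
    exact absurd (Finset.mem_univ _) h1

theorem Gens.brGF (l : ℕ) (hl : l ≤ m) (k k' : ℕ) (hk : k + k' ≤ m + 2) :
    co (θ (ihara G (F l))) [k, k'] = co (θ (F l)) [k] * co (θ G) [k'] - co (θ G) [k] * co (θ (F l)) [k'] +
      if m ≤ k + k' then (be k m - be k' m) * co (θ (F l)) [k + k' - m] else 0 := by
  rw [Dat.bracket h.hd h.datG (h.datF l hl), h.Esum cG (cF l) (fun j => co (θ G) [j])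
    (fun j => co (θ (F l)) [j]) k k' hk, h.cG0, h.cF0 l hl]
  congr 1
  split_ifs <;> ring

theorem Gens.brFF (l l' : ℕ) (hl : l ≤ m) (hl' : l' ≤ m) (k k' : ℕ) (hk : k + k' ≤ m + 2) :
    co (θ (ihara (F l) (F l'))) [k, k'] =
      co (θ (F l')) [k] * co (θ (F l)) [k'] - co (θ (F l)) [k] * co (θ (F l')) [k'] := by
  rw [Dat.bracket h.hd (h.datF l hl) (h.datF l' hl'), h.Esum (cF l) (cF l') (fun j => co (θ (F l)) [j])
    (fun j => co (θ (F l')) [j]) k k' hk, h.cF0 l hl, h.cF0 l' hl']
  split_ifs <;> ring

end

/-- the element with the quadratic leading term -/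
noncomputable def Hel (m : ℕ) (F : ℕ → A) (G : A) : A :=
  ihara G (F 0) - co (θ G) [m + 1] • ihara G (F 1) +
    (co (θ G) [m + 1] / 2) • ∑ j ∈ Finset.range m, ((-1 : ℚ) ^ j * ((m + 1).choose (j + 1) : ℚ)) •
      ihara (F (j + 1)) (F (m - j))

section

variable {m n : ℕ} {d : Fin n → ℕ} {i0 : Fin n} {F : ℕ → A} {G : A} {cF : ℕ → Fin n → ℚ}
  {cG : Fin n → ℚ} (h : Gens m n d i0 F G cF cG)

include h

theorem Gens.coH (k k' : ℕ) (hk : k + k' ≤ m + 2) : co (θ (Hel m F G)) [k, k'] =
    (co (θ (F 0)) [k] * co (θ G) [k'] - co (θ G) [k] * co (θ (F 0)) [k'] +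
      if m ≤ k + k' then (be k m - be k' m) * co (θ (F 0)) [k + k' - m] else 0) -
    co (θ G) [m + 1] * (co (θ (F 1)) [k] * co (θ G) [k'] - co (θ G) [k] * co (θ (F 1)) [k'] +
      if m ≤ k + k' then (be k m - be k' m) * co (θ (F 1)) [k + k' - m] else 0) +
    (co (θ G) [m + 1] / 2) * ∑ j ∈ Finset.range m, ((-1 : ℚ) ^ j * ((m + 1).choose (j + 1) : ℚ)) *
      (co (θ (F (m - j))) [k] * co (θ (F (j + 1))) [k'] -
        co (θ (F (j + 1))) [k] * co (θ (F (m - j))) [k']) := by
  have h2 := h.hm2
  unfold Hel
  rw [map_add, map_sub, map_smul, map_smul, map_sum, co_add, co_sub, co_smul, co_smul,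
    h.brGF 0 (by omega) k k' hk, h.brGF 1 (by omega) k k' hk, co_sum]
  congr 2
  refine Finset.sum_congr rfl fun j hj => ?_
  rw [Finset.mem_range] at hj
  rw [map_smul, co_smul, h.brFF (j + 1) (m - j) (by omega) (by omega) k k' hk]

/-- the terms of low degree vanish -/
theorem Gens.H_low (k k' : ℕ) (hk : k + k' ≤ m + 1) : co (θ (Hel m F G)) [k, k'] = 0 := by
  have h2 := h.hm2
  have hm := h.hm
  rw [h.coH k k' (by omega)]
  by_cases hs : k + k' = m + 1
  · -- degree `m + 1`
    rw [if_pos (by omega), if_pos (by omega), show k + k' - m = 1 by omega, h.aF 0 (by omega) 1 (by omega),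
      if_neg (by omega), h.aF 1 (by omega) 1 (by omega), if_pos rfl, mul_zero, add_zero, mul_one]
    by_cases hk0 : k = 0
    · subst hk0
      obtain rfl : k' = m + 1 := by omega
      rw [h.aF 0 (by omega) 0 (by omega), if_pos rfl, h.aG 0 (by omega), h.aF 1 (by omega) 0 (by omega),
        if_neg (by omega), Finset.sum_eq_zero]
      · unfold be
        rw [Nat.choose_eq_zero_of_lt (show m < m + 1 by omega)]
        simp
      · intro j hj
        rw [Finset.mem_range] at hj
        rw [h.aF (m - j) (by omega) 0 (by omega), if_neg (by omega), h.aF (j + 1) (by omega) 0 (by omega),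
          if_neg (by omega)]
        ring
    · by_cases hk0' : k' = 0
      · subst hk0'
        obtain rfl : k = m + 1 := by omega
        rw [h.aF 0 (by omega) 0 (by omega), if_pos rfl, h.aG 0 (by omega), h.aF 1 (by omega) 0 (by omega),
          if_neg (by omega), Finset.sum_eq_zero]
        · unfold be
          rw [Nat.choose_eq_zero_of_lt (show m < m + 1 by omega)]
          simp
        · intro j hj
          rw [Finset.mem_range] at hj
          rw [h.aF (m - j) (by omega) 0 (by omega), if_neg (by omega), h.aF (j + 1) (by omega) 0 (by omega),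
            if_neg (by omega)]
          ring
      · have hk1 : 1 ≤ k := by omega
        have hkm : k ≤ m := by omega
        obtain rfl : k' = m + 1 - k := by omega
        rw [h.aG k hkm, h.aG (m + 1 - k) (by omega), mul_zero, zero_mul, mul_zero, zero_mul, sub_zero,
          zero_sub, zero_add]
        have hsum : ∑ j ∈ Finset.range m, ((-1 : ℚ) ^ j * ((m + 1).choose (j + 1) : ℚ)) *
            (co (θ (F (m - j))) [k] * co (θ (F (j + 1))) [m + 1 - k] -
              co (θ (F (j + 1))) [k] * co (θ (F (m - j))) [m + 1 - k]) =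
            2 * ((-1) ^ k * ((m + 1).choose k : ℚ)) := by
          have e : ∀ j ∈ Finset.range m, ((-1 : ℚ) ^ j * ((m + 1).choose (j + 1) : ℚ)) *
              (co (θ (F (m - j))) [k] * co (θ (F (j + 1))) [m + 1 - k] -
                co (θ (F (j + 1))) [k] * co (θ (F (m - j))) [m + 1 - k]) =
              (if j = m - k then (-1 : ℚ) ^ j * ((m + 1).choose (j + 1) : ℚ) else 0) -
              (if j = k - 1 then (-1 : ℚ) ^ j * ((m + 1).choose (j + 1) : ℚ) else 0) := by
            intro j hj
            rw [Finset.mem_range] at hj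
            rw [h.aF (m - j) (by omega) k hkm, h.aF (j + 1) (by omega) (m + 1 - k) (by omega),
              h.aF (j + 1) (by omega) k hkm, h.aF (m - j) (by omega) (m + 1 - k) (by omega)]
            by_cases h3 : j = m - k
            · rw [if_pos (show k = m - j by omega), if_pos (show m + 1 - k = j + 1 by omega), if_pos h3]
              by_cases h4 : j = k - 1
              · rw [if_pos (show k = j + 1 by omega), if_pos (show m + 1 - k = m - j by omega), if_pos h4]
                ring
              · rw [if_neg (show ¬ k = j + 1 by omega), if_neg h4]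
                ring
            · rw [if_neg (show ¬ k = m - j by omega), if_neg h3]
              by_cases h4 : j = k - 1
              · rw [if_pos (show k = j + 1 by omega), if_pos (show m + 1 - k = m - j by omega), if_pos h4]
                ring
              · rw [if_neg (show ¬ k = j + 1 by omega), if_neg h4]
                ring
          rw [Finset.sum_congr rfl e, Finset.sum_sub_distrib, Finset.sum_ite_eq' , Finset.sum_ite_eq',
            if_pos (Finset.mem_range.mpr (by omega)), if_pos (Finset.mem_range.mpr (by omega))]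
          have e1 : (-1 : ℚ) ^ (m - k) = (-1) ^ k := by
            have h5 : (-1 : ℚ) ^ (m - k) * (-1) ^ k = 1 := by
              rw [← pow_add, Nat.sub_add_cancel hkm]
              exact hm.neg_one_pow
            have h6 : (-1 : ℚ) ^ k * (-1) ^ k = 1 := by
              rw [← mul_pow]; simp
            exact mul_right_cancel₀ (pow_ne_zero k (by norm_num)) (h5.trans h6.symm)
          have e2 : (m + 1).choose (m - k + 1) = (m + 1).choose k := by
            rw [show m - k + 1 = m + 1 - k by omega]
            exact Nat.choose_symm (by omega)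
          have e3 : (-1 : ℚ) ^ k = - (-1) ^ (k - 1) := by
            obtain ⟨r, rfl⟩ : ∃ r, k = r + 1 := ⟨k - 1, by omega⟩
            rw [pow_succ, Nat.add_sub_cancel]
            ring
          rw [e1, e2, show k - 1 + 1 = k by omega, e3]
          ring
        rw [hsum]
        have hbe : be k m - be (m + 1 - k) m = (-1) ^ k * ((m + 1).choose k : ℚ) := by
          unfold be
          have e1 : (-1 : ℚ) ^ (m + 1 - k) = - (-1) ^ k := by
            have h5 : (-1 : ℚ) ^ (m + 1 - k) * (-1) ^ k = -1 := by
              rw [← pow_add, Nat.sub_add_cancel (by omega), pow_succ, hm.neg_one_pow]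
              ring
            have h6 : (-1 : ℚ) ^ k * (-1) ^ k = 1 := by
              rw [← mul_pow]; simp
            have h7 : (-1 : ℚ) ^ (m + 1 - k) * (-1) ^ k = (- (-1) ^ k) * (-1) ^ k := by
              rw [h5, neg_mul, h6]
            exact mul_right_cancel₀ (pow_ne_zero k (by norm_num)) h7
          have e2 : m.choose (m + 1 - k) = m.choose (k - 1) := by
            rw [← Nat.choose_symm (show k - 1 ≤ m by omega)]
            congr 1
            omega
          have e3 : ((m + 1).choose k : ℚ) = (m.choose (k - 1) : ℚ) + (m.choose k : ℚ) := by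
            obtain ⟨r, rfl⟩ : ∃ r, k = r + 1 := ⟨k - 1, by omega⟩
            rw [Nat.choose_succ_succ, Nat.add_sub_cancel]
            push_cast
            ring
          rw [e1, e2, e3]
          ring
        rw [hbe]
        ring
  · -- lower degrees
    have hk1 : k ≤ m := by omega
    have hk2 : k' ≤ m := by omega
    rw [h.aG k hk1, h.aG k' hk2, Finset.sum_eq_zero]
    · by_cases h3 : m ≤ k + k'
      · have h4 : k + k' = m := by omega
        rw [be_symm hm h4]
        simp
      · simp [h3]
    · intro j hj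
      rw [Finset.mem_range] at hj
      rw [h.aF (m - j) (by omega) k hk1, h.aF (j + 1) (by omega) k' hk2,
        h.aF (j + 1) (by omega) k hk1, h.aF (m - j) (by omega) k' hk2]
      have h5 : (if k = m - j then (1 : ℚ) else 0) * (if k' = j + 1 then 1 else 0) = 0 := by
        by_cases h3 : k = m - j
        · rw [if_neg (show ¬ k' = j + 1 by omega), mul_zero]
        · rw [if_neg h3, zero_mul]
      have h6 : (if k = j + 1 then (1 : ℚ) else 0) * (if k' = m - j then 1 else 0) = 0 := by
        by_cases h3 : k = j + 1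
        · rw [if_neg (show ¬ k' = m - j by omega), mul_zero]
        · rw [if_neg h3, zero_mul]
      rw [h5, h6, sub_zero, mul_zero]

theorem Gens.H_zero : co (θ (Hel m F G)) [0, m + 2] = co (θ G) [m + 2] := by
  have h2 := h.hm2
  rw [h.coH 0 (m + 2) (by omega), if_pos (by omega), if_pos (by omega), show 0 + (m + 2) - m = 2 by omega,
    h.aF 0 (by omega) 2 (by omega), if_neg (by omega), h.aF 1 (by omega) 2 (by omega), if_neg (by omega),
    h.aF 0 (by omega) 0 (by omega), if_pos rfl, h.aF 1 (by omega) 0 (by omega), if_neg (by omega),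
    h.aG 0 (by omega), Finset.sum_eq_zero]
  · ring
  · intro j hj
    rw [Finset.mem_range] at hj
    rw [h.aF (m - j) (by omega) 0 (by omega), if_neg (by omega), h.aF (j + 1) (by omega) 0 (by omega),
      if_neg (by omega)]
    ring

theorem Gens.H_one : co (θ (Hel m F G)) [1, m + 1] = - co (θ G) [m + 1] ^ 2 -
    ((m : ℚ) + 1) * co (θ G) [m + 1] * co (θ (F m)) [m + 1] := by
  have h2 := h.hm2
  have hm := h.hm
  have hsum : ∑ j ∈ Finset.range m, ((-1 : ℚ) ^ j * ((m + 1).choose (j + 1) : ℚ)) *
      (co (θ (F (m - j))) [1] * co (θ (F (j + 1))) [m + 1] -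
        co (θ (F (j + 1))) [1] * co (θ (F (m - j))) [m + 1]) =
      -2 * ((m : ℚ) + 1) * co (θ (F m)) [m + 1] := by
    have e : ∀ j ∈ Finset.range m, ((-1 : ℚ) ^ j * ((m + 1).choose (j + 1) : ℚ)) *
        (co (θ (F (m - j))) [1] * co (θ (F (j + 1))) [m + 1] -
          co (θ (F (j + 1))) [1] * co (θ (F (m - j))) [m + 1]) =
        (if j = m - 1 then (-1 : ℚ) ^ j * ((m + 1).choose (j + 1) : ℚ) * co (θ (F m)) [m + 1] else 0) -
        (if j = 0 then (-1 : ℚ) ^ j * ((m + 1).choose (j + 1) : ℚ) * co (θ (F m)) [m + 1] else 0) := by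
      intro j hj
      rw [Finset.mem_range] at hj
      rw [h.aF (m - j) (by omega) 1 (by omega), h.aF (j + 1) (by omega) 1 (by omega)]
      by_cases h3 : j = m - 1
      · rw [if_pos (show 1 = m - j by omega), if_neg (show ¬ 1 = j + 1 by omega), if_pos h3,
          if_neg (show ¬ j = 0 by omega), show j + 1 = m by omega]
        ring
      · rw [if_neg (show ¬ 1 = m - j by omega), if_neg h3]
        by_cases h4 : j = 0
        · rw [if_pos (show 1 = j + 1 by omega), if_pos h4, h4, Nat.sub_zero]
          ring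
        · rw [if_neg (show ¬ 1 = j + 1 by omega), if_neg h4]
          ring
    rw [Finset.sum_congr rfl e, Finset.sum_sub_distrib, Finset.sum_ite_eq', Finset.sum_ite_eq',
      if_pos (Finset.mem_range.mpr (by omega)), if_pos (Finset.mem_range.mpr (by omega))]
    have hodd : Odd (m - 1) := by
      obtain ⟨r, hr⟩ := hm
      exact ⟨r - 1, by omega⟩
    have e2 : (m + 1).choose (m - 1 + 1) = m + 1 := by
      rw [show m - 1 + 1 = m + 1 - 1 by omega, Nat.choose_symm (by omega), Nat.choose_one_right]
    rw [hodd.neg_one_pow, e2]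
    simp
    ring
  rw [h.coH 1 (m + 1) (by omega), hsum, if_pos (by omega), if_pos (by omega),
    show 1 + (m + 1) - m = 2 by omega,
    h.aF 0 (by omega) 2 (by omega), if_neg (by omega), h.aF 1 (by omega) 2 (by omega), if_neg (by omega),
    h.aF 0 (by omega) 1 (by omega), if_neg (by omega), h.aF 1 (by omega) 1 (by omega), if_pos rfl,
    h.aG 1 (by omega)]
  ring

end

end Pool.Agent.H492.DG
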