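import Pool.Agent.H492.DG.Core1

/-!
# The critical number of generators: independence of the normal words
-/

set_option autoImplicit false

namespace Pool.Agent.H492.DG

open Pool.Agent.H777R4.DM
open Pool.Agent.N568.DSF (Dp)
open Pool.Agent.H337R3.Lead1 (EE)
open Pool.Agent.H358R3.DM (SN SN_wd SN_lie)

attribute [local instance 100] LieRing.ofAssociativeRing

theorem Dp.hom_zero {f : A} (hf : Dp 1 f) : co (θ f) [] = 0 := by
  by_contra hne
  have := th_len hf _ hne
  simp at this

/-- the generators -/
noncomputable def gl (m : ℕ) (F : ℕ → A) (G H : A) (v : ℕ) : A :=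
  if v < m + 1 then F v else if v = m + 1 then G else H

section

variable {m n : ℕ} {d : Fin n → ℕ} {i0 : Fin n} {F : ℕ → A} {G : A} {cF : ℕ → Fin n → ℚ}
  {cG : Fin n → ℚ} (h : Gens m n d i0 F G cF cG)

include h

theorem core_normal (hFw : ∀ q, 3 ≤ q → ∀ l ≤ m, Cq q (m + 2 + q) (F l))
    (hGw : ∀ q, 3 ≤ q → Cq q (m + 2 + q) (G - adp m))
    (hg1 : co (θ G) [m + 1] ≠ 0) (k : ℕ) (hk : m + 2 ≤ k) (hk3 : k ≤ m + 3) (H : A)
    (hH : m + 2 < k → (∀ q, 3 ≤ q → Cq q (2 * m + 2 + 2 * q) H) ∧ Dp 2 H ∧
      (∀ a b, a + b ≤ m + 1 → co (θ H) [a, b] = 0) ∧
      (m : ℚ) * co (θ H) [0, m + 2] + co (θ H) [1, m + 1] ≠ 0) :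
    ∀ P : Al (Fin k), (∀ W, co P W ≠ 0 → nrm ⟨m + 1, by omega⟩ 1 W) →
      PhiN (fun i : Fin k => gl m F G H i.val) P = 0 → P = 0 := by
  have hm := h.hm
  have hm2 := h.hm2
  set g1 := co (θ G) [m + 1] with hg1d
  set q := m + 3 with hq
  set σH : AY := sel 2 (m + 2) (θ H) with hσH
  have hσHv : ∀ v, co σH v ≠ 0 → v.length = 2 ∧ v.sum = m + 2 := by
    intro v hv
    rw [hσH, co_sel] at hv
    split_ifs at hv with h1
    · exact h1
    · exact absurd rfl hv
  set z : Fin k := ⟨m + 1, by omega⟩ with hz
  refine lead2 (fun i : Fin k => gl m F G H i.val) (fun i => if i.val = m + 1 then adp m else 0)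
    (fun i => if i.val < m + 1 then wd [i.val] else if i.val = m + 1 then 0 else σH)
    (fun i => if i.val < m + 1 then wd [i.val] else if i.val = m + 1 then g1 • wd [m + 1] else σH)
    (fun i => if i.val < m + 1 then i.val + q else if i.val = m + 1 then m + q else m + 2 + 2 * q)
    (fun i => if i.val < m + 1 then i.val + q else if i.val = m + 1 then m + 1 + q else m + 2 + 2 * q)
    q (nrm z 1) ?_ ?_ ?_ ?_ ?_ ?_ ?_
  · -- the action parts
    intro i u hu
    have hi := i.isLt
    by_cases h1 : i.val < m + 1
    · simp only [gl, h1, if_true, if_neg (show ¬ i.val = m + 1 by omega), sub_zero] at hu ⊢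
      have := hFw q (by omega) i.val (by omega) u hu
      omega
    · by_cases h2 : i.val = m + 1
      · simp only [gl, h2, lt_irrefl, if_false, if_true] at hu ⊢
        have := hGw q (by omega) u hu
        omega
      · simp only [gl, h1, h2, if_false, sub_zero] at hu ⊢
        have := (hH (by omega)).1 q (by omega) u hu
        omega
  · intro i u hu
    by_cases h1 : i.val < m + 1
    · simp only [if_neg (show ¬ i.val = m + 1 by omega)] at hu
      exact absurd (co_zero u) hu
    · by_cases h2 : i.val = m + 1
      · simp only [h2, lt_irrefl, if_false, if_true] at hu ⊢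
        have h6 := adp_words m u hu
        have hcw := cw_eq q u
        rw [h6.1, h6.2] at hcw
        omega
      · simp only [h2, if_false] at hu
        exact absurd (co_zero u) hu
  · -- `θ`
    intro i v hv
    have hi := i.isLt
    by_cases h1 : i.val < m + 1
    · simp only [gl, h1, if_true] at hv ⊢
      rw [vw_eq]
      rcases v with _ | ⟨a, _ | ⟨b, v⟩⟩
      · exfalso
        apply hv
        rw [(h.datF i.val (by omega)).nil, co_wd, if_neg (by simp)]
      · simp only [List.length_singleton, List.sum_cons, List.sum_nil, Nat.add_zero, Nat.mul_one]
        by_contra hcon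
        apply hv
        rw [h.aF i.val (by omega) a (by omega), co_wd]
        by_cases h3 : a = i.val
        · rw [if_pos h3, if_pos (by rw [h3])]
        · rw [if_neg h3, if_neg (by simpa using Ne.symm h3)]
      · simp only [List.length_cons, List.sum_cons]
        have h6 : q * (v.length + 1 + 1) = q * v.length + q + q := by ring
        rw [h6]
        omega
    · by_cases h2 : i.val = m + 1
      · simp only [gl, h2, lt_irrefl, if_false, if_true, co_zero] at hv ⊢
        rw [vw_eq]
        rcases v with _ | ⟨a, _ | ⟨b, v⟩⟩
        · exact absurd h.datG.nil hv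
        · simp only [List.length_singleton, List.sum_cons, List.sum_nil, Nat.add_zero, Nat.mul_one]
          by_contra hcon
          exact hv (h.aG a (by omega))
        · simp only [List.length_cons, List.sum_cons]
          have h6 : q * (v.length + 1 + 1) = q * v.length + q + q := by ring
          rw [h6]
          omega
      · simp only [gl, h1, h2, if_false] at hv ⊢
        obtain ⟨_, hDp, hlow, _⟩ := hH (by omega)
        rw [vw_eq]
        rcases v with _ | ⟨a, _ | ⟨b, _ | ⟨c, v⟩⟩⟩
        · exfalso
          apply hv
          have h3 : co (θ H) [] = 0 := Dp.hom_zero (hDp.mono (by omega))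
          rw [h3, hσH, co_sel, if_neg (by simp)]
        · exfalso
          apply hv
          have h3 : co (θ H) [a] = 0 := by
            by_contra hne
            have := th_len hDp _ hne
            simp at this
          rw [h3, hσH, co_sel, if_neg (by simp)]
        · simp only [List.length_cons, List.length_nil, List.sum_cons, List.sum_nil]
          by_contra hcon
          apply hv
          rw [hσH, co_sel]
          by_cases h3 : a + b = m + 2
          · rw [if_pos ⟨rfl, by simpa using h3⟩]
          · rw [if_neg (fun h4 => h3 (by simpa using h4.2))]
            exact hlow a b (by omega)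
        · simp only [List.length_cons, List.sum_cons]
          have h6 : q * (v.length + 1 + 1 + 1) = q * v.length + q + q + q := by ring
          rw [h6]
          omega
  · intro i v hv
    by_cases h1 : i.val < m + 1
    · simp only [h1, if_true] at hv ⊢
      rw [co_wd] at hv
      split_ifs at hv with h4
      · rw [← h4, vw_eq]
        simp
      · exact absurd rfl hv
    · by_cases h2 : i.val = m + 1
      · simp only [h2, lt_irrefl, if_false, if_true] at hv
        exact absurd (co_zero v) hv
      · simp only [h1, h2, if_false] at hv ⊢
        have h3 := hσHv v hv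
        rw [vw_eq, h3.1, h3.2]
        ring
  · -- `θ` and the special symbols
    intro i v hv
    have hi := i.isLt
    by_cases h1 : i.val < m + 1
    · simp only [gl, h1, if_true] at hv ⊢
      rw [vw_eq]
      rcases v with _ | ⟨a, _ | ⟨b, v⟩⟩
      · exfalso
        apply hv
        rw [(h.datF i.val (by omega)).nil, co_wd, if_neg (by simp)]
      · simp only [List.length_singleton, List.sum_cons, List.sum_nil, Nat.add_zero, Nat.mul_one]
        by_contra hcon
        apply hv
        rw [h.aF i.val (by omega) a (by omega), co_wd]
        by_cases h3 : a = i.val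
        · rw [if_pos h3, if_pos (by rw [h3])]
        · rw [if_neg h3, if_neg (by simpa using Ne.symm h3)]
      · simp only [List.length_cons, List.sum_cons]
        have h6 : q * (v.length + 1 + 1) = q * v.length + q + q := by ring
        rw [h6]
        omega
    · by_cases h2 : i.val = m + 1
      · simp only [gl, h2, lt_irrefl, if_false, if_true] at hv ⊢
        rw [vw_eq]
        rcases v with _ | ⟨a, _ | ⟨b, v⟩⟩
        · exfalso
          apply hv
          rw [h.datG.nil, co_smul, co_wd, if_neg (by simp), mul_zero]
        · simp only [List.length_singleton, List.sum_cons, List.sum_nil, Nat.add_zero, Nat.mul_one]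
          by_contra hcon
          apply hv
          rw [co_smul, co_wd]
          by_cases h3 : a = m + 1
          · subst h3
            simp [hg1d]
          · rw [h.aG a (by omega), if_neg (by simpa using Ne.symm h3), mul_zero]
        · simp only [List.length_cons, List.sum_cons]
          have h6 : q * (v.length + 1 + 1) = q * v.length + q + q := by ring
          rw [h6]
          omega
      · simp only [gl, h1, h2, if_false] at hv ⊢
        obtain ⟨_, hDp, hlow, _⟩ := hH (by omega)
        rw [vw_eq]
        rcases v with _ | ⟨a, _ | ⟨b, _ | ⟨c, v⟩⟩⟩
        · exfalso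
          apply hv
          have h3 : co (θ H) [] = 0 := Dp.hom_zero (hDp.mono (by omega))
          rw [h3, hσH, co_sel, if_neg (by simp)]
        · exfalso
          apply hv
          have h3 : co (θ H) [a] = 0 := by
            by_contra hne
            have := th_len hDp _ hne
            simp at this
          rw [h3, hσH, co_sel, if_neg (by simp)]
        · simp only [List.length_cons, List.length_nil, List.sum_cons, List.sum_nil]
          by_contra hcon
          apply hv
          rw [hσH, co_sel]
          by_cases h3 : a + b = m + 2
          · rw [if_pos ⟨rfl, by simpa using h3⟩]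
          · rw [if_neg (fun h4 => h3 (by simpa using h4.2))]
            exact hlow a b (by omega)
        · simp only [List.length_cons, List.sum_cons]
          have h6 : q * (v.length + 1 + 1 + 1) = q * v.length + q + q + q := by ring
          rw [h6]
          omega
  · intro i v hv
    by_cases h1 : i.val < m + 1
    · simp only [h1, if_true] at hv ⊢
      rw [co_wd] at hv
      split_ifs at hv with h4
      · rw [← h4, vw_eq]
        simp
      · exact absurd rfl hv
    · by_cases h2 : i.val = m + 1
      · simp only [h2, lt_irrefl, if_false, if_true] at hv ⊢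
        rw [co_smul, co_wd] at hv
        split_ifs at hv with h4
        · rw [← h4, vw_eq]
          simp
        · rw [mul_zero] at hv
          exact absurd rfl hv
      · simp only [h1, h2, if_false] at hv ⊢
        have h3 := hσHv v hv
        rw [vw_eq, h3.1, h3.2]
        ring
  · -- the leading operators
    have hTY : ∀ (i : Fin k) (g : AY), i.val < m + 1 →
        opT (if i.val = m + 1 then adp m else 0)
          (if i.val < m + 1 then wd [i.val] else if i.val = m + 1 then 0 else σH) g = g * wd [i.val] := by
      intro i g hi
      rw [if_pos hi, if_neg (show ¬ i.val = m + 1 by omega), opT_apply, map_zero, LinearMap.zero_apply,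
        add_zero]
    have hTz : ∀ (i : Fin k) (g : AY), i.val = m + 1 →
        opT (if i.val = m + 1 then adp m else 0)
          (if i.val < m + 1 then wd [i.val] else if i.val = m + 1 then 0 else σH) g = EE (adp m) g := by
      intro i g hi
      rw [if_pos hi, if_neg (show ¬ i.val < m + 1 by omega), if_pos hi, opT_apply, mul_zero, zero_add]
    have hTH : ∀ (i : Fin k) (g : AY), m + 1 < i.val →
        opT (if i.val = m + 1 then adp m else 0)
          (if i.val < m + 1 then wd [i.val] else if i.val = m + 1 then 0 else σH) g = g * σH := by
      intro i g hi
      rw [if_neg (show ¬ i.val = m + 1 by omega), if_neg (show ¬ i.val < m + 1 by omega),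
        if_neg (show ¬ i.val = m + 1 by omega), opT_apply, map_zero, LinearMap.zero_apply, add_zero]
    intro P hP hP0
    refine normal_inj z 1 (m + 1) (by omega) rfl _ _ ?_ ?_ ?_ ?_ P hP hP0
    · intro i g hi
      exact hTY i g hi
    · intro i hi
      by_cases h1 : i.val < m + 1
      · rw [hTY i 1 h1, if_pos h1, one_mul]
      · have h2 : i.val ≠ m + 1 := fun h2 => hi (Fin.ext h2)
        rw [hTH i 1 (by omega), if_neg h1, if_neg h2, one_mul]
    · rw [hTz z 1 rfl, EE_one]
    · intro g l hgl
      -- the sum
      have hsum : ∀ c, m + 1 ≤ c → rq c (∑ i : Fin k, opT (if i.val = m + 1 then adp m else 0)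
          (if i.val < m + 1 then wd [i.val] else if i.val = m + 1 then 0 else σH) (g i)) =
          rq c (EE (adp m) (g z)) + rq c (∑ i : Fin k, if m + 1 < i.val then g i * σH else 0) := by
        intro c hc
        rw [map_sum, map_sum]
        have e : ∀ i : Fin k, rq c (opT (if i.val = m + 1 then adp m else 0)
            (if i.val < m + 1 then wd [i.val] else if i.val = m + 1 then 0 else σH) (g i)) =
            (if i = z then rq c (EE (adp m) (g z)) else 0) + rq c (if m + 1 < i.val then g i * σH else 0) := by
          intro i
          by_cases h1 : i.val < m + 1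
          · rw [hTY i _ h1, rq_mul_wd, if_neg (show ¬ i.val = c by omega),
              if_neg (fun h2 => by rw [h2] at h1; exact absurd h1 (lt_irrefl _)),
              if_neg (show ¬ m + 1 < i.val by omega), map_zero, add_zero]
          · by_cases h2 : i.val = m + 1
            · have h3 : i = z := Fin.ext h2
              rw [hTz i _ h2, if_pos h3, if_neg (show ¬ m + 1 < i.val by omega), map_zero, add_zero, h3]
            · rw [hTH i _ (by omega), if_neg (fun h3 => h2 (by rw [h3])),
                if_pos (show m + 1 < i.val by omega), zero_add]
        rw [Finset.sum_congr rfl (fun i _ => e i), Finset.sum_add_distrib, Finset.sum_ite_eq' ,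
          if_pos (Finset.mem_univ _)]
      have hτz : (if z.val < m + 1 then (wd [z.val] : AY) else if z.val = m + 1 then g1 • wd [m + 1] else σH) =
          g1 • wd [m + 1] := by
        rw [if_neg (show ¬ z.val < m + 1 from lt_irrefl _), if_pos rfl]
      have hgl' : ∀ c, m + 1 ≤ c → rq c (EE (adp m) (g z) +
          (∑ i : Fin k, if m + 1 < i.val then g i * σH else 0) + l • (g1 • wd [m + 1])) = 0 := by
        intro c hc
        have h1 := hgl c hc
        rw [hτz, map_add, hsum c hc] at h1
        rw [map_add, map_add]
        exact h1
      by_cases hk' : m + 2 < k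
      · -- with the letter `H`
        obtain ⟨_, _, _, hD⟩ := hH hk'
        set zH : Fin k := ⟨m + 2, by omega⟩ with hzH
        have hs : (∑ i : Fin k, if m + 1 < i.val then g i * σH else 0) = g zH * σH := by
          rw [Finset.sum_eq_single zH]
          · rw [if_pos (show m + 1 < m + 2 by omega)]
          · intro i _ hi
            rw [if_neg]
            intro h1
            apply hi
            apply Fin.ext
            have := i.isLt
            show i.val = m + 2
            omega
          · intro h1
            exact absurd (Finset.mem_univ _) h1
        have hD' : (m : ℚ) * co σH [0, m + 2] + co σH [1, m + 1] ≠ 0 := by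
          rw [hσH, co_sel, co_sel, if_pos ⟨rfl, by simp⟩, if_pos ⟨rfl, by simp; omega⟩]
          exact hD
        obtain ⟨h1, h2, h3⟩ := JI_one m hm hm2 σH hσHv hD' g1 hg1 (g z) (g zH) l (fun c hc => by
          have := hgl' c hc
          rw [hs] at this
          exact this)
        refine ⟨?_, h2, h3⟩
        intro i hi hiz
        have h4 : i.val ≠ m + 1 := fun h4 => hiz (Fin.ext h4)
        have h5 : i = zH := by
          apply Fin.ext
          have := i.isLt
          show i.val = m + 2
          omega
        rw [h5]
        exact h1
      · -- without
        have hs : (∑ i : Fin k, if m + 1 < i.val then g i * σH else 0) = 0 := by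
          refine Finset.sum_eq_zero fun i _ => ?_
          have := i.isLt
          rw [if_neg (by omega)]
        obtain ⟨_, h2, h3⟩ := JI_one m hm hm2 (wd [0, m + 2]) (by
            intro v hv
            rw [co_wd] at hv
            split_ifs at hv with h1
            · rw [← h1]
              simp
            · exact absurd rfl hv) (by
            rw [co_wd, co_wd, if_pos rfl, if_neg (by simp)]
            have : (m : ℚ) ≠ 0 := by positivity
            simpa using this) g1 hg1 (g z) 0 l (fun c hc => by
            have := hgl' c hc
            rw [hs, add_zero] at this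
            rw [zero_mul, add_zero]
            exact this)
        refine ⟨?_, h2, h3⟩
        intro i hi hiz
        exfalso
        have h4 : i.val ≠ m + 1 := fun h4 => hiz (Fin.ext h4)
        have := i.isLt
        omega

end

end Pool.Agent.H492.DG
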