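import Pool.Agent.H492.DG.Core2

/-!
# The critical number of generators: the kernel
-/

set_option autoImplicit false

namespace Pool.Agent.H492.DG

open Pool.Agent.H777R4.DM
open Pool.Agent.N568.DSF (Dp)
open Pool.Agent.H337R3.Lead1 (EE)
open Pool.Agent.H358R3.DM (SN SN_wd SN_lie)
open H851R3.DSH (wd_append)

attribute [local instance 100] LieRing.ofAssociativeRing

/-- the letter `v` -/
def ix (m v : ℕ) : Fin (m + 2) := ⟨min v (m + 1), by omega⟩

theorem ix_val (m v : ℕ) (h : v ≤ m + 1) : (ix m v).val = v := by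
  unfold ix
  simp
  omega

/-- the quadratic element -/
noncomputable def rhoH (m : ℕ) (g1 : ℚ) : Al (Fin (m + 2)) :=
  brk (ix m (m + 1)) (ix m 0) - g1 • brk (ix m (m + 1)) (ix m 1) +
    (g1 / 2) • ∑ j ∈ Finset.range m, ((-1 : ℚ) ^ j * ((m + 1).choose (j + 1) : ℚ)) •
      brk (ix m (j + 1)) (ix m (m - j))

theorem rhoH_mem (m : ℕ) (g1 : ℚ) : rhoH m g1 ∈ LieN (m + 2) := by
  unfold rhoH
  refine (LieN (m + 2)).add_mem ((LieN (m + 2)).sub_mem (brk_mem _ _)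
    ((LieN (m + 2)).smul_mem _ (brk_mem _ _))) ((LieN (m + 2)).smul_mem _ ?_)
  exact (LieN (m + 2)).toSubmodule.sum_mem fun j _ => (LieN (m + 2)).smul_mem _ (brk_mem _ _)

/-- the generators as a family -/
noncomputable def Fg (m : ℕ) (F : ℕ → A) (G : A) : Fin (m + 2) → A := fun i => gl m F G 0 i.val

theorem Fg_lt (m : ℕ) (F : ℕ → A) (G : A) (v : ℕ) (h : v ≤ m) : Fg m F G (ix m v) = F v := by
  unfold Fg gl
  rw [ix_val m v (by omega), if_pos (by omega)]

theorem Fg_z (m : ℕ) (F : ℕ → A) (G : A) : Fg m F G (ix m (m + 1)) = G := by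
  unfold Fg gl
  rw [ix_val m (m + 1) le_rfl, if_neg (by omega), if_pos rfl]

theorem PhiN_rhoH (m : ℕ) (hm : 1 ≤ m) (F : ℕ → A) (G : A) :
    PhiN (Fg m F G) (rhoH m (co (θ G) [m + 1])) = Hel m F G := by
  unfold rhoH Hel
  rw [map_add, map_sub, map_smul, map_smul, map_sum, PhiN_brk, PhiN_brk, Fg_z, Fg_lt m F G 0 (by omega),
    Fg_lt m F G 1 hm]
  congr 2
  refine Finset.sum_congr rfl fun j hj => ?_
  rw [Finset.mem_range] at hj
  rw [map_smul, PhiN_brk, Fg_lt m F G (j + 1) (by omega), Fg_lt m F G (m - j) (by omega)]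

/-- the substitution for the normal words with the letter `H` -/
noncomputable def rhoF (m k : ℕ) (g1 : ℚ) : Fin k → Al (Fin (m + 2)) := fun i =>
  if h : i.val < m + 2 then wd [⟨i.val, h⟩] else rhoH m g1

theorem ix_ne (m v : ℕ) (h : v ≤ m) : ix m v ≠ (⟨m + 1, by omega⟩ : Fin (m + 2)) := by
  intro h1
  have h2 := congrArg Fin.val h1
  rw [ix_val m v (by omega)] at h2
  simp only at h2
  omega

theorem ix_z (m : ℕ) : ix m (m + 1) = (⟨m + 1, by omega⟩ : Fin (m + 2)) := by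
  apply Fin.ext
  rw [ix_val m (m + 1) le_rfl]

theorem brk_eq {n : ℕ} (a b : Fin n) : brk a b = wd [a, b] - wd [b, a] := by
  unfold brk
  rw [← wd_append, ← wd_append]
  rfl

/-- the rewriting rule -/
theorem rule (m k : ℕ) (hm : 2 ≤ m) (g1 : ℚ) (I : Submodule ℚ (Al (Fin (m + 2))))
    (hH : rhoH m g1 ∈ Submodule.span ℚ (Rset (rhoF m k g1) (⟨m + 1, by omega⟩ : Fin (m + 2)) 1 I))
    (i : Fin (m + 2)) (hi : i.val < 1) :
    wd [(⟨m + 1, by omega⟩ : Fin (m + 2)), i] ∈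
      Submodule.span ℚ (Rset (rhoF m k g1) (⟨m + 1, by omega⟩ : Fin (m + 2)) 1 I) := by
  set z : Fin (m + 2) := ⟨m + 1, by omega⟩ with hz
  set S := Submodule.span ℚ (Rset (rhoF m k g1) z 1 I) with hS
  have h1 : ∀ a b : Fin (m + 2), a ≠ z → wd [a, b] ∈ S := fun a b hab =>
    Submodule.subset_span (Or.inr (Or.inl ⟨a, b, hab, rfl⟩))
  have h2 : ∀ b : Fin (m + 2), b ≠ z → 1 ≤ b.val → wd [z, b] ∈ S := fun b hb hb1 =>
    Submodule.subset_span (Or.inr (Or.inr (Or.inl ⟨b, hb, hb1, rfl⟩)))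
  have h0 : i = ix m 0 := by
    apply Fin.ext
    rw [ix_val m 0 (by omega)]
    omega
  have e : wd [z, i] = rhoH m g1 + wd [ix m 0, z] + g1 • (wd [z, ix m 1] - wd [ix m 1, z]) -
      (g1 / 2) • ∑ j ∈ Finset.range m, ((-1 : ℚ) ^ j * ((m + 1).choose (j + 1) : ℚ)) •
        (wd [ix m (j + 1), ix m (m - j)] - wd [ix m (m - j), ix m (j + 1)]) := by
    unfold rhoH
    simp only [brk_eq]
    rw [h0, ix_z m]
    abel
  rw [e]
  refine S.sub_mem (S.add_mem (S.add_mem hH (h1 _ _ (ix_ne m 0 (by omega)))) (S.smul_mem _ (S.sub_mem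
    (h2 _ (ix_ne m 1 (by omega)) (by rw [ix_val m 1 (by omega)])) (h1 _ _ (ix_ne m 1 (by omega))))))
    (S.smul_mem _ (S.sum_mem fun j hj => S.smul_mem _ ?_))
  rw [Finset.mem_range] at hj
  exact S.sub_mem (h1 _ _ (ix_ne m (j + 1) (by omega))) (h1 _ _ (ix_ne m (m - j) (by omega)))

theorem ihara_Dp {f g : A} (hf : Dp 1 f) (hg : Dp 1 g) : Dp 2 (ihara f g) := by
  rw [ihara_eq]
  exact (Pool.Agent.N568.DSF.s_count hf hg).sub (Pool.Agent.N568.DSF.s_count hg hf)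

section

variable {m n : ℕ} {d : Fin n → ℕ} {i0 : Fin n} {F : ℕ → A} {G : A} {cF : ℕ → Fin n → ℚ}
  {cG : Fin n → ℚ} (h : Gens m n d i0 F G cF cG)

include h

theorem Gens.Hw (hFw : ∀ q, 3 ≤ q → ∀ l ≤ m, Cq q (m + 2 + q) (F l))
    (hGw : ∀ q, 3 ≤ q → Cq q (m + 2 + q) (G - adp m)) (q : ℕ) (hq : 3 ≤ q) :
    Cq q (2 * m + 2 + 2 * q) (Hel m F G) := by
  have hm2 := h.hm2
  have hadp : Cq q (m + q) (adp m) := by
    intro u hu
    have h6 := adp_words m u hu
    have hcw := cw_eq q u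
    rw [h6.1, h6.2] at hcw
    omega
  have hG : Cq q (m + q) G := by
    have e : G = (G - adp m) + adp m := by abel
    rw [e]
    exact ((hGw q hq).mono (by omega)).add hadp
  unfold Hel
  refine Cq.add (Cq.sub ?_ (Cq.smul _ ?_)) (Cq.smul _ (Cq.sum _ _ fun j hj => Cq.smul _ ?_))
  · exact (ihara_cw hG (hFw q hq 0 (by omega))).mono (by omega)
  · exact (ihara_cw hG (hFw q hq 1 (by omega))).mono (by omega)
  · rw [Finset.mem_range] at hj
    exact (ihara_cw (hFw q hq (j + 1) (by omega)) (hFw q hq (m - j) (by omega))).mono (by omega)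

theorem Gens.HDp : Dp 2 (Hel m F G) := by
  have hm2 := h.hm2
  unfold Hel
  refine Dp.add (Dp.sub ?_ (Dp_smul _ ?_)) (Dp_smul _ (Dp_sum _ _ fun j hj => Dp_smul _ ?_))
  · exact ihara_Dp h.datG.dp (h.datF 0 (by omega)).dp
  · exact ihara_Dp h.datG.dp (h.datF 1 (by omega)).dp
  · rw [Finset.mem_range] at hj
    exact ihara_Dp (h.datF (j + 1) (by omega)).dp (h.datF (m - j) (by omega)).dp

theorem SN_rhoF (k : ℕ) (i : Fin k) :
    SN (Fg m F G) (rhoF m k (co (θ G) [m + 1]) i) = s (gl m F G (Hel m F G) i.val) := by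
  have hm2 := h.hm2
  unfold rhoF
  by_cases hi : i.val < m + 2
  · rw [dif_pos hi, SN_wd]
    congr 1
    unfold Fg gl
    simp only
    by_cases h1 : i.val < m + 1
    · rw [if_pos h1, if_pos h1]
    · rw [if_neg h1, if_neg h1, if_pos (by omega), if_pos (by omega)]
  · rw [dif_neg hi, SN_lie _ _ (rhoH_mem m _), ← Pool.Agent.H358R3.DM.PhiN_eq, PhiN_rhoH m (by omega)]
    congr 1
    unfold gl
    rw [if_neg (by omega), if_neg (by omega)]

/-- **free case** -/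
theorem core_free (hFw : ∀ q, 3 ≤ q → ∀ l ≤ m, Cq q (m + 2 + q) (F l))
    (hGw : ∀ q, 3 ≤ q → Cq q (m + 2 + q) (G - adp m))
    (hg1 : co (θ G) [m + 1] ≠ 0)
    (hD : (m : ℚ) * co (θ G) [m + 2] - co (θ G) [m + 1] ^ 2 -
      ((m : ℚ) + 1) * co (θ G) [m + 1] * co (θ (F m)) [m + 1] ≠ 0) :
    Function.Injective (PhiN (Fg m F G)) := by
  have hm2 := h.hm2
  rw [injective_iff_map_eq_zero]
  intro P hP
  have hk := kernel (rhoF m (m + 3) (co (θ G) [m + 1])) (⟨m + 1, by omega⟩ : Fin (m + 2))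
    (⟨m + 1, by omega⟩ : Fin (m + 3)) 1 ⊥ (by omega) (by
      intro i
      unfold rhoF
      rw [dif_pos (show (Fin.castLE (by omega : m + 2 ≤ m + 3) i).val < m + 2 from i.isLt)]
      rfl) rfl (show 1 ≤ m + 1 by omega) (by
      intro a x hx
      rw [Submodule.mem_bot] at hx
      rw [hx, mul_zero]
      exact Submodule.zero_mem _) (by
      intro x hx y
      rw [Submodule.mem_bot] at hx
      rw [hx, zero_mul]
      exact Submodule.zero_mem _) (by
      intro i hi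
      refine rule m (m + 3) hm2 _ ⊥ (Submodule.subset_span (Or.inl ⟨⟨m + 2, by omega⟩, le_rfl, ?_⟩)) i hi
      unfold rhoF
      rw [dif_neg (show ¬ m + 2 < m + 2 from lt_irrefl _)])
    (Fg m F G) (fun i : Fin (m + 3) => gl m F G (Hel m F G) i.val) (SN_rhoF h (m + 3)) (by
      intro x hx
      rw [Submodule.mem_bot] at hx
      rw [hx, map_zero]) (core_normal h hFw hGw hg1 (m + 3) (by omega) le_rfl (Hel m F G) (fun _ =>
        ⟨h.Hw hFw hGw, h.HDp, h.H_low, by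
          rw [h.H_zero, h.H_one]
          intro h1
          apply hD
          linarith⟩)) P hP
  exact (Submodule.mem_bot ℚ).mp hk

/-- **one relation** -/
theorem core_ker (hFw : ∀ q, 3 ≤ q → ∀ l ≤ m, Cq q (m + 2 + q) (F l))
    (hGw : ∀ q, 3 ≤ q → Cq q (m + 2 + q) (G - adp m))
    (hg1 : co (θ G) [m + 1] ≠ 0) (I : Submodule ℚ (Al (Fin (m + 2))))
    (hl : ∀ (a : Fin (m + 2)), ∀ x ∈ I, wd [a] * x ∈ I) (hr : ∀ x ∈ I, ∀ y, x * y ∈ I)
    (hI : ∀ x ∈ I, PhiN (Fg m F G) x = 0) (c : ℚ)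
    (hρ : rhoH m (co (θ G) [m + 1]) - c • brk (ix m (m + 1)) (ix m 2) ∈ I) :
    ∀ P, PhiN (Fg m F G) P = 0 → P ∈ I := by
  have hm2 := h.hm2
  intro P hP
  have hS : rhoH m (co (θ G) [m + 1]) ∈ Submodule.span ℚ (Rset (rhoF m (m + 2) (co (θ G) [m + 1]))
      (⟨m + 1, by omega⟩ : Fin (m + 2)) 1 I) := by
    set S := Submodule.span ℚ (Rset (rhoF m (m + 2) (co (θ G) [m + 1]))
      (⟨m + 1, by omega⟩ : Fin (m + 2)) 1 I)
    have e : rhoH m (co (θ G) [m + 1]) = (rhoH m (co (θ G) [m + 1]) -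
        c • brk (ix m (m + 1)) (ix m 2)) + c • (wd [ix m (m + 1), ix m 2] - wd [ix m 2, ix m (m + 1)]) := by
      rw [brk_eq]
      abel
    rw [e, ix_z m]
    rw [ix_z m] at hρ
    refine S.add_mem (Submodule.subset_span (Or.inr (Or.inr (Or.inr hρ)))) (S.smul_mem _ (S.sub_mem
      (Submodule.subset_span (Or.inr (Or.inr (Or.inl ⟨ix m 2, ix_ne m 2 (by omega), ?_, rfl⟩))))
      (Submodule.subset_span (Or.inr (Or.inl ⟨ix m 2, _, ix_ne m 2 (by omega), rfl⟩)))))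
    rw [ix_val m 2 (by omega)]
    omega
  refine kernel (rhoF m (m + 2) (co (θ G) [m + 1])) (⟨m + 1, by omega⟩ : Fin (m + 2))
    (⟨m + 1, by omega⟩ : Fin (m + 2)) 1 I le_rfl (by
      intro i
      unfold rhoF
      rw [dif_pos (show (Fin.castLE (le_refl (m + 2)) i).val < m + 2 from i.isLt)]
      rfl) rfl (show 1 ≤ m + 1 by omega) hl hr (by
      intro i hi
      exact rule m (m + 2) hm2 _ I hS i hi)
    (Fg m F G) (fun i : Fin (m + 2) => gl m F G (Hel m F G) i.val) (SN_rhoF h (m + 2)) hI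
    (core_normal h hFw hGw hg1 (m + 2) le_rfl (by omega) (Hel m F G) (fun h1 => absurd h1 (lt_irrefl _))) P hP

end

end Pool.Agent.H492.DG
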