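import Pool.Agent.H492.DG.Dat

/-!
# The two top coefficients of the Newton expansion, and an inequality
-/

set_option autoImplicit false

namespace Pool.Agent.H492.DG

open Finset

theorem newton2 (a : ℕ → ℚ) : ∀ k : ℕ, ∃ b : ℕ → ℚ, b (k + 1) = ((k + 1).factorial : ℚ) ∧
    b k = (k.factorial : ℚ) * ((k : ℚ) * (k + 1) / 2 - ∑ j ∈ range (k + 1), a j) ∧
    (∀ l, k + 1 < l → b l = 0) ∧
    ∀ x : ℕ, ∏ j ∈ range (k + 1), ((x : ℚ) - a j) = ∑ l ∈ range (k + 2), b l * (x.choose l : ℚ)
  | 0 => by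
      refine ⟨fun l => if l = 0 then - a 0 else if l = 1 then 1 else 0, by simp, by simp, ?_, ?_⟩
      · intro l hl
        simp only
        rw [if_neg (by omega), if_neg (by omega)]
      · intro x
        rw [prod_range_one, sum_range_succ, sum_range_one]
        simp
        ring
  | k + 1 => by
      obtain ⟨b, hb1, hb0, hb2, hb3⟩ := newton2 a k
      refine ⟨fun l => (l : ℚ) * (if l = 0 then 0 else b (l - 1)) + ((l : ℚ) - a (k + 1)) * b l, ?_, ?_, ?_, ?_⟩
      · simp only [Nat.succ_ne_zero, if_false, Nat.add_sub_cancel]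
        rw [hb2 (k + 1 + 1) (by omega), hb1, Nat.factorial_succ (k + 1)]
        push_cast
        ring
      · simp only [Nat.succ_ne_zero, if_false, Nat.add_sub_cancel]
        rw [hb1, hb0, Nat.factorial_succ, sum_range_succ _ (k + 1)]
        push_cast
        ring
      · intro l hl
        have h1 : l ≠ 0 := by omega
        simp only [h1, if_false]
        rw [hb2 l (by omega), hb2 (l - 1) (by omega)]
        ring
      · intro x
        rw [prod_range_succ, hb3 x, sum_mul]
        have h1 : ∀ l ∈ range (k + 2), b l * (x.choose l : ℚ) * ((x : ℚ) - a (k + 1)) =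
            ((l + 1 : ℕ) : ℚ) * b l * (x.choose (l + 1) : ℚ) +
              ((l : ℚ) - a (k + 1)) * b l * (x.choose l : ℚ) := by
          intro l _
          have h2 := Nat.choose_succ_right_eq x l
          have h3 : ((x.choose (l + 1) : ℚ)) * ((l : ℚ) + 1) = (x.choose l : ℚ) * ((x : ℚ) - l) := by
            by_cases h : l ≤ x
            · have : ((x - l : ℕ) : ℚ) = (x : ℚ) - l := by rw [Nat.cast_sub h]
              rw [← this]
              exact_mod_cast h2
            · rw [Nat.choose_eq_zero_of_lt (by omega), Nat.choose_eq_zero_of_lt (by omega)]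
              simp
          push_cast
          linear_combination (-b l) * h3
        rw [sum_congr rfl h1, sum_add_distrib]
        have h2 : ∑ l ∈ range (k + 1 + 2), ((l : ℚ) * (if l = 0 then 0 else b (l - 1)) +
            ((l : ℚ) - a (k + 1)) * b l) * (x.choose l : ℚ) =
            ∑ l ∈ range (k + 1 + 2), (l : ℚ) * (if l = 0 then 0 else b (l - 1)) * (x.choose l : ℚ) +
            ∑ l ∈ range (k + 1 + 2), ((l : ℚ) - a (k + 1)) * b l * (x.choose l : ℚ) := by
          rw [← sum_add_distrib]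
          exact sum_congr rfl fun l _ => by ring
        rw [h2, sum_range_succ' _ (k + 2)]
        congr 1
        · simp
        · rw [sum_range_succ _ (k + 2), hb2 (k + 2) (by omega)]
          simp

/-- `1 + ∑ x ≤ ∏ (1 + x)` -/
theorem one_add_sum_le {ι : Type} (s : Finset ι) (x : ι → ℚ) (hx : ∀ i ∈ s, 0 ≤ x i) :
    1 + ∑ i ∈ s, x i ≤ ∏ i ∈ s, (1 + x i) := by
  classical
  induction s using Finset.induction_on with
  | empty => simp
  | insert a s ha ih =>
    rw [sum_insert ha, prod_insert ha]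
    have h1 := ih (fun i hi => hx i (mem_insert_of_mem hi))
    have h2 := hx a (mem_insert_self a s)
    have h3 : 0 ≤ ∑ i ∈ s, x i := sum_nonneg fun i hi => hx i (mem_insert_of_mem hi)
    nlinarith

theorem pow_bound : ∀ m : ℕ, 2 ≤ m → 3 * m + 2 ≤ 2 ^ (m + 1) ∧ (m ≠ 2 → 3 * m + 2 < 2 ^ (m + 1))
  | 0, h => absurd h (by omega)
  | 1, h => absurd h (by omega)
  | 2, _ => by norm_num
  | m + 3, _ => by
      have h := (pow_bound (m + 2) (by omega)).1
      have h2 : 2 ^ (m + 3 + 1) = 2 * 2 ^ (m + 2 + 1) := by ring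
      constructor
      · omega
      · intro _
        omega

/-- the inequality -/
theorem ineq (m : ℕ) (hm2 : 2 ≤ m) (d' : Fin (m + 1) → ℕ)
    (hgap : ∀ i, m + 2 * (i.val + 1) ≤ d' i) (g1 : ℚ)
    (hg1 : ((m + 1).factorial : ℚ) * g1 = ∏ i, ((d' i : ℚ) - m)) :
    (2 * ∑ i, (d' i : ℚ) - (m : ℚ) ^ 2 < ((m : ℚ) + 2) * g1) ∨
      (m = 2 ∧ ∀ i, d' i = m + 2 * (i.val + 1)) := by
  set x : Fin (m + 1) → ℚ := fun i => ((d' i : ℚ) - m) / (2 * ((i.val : ℚ) + 1)) - 1 with hx
  have hpos : ∀ i : Fin (m + 1), (0 : ℚ) < 2 * ((i.val : ℚ) + 1) := fun i => by positivity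
  have hx0 : ∀ i, 0 ≤ x i := by
    intro i
    have h1 : ((m : ℚ) + 2 * ((i.val : ℚ) + 1)) ≤ d' i := by exact_mod_cast hgap i
    have h2 : 1 ≤ ((d' i : ℚ) - m) / (2 * ((i.val : ℚ) + 1)) := by
      rw [le_div_iff₀ (hpos i)]
      linarith
    simp only [hx]
    linarith
  have hdx : ∀ i, (d' i : ℚ) - m = 2 * ((i.val : ℚ) + 1) * (1 + x i) := by
    intro i
    have := (hpos i).ne'
    simp only [hx]
    field_simp
    ring
  set X := ∑ i, x i with hX
  have hX0 : 0 ≤ X := sum_nonneg fun i _ => hx0 i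
  have hfac : ∏ i : Fin (m + 1), (2 * ((i.val : ℚ) + 1)) = 2 ^ (m + 1) * ((m + 1).factorial : ℚ) := by
    rw [prod_mul_distrib, prod_const, card_univ, Fintype.card_fin]
    congr 1
    rw [← Finset.prod_range (fun j => (j : ℚ) + 1), ← Finset.prod_range_add_one_eq_factorial]
    push_cast
    rfl
  have hg : g1 = 2 ^ (m + 1) * ∏ i, (1 + x i) := by
    have h1 : ((m + 1).factorial : ℚ) ≠ 0 := by positivity
    apply mul_left_cancel₀ h1
    rw [hg1, prod_congr rfl (fun i _ => hdx i), prod_mul_distrib, hfac]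
    ring
  have hge : 2 ^ (m + 1) * (1 + X) ≤ g1 := by
    rw [hg]
    exact mul_le_mul_of_nonneg_left (one_add_sum_le univ x fun i _ => hx0 i) (by positivity)
  have hsum : 2 * ∑ i, (d' i : ℚ) - (m : ℚ) ^ 2 ≤
      ((m : ℚ) + 2) * (3 * m + 2) + 4 * ((m : ℚ) + 1) * X := by
    have h1 : ∑ i, (d' i : ℚ) = ∑ i : Fin (m + 1), ((m : ℚ) + 2 * ((i.val : ℚ) + 1)) +
        ∑ i : Fin (m + 1), 2 * ((i.val : ℚ) + 1) * x i := by
      rw [← sum_add_distrib]
      refine sum_congr rfl fun i _ => ?_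
      have := hdx i
      linarith
    have h2 : ∑ i : Fin (m + 1), ((m : ℚ) + 2 * ((i.val : ℚ) + 1)) = 2 * ((m : ℚ) + 1) ^ 2 := by
      have h3 : ∑ i : Fin (m + 1), (i.val : ℚ) = (m : ℚ) * (m + 1) / 2 := by
        rw [← Finset.sum_range (fun j => (j : ℚ))]
        have := Finset.sum_range_id_mul_two (m + 1)
        have h4 : (∑ j ∈ range (m + 1), (j : ℚ)) * 2 = ((m : ℚ) + 1) * m := by
          have h5 : (((∑ j ∈ range (m + 1), j) * 2 : ℕ) : ℚ) = (((m + 1) * (m + 1 - 1) : ℕ) : ℚ) := by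
            rw [this]
          rw [Nat.add_sub_cancel] at h5
          push_cast at h5
          exact h5
        linarith
      rw [sum_add_distrib, sum_const, card_univ, Fintype.card_fin, ← mul_sum, sum_add_distrib, h3, sum_const,
        card_univ, Fintype.card_fin]
      ring
    have h3 : ∑ i : Fin (m + 1), 2 * ((i.val : ℚ) + 1) * x i ≤ 2 * ((m : ℚ) + 1) * X := by
      rw [hX, mul_sum]
      refine sum_le_sum fun i _ => mul_le_mul_of_nonneg_right ?_ (hx0 i)
      have h4 : (i.val : ℚ) ≤ m := by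
        have := i.isLt
        exact_mod_cast (by omega : i.val ≤ m)
      linarith
    rw [h1, h2]
    nlinarith
  have hp := pow_bound m hm2
  have hp1 : (3 * (m : ℚ) + 2) ≤ 2 ^ (m + 1) := by exact_mod_cast hp.1
  have hm' : (2 : ℚ) ≤ m := by exact_mod_cast hm2
  have h8 : (8 : ℚ) ≤ 2 ^ (m + 1) := by linarith
  by_cases hXz : X = 0
  · by_cases hm3 : m = 2
    · right
      refine ⟨hm3, fun i => ?_⟩
      have h1 : x i = 0 := by
        have := (sum_eq_zero_iff_of_nonneg (fun i _ => hx0 i)).mp hXz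
        exact this i (mem_univ i)
      have h2 := hdx i
      rw [h1, add_zero, mul_one] at h2
      have h3 : (d' i : ℚ) = ((m + 2 * (i.val + 1) : ℕ) : ℚ) := by
        push_cast
        linarith
      exact_mod_cast h3
    · left
      have hp2 : (3 * (m : ℚ) + 2) < 2 ^ (m + 1) := by exact_mod_cast hp.2 hm3
      rw [hXz] at hge hsum
      nlinarith
  · left
    have hXp : 0 < X := lt_of_le_of_ne hX0 (Ne.symm hXz)
    have h9 : ((m : ℚ) + 2) * (2 ^ (m + 1) * (1 + X)) ≤ ((m : ℚ) + 2) * g1 :=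
      mul_le_mul_of_nonneg_left hge (by positivity)
    have h10 : ((m : ℚ) + 2) * (3 * m + 2) ≤ ((m : ℚ) + 2) * 2 ^ (m + 1) :=
      mul_le_mul_of_nonneg_left hp1 (by positivity)
    have h11 : 4 * ((m : ℚ) + 1) * X < ((m : ℚ) + 2) * 2 ^ (m + 1) * X := by
      apply mul_lt_mul_of_pos_right _ hXp
      nlinarith
    nlinarith

end Pool.Agent.H492.DG
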