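import Pool.Agent.H492.DG.Base
import Pool.Graph.R_pool_sql_team_seeded_63374d34.N568.BK.DS2

/-!
# The relation `{f₁, f₄} = 3 {f₂, f₃}` for `f_b = (ad x₀)^(2b) x₁`
-/

set_option autoImplicit false

namespace Pool.Agent.H492.DG

open Pool.Agent.H777R4.DM
open Pool.Agent.N568.DSF (Dp Fm co_Fm Fm_count lie_split lie_one lie_zero step_s AR_congr AR_smul)
open Pool.Agent.N568.BK (AR)
open H851R3.DSH (der_mul der_x0 der_x1 der_one wd_append s_one s_comm s_apply s_add s_smul)

attribute [local instance 100] LieRing.ofAssociativeRing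

theorem adp_eq_Fm (m : ℕ) : adp m = Fm m := by
  rw [adp_sum]
  rfl

theorem der_lie {f g : A} (hf : f ∈ LieX) (hg : g ∈ LieX) : der f g ∈ LieX := by
  unfold LieX at hg
  induction hg using LieSubalgebra.lieSpan_induction with
  | mem y hy =>
    rcases hy with rfl | rfl
    · rw [der_x0]
      exact LieX.zero_mem
    · rw [der_x1, ← LieRing.of_associative_ring_bracket]
      exact LieX.lie_mem (x_mem 1) hf
  | zero =>
    rw [map_zero]
    exact LieX.zero_mem
  | add y z hy hz ihy ihz =>
    rw [map_add]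
    exact LieX.add_mem ihy ihz
  | smul c y hy ihy =>
    rw [map_smul]
    exact LieX.smul_mem c ihy
  | lie y z hy hz ihy ihz =>
    have h : der f ⁅y, z⁆ = ⁅der f y, z⁆ + ⁅y, der f z⁆ := by
      rw [LieRing.of_associative_ring_bracket, LieRing.of_associative_ring_bracket,
        LieRing.of_associative_ring_bracket, map_sub, der_mul, der_mul]
      abel
    rw [h]
    exact LieX.add_mem (LieX.lie_mem ihy hz) (LieX.lie_mem hy ihz)

theorem ihara_mem {f g : A} (hf : f ∈ LieX) (hg : g ∈ LieX) : ihara f g ∈ LieX := by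
  unfold ihara
  have h : f * g - g * f = ⁅f, g⁆ := (LieRing.of_associative_ring_bracket f g).symm
  rw [h]
  exact LieX.sub_mem (LieX.add_mem (LieX.lie_mem hf hg) (der_lie hf hg)) (der_lie hg hf)

theorem ihara_eq (f g : A) : ihara f g = s f g - s g f := by
  unfold ihara
  rw [s_apply, s_apply]
  abel

/-- a Lie element is determined by its words ending with `x₁` -/
theorem lie_ext {Z : A} (hZ : Z ∈ LieX) (h0 : co Z [0] = 0) (h : ∀ e, co Z (wordX e) = 0) : Z = 0 := by
  have hr : ∀ k, run k Z = 0 := by
    intro k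
    induction k with
    | zero =>
      apply al_ext
      intro v
      rw [co_run, co_zero]
      simpa using h v
    | succ k ih =>
      have h1 := R0.taskR0 Z hZ h0 k
      rw [ih, map_zero, neg_zero] at h1
      have h2 : ((k : ℚ) + 1) ≠ 0 := by positivity
      exact (smul_eq_zero.mp h1).resolve_left h2
  apply al_ext
  intro u
  rw [co_zero, ← wordX_strip u, ← co_run, hr, co_zero]

theorem co_adp_wordX (m : ℕ) (e : List ℕ) : co (adp m) (wordX e) = if e = [m] then 1 else 0 := by
  rcases e with _ | ⟨a, _ | ⟨b, e⟩⟩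
  · rw [if_neg (by simp)]
    by_contra h
    have := (adp_words m _ h).1
    simp [wordX] at this
  · have h := co_Fm m a 0
    rw [← adp_eq_Fm] at h
    simp only [List.replicate_zero, List.append_nil, Nat.add_zero, pow_zero, Nat.choose_zero_right,
      Nat.cast_one, mul_one] at h
    rw [h]
    simp
  · rw [if_neg (by simp)]
    by_contra h
    have := (adp_words m _ h).2
    rw [wordX_count] at this
    simp at this

theorem AR_zero (b : ℕ) (e : List ℕ) : AR b (fun _ => (0 : ℚ)) e = 0 := by
  have h := AR_smul b 0 e (fun _ => 0)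
  simpa using h

/-- the coefficients of `s_{f_b} f_a` -/
theorem co_ss (a b : ℕ) (e : List ℕ) : co (s (adp (2 * b)) (adp (2 * a))) (wordX e) =
    if e.length = 2 then AR b (fun e' => if e' = [2 * a] then (1 : ℚ) else 0) e else 0 := by
  rcases eq_or_ne e [] with rfl | he
  · rw [if_neg (by simp)]
    rw [s_apply, co_add]
    have h1 : co (adp (2 * b) * adp (2 * a)) (wordX []) = 0 := by
      by_contra h
      obtain ⟨u, v, huv, h2, _⟩ := Lead2.co_mul_ne h
      have h3 : u = [] := (List.append_eq_nil_iff.mp huv.symm).1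
      rw [h3] at h2
      have := (adp_words _ _ h2).1
      simp at this
    have h2 : co (der (adp (2 * b)) (adp (2 * a))) (wordX []) = 0 := by
      by_contra h
      have h3 := Pool.Agent.N568.DSF.s_count (Fm_count (2 * b)) (Fm_count (2 * a)) []
      rw [← adp_eq_Fm, ← adp_eq_Fm, s_apply, co_add] at h3
      have h4 : co (adp (2 * b) * adp (2 * a)) [] = 0 := h1
      rw [h4, zero_add] at h3
      have := h3 h
      simp at this
    rw [h1, h2, add_zero]
  · rw [adp_eq_Fm (2 * b), step_s b e he, AR_congr b e _ (fun e' => if e' = [2 * a] then (1 : ℚ) else 0)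
      (fun e' _ => co_adp_wordX _ _)]
    split_ifs with h
    · rfl
    · rw [AR_congr b e _ (fun _ => (0 : ℚ)) (fun e' he' => ?_), AR_zero]
      rw [if_neg]
      rintro rfl
      exact h he'.symm

theorem co_ss_two (a b k l : ℕ) : co (s (adp (2 * b)) (adp (2 * a))) (wordX [k, l]) =
    (if l = 2 * b ∧ k = 2 * a then 1 else 0) + (if k + l = 2 * a + 2 * b then
      (-1) ^ k * ((2 * b).choose k : ℚ) - (-1) ^ l * ((2 * b).choose l : ℚ) else 0) := by
  rw [co_ss, if_pos (show [k, l].length = 2 from rfl)]
  unfold AR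
  unfold AR
  beta_reduce
  congr 1
  · by_cases h1 : l = 2 * b
    · by_cases h2 : k = 2 * a
      · simp [h1, h2]
      · simp [h1, h2]
    · simp [h1]
  · by_cases h1 : k + l = 2 * a + 2 * b
    · have h2 : [k + l - 2 * b] = [2 * a] := by rw [h1]; simp
      rw [if_pos (show 2 * b ≤ k + l by omega), if_pos h1, if_pos h2, mul_one]
    · rw [if_neg h1]
      by_cases h2 : 2 * b ≤ k + l
      · have h3 : ¬ [k + l - 2 * b] = [2 * a] := by
          intro h3
          have h4 : k + l - 2 * b = 2 * a := by simpa using h3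
          omega
        rw [if_pos h2, if_neg h3, mul_zero]
      · rw [if_neg h2]

/-- **the relation in weight twelve** -/
theorem rel12 : ihara (adp 2) (adp 8) = (3 : ℚ) • ihara (adp 4) (adp 6) := by
  rw [← sub_eq_zero]
  have hmem : ihara (adp 2) (adp 8) - (3 : ℚ) • ihara (adp 4) (adp 6) ∈ LieX :=
    LieX.sub_mem (ihara_mem (adp_mem 2) (adp_mem 8))
      (LieX.smul_mem 3 (ihara_mem (adp_mem 4) (adp_mem 6)))
  have key : ∀ e, co (ihara (adp 2) (adp 8) - (3 : ℚ) • ihara (adp 4) (adp 6)) (wordX e) = 0 := by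
    intro e
    rw [ihara_eq, ihara_eq, co_sub, co_smul, co_sub, co_sub]
    by_cases he : e.length = 2
    · obtain ⟨k, l, rfl⟩ : ∃ k l, e = [k, l] := by
        rcases e with _ | ⟨k, _ | ⟨l, _ | ⟨_, _⟩⟩⟩
        · simp at he
        · simp at he
        · exact ⟨k, l, rfl⟩
        · simp at he
      have h1 := co_ss_two 4 1 k l
      have h2 := co_ss_two 1 4 k l
      have h3 := co_ss_two 3 2 k l
      have h4 := co_ss_two 2 3 k l
      norm_num only at h1 h2 h3 h4
      rw [h1, h2, h3, h4]
      by_cases hkl : k + l = 10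
      · have hk : k ≤ 10 := by omega
        obtain rfl : l = 10 - k := by omega
        interval_cases k <;> norm_num [Nat.choose]
      · have e1 : ¬ (l = 2 ∧ k = 8) := by omega
        have e2 : ¬ (l = 8 ∧ k = 2) := by omega
        have e3 : ¬ (l = 4 ∧ k = 6) := by omega
        have e4 : ¬ (l = 6 ∧ k = 4) := by omega
        simp [hkl, e1, e2, e3, e4]
    · have h1 := co_ss 4 1 e
      have h2 := co_ss 1 4 e
      have h3 := co_ss 3 2 e
      have h4 := co_ss 2 3 e
      norm_num only at h1 h2 h3 h4
      rw [h1, h2, h3, h4]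
      simp [he]
  refine lie_ext hmem ?_ key
  rw [ihara_eq, ihara_eq, co_sub, co_smul, co_sub, co_sub]
  have hs : ∀ a b : ℕ, co (s (adp a) (adp b)) [0] = 0 := by
    intro a b
    by_contra h
    rw [adp_eq_Fm, adp_eq_Fm] at h
    have := Pool.Agent.N568.DSF.s_count (Fm_count a) (Fm_count b) [0] h
    simp at this
  rw [hs, hs, hs, hs]
  simp

end Pool.Agent.H492.DG
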