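import Pool.Agent.H492.DG.Three
import Pool.Agent.H492.DG.Rel

/-!
# The final form of the theorem
-/

set_option autoImplicit false

namespace Pool.Agent.H492.DG

open Pool.Agent.H777R4.DM

attribute [local instance 100] LieRing.ofAssociativeRing

/-- reordering the generators -/
theorem perm {n : ℕ} (ψ : Fin n → A) (σ : Equiv.Perm (Fin n))
    (h : Function.Injective (PhiN (fun i => ψ (σ i)))) : Function.Injective (PhiN ψ) := by
  classical
  refine Pool.Agent.H826R3.DM.taskShearN n ψ (fun i => Pi.single (σ i) 1) ?_ ?_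
  · have h1 := (Pi.basisFun ℚ (Fin n)).linearIndependent.comp σ σ.injective
    have h2 : (fun i => Pi.single (σ i) 1 : Fin n → Fin n → ℚ) = (⇑(Pi.basisFun ℚ (Fin n))) ∘ σ := by
      funext i
      rw [Function.comp_apply, Pi.basisFun_apply]
    rw [h2]
    exact h1
  · have h3 : (fun i => ∑ j, (Pi.single (σ i) (1 : ℚ) : Fin n → ℚ) j • ψ j) = fun i => ψ (σ i) := by
      funext i
      rw [Finset.sum_eq_single (σ i)]
      · rw [Pi.single_eq_same, one_smul]
      · intro j _ hj
        rw [Pi.single_eq_of_ne hj, zero_smul]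
      · intro h
        exact absurd (Finset.mem_univ _) h
    rw [h3]
    exact h

theorem wordX_one (a : ℕ) : wordX [a] = List.replicate a 0 ++ [1] := rfl

/-- **Main theorem**, with weights. -/
theorem three_weights (n : ℕ) (w : Fin n → ℕ) (hw : Function.Injective w) (ho : ∀ i, Odd (w i))
    (h3 : ∀ i, 3 ≤ w i) (hn : ∀ i, n ≤ w i) (ψ : Fin n → A) (hL : ∀ i, ψ i ∈ LieX)
    (hhom : ∀ i u, co (ψ i) u ≠ 0 → u.length = w i)
    (hne : ∀ i, co (ψ i) (List.replicate (w i - 1) 0 ++ [1]) ≠ 0) : Function.Injective (PhiN ψ) := by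
  refine perm ψ (Tuple.sort w) ?_
  have hmono : StrictMono (w ∘ Tuple.sort w) :=
    (Tuple.monotone_sort w).strictMono_of_injective (hw.comp (Tuple.sort w).injective)
  set σ := Tuple.sort w
  refine three n (fun i => w (σ i) - 1) ?_ ?_ ?_ ?_ (fun i => ψ (σ i)) (fun i => hL _) ?_ ?_
  · intro i j hij
    have h1 : w (σ i) < w (σ j) := hmono hij
    have h2 := h3 (σ i)
    show w (σ i) - 1 < w (σ j) - 1
    omega
  · intro i
    exact Nat.Odd.sub_odd (ho (σ i)) odd_one
  · intro i
    have h2 := h3 (σ i)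
    show 2 ≤ w (σ i) - 1
    omega
  · intro i
    have h1 := hn (σ i)
    have h2 := h3 (σ i)
    show n ≤ w (σ i) - 1 + 1
    omega
  · intro i u hu
    have h2 := h3 (σ i)
    rw [hhom _ _ hu]
    show w (σ i) = w (σ i) - 1 + 1
    omega
  · intro i
    exact hne (σ i)

end Pool.Agent.H492.DG
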