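import Pool.Agent.H492.DG.Core3
import Pool.Agent.H492.DG.Newton
import Pool.Agent.H492.DG.ThreeFinal

/-!
# The critical number of generators: the linear change
-/

set_option autoImplicit false

namespace Pool.Agent.H492.DG

open Pool.Agent.H777R4.DM
open Pool.Agent.N568.DSF (Dp Fm co_Fm Fm_count lie_split)

attribute [local instance 100] LieRing.ofAssociativeRing

section

variable (m : ℕ) (d : Fin (m + 2) → ℕ)

/-- the inverse of the binomial matrix of the larger exponents -/
noncomputable def MI : Matrix (Fin (m + 1)) (Fin (m + 1)) ℚ := (Vm (fun i : Fin (m + 1) => d i.succ))⁻¹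

/-- coefficients of `F l` -/
noncomputable def cFf (l : ℕ) : Fin (m + 2) → ℚ :=
  if h : l < m + 1 then Fin.cons 0 (fun i => MI m d ⟨l, h⟩ i) else 0

/-- coefficients of `G` -/
noncomputable def cGf : Fin (m + 2) → ℚ :=
  Fin.cons 1 (fun i => - ∑ l : Fin (m + 1), be l.val m * MI m d l i)

variable {m d}

theorem MI_mul (hd : StrictMono d) : MI m d * Vm (fun i : Fin (m + 1) => d i.succ) = 1 := by
  unfold MI
  exact Matrix.nonsing_inv_mul _ (isUnit_iff_ne_zero.mpr (Vm_det _ (fun i j hij => by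
    have := hd.injective hij
    exact Fin.succ_injective _ this)))

theorem sum_cF (l : ℕ) (hl : l ≤ m) (p : ℕ → ℚ) : ∑ j, cFf m d l j * p (d j) =
    ∑ i : Fin (m + 1), MI m d ⟨l, by omega⟩ i * p (d i.succ) := by
  rw [Fin.sum_univ_succ]
  unfold cFf
  rw [dif_pos (by omega)]
  simp only [Fin.cons_zero, Fin.cons_succ, zero_mul, zero_add]

theorem sum_cG (p : ℕ → ℚ) : ∑ j, cGf m d j * p (d j) =
    p (d 0) - ∑ l : Fin (m + 1), be l.val m * ∑ i : Fin (m + 1), MI m d l i * p (d i.succ) := by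
  rw [Fin.sum_univ_succ]
  unfold cGf
  simp only [Fin.cons_zero, Fin.cons_succ, one_mul, neg_mul]
  rw [Finset.sum_neg_distrib, ← sub_eq_add_neg]
  congr 1
  simp_rw [Finset.sum_mul, Finset.mul_sum]
  rw [Finset.sum_comm]
  exact Finset.sum_congr rfl fun l _ => Finset.sum_congr rfl fun i _ => by ring

theorem MI_be (hd : StrictMono d) (l k : Fin (m + 1)) :
    ∑ i : Fin (m + 1), MI m d l i * be k.val (d i.succ) = if l = k then 1 else 0 := by
  have h1 : (MI m d * Vm (fun i : Fin (m + 1) => d i.succ)) l k = if l = k then 1 else 0 := by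
    rw [MI_mul hd, Matrix.one_apply]
  rw [← h1, Matrix.mul_apply]
  rfl

/-! ### the values `g₁`, `g₂`, `r` -/

theorem cF_r (hm : Even m) (hd : StrictMono d) : ((m : ℚ) + 1) * ∑ j, cFf m d m j * be (m + 1) (d j) =
    (m : ℚ) * (m + 1) / 2 - ∑ i : Fin (m + 1), (d i.succ : ℚ) := by
  obtain ⟨b, hb1, hb0, hb2, hb3⟩ := newton2 (fun j => if h : j < m + 1 then (d (Fin.succ ⟨j, h⟩) : ℚ) else 0) m
  have hsum : ∑ j ∈ Finset.range (m + 1), (if h : j < m + 1 then (d (Fin.succ ⟨j, h⟩) : ℚ) else 0) =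
      ∑ i : Fin (m + 1), (d i.succ : ℚ) := by
    rw [Finset.sum_range]
    exact Finset.sum_congr rfl fun i _ => by rw [dif_pos i.isLt]
  rw [hsum] at hb0
  -- the product vanishes at the nodes
  have h0 : ∑ i : Fin (m + 1), MI m d ⟨m, by omega⟩ i *
      ∑ l ∈ Finset.range (m + 2), b l * ((d i.succ).choose l : ℚ) = 0 := by
    refine Finset.sum_eq_zero fun i _ => ?_
    rw [← hb3, Finset.prod_eq_zero (Finset.mem_range.mpr i.isLt), mul_zero]
    rw [dif_pos i.isLt]
    exact sub_self _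
  have h1 : ∑ l ∈ Finset.range (m + 2), ((-1) ^ l * b l) *
      ∑ i : Fin (m + 1), MI m d ⟨m, by omega⟩ i * be l (d i.succ) = 0 := by
    rw [← h0]
    simp_rw [Finset.mul_sum]
    rw [Finset.sum_comm]
    refine Finset.sum_congr rfl fun i _ => Finset.sum_congr rfl fun l _ => ?_
    unfold be
    have h3 : ((-1 : ℚ) ^ l) * (-1) ^ l = 1 := by rw [← mul_pow]; simp
    linear_combination (b l * MI m d ⟨m, by omega⟩ i * ((d i.succ).choose l : ℚ)) * h3
  rw [Finset.sum_range_succ, Finset.sum_range_succ, Finset.sum_eq_zero, zero_add] at h1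
  · have h2 := MI_be hd ⟨m, by omega⟩ ⟨m, by omega⟩
    rw [if_pos rfl] at h2
    simp only at h2
    rw [h2, hm.neg_one_pow, hb0, hb1, pow_succ, hm.neg_one_pow] at h1
    rw [sum_cF m le_rfl (fun x => be (m + 1) x)]
    have hf : (m.factorial : ℚ) ≠ 0 := by positivity
    rw [Nat.factorial_succ] at h1
    push_cast at h1
    apply mul_left_cancel₀ hf
    linear_combination -h1
  · intro l hl
    rw [Finset.mem_range] at hl
    have h2 := MI_be hd ⟨m, by omega⟩ ⟨l, by omega⟩
    rw [if_neg (fun h => by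
      have := congrArg Fin.val h
      simp only at this
      omega)] at h2
    simp only at h2
    rw [h2, mul_zero]

theorem cG_val (hd : StrictMono d) (h0 : d 0 = m) (b : ℕ → ℚ) (K : ℕ) (hb : ∀ i : Fin (m + 1), ∑ l ∈ Finset.range K, b l * ((d i.succ).choose l : ℚ) = 0) :
    ∑ l ∈ Finset.range K, b l * (m.choose l : ℚ) =
      ∑ l ∈ Finset.range K, if l ≤ m then 0 else ((-1) ^ l * b l) * ∑ j, cGf m d j * be l (d j) := by
  have h3 : ∀ l : ℕ, ((-1 : ℚ) ^ l) * (-1) ^ l = 1 := fun l => by rw [← mul_pow]; simp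
  have h1 : ∑ j, cGf m d j * ∑ l ∈ Finset.range K, b l * ((d j).choose l : ℚ) =
      ∑ l ∈ Finset.range K, b l * (m.choose l : ℚ) := by
    rw [sum_cG (fun x => ∑ l ∈ Finset.range K, b l * (x.choose l : ℚ)), h0, Finset.sum_eq_zero (s := Finset.univ),
      sub_zero]
    intro l _
    rw [Finset.sum_eq_zero, mul_zero]
    intro i _
    rw [hb, mul_zero]
  rw [← h1]
  have h2 : ∑ j, cGf m d j * ∑ l ∈ Finset.range K, b l * ((d j).choose l : ℚ) =
      ∑ l ∈ Finset.range K, ((-1) ^ l * b l) * ∑ j, cGf m d j * be l (d j) := by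
    simp_rw [Finset.mul_sum]
    rw [Finset.sum_comm]
    refine Finset.sum_congr rfl fun l _ => Finset.sum_congr rfl fun j _ => ?_
    unfold be
    linear_combination (-(b l * cGf m d j * ((d j).choose l : ℚ))) * h3 l
  rw [h2]
  refine Finset.sum_congr rfl fun l _ => ?_
  split_ifs with hl
  · rw [sum_cG (fun x => be l x), h0]
    have h4 : ∑ l' : Fin (m + 1), be l'.val m * ∑ i : Fin (m + 1), MI m d l' i * be l (d i.succ) = be l m := by
      rw [Finset.sum_eq_single ⟨l, by omega⟩]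
      · have h5 := MI_be hd ⟨l, by omega⟩ ⟨l, by omega⟩
        rw [if_pos rfl] at h5
        simp only at h5
        rw [h5, mul_one]
      · intro l' _ hne
        have h5 := MI_be hd l' ⟨l, by omega⟩
        rw [if_neg hne] at h5
        simp only at h5
        rw [h5, mul_zero]
      · intro h5
        exact absurd (Finset.mem_univ _) h5
    rw [h4, sub_self, mul_zero]
  · rfl

theorem cG_g (hm : Even m) (hd : StrictMono d) (h0 : d 0 = m) :
    ((m + 1).factorial : ℚ) * ∑ j, cGf m d j * be (m + 1) (d j) =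
      ∏ i : Fin (m + 1), ((d i.succ : ℚ) - m) ∧
    ((m : ℚ) + 2) * ∑ j, cGf m d j * be (m + 2) (d j) = (∑ j, cGf m d j * be (m + 1) (d j)) *
      ((m : ℚ) * (m + 1) / 2 - ∑ i : Fin (m + 1), (d i.succ : ℚ) + 1) := by
  obtain ⟨b, hb1, hb0, hb2, hb3⟩ := newton2 (fun j => if h : j < m + 1 then (d (Fin.succ ⟨j, h⟩) : ℚ) else 0) m
  have hsum : ∑ j ∈ Finset.range (m + 1), (if h : j < m + 1 then (d (Fin.succ ⟨j, h⟩) : ℚ) else 0) =
      ∑ i : Fin (m + 1), (d i.succ : ℚ) := by
    rw [Finset.sum_range]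
    exact Finset.sum_congr rfl fun i _ => by rw [dif_pos i.isLt]
  rw [hsum] at hb0
  have hprod : ∀ x : ℚ, ∏ j ∈ Finset.range (m + 1), (x - (if h : j < m + 1 then
      (d (Fin.succ ⟨j, h⟩) : ℚ) else 0)) = ∏ i : Fin (m + 1), (x - (d i.succ : ℚ)) := by
    intro x
    rw [Finset.prod_range]
    exact Finset.prod_congr rfl fun i _ => by rw [dif_pos i.isLt]
  have hnode : ∀ i : Fin (m + 1), ∑ l ∈ Finset.range (m + 2), b l * ((d i.succ).choose l : ℚ) = 0 := by
    intro i
    rw [← hb3, hprod, Finset.prod_eq_zero (Finset.mem_univ i) (sub_self _)]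
  have hWm : ∑ l ∈ Finset.range (m + 2), b l * (m.choose l : ℚ) =
      - ∏ i : Fin (m + 1), ((d i.succ : ℚ) - m) := by
    rw [← hb3, hprod]
    have e : ∀ i : Fin (m + 1), (m : ℚ) - (d i.succ : ℚ) = (-1) * ((d i.succ : ℚ) - m) := fun i => by ring
    rw [Finset.prod_congr rfl (fun i _ => e i), Finset.prod_mul_distrib, Finset.prod_const,
      Finset.card_univ, Fintype.card_fin, pow_succ, hm.neg_one_pow]
    ring
  set g1 := ∑ j, cGf m d j * be (m + 1) (d j) with hg1
  set g2 := ∑ j, cGf m d j * be (m + 2) (d j) with hg2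
  have h1 : ((m + 1).factorial : ℚ) * g1 = ∏ i : Fin (m + 1), ((d i.succ : ℚ) - m) := by
    have h := cG_val hd h0 b (m + 2) hnode
    rw [hWm, Finset.sum_range_succ (fun l => if l ≤ m then 0 else _), if_neg (by omega),
      Finset.sum_eq_zero, zero_add, hb1, pow_succ, hm.neg_one_pow] at h
    · rw [← hg1] at h
      linear_combination h
    · intro l hl
      rw [Finset.mem_range] at hl
      rw [if_pos (by omega)]
  refine ⟨h1, ?_⟩
  -- the product with `x`
  have hx : ∀ x : ℕ, ∑ l ∈ Finset.range (m + 3), ((l : ℚ) * (if l = 0 then 0 else b (l - 1)) + (l : ℚ) * b l) *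
      (x.choose l : ℚ) = (x : ℚ) * ∑ l ∈ Finset.range (m + 2), b l * (x.choose l : ℚ) := by
    intro x
    have h1 : ∀ l ∈ Finset.range (m + 2), (x : ℚ) * (b l * (x.choose l : ℚ)) =
        ((l + 1 : ℕ) : ℚ) * b l * (x.choose (l + 1) : ℚ) + (l : ℚ) * b l * (x.choose l : ℚ) := by
      intro l _
      have h2 := Nat.choose_succ_right_eq x l
      have h3 : ((x.choose (l + 1) : ℚ)) * ((l : ℚ) + 1) = (x.choose l : ℚ) * ((x : ℚ) - l) := by
        by_cases h : l ≤ x
        · have : ((x - l : ℕ) : ℚ) = (x : ℚ) - l := by rw [Nat.cast_sub h]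
          rw [← this]
          exact_mod_cast h2
        · rw [Nat.choose_eq_zero_of_lt (by omega), Nat.choose_eq_zero_of_lt (by omega)]
          simp
      push_cast
      linear_combination (-b l) * h3
    rw [Finset.mul_sum, Finset.sum_congr rfl h1, Finset.sum_add_distrib]
    have h2 : ∑ l ∈ Finset.range (m + 3), ((l : ℚ) * (if l = 0 then 0 else b (l - 1)) + (l : ℚ) * b l) *
        (x.choose l : ℚ) =
        ∑ l ∈ Finset.range (m + 3), (l : ℚ) * (if l = 0 then 0 else b (l - 1)) * (x.choose l : ℚ) +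
        ∑ l ∈ Finset.range (m + 3), (l : ℚ) * b l * (x.choose l : ℚ) := by
      rw [← Finset.sum_add_distrib]
      exact Finset.sum_congr rfl fun l _ => by ring
    rw [h2, Finset.sum_range_succ' _ (m + 2)]
    congr 1
    · simp
    · rw [Finset.sum_range_succ _ (m + 2), hb2 (m + 2) (by omega)]
      simp
  have h := cG_val hd h0 (fun l => (l : ℚ) * (if l = 0 then 0 else b (l - 1)) + (l : ℚ) * b l) (m + 3)
    (fun i => by rw [hx, hnode, mul_zero])
  have hp1 : (-1 : ℚ) ^ (m + 1) = -1 := by rw [pow_succ, hm.neg_one_pow]; ring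
  have hp2 : (-1 : ℚ) ^ (m + 2) = 1 := by rw [pow_succ, hp1]; ring
  rw [hx m, hWm, Finset.sum_range_succ (fun l => if l ≤ m then 0 else _),
    Finset.sum_range_succ (fun l => if l ≤ m then 0 else _), if_neg (show ¬ m + 1 ≤ m by omega),
    if_neg (show ¬ m + 2 ≤ m by omega), hp1, hp2, Finset.sum_eq_zero, zero_add] at h
  · rw [← hg1, ← hg2] at h
    simp only [Nat.succ_ne_zero, if_false, Nat.add_sub_cancel] at h
    rw [show m + 2 - 1 = m + 1 by omega, hb2 (m + 2) (by omega), hb1, hb0, ← h1] at h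
    have hf : ((m + 1).factorial : ℚ) ≠ 0 := by positivity
    apply mul_left_cancel₀ hf
    have hf2 : ((m + 1).factorial : ℚ) = ((m : ℚ) + 1) * (m.factorial : ℚ) := by
      rw [Nat.factorial_succ]
      push_cast
      ring
    rw [hf2] at h ⊢
    push_cast at h
    linear_combination -h
  · intro l hl
    rw [Finset.mem_range] at hl
    rw [if_pos (by omega)]

end

end Pool.Agent.H492.DG
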