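import Pool.Agent.H492.DG.Core4

/-!
# The critical number of generators: the theorem
-/

set_option autoImplicit false

namespace Pool.Agent.H492.DG

open Pool.Agent.H777R4.DM
open Pool.Agent.N568.DSF (Dp Fm co_Fm Fm_count lie_split)

attribute [local instance 100] LieRing.ofAssociativeRing

section

variable {m : ℕ} {d : Fin (m + 2) → ℕ} (φ : Fin (m + 2) → A)

/-- the new generators -/
noncomputable def Ff (m : ℕ) (d : Fin (m + 2) → ℕ) (φ : Fin (m + 2) → A) (l : ℕ) : A := ∑ j, cFf m d l j • φ j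

noncomputable def Gf (m : ℕ) (d : Fin (m + 2) → ℕ) (φ : Fin (m + 2) → A) : A := ∑ j, cGf m d j • φ j

/-- normalized elements -/
def Norm (d : Fin (m + 2) → ℕ) (φ : Fin (m + 2) → A) : Prop :=
  (∀ j, Dp 2 (φ j - adp (d j))) ∧ ∀ j u, co (φ j) u ≠ 0 → u.length = d j + 1

variable {φ}

theorem Norm.dat (h : Norm d φ) (j : Fin (m + 2)) : Dat d (φ j) (Pi.single j 1) := by
  unfold Dat
  rw [Finset.sum_eq_single j]
  · rw [Pi.single_eq_same, one_smul]
    exact h.1 j
  · intro i _ hi
    rw [Pi.single_eq_of_ne hi, zero_smul]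
  · intro h1
    exact absurd (Finset.mem_univ _) h1

theorem Norm.datc (h : Norm d φ) (c : Fin (m + 2) → ℚ) : Dat d (∑ j, c j • φ j) c := by
  have h1 := Dat.sum φ (fun j => Pi.single j 1) c (fun j => h.dat j)
  have e : (fun i => ∑ j, c j * (Pi.single j (1 : ℚ) : Fin (m + 2) → ℚ) i) = c := by
    funext i
    rw [Finset.sum_eq_single i]
    · rw [Pi.single_eq_same, mul_one]
    · intro j _ hj
      rw [Pi.single_eq_of_ne (Ne.symm hj), mul_zero]
    · intro h1
      exact absurd (Finset.mem_univ _) h1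
  rw [e] at h1
  exact h1

theorem gens (hm : Even m) (hm2 : 2 ≤ m) (hd : StrictMono d) (he : ∀ i, Even (d i)) (h0 : d 0 = m)
    (h : Norm d φ) : Gens m (m + 2) d 0 (Ff m d φ) (Gf m d φ) (cFf m d) (cGf m d) where
  hm := hm
  hm2 := hm2
  hd := he
  hi0 := h0
  hdi := by
    intro i hi
    have h1 := gap d hd he 0 i (Fin.zero_le i)
    have h2 : i.val ≠ 0 := fun h2 => hi (Fin.ext h2)
    rw [Fin.val_zero] at h1
    omega
  datF := fun l _ => h.datc (cFf m d l)
  datG := h.datc (cGf m d)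
  cF0 := by
    intro l hl
    unfold cFf
    rw [dif_pos (by omega), Fin.cons_zero]
  cG0 := by
    unfold cGf
    rw [Fin.cons_zero]
  aF := by
    intro l hl k hk
    unfold Ff
    rw [(h.datc (cFf m d l)).one he, sum_cF l hl (fun x => be k x)]
    have h5 := MI_be hd ⟨l, by omega⟩ ⟨k, by omega⟩
    simp only at h5
    rw [h5]
    by_cases hlk : k = l
    · rw [if_pos hlk, if_pos (Fin.ext hlk.symm)]
    · rw [if_neg hlk, if_neg (fun h6 => hlk (congrArg Fin.val h6).symm)]
  aG := by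
    intro k hk
    unfold Gf
    rw [(h.datc (cGf m d)).one he, sum_cG (fun x => be k x), h0]
    have h4 : ∑ l' : Fin (m + 1), be l'.val m * ∑ i : Fin (m + 1), MI m d l' i * be k (d i.succ) = be k m := by
      rw [Finset.sum_eq_single ⟨k, by omega⟩]
      · have h5 := MI_be hd ⟨k, by omega⟩ ⟨k, by omega⟩
        rw [if_pos rfl] at h5
        simp only at h5
        rw [h5, mul_one]
      · intro l' _ hne
        have h5 := MI_be hd l' ⟨k, by omega⟩
        rw [if_neg hne] at h5
        simp only at h5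
        rw [h5, mul_zero]
      · intro h5
        exact absurd (Finset.mem_univ _) h5
    rw [h4, sub_self]

theorem Cq_phi {D c q : ℕ} {f : A} (hlen : ∀ u, co f u ≠ 0 → u.length = D + 1) (hf : Dp c f) (hq : 1 ≤ q) :
    Cq q (D + 1 + (q - 1) * c) f := by
  intro u hu
  have h1 := hlen u hu
  have h2 := hf u hu
  have h3 := cw_eq q u
  obtain ⟨q', rfl⟩ : ∃ q', q = q' + 1 := ⟨q - 1, by omega⟩
  rw [Nat.add_sub_cancel]
  have h4 : (q' + 1) * u.count 1 = q' * u.count 1 + u.count 1 := by ring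
  rw [h4, h1] at h3
  have h5 : q' * c ≤ q' * u.count 1 := Nat.mul_le_mul_left _ h2
  omega

theorem Norm.Dp1 (h : Norm d φ) (j : Fin (m + 2)) : Dp 1 (φ j) := (h.dat j).dp

theorem Ff_Cq (hd : StrictMono d) (he : ∀ i, Even (d i)) (h0 : d 0 = m) (h : Norm d φ) (q : ℕ) (hq : 3 ≤ q)
    (l : ℕ) (hl : l ≤ m) : Cq q (m + 2 + q) (Ff m d φ l) := by
  unfold Ff
  refine Cq.sum _ _ fun j _ => ?_
  by_cases hj : j = 0
  · have : cFf m d l j = 0 := by
      unfold cFf
      rw [dif_pos (by omega), hj, Fin.cons_zero]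
    rw [this, zero_smul]
    exact Cq.zero _ _
  · refine Cq.smul _ ((Cq_phi (h.2 j) (h.Dp1 j) (by omega)).mono ?_)
    have h1 := gap d hd he 0 j (Fin.zero_le j)
    have h2 : j.val ≠ 0 := fun h2 => hj (Fin.ext h2)
    rw [Fin.val_zero] at h1
    omega

theorem Gf_Cq (hd : StrictMono d) (he : ∀ i, Even (d i)) (h0 : d 0 = m) (h : Norm d φ) (q : ℕ) (hq : 3 ≤ q) :
    Cq q (m + 2 + q) (Gf m d φ - adp m) := by
  have e : Gf m d φ - adp m = (φ 0 - adp m) + ∑ j : Fin (m + 1), cGf m d j.succ • φ j.succ := by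
    unfold Gf
    rw [Fin.sum_univ_succ]
    have : cGf m d 0 = 1 := by
      unfold cGf
      rw [Fin.cons_zero]
    rw [this, one_smul]
    abel
  rw [e]
  refine Cq.add ?_ (Cq.sum _ _ fun j _ => Cq.smul _ ?_)
  · have h1 := h.1 0
    rw [h0] at h1
    refine (Cq_phi (D := m) (c := 2) ?_ h1 (by omega)).mono (by omega)
    intro u hu
    rw [co_sub] at hu
    by_cases h2 : co (φ 0) u = 0
    · rw [h2, zero_sub] at hu
      exact (adp_words m u (neg_ne_zero.mp hu)).1
    · rw [h.2 0 u h2, h0]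
  · refine (Cq_phi (h.2 j.succ) (h.Dp1 j.succ) (by omega)).mono ?_
    have h1 := gap d hd he 0 j.succ (Fin.zero_le _)
    rw [Fin.val_zero, Fin.val_succ] at h1
    omega

/-- the matrix of the linear change -/
noncomputable def Kf (m : ℕ) (d : Fin (m + 2) → ℕ) : Fin (m + 2) → Fin (m + 2) → ℚ := fun i =>
  if i.val < m + 1 then cFf m d i.val else cGf m d

theorem Kf_li (hd : StrictMono d) : LinearIndependent ℚ (Kf m d) := by
  rw [Fintype.linearIndependent_iff]
  intro x hx
  rw [Fin.sum_univ_castSucc] at hx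
  have e1 : ∀ i : Fin (m + 1), Kf m d i.castSucc = cFf m d i.val := by
    intro i
    unfold Kf
    rw [if_pos (show i.castSucc.val < m + 1 from i.isLt)]
    rfl
  have e2 : Kf m d (Fin.last (m + 1)) = cGf m d := by
    unfold Kf
    rw [if_neg (show ¬ (Fin.last (m + 1)).val < m + 1 from lt_irrefl _)]
  have e3 : ∀ i : Fin (m + 1), cFf m d i.val = Fin.cons 0 (fun j => MI m d i j) := by
    intro i
    unfold cFf
    rw [dif_pos i.isLt]
  have hlast : x (Fin.last (m + 1)) = 0 := by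
    have h1 := congrFun hx 0
    rw [Pi.add_apply, Finset.sum_apply, Pi.smul_apply, e2] at h1
    have h2 : cGf m d 0 = 1 := by
      unfold cGf
      rw [Fin.cons_zero]
    rw [h2, Finset.sum_eq_zero, zero_add, smul_eq_mul, mul_one] at h1
    · exact h1
    · intro i _
      rw [e1, e3, Pi.smul_apply, Fin.cons_zero, smul_zero]
  rw [hlast, zero_smul, add_zero] at hx
  have hrest : ∀ i : Fin (m + 1), x i.castSucc = 0 := by
    have h1 : ∀ j : Fin (m + 1), ∑ i : Fin (m + 1), x i.castSucc * MI m d i j = 0 := by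
      intro j
      have h2 := congrFun hx j.succ
      rw [Finset.sum_apply] at h2
      rw [← show (0 : Fin (m + 2) → ℚ) j.succ = 0 from rfl, ← h2]
      refine Finset.sum_congr rfl fun i _ => ?_
      rw [e1, e3, Pi.smul_apply, Fin.cons_succ, smul_eq_mul]
    intro k
    have h3 : ∑ j : Fin (m + 1), (∑ i : Fin (m + 1), x i.castSucc * MI m d i j) * be k.val (d j.succ) = 0 :=
      Finset.sum_eq_zero fun j _ => by rw [h1 j, zero_mul]
    simp_rw [Finset.sum_mul] at h3
    rw [Finset.sum_comm] at h3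
    have h4 : ∀ i : Fin (m + 1), ∑ j : Fin (m + 1), x i.castSucc * MI m d i j * be k.val (d j.succ) =
        if i = k then x i.castSucc else 0 := by
      intro i
      have h5 := MI_be hd i k
      have h6 : ∑ j : Fin (m + 1), x i.castSucc * MI m d i j * be k.val (d j.succ) =
          x i.castSucc * ∑ j : Fin (m + 1), MI m d i j * be k.val (d j.succ) := by
        rw [Finset.mul_sum]
        exact Finset.sum_congr rfl fun j _ => by ring
      rw [h6, h5]
      split_ifs <;> simp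
    rw [Finset.sum_congr rfl (fun i _ => h4 i), Finset.sum_ite_eq', if_pos (Finset.mem_univ k)] at h3
    exact h3
  intro i
  refine Fin.lastCases hlast (fun i => hrest i) i

theorem Kf_Fg (i : Fin (m + 2)) : ∑ j, Kf m d i j • φ j = Fg m (Ff m d φ) (Gf m d φ) i := by
  unfold Kf Fg gl Ff Gf
  by_cases h : i.val < m + 1
  · rw [if_pos h, if_pos h]
  · have := i.isLt
    rw [if_neg h, if_neg h, if_pos (by omega)]

theorem crit_norm (hm : Even m) (hm2 : 2 ≤ m) (hd : StrictMono d) (he : ∀ i, Even (d i)) (h0 : d 0 = m)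
    (h : Norm d φ) (hex : ¬ (m = 2 ∧ ∀ i : Fin (m + 1), d i.succ = m + 2 * (i.val + 1))) :
    Function.Injective (PhiN φ) := by
  have hg := gens hm hm2 hd he h0 h
  have h1 := cG_g hm hd h0
  have h2 := cF_r hm hd
  set g1 := ∑ j, cGf m d j * be (m + 1) (d j) with hg1
  set g2 := ∑ j, cGf m d j * be (m + 2) (d j) with hg2
  set r := ∑ j, cFf m d m j * be (m + 1) (d j) with hr
  have e1 : co (θ (Gf m d φ)) [m + 1] = g1 := (h.datc (cGf m d)).one he (m + 1)
  have e2 : co (θ (Gf m d φ)) [m + 2] = g2 := (h.datc (cGf m d)).one he (m + 2)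
  have e3 : co (θ (Ff m d φ m)) [m + 1] = r := (h.datc (cFf m d m)).one he (m + 1)
  have hpos : 0 < g1 := by
    have h3 : 0 < ∏ i : Fin (m + 1), ((d i.succ : ℚ) - m) := by
      refine Finset.prod_pos fun i _ => ?_
      have h4 := gap d hd he 0 i.succ (Fin.zero_le _)
      rw [Fin.val_zero, Fin.val_succ, h0] at h4
      have h5 : ((m : ℚ)) < d i.succ := by exact_mod_cast (by omega : m < d i.succ)
      linarith
    rw [← h1.1] at h3
    exact pos_of_mul_pos_right h3 (by positivity)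
  have hineq := (ineq m hm2 (fun i => d i.succ) (by
    intro i
    have h4 := gap d hd he 0 i.succ (Fin.zero_le _)
    rw [Fin.val_zero, Fin.val_succ, h0] at h4
    omega) g1 h1.1).resolve_right hex
  refine Pool.Agent.H826R3.DM.taskShearN (m + 2) φ (Kf m d) (Kf_li hd) ?_
  have e : (fun i => ∑ j, Kf m d i j • φ j) = Fg m (Ff m d φ) (Gf m d φ) := by
    funext i
    exact Kf_Fg i
  rw [e]
  refine core_free hg (fun q hq l hl => Ff_Cq hd he h0 h q hq l hl) (fun q hq => Gf_Cq hd he h0 h q hq) ?_ ?_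
  · rw [e1]
    exact hpos.ne'
  · rw [e1, e2, e3]
    intro hD
    have h3 : ((m : ℚ) + 2) * ((m : ℚ) * g2 - g1 ^ 2 - ((m : ℚ) + 1) * g1 * r) =
        g1 * (2 * ∑ i : Fin (m + 1), (d i.succ : ℚ) - (m : ℚ) ^ 2 - ((m : ℚ) + 2) * g1) := by
      linear_combination (m : ℚ) * h1.2 - ((m : ℚ) + 2) * g1 * h2
    rw [hD, mul_zero] at h3
    rcases mul_eq_zero.mp h3.symm with h4 | h4
    · exact hpos.ne' h4
    · linarith

/-- **Main theorem** for `m + 2` elements of weights at least `m + 1`. -/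
theorem crit (hm2 : 2 ≤ m) (hd : StrictMono d) (he : ∀ i, Even (d i)) (h0 : d 0 = m)
    (hex : ¬ (m = 2 ∧ ∀ i : Fin (m + 1), d i.succ = m + 2 * (i.val + 1)))
    (ψ : Fin (m + 2) → A) (hL : ∀ i, ψ i ∈ LieX)
    (hhom : ∀ i u, co (ψ i) u ≠ 0 → u.length = d i + 1)
    (hne : ∀ i, co (ψ i) (wordX [d i]) ≠ 0) : Function.Injective (PhiN ψ) := by
  classical
  have hm : Even m := by rw [← h0]; exact he 0
  set κ : Fin (m + 2) → ℚ := fun i => co (ψ i) (wordX [d i]) with hκ
  have hκ0 : ∀ i, κ i ≠ 0 := hne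
  have hdi : ∀ i, 2 ≤ d i := by
    intro i
    have := hd.monotone (Fin.zero_le i)
    rw [h0] at this
    omega
  set φ : Fin (m + 2) → A := fun i => (κ i)⁻¹ • ψ i with hφ
  have hN : Norm d φ := by
    refine ⟨fun j => ?_, fun j u hu => ?_⟩
    · have h1 := lie_split (hL j) (d j) (by have := hdi j; omega) (hhom j)
      have h2 : φ j - adp (d j) = (κ j)⁻¹ • (ψ j - co (ψ j) (wordX [d j]) • Fm (d j)) := by
        rw [smul_sub, smul_smul, inv_mul_cancel₀ (hκ0 j), one_smul, adp_eq_Fm]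
      rw [h2]
      exact Dp_smul _ h1
    · simp only [hφ] at hu
      rw [co_smul] at hu
      exact hhom j u (right_ne_zero_of_mul hu)
  have hinj := crit_norm hm hm2 hd he h0 hN hex
  refine Pool.Agent.H826R3.DM.taskShearN (m + 2) ψ (fun i => (κ i)⁻¹ • Pi.single i 1) ?_ ?_
  · have hu := (Pi.basisFun ℚ (Fin (m + 2))).linearIndependent.units_smul
      (fun i => Units.mk0 (κ i)⁻¹ (inv_ne_zero (hκ0 i)))
    have e : (fun i => (κ i)⁻¹ • Pi.single i 1 : Fin (m + 2) → Fin (m + 2) → ℚ) =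
        (fun i => Units.mk0 (κ i)⁻¹ (inv_ne_zero (hκ0 i))) • ⇑(Pi.basisFun ℚ (Fin (m + 2))) := by
      funext i
      rw [Pi.smul_apply', Pi.basisFun_apply]
      rfl
    rw [e]
    exact hu
  · have e : (fun i => ∑ j, ((κ i)⁻¹ • (Pi.single i 1 : Fin (m + 2) → ℚ)) j • ψ j) = φ := by
      funext i
      rw [Finset.sum_eq_single i]
      · rw [Pi.smul_apply, Pi.single_eq_same, smul_eq_mul, mul_one]
      · intro j _ hj
        rw [Pi.smul_apply, Pi.single_eq_of_ne hj, smul_zero, zero_smul]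
      · intro h
        exact absurd (Finset.mem_univ _) h
    rw [e]
    exact hinj

end

end Pool.Agent.H492.DG
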