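import Pool.Agent.H492.DG.Core5

/-!
# The theorem for `n ≤ w + 1`, `w` the smallest weight
-/

set_option autoImplicit false

namespace Pool.Agent.H492.DG

open Pool.Agent.H777R4.DM

attribute [local instance 100] LieRing.ofAssociativeRing

/-- **Main theorem**, with weights. -/
theorem crit_weights (n : ℕ) (w : Fin n → ℕ) (hw : Function.Injective w) (ho : ∀ i, Odd (w i))
    (h3 : ∀ i, 3 ≤ w i) (hn : ∀ i, n ≤ w i + 1) (hex : ¬ ({3, 5, 7, 9} : Set ℕ) ⊆ Set.range w)
    (ψ : Fin n → A) (hL : ∀ i, ψ i ∈ LieX)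
    (hhom : ∀ i u, co (ψ i) u ≠ 0 → u.length = w i)
    (hne : ∀ i, co (ψ i) (List.replicate (w i - 1) 0 ++ [1]) ≠ 0) : Function.Injective (PhiN ψ) := by
  by_cases hall : ∀ i, n ≤ w i
  · exact three_weights n w hw ho h3 hall ψ hL hhom hne
  · rw [not_forall] at hall
    obtain ⟨i1, hi1⟩ := hall
    obtain ⟨m, rfl⟩ : ∃ m, n = m + 2 := ⟨n - 2, by have := h3 i1; have := hn i1; omega⟩
    refine perm ψ (Tuple.sort w) ?_
    have hmono : StrictMono (w ∘ Tuple.sort w) :=
      (Tuple.monotone_sort w).strictMono_of_injective (hw.comp (Tuple.sort w).injective)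
    set σ := Tuple.sort w
    have hd : StrictMono (fun i => w (σ i) - 1) := by
      intro i j hij
      have h1 : w (σ i) < w (σ j) := hmono hij
      have h2 := h3 (σ i)
      show w (σ i) - 1 < w (σ j) - 1
      omega
    have h0 : w (σ 0) - 1 = m := by
      have h1 := hn (σ 0)
      have h2 : w (σ 0) ≤ w (σ (σ.symm i1)) := hmono.monotone (Fin.zero_le _)
      rw [Equiv.apply_symm_apply] at h2
      have h4 := h3 (σ 0)
      omega
    refine crit (m := m) (d := fun i => w (σ i) - 1) ?_ hd ?_ h0 ?_ (fun i => ψ (σ i)) (fun i => hL _) ?_ ?_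
    · have h2 := h3 (σ 0)
      omega
    · intro i
      exact Nat.Odd.sub_odd (ho (σ i)) odd_one
    · rintro ⟨hm2, hall2⟩
      subst hm2
      apply hex
      have e0 : w (σ 0) = 3 := by
        have h2 := h3 (σ 0)
        omega
      have e1 : w (σ 1) = 5 := by
        have h2 : w (σ 1) - 1 = 4 := hall2 0
        omega
      have e2 : w (σ 2) = 7 := by
        have h2 : w (σ 2) - 1 = 6 := hall2 1
        omega
      have e3 : w (σ 3) = 9 := by
        have h2 : w (σ 3) - 1 = 8 := hall2 2
        omega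
      rintro x (rfl | rfl | rfl | rfl)
      · exact ⟨_, e0⟩
      · exact ⟨_, e1⟩
      · exact ⟨_, e2⟩
      · exact ⟨_, e3⟩
    · intro i u hu
      have h2 := h3 (σ i)
      rw [hhom _ _ hu]
      show w (σ i) = w (σ i) - 1 + 1
      omega
    · intro i
      exact hne (σ i)

end Pool.Agent.H492.DG
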