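import Mathlib

/-!
# The binomial matrix
-/

set_option autoImplicit false

namespace Pool.Agent.H492.DG

open Finset

/-- the Newton expansion of a product of linear factors -/
theorem newton (a : ℕ → ℚ) : ∀ k : ℕ, ∃ b : ℕ → ℚ, b k = (k.factorial : ℚ) ∧ (∀ l, k < l → b l = 0) ∧
    ∀ x : ℕ, ∏ j ∈ range k, ((x : ℚ) - a j) = ∑ l ∈ range (k + 1), b l * (x.choose l : ℚ)
  | 0 => ⟨fun l => if l = 0 then 1 else 0, by simp, fun l hl => by simp; omega, fun x => by simp⟩
  | k + 1 => by
      obtain ⟨b, hb1, hb2, hb3⟩ := newton a k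
      refine ⟨fun l => (l : ℚ) * (if l = 0 then 0 else b (l - 1)) + ((l : ℚ) - a k) * b l, ?_, ?_, ?_⟩
      · simp only [Nat.succ_ne_zero, if_false, Nat.add_sub_cancel]
        rw [hb2 (k + 1) (by omega), hb1, Nat.factorial_succ]
        push_cast
        ring
      · intro l hl
        have h1 : l ≠ 0 := by omega
        simp only [h1, if_false]
        rw [hb2 l (by omega), hb2 (l - 1) (by omega)]
        ring
      · intro x
        rw [prod_range_succ, hb3 x, sum_mul]
        have h1 : ∀ l ∈ range (k + 1), b l * (x.choose l : ℚ) * ((x : ℚ) - a k) =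
            ((l + 1 : ℕ) : ℚ) * b l * (x.choose (l + 1) : ℚ) + ((l : ℚ) - a k) * b l * (x.choose l : ℚ) := by
          intro l _
          have h2 := Nat.choose_succ_right_eq x l
          have h3 : ((x.choose (l + 1) : ℚ)) * ((l : ℚ) + 1) = (x.choose l : ℚ) * ((x : ℚ) - l) := by
            by_cases h : l ≤ x
            · have : ((x - l : ℕ) : ℚ) = (x : ℚ) - l := by rw [Nat.cast_sub h]
              rw [← this]
              exact_mod_cast h2
            · rw [Nat.choose_eq_zero_of_lt (by omega), Nat.choose_eq_zero_of_lt (by omega)]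
              simp
          push_cast
          linear_combination (-b l) * h3
        rw [sum_congr rfl h1, sum_add_distrib]
        have h2 : ∑ l ∈ range (k + 1 + 1), ((l : ℚ) * (if l = 0 then 0 else b (l - 1)) +
            ((l : ℚ) - a k) * b l) * (x.choose l : ℚ) =
            ∑ l ∈ range (k + 1 + 1), (l : ℚ) * (if l = 0 then 0 else b (l - 1)) * (x.choose l : ℚ) +
            ∑ l ∈ range (k + 1 + 1), ((l : ℚ) - a k) * b l * (x.choose l : ℚ) := by
          rw [← sum_add_distrib]
          exact sum_congr rfl fun l _ => by ring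
        rw [h2, sum_range_succ' _ (k + 1)]
        congr 1
        · simp
        · rw [sum_range_succ _ (k + 1), hb2 (k + 1) (by omega)]
          simp

/-- the matrix `(-1)^l binom(d_i, l)` -/
def Vm {n : ℕ} (d : Fin n → ℕ) : Matrix (Fin n) (Fin n) ℚ :=
  Matrix.of fun i l => (-1) ^ l.val * ((d i).choose l.val : ℚ)

theorem Vm_det {n : ℕ} (d : Fin n → ℕ) (hd : Function.Injective d) : (Vm d).det ≠ 0 := by
  have h1 : Vm d = Matrix.of fun i l : Fin n => ((-1) ^ l.val / (l.val.factorial : ℚ)) *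
      (Matrix.of fun i l : Fin n => (descPochhammer ℚ l.val).eval ((d i : ℚ))) i l := by
    ext i l
    unfold Vm
    rw [Matrix.of_apply, Matrix.of_apply, Matrix.of_apply, descPochhammer_eval_eq_descFactorial,
      Nat.descFactorial_eq_factorial_mul_choose]
    have : (l.val.factorial : ℚ) ≠ 0 := by positivity
    push_cast
    field_simp
  rw [h1, Matrix.det_mul_row]
  refine mul_ne_zero ?_ ?_
  · rw [Finset.prod_ne_zero_iff]
    intro i _
    have : (i.val.factorial : ℚ) ≠ 0 := by positivity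
    exact div_ne_zero (pow_ne_zero _ (by norm_num)) this
  · rw [← Matrix.det_eval_matrixOfPolynomials_eq_det_vandermonde (fun i => (d i : ℚ))
      (fun l : Fin n => descPochhammer ℚ l.val) (fun i => descPochhammer_natDegree ℚ i.val)
      (fun i => monic_descPochhammer ℚ i.val)]
    rw [Matrix.det_vandermonde_ne_zero_iff]
    intro i j hij
    have hij' : (d i : ℚ) = d j := hij
    exact hd (by exact_mod_cast hij')

/-- the entry of the inverse matrix -/
theorem inv_entry {m : ℕ} (hm : Even m) (d : Fin (m + 1) → ℕ) (M : Matrix (Fin (m + 1)) (Fin (m + 1)) ℚ)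
    (hM : M * Vm d = 1) :
    M (Fin.last m) 0 * ∏ j : Fin m, ((d j.succ : ℚ) - d 0) = (m.factorial : ℚ) := by
  obtain ⟨b, hb1, hb2, hb3⟩ := newton (fun j => if h : j < m then (d (Fin.succ ⟨j, h⟩) : ℚ) else 0) m
  -- the values at the `d i`
  have hval : ∀ i : Fin (m + 1), ∏ j : Fin m, ((d i : ℚ) - d j.succ) =
      ∑ l : Fin (m + 1), Vm d i l * ((-1) ^ l.val * b l.val) := by
    intro i
    have h1 := hb3 (d i)
    rw [Finset.prod_range, Finset.sum_range] at h1
    have h2 : ∏ j : Fin m, ((d i : ℚ) - d j.succ) = ∏ j : Fin m, ((d i : ℚ) -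
        if h : j.val < m then (d (Fin.succ ⟨j.val, h⟩) : ℚ) else 0) := by
      refine prod_congr rfl fun j _ => ?_
      rw [dif_pos j.isLt]
    rw [h2, h1]
    refine sum_congr rfl fun l _ => ?_
    unfold Vm
    rw [Matrix.of_apply]
    have h3 : ((-1 : ℚ) ^ l.val) * (-1) ^ l.val = 1 := by rw [← mul_pow]; simp
    linear_combination (-(b l.val) * ((d i).choose l.val : ℚ)) * h3
  have h4 : ∑ i, M (Fin.last m) i * ∏ j : Fin m, ((d i : ℚ) - d j.succ) = (m.factorial : ℚ) := by
    have h5 : ∑ i, M (Fin.last m) i * ∏ j : Fin m, ((d i : ℚ) - d j.succ) =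
        ∑ l : Fin (m + 1), (M * Vm d) (Fin.last m) l * ((-1) ^ l.val * b l.val) := by
      simp_rw [Matrix.mul_apply, sum_mul]
      rw [sum_comm]
      refine sum_congr rfl fun i _ => ?_
      rw [hval i, mul_sum]
      exact sum_congr rfl fun l _ => by ring
    rw [h5, hM, sum_eq_single (Fin.last m)]
    · rw [Matrix.one_apply_eq, Fin.val_last, hm.neg_one_pow, hb1]
      ring
    · intro l _ hl
      rw [Matrix.one_apply_ne (Ne.symm hl), zero_mul]
    · intro h
      exact absurd (mem_univ _) h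
  rw [← h4, Fin.sum_univ_succ]
  have h6 : ∑ i : Fin m, M (Fin.last m) i.succ * ∏ j : Fin m, ((d i.succ : ℚ) - d j.succ) = 0 := by
    refine sum_eq_zero fun i _ => ?_
    rw [prod_eq_zero (mem_univ i) (sub_self _), mul_zero]
  rw [h6, add_zero]
  congr 1
  have h7 : ∀ j : Fin m, ((d j.succ : ℚ) - d 0) = (-1) * ((d 0 : ℚ) - d j.succ) := fun j => by ring
  rw [prod_congr rfl (fun j _ => h7 j), prod_mul_distrib, prod_const, card_univ, Fintype.card_fin,
    hm.neg_one_pow, one_mul]

/-- the gaps of an increasing sequence of even numbers -/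
theorem gap {n : ℕ} (d : Fin n → ℕ) (hd : StrictMono d) (he : ∀ i, Even (d i)) (i j : Fin n)
    (hij : i ≤ j) : d i + 2 * (j.val - i.val) ≤ d j := by
  obtain ⟨k, hk⟩ : ∃ k, j.val - i.val = k := ⟨_, rfl⟩
  have hij' : i.val ≤ j.val := hij
  induction k generalizing j with
  | zero =>
    have : j = i := Fin.ext (by omega)
    rw [this]
    simp
  | succ k ih =>
    have hj : 1 ≤ j.val := by omega
    let j' : Fin n := ⟨j.val - 1, by omega⟩
    have h1 := ih j' (show i.val ≤ j.val - 1 by omega) (show j.val - 1 - i.val = k by omega) (show i.val ≤ j.val - 1 by omega)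
    have h2 : d j' < d j := hd (show j.val - 1 < j.val by omega)
    have h3 := he j'
    have h4 := he j
    have h5 : j'.val = j.val - 1 := rfl
    rw [h5] at h1
    obtain ⟨a, ha⟩ := h3
    obtain ⟨b, hb⟩ := h4
    omega

theorem c_bound {m : ℕ} (d : Fin (m + 1) → ℕ) (hd : StrictMono d) (he : ∀ i, Even (d i)) (c : ℚ)
    (hc : c * ∏ j : Fin m, ((d j.succ : ℚ) - d 0) = (m.factorial : ℚ)) : 0 < c ∧ c * 2 ^ m ≤ 1 := by
  have h1 : ((m.factorial : ℚ)) * 2 ^ m ≤ ∏ j : Fin m, ((d j.succ : ℚ) - d 0) := by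
    have h2 : ((m.factorial : ℚ)) * 2 ^ m = ∏ j : Fin m, (2 * ((j.val : ℚ) + 1)) := by
      rw [prod_mul_distrib, prod_const, card_univ, Fintype.card_fin, mul_comm]
      congr 1
      rw [← Finset.prod_range (fun j => (j : ℚ) + 1), ← Finset.prod_range_add_one_eq_factorial]
      push_cast
      rfl
    rw [h2]
    refine prod_le_prod (fun j _ => by positivity) fun j _ => ?_
    have h3 := gap d hd he 0 j.succ (Fin.zero_le _)
    rw [Fin.val_succ, Fin.val_zero, Nat.sub_zero] at h3
    have h4 : ((d 0 : ℚ)) + 2 * ((j.val : ℚ) + 1) ≤ d j.succ := by exact_mod_cast h3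
    linarith
  have hf : (0 : ℚ) < (m.factorial : ℚ) := by positivity
  have h2m : (0 : ℚ) < 2 ^ m := by positivity
  have hP : (0 : ℚ) < ∏ j : Fin m, ((d j.succ : ℚ) - d 0) := lt_of_lt_of_le (mul_pos hf h2m) h1
  have hc0 : 0 < c := by
    by_contra h
    have h' : c ≤ 0 := not_lt.mp h
    have := mul_nonpos_of_nonpos_of_nonneg h' hP.le
    linarith
  refine ⟨hc0, ?_⟩
  have h5 := mul_le_mul_of_nonneg_left h1 hc0.le
  rw [hc] at h5
  have h6 : (m.factorial : ℚ) * (c * 2 ^ m) ≤ (m.factorial : ℚ) * 1 := by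
    rw [mul_one]
    calc (m.factorial : ℚ) * (c * 2 ^ m) = c * ((m.factorial : ℚ) * 2 ^ m) := by ring
      _ ≤ _ := h5
  exact le_of_mul_le_mul_left h6 hf

end Pool.Agent.H492.DG
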