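import Pool.Agent.H492.DG.JI1
import Pool.Agent.H492.DG.Rel
import Pool.Agent.H492.DG.Mat

/-!
# Depth one data and the bracket in depth two
-/

set_option autoImplicit false

namespace Pool.Agent.H492.DG

open Pool.Agent.H777R4.DM
open Pool.Agent.H777R4.DM.Lead2 (Ge Ge.mul Ge.add Ge.mono)
open Pool.Agent.N568.DSF (Dp)
open Pool.Agent.H337R3.Lead1 (EE EE_hom th_wd)
open H851R3.DSH (wd_append)

/-! ### depth -/

theorem th_len {f : A} {n : ℕ} (hf : Dp n f) : ∀ v, co (θ f) v ≠ 0 → n ≤ v.length := by
  intro v hv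
  rw [Pool.Agent.H777R4.DM.Lead2.expand f, map_sum, co_sum] at hv
  obtain ⟨a, _, ha⟩ := Finset.exists_ne_zero_of_sum_ne_zero hv
  rw [map_smul, co_smul] at ha
  have h1 := hf _ (left_ne_zero_of_mul ha)
  have h2 := right_ne_zero_of_mul ha
  rw [th_wd, co_wd] at h2
  split_ifs at h2 with h3
  · rw [← h3]
    have h4 := word_count (strip (FreeMonoid.toList a)).1 (strip (FreeMonoid.toList a)).2
    rw [wordX_strip] at h4
    omega
  · exact absurd rfl h2

theorem EE_len_wd (u : List (Fin 2)) (l v : List ℕ) (h : co (EE (wd u) (wd l)) v ≠ 0) :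
    v.length = u.count 1 + l.length ∧ v.sum + u.count 1 = u.length + l.sum := by
  have h0 := EE_hom 0 u l v h
  have h1 := EE_hom 1 u l v h
  have h2 := cw_eq 0 u
  have h3 := cw_eq 1 u
  rw [vw_eq, vw_eq] at h0 h1
  constructor <;> omega

theorem EE_len {f : A} {P : AY} {n m : ℕ} (hf : Dp n f) (hP : ∀ v, co P v ≠ 0 → m ≤ v.length) :
    ∀ v, co (EE f P) v ≠ 0 → n + m ≤ v.length := by
  intro v hv
  rw [Pool.Agent.H777R4.DM.Lead2.expand f, Pool.Agent.H777R4.DM.Lead2.expand P, map_sum, co_sum] at hv
  obtain ⟨a, _, ha⟩ := Finset.exists_ne_zero_of_sum_ne_zero hv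
  rw [map_sum, LinearMap.sum_apply, co_sum] at ha
  obtain ⟨b, _, hb⟩ := Finset.exists_ne_zero_of_sum_ne_zero ha
  rw [map_smul, map_smul, LinearMap.smul_apply, co_smul, co_smul] at hb
  have h1 := left_ne_zero_of_mul hb
  have h2 := right_ne_zero_of_mul hb
  have h3 := left_ne_zero_of_mul h2
  have h4 := right_ne_zero_of_mul h2
  have h5 := (EE_len_wd _ _ _ h4).1
  have h6 := hf _ h3
  have h7 := hP _ h1
  omega

/-! ### the weight of the words of `s f g` -/

/-- all words of `P` have weight at least `n` -/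
def Cq (q n : ℕ) (P : A) : Prop := ∀ u, co P u ≠ 0 → n ≤ cw q u

theorem cw_append (q : ℕ) (u v : List (Fin 2)) : cw q (u ++ v) = cw q u + cw q v := by
  simp [cw]

theorem Cq.mul {q a b : ℕ} {P Q : A} (hP : Cq q a P) (hQ : Cq q b Q) : Cq q (a + b) (P * Q) := by
  intro u hu
  obtain ⟨v, w, rfl, h1, h2⟩ := Lead2.co_mul_ne hu
  rw [cw_append]
  have := hP v h1
  have := hQ w h2
  omega

theorem Cq.add {q a : ℕ} {P Q : A} (hP : Cq q a P) (hQ : Cq q a Q) : Cq q a (P + Q) := by
  intro u hu
  rw [co_add] at hu
  by_cases h : co P u = 0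
  · exact hQ u (by rw [h, zero_add] at hu; exact hu)
  · exact hP u h

theorem Cq.sub {q a : ℕ} {P Q : A} (hP : Cq q a P) (hQ : Cq q a Q) : Cq q a (P - Q) := by
  intro u hu
  rw [co_sub] at hu
  by_cases h : co P u = 0
  · exact hQ u (by rw [h, zero_sub] at hu; exact neg_ne_zero.mp hu)
  · exact hP u h

theorem Cq.smul {q a : ℕ} {P : A} (c : ℚ) (hP : Cq q a P) : Cq q a (c • P) := by
  intro u hu
  rw [co_smul] at hu
  exact hP u (right_ne_zero_of_mul hu)

theorem Cq.mono {q a b : ℕ} {P : A} (hP : Cq q a P) (h : b ≤ a) : Cq q b P := fun u hu => h.trans (hP u hu)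

theorem Cq.zero (q a : ℕ) : Cq q a (0 : A) := fun u hu => absurd (co_zero u) hu

theorem Cq.sum {q a : ℕ} {ι : Type} (s : Finset ι) (P : ι → A) (h : ∀ i ∈ s, Cq q a (P i)) :
    Cq q a (∑ i ∈ s, P i) := by
  intro u hu
  rw [co_sum] at hu
  obtain ⟨i, hi, hne⟩ := Finset.exists_ne_zero_of_sum_ne_zero hu
  exact h i hi u hne

theorem Cq.wd (q : ℕ) (v : List (Fin 2)) : Cq q (cw q v) (Pool.Agent.H777R4.DM.wd v) := by
  intro u hu
  rw [co_wd] at hu
  split_ifs at hu with h
  · rw [h]
  · exact absurd rfl hu

theorem derW_cw {q : ℕ} {f : A} {c : ℕ} (hf : Cq q c f) : ∀ v : List (Fin 2),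
    Cq q (cw q v + c) (derW f v)
  | [] => by
      show Cq q _ (0 : A)
      exact Cq.zero _ _
  | i :: v => by
      have e : cw q (i :: v) = cw q [i] + cw q v := cw_append q [i] v
      unfold derW
      refine Cq.add ?_ ?_
      · split_ifs with h
        · subst h
          have h1 : Cq q (cw q [1] + c) (x 1 * f - f * x 1) :=
            ((Cq.wd q [1]).mul hf).sub ((hf.mul (Cq.wd q [1])).mono (by omega))
          exact (h1.mul (Cq.wd q v)).mono (by omega)
        · rw [zero_mul]
          exact Cq.zero _ _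
      · exact ((Cq.wd q [i]).mul (derW_cw hf v)).mono (by omega)

theorem s_cw {q : ℕ} {f g : A} {c d : ℕ} (hf : Cq q c f) (hg : Cq q d g) : Cq q (c + d) (s f g) := by
  have h : s f g = ∑ m ∈ g.coeff.support, co g (FreeMonoid.toList m) • s f (wd (FreeMonoid.toList m)) := by
    conv_lhs => rw [Lead2.expand g]
    rw [map_sum]
    exact Finset.sum_congr rfl fun m _ => by rw [map_smul]
  intro u hu
  rw [h, co_sum] at hu
  obtain ⟨m, _, hm⟩ := Finset.exists_ne_zero_of_sum_ne_zero hu
  rw [co_smul] at hm
  have h1 := hg _ (left_ne_zero_of_mul hm)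
  have h2 := right_ne_zero_of_mul hm
  rw [Pool.Agent.N568.DSF.s_wd] at h2
  have h3 := ((hf.mul (Cq.wd q (FreeMonoid.toList m))).add
    ((derW_cw hf (FreeMonoid.toList m)).mono (by omega))) u h2
  omega

theorem ihara_cw {q : ℕ} {f g : A} {c d : ℕ} (hf : Cq q c f) (hg : Cq q d g) :
    Cq q (c + d) (ihara f g) := by
  rw [ihara_eq]
  exact (s_cw hf hg).sub ((s_cw hg hf).mono (by omega))

/-! ### the bracket in depth two -/

theorem co_wd_mul_two (u v : List ℕ) (k l : ℕ) : co ((wd u : AY) * wd v) [k, l] =
    co (wd u : AY) [] * co (wd v : AY) [k, l] + co (wd u : AY) [k] * co (wd v : AY) [l] +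
      co (wd u : AY) [k, l] * co (wd v : AY) [] := by
  rw [← wd_append]
  simp only [co_wd]
  rcases u with _ | ⟨a, _ | ⟨b, _ | ⟨c, u⟩⟩⟩
  · simp
  · rcases v with _ | ⟨a', _ | ⟨b', v⟩⟩
    · simp
    · by_cases h1 : a = k <;> by_cases h2 : a' = l <;> simp [h1, h2]
    · simp
  · rcases v with _ | ⟨a', v⟩
    · simp
    · simp
  · simp

theorem co_mul_two' (P Q : AY) (k l : ℕ) : co (P * Q) [k, l] =
    co P [] * co Q [k, l] + co P [k] * co Q [l] + co P [k, l] * co Q [] := by
  induction Q using al_induction with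
  | h1 v =>
    induction P using al_induction with
    | h1 u => exact co_wd_mul_two u v k l
    | h2 P R hP hR => rw [add_mul, co_add, hP, hR]; simp only [co_add]; ring
    | h3 t P hP => rw [smul_mul_assoc, co_smul, hP]; simp only [co_smul]; ring
  | h2 Q R hQ hR => rw [mul_add, co_add, hQ, hR]; simp only [co_add]; ring
  | h3 t Q hQ => rw [mul_smul_comm, co_smul, hQ]; simp only [co_smul]; ring

theorem co_mul_two (P Q : AY) (hP : co P [] = 0) (hQ : co Q [] = 0) (k l : ℕ) :
    co (P * Q) [k, l] = co P [k] * co Q [l] := by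
  rw [co_mul_two', hP, hQ]
  ring

/-- `β_k(x) = (-1)^k binom(x, k)` -/
def be (k x : ℕ) : ℚ := (-1) ^ k * (x.choose k : ℚ)

theorem be_symm {d k l : ℕ} (hd : Even d) (h : k + l = d) : be k d = be l d := by
  unfold be
  have h1 : d.choose k = d.choose l := by
    rw [← h, Nat.choose_symm_add]
  rw [h1]
  congr 1
  have h2 : (-1 : ℚ) ^ k * (-1) ^ l = 1 := by
    rw [← pow_add, h]
    exact hd.neg_one_pow
  have h3 : (-1 : ℚ) ^ l * (-1) ^ l = 1 := by
    rw [← mul_pow]; simp
  exact mul_right_cancel₀ (pow_ne_zero l (by norm_num)) (h2.trans h3.symm)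

theorem co_EE_adp_two (d : ℕ) (hd : Even d) (P : AY) (k l : ℕ) : co (EE (adp d) P) [k, l] =
    if d ≤ k + l then (be k d - be l d) * co P [k + l - d] else 0 := by
  have hdp : Dp 1 (adp d) := by
    rw [adp_eq_Fm]
    exact Pool.Agent.N568.DSF.Fm_count d
  induction P using al_induction with
  | h1 v =>
    rcases v with _ | ⟨a, _ | ⟨b, v⟩⟩
    · rw [EE_nil, co_zero, co_wd, if_neg (show ¬ ([] : List ℕ) = [k + l - d] by simp), mul_zero]
      split_ifs <;> rfl
    · rw [EE_adp, co_sum, co_wd]
      have h1 : ∀ i ∈ Finset.range (d + 1), co (((-1 : ℚ) ^ i * (d.choose i : ℚ)) •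
          (wd [d - i, a + i] - wd [a + (d - i), i])) [k, l] =
          (if a + i = l then (if d - i = k then (-1 : ℚ) ^ i * (d.choose i : ℚ) else 0) else 0) -
          (if i = l then (if a + (d - i) = k then (-1 : ℚ) ^ i * (d.choose i : ℚ) else 0) else 0) := by
        intro i _
        rw [co_smul, co_sub, co_wd, co_wd, mul_sub]
        congr 1
        · by_cases h1 : a + i = l <;> by_cases h2 : d - i = k <;> simp [h1, h2]
        · by_cases h1 : i = l <;> by_cases h2 : a + (d - i) = k <;> simp [h1, h2]
      rw [Finset.sum_congr rfl h1, Finset.sum_sub_distrib]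
      by_cases h2 : a + d = k + l
      · rw [if_pos (show d ≤ k + l by omega), if_pos (show [a] = [k + l - d] by
          rw [show k + l - d = a by omega]), mul_one]
        congr 1
        · by_cases h3 : k ≤ d
          · rw [Finset.sum_eq_single (d - k)]
            · rw [if_pos (by omega), if_pos (by omega)]
              have h4 := be_symm hd (show k + (d - k) = d by omega)
              rw [h4]
              rfl
            · intro i hi hik
              rw [Finset.mem_range] at hi
              by_cases h4 : a + i = l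
              · omega
              · rw [if_neg h4]
            · intro h4
              exact absurd (Finset.mem_range.mpr (by omega)) h4
          · unfold be
            rw [Nat.choose_eq_zero_of_lt (by omega), Finset.sum_eq_zero]
            · simp
            · intro i hi
              rw [Finset.mem_range] at hi
              rw [if_neg (by omega)]
        · by_cases h3 : l ≤ d
          · rw [Finset.sum_eq_single l]
            · rw [if_pos rfl, if_pos (by omega)]
              rfl
            · intro i _ hil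
              rw [if_neg hil]
            · intro h4
              exact absurd (Finset.mem_range.mpr (by omega)) h4
          · unfold be
            rw [Nat.choose_eq_zero_of_lt (by omega), Finset.sum_eq_zero]
            · simp
            · intro i hi
              rw [Finset.mem_range] at hi
              rw [if_neg (by omega)]
      · rw [Finset.sum_eq_zero, Finset.sum_eq_zero]
        · split_ifs with h3 h4
          · have h5 : a = k + l - d := by simpa using h4
            omega
          · simp
          · simp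
        · intro i hi
          rw [Finset.mem_range] at hi
          by_cases h4 : i = l
          · rw [if_pos h4, if_neg (by omega)]
          · rw [if_neg h4]
        · intro i hi
          rw [Finset.mem_range] at hi
          by_cases h4 : a + i = l
          · rw [if_pos h4, if_neg (by omega)]
          · rw [if_neg h4]
    · rw [co_wd, if_neg (show ¬ a :: b :: v = [k + l - d] by simp), mul_zero]
      have h1 : co (EE (adp d) (wd (a :: b :: v))) [k, l] = 0 := by
        by_contra h
        have h2 := EE_len (m := v.length + 2) hdp (fun w hw => by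
          rw [co_wd] at hw
          split_ifs at hw with h3
          · rw [← h3]
            simp
          · exact absurd rfl hw) _ h
        simp at h2
        omega
      rw [h1]
      split_ifs <;> rfl
  | h2 P Q hP hQ =>
    rw [map_add, co_add, hP, hQ, co_add]
    split_ifs <;> ring
  | h3 c P hP =>
    rw [map_smul, co_smul, hP, co_smul]
    split_ifs <;> ring

section dat

variable {n : ℕ} (d : Fin n → ℕ)

/-- `f` is `∑ c_i (ad x₀)^(d_i) x₁` in depth one -/
def Dat (f : A) (c : Fin n → ℚ) : Prop := Dp 2 (f - ∑ i, c i • adp (d i))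

variable {d}

theorem Dp_adp (m : ℕ) : Dp 1 (adp m) := by
  rw [adp_eq_Fm]
  exact Pool.Agent.N568.DSF.Fm_count m

theorem Dp_smul {a : ℕ} {P : A} (c : ℚ) (hP : Dp a P) : Dp a (c • P) := by
  intro u hu
  rw [co_smul] at hu
  exact hP u (right_ne_zero_of_mul hu)

theorem Dp_sum {a : ℕ} {ι : Type} (s : Finset ι) (P : ι → A) (h : ∀ i ∈ s, Dp a (P i)) :
    Dp a (∑ i ∈ s, P i) := by
  intro u hu
  rw [co_sum] at hu
  obtain ⟨i, hi, hne⟩ := Finset.exists_ne_zero_of_sum_ne_zero hu
  exact h i hi u hne

theorem Dat.dp {f : A} {c : Fin n → ℚ} (h : Dat d f c) : Dp 1 f := by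
  have e : f = (f - ∑ i, c i • adp (d i)) + ∑ i, c i • adp (d i) := by abel
  rw [e]
  exact Dp.add (h.mono (by omega)) (Dp_sum _ _ fun i _ => Dp_smul _ (Dp_adp _))

theorem Dat.nil {f : A} {c : Fin n → ℚ} (h : Dat d f c) : co (θ f) [] = 0 := by
  by_contra hne
  have := th_len h.dp _ hne
  simp at this

theorem co_th_adp (m k : ℕ) (hm : Even m) : co (θ (adp m)) [k] = be k m := by
  rw [th_adp, co_sum]
  by_cases h : k ≤ m
  · rw [Finset.sum_eq_single (m - k)]
    · rw [co_smul, co_wd, if_pos (by rw [show m - (m - k) = k by omega]), mul_one]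
      exact (be_symm hm (show k + (m - k) = m by omega)).symm
    · intro i hi hik
      rw [Finset.mem_range] at hi
      rw [co_smul, co_wd, if_neg, mul_zero]
      intro h1
      have h2 : m - i = k := by simpa using h1
      omega
    · intro h1
      exact absurd (Finset.mem_range.mpr (by omega)) h1
  · unfold be
    rw [Nat.choose_eq_zero_of_lt (by omega), Finset.sum_eq_zero]
    · simp
    · intro i hi
      rw [co_smul, co_wd, if_neg, mul_zero]
      intro h1
      have h2 : m - i = k := by simpa using h1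
      omega

theorem Dat.one (hd : ∀ i, Even (d i)) {f : A} {c : Fin n → ℚ} (h : Dat d f c) (k : ℕ) :
    co (θ f) [k] = ∑ i, c i * be k (d i) := by
  have e : f = (f - ∑ i, c i • adp (d i)) + ∑ i, c i • adp (d i) := by abel
  have h1 : co (θ (f - ∑ i, c i • adp (d i))) [k] = 0 := by
    by_contra hne
    have := th_len h _ hne
    simp at this
  rw [e, map_add, co_add, h1, zero_add, map_sum, co_sum]
  refine Finset.sum_congr rfl fun i _ => ?_
  rw [map_smul, co_smul, co_th_adp _ _ (hd i)]

theorem Dat.EE (hd : ∀ i, Even (d i)) {f : A} {c : Fin n → ℚ} (h : Dat d f c) (P : AY)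
    (hP : co P [] = 0) (k l : ℕ) : co (EE f P) [k, l] =
    ∑ i, if d i ≤ k + l then c i * (be k (d i) - be l (d i)) * co P [k + l - d i] else 0 := by
  have hPl : ∀ v, co P v ≠ 0 → 1 ≤ v.length := by
    intro v hv
    rcases v with _ | ⟨a, v⟩
    · exact absurd hP hv
    · simp
  have e : f = (f - ∑ i, c i • adp (d i)) + ∑ i, c i • adp (d i) := by abel
  have h1 : co (Pool.Agent.H337R3.Lead1.EE (f - ∑ i, c i • adp (d i)) P) [k, l] = 0 := by
    by_contra hne
    have := EE_len h hPl _ hne
    simp at this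
  rw [e, map_add, LinearMap.add_apply, co_add, h1, zero_add, map_sum, LinearMap.sum_apply, co_sum]
  refine Finset.sum_congr rfl fun i _ => ?_
  rw [map_smul, LinearMap.smul_apply, co_smul, co_EE_adp_two _ (hd i)]
  split_ifs <;> ring

/-- **the bracket in depth two** -/
theorem Dat.bracket (hd : ∀ i, Even (d i)) {f g : A} {c c' : Fin n → ℚ} (hf : Dat d f c)
    (hg : Dat d g c') (k l : ℕ) : co (θ (ihara f g)) [k, l] =
    co (θ g) [k] * co (θ f) [l] - co (θ f) [k] * co (θ g) [l] +
      ∑ i, if d i ≤ k + l then (be k (d i) - be l (d i)) *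
        (c i * co (θ g) [k + l - d i] - c' i * co (θ f) [k + l - d i]) else 0 := by
  rw [ihara_eq, map_sub, co_sub, th_s_eq, th_s_eq, co_add, co_add, co_mul_two _ _ hg.nil hf.nil,
    co_mul_two _ _ hf.nil hg.nil, hf.EE hd _ hg.nil, hg.EE hd _ hf.nil]
  have h1 : ∀ i, (if d i ≤ k + l then (be k (d i) - be l (d i)) *
        (c i * co (θ g) [k + l - d i] - c' i * co (θ f) [k + l - d i]) else 0) =
      (if d i ≤ k + l then c i * (be k (d i) - be l (d i)) * co (θ g) [k + l - d i] else 0) -
      (if d i ≤ k + l then c' i * (be k (d i) - be l (d i)) * co (θ f) [k + l - d i] else 0) := by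
    intro i
    split_ifs <;> ring
  rw [Finset.sum_congr rfl (fun i _ => h1 i), Finset.sum_sub_distrib]
  ring

theorem Dat.sum {ι : Type} [Fintype ι] (f : ι → A) (c : ι → Fin n → ℚ) (x : ι → ℚ)
    (h : ∀ j, Dat d (f j) (c j)) : Dat d (∑ j, x j • f j) (fun i => ∑ j, x j * c j i) := by
  unfold Dat
  have e : ∑ j, x j • f j - ∑ i, (∑ j, x j * c j i) • adp (d i) =
      ∑ j, x j • (f j - ∑ i, c j i • adp (d i)) := by
    simp_rw [smul_sub, Finset.sum_sub_distrib, Finset.smul_sum, smul_smul, Finset.sum_smul]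
    rw [Finset.sum_comm]
  rw [e]
  exact Dp_sum _ _ fun j _ => Dp_smul _ (h j)

end dat

end Pool.Agent.H492.DG
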