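import Pool.Agent.H492.DG.Joint

/-!
# Injectivity of `g ↦ g y_m + c δ_m g`, where `δ_m = EE ((ad x₀)^m x₁)`
-/

set_option autoImplicit false

namespace Pool.Agent.H492.DG

open Pool.Agent.H777R4.DM
open Pool.Agent.H337R3.Lead1 (EE)
open H851R3.DSH (wd_append)

/-- the diagonal coefficient -/
def mu (m : ℕ) (l : List ℕ) : ℚ := match l.getLast? with
  | none => 0
  | some a => (-1) ^ a * (m.choose a : ℚ) - 1

theorem mu_nil (m : ℕ) : mu m [] = 0 := rfl

theorem mu_snoc (m a : ℕ) (l : List ℕ) : mu m (l ++ [a]) = (-1) ^ a * (m.choose a : ℚ) - 1 := by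
  unfold mu
  simp

theorem mu_m (m : ℕ) (hm : Even m) (l : List ℕ) : mu m (l ++ [m]) = 0 := by
  rw [mu_snoc, hm.neg_one_pow, Nat.choose_self]
  simp

theorem wd_mul_pair (l : List ℕ) (a b : ℕ) : (wd l : AY) * wd [a, b] = wd (l ++ [a] ++ [b]) := by
  rw [← wd_append]
  congr 1
  simp

theorem EE_nil (f : A) : EE f (wd []) = 0 := by
  rw [Pool.Agent.H337R3.Lead1.wd_nil]
  exact EE_one f

theorem EE_snoc (f : A) (l : List ℕ) (a : ℕ) :
    EE f (wd (l ++ [a])) = EE f (wd l) * wd [a] + wd l * EE f (wd [a]) := by
  rw [wd_append, EE_mul]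

/-- no constant term -/
theorem co_EE_adp_nil (m : ℕ) (P : AY) : co (EE (adp m) P) [] = 0 := by
  induction P using al_induction with
  | h1 l =>
    rcases List.eq_nil_or_concat l with rfl | ⟨l0, a, rfl⟩
    · rw [EE_nil, co_zero]
    · rw [List.concat_eq_append, EE_snoc, co_add, co_mul_wd_nil, zero_add, EE_adp, Finset.mul_sum, co_sum]
      refine Finset.sum_eq_zero fun i _ => ?_
      rw [mul_smul_comm, co_smul, mul_sub, co_sub, wd_mul_pair, wd_mul_pair, co_wd, co_wd,
        if_neg (by simp), if_neg (by simp)]
      simp
  | h2 P Q hP hQ => rw [map_add, co_add, hP, hQ, add_zero]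
  | h3 c P hP => rw [map_smul, co_smul, hP, mul_zero]

theorem snoc_inj {l l' : List ℕ} {a b : ℕ} : l ++ [a] = l' ++ [b] ↔ l = l' ∧ a = b := by
  constructor
  · intro h
    have := List.append_inj' h rfl
    exact ⟨this.1, by simpa using this.2⟩
  · rintro ⟨rfl, rfl⟩
    rfl

/-- **the coefficients of `δ_m P` at the words ending with `m`** -/
theorem co_EE_snoc (m : ℕ) (hm : Even m) (P : AY) (l' : List ℕ) :
    co (EE (adp m) P) (l' ++ [m]) = mu m l' * co P l' + co (EE (adp m) (rq m P)) l' := by
  induction P using al_induction with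
  | h1 l =>
    rcases List.eq_nil_or_concat l with rfl | ⟨l0, a, rfl⟩
    · rw [EE_nil, co_zero, rq_nil, map_zero, co_zero, co_wd]
      split_ifs with h
      · rw [← h, mu_nil]
        ring
      · ring
    · rw [List.concat_eq_append, EE_snoc, co_add, co_mul_wd_snoc, rq_snoc]
      have h1 : (if a = m then co (EE (adp m) (wd l0)) l' else 0) =
          co (EE (adp m) (if a = m then wd l0 else 0)) l' := by
        split_ifs with h
        · rfl
        · rw [map_zero, co_zero]
      rw [h1, add_comm (co _ l')]
      congr 1
      rw [EE_adp, Finset.mul_sum, co_sum]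
      have h2 : ∀ i ∈ Finset.range (m + 1), co ((wd l0 : AY) * (((-1 : ℚ) ^ i * (m.choose i : ℚ)) •
          (wd [m - i, a + i] - wd [a + (m - i), i]))) (l' ++ [m]) =
          (if a + i = m then (if l0 ++ [a] = l' then (-1 : ℚ) ^ a * (m.choose a : ℚ) else 0) else 0) -
          (if i = m then (if l0 ++ [a] = l' then (1 : ℚ) else 0) else 0) := by
        intro i hi
        rw [mul_smul_comm, co_smul, mul_sub, co_sub, wd_mul_pair, wd_mul_pair, co_wd, co_wd, mul_sub]
        congr 1
        · by_cases h : a + i = m
          · have e1 : m - i = a := by omega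
            rw [if_pos h, e1, h]
            by_cases h3 : l0 ++ [a] = l'
            · rw [if_pos h3, if_pos (by rw [h3]), mul_one]
              have e2 : i = m - a := by omega
              subst e2
              rw [Nat.choose_symm (by omega)]
              congr 1
              have h4 : (-1 : ℚ) ^ (m - a) * (-1) ^ a = 1 := by
                rw [← pow_add, Nat.sub_add_cancel (by omega)]
                exact hm.neg_one_pow
              have h5 : (-1 : ℚ) ^ a * (-1) ^ a = 1 := by
                rw [← mul_pow]; simp
              have h6 : (-1 : ℚ) ^ a ≠ 0 := by positivity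
              exact mul_right_cancel₀ h6 (h4.trans h5.symm)
            · rw [if_neg h3, if_neg (fun h4 => h3 (snoc_inj.mp h4).1), mul_zero]
          · rw [if_neg h, if_neg (fun h4 => h (snoc_inj.mp h4).2), mul_zero]
        · by_cases h : i = m
          · subst h
            rw [if_pos rfl, Nat.sub_self, Nat.add_zero, hm.neg_one_pow, Nat.choose_self]
            by_cases h3 : l0 ++ [a] = l'
            · rw [if_pos h3, if_pos (by rw [h3])]
              simp
            · rw [if_neg h3, if_neg (fun h4 => h3 (snoc_inj.mp h4).1), mul_zero]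
          · rw [if_neg h, if_neg (fun h4 => h (snoc_inj.mp h4).2), mul_zero]
      rw [Finset.sum_congr rfl h2, Finset.sum_sub_distrib, co_wd]
      by_cases h3 : l0 ++ [a] = l'
      · simp only [if_pos h3]
        rw [mul_one, ← h3, mu_snoc]
        congr 1
        · by_cases h4 : a ≤ m
          · rw [Finset.sum_eq_single (m - a)]
            · rw [if_pos (by omega)]
            · intro i _ hi
              rw [if_neg (by omega)]
            · intro h
              exact absurd (Finset.mem_range.mpr (by omega)) h
          · rw [Nat.choose_eq_zero_of_lt (by omega), Nat.cast_zero, mul_zero]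
            refine Finset.sum_eq_zero fun i _ => ?_
            split_ifs <;> rfl
        · rw [Finset.sum_eq_single m]
          · rw [if_pos rfl]
          · intro i _ hi
            rw [if_neg hi]
          · intro h
            exact absurd (Finset.mem_range.mpr (by omega)) h
      · simp only [if_neg h3]
        simp
  | h2 P Q hP hQ =>
    rw [map_add, co_add, co_add, hP, hQ, map_add, map_add, co_add]
    ring
  | h3 c P hP =>
    rw [map_smul, co_smul, co_smul, hP, map_smul, map_smul, co_smul]
    ring

/-- the operator `g ↦ g y_m + c δ_m g` is injective, even modulo the words not ending with `m` -/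
theorem inj_m (m : ℕ) (hm : Even m) (c : ℚ) (hc : ∀ l, 1 + c * mu m l ≠ 0) (P : AY)
    (h : ∀ l', co P l' + c * co (EE (adp m) P) (l' ++ [m]) = 0) : P = 0 := by
  have key : ∀ k : ℕ, ∀ P : AY, (∀ w, co P w ≠ 0 → w.length < k) →
      (∀ l', co P l' + c * co (EE (adp m) P) (l' ++ [m]) = 0) → P = 0 := by
    intro k
    induction k with
    | zero =>
      intro P hP _
      apply al_ext
      intro w
      rw [co_zero]
      by_contra h
      exact absurd (hP w h) (Nat.not_lt_zero _)
    | succ k ih =>
      intro P hP h
      have h1 : ∀ l', (1 + c * mu m l') * co P l' + c * co (EE (adp m) (rq m P)) l' = 0 := by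
        intro l'
        rw [← h l', co_EE_snoc m hm P l']
        ring
      have h2 : rq m P = 0 := by
        apply ih
        · intro w hw
          rw [co_rq] at hw
          have := hP _ hw
          rw [List.length_append, List.length_singleton] at this
          omega
        · intro l'
          have := h1 (l' ++ [m])
          rw [mu_m m hm, mul_zero, add_zero, one_mul] at this
          rw [co_rq]
          exact this
      apply al_ext
      intro l'
      have h3 := h1 l'
      rw [h2, map_zero, co_zero, mul_zero, add_zero] at h3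
      rw [co_zero]
      exact (mul_eq_zero.mp h3).resolve_left (hc l')
  classical
  refine key ((P.coeff.support.sup fun m => (FreeMonoid.toList m).length) + 1) P ?_ h
  intro w hw
  rw [Nat.lt_succ_iff]
  have : FreeMonoid.ofList w ∈ P.coeff.support := Finsupp.mem_support_iff.mpr hw
  exact Finset.le_sup (f := fun m => (FreeMonoid.toList m).length) this

/-- `1 + c μ ≠ 0` for `0 < c ≤ 2^(-m)` -/
theorem mu_bound (m : ℕ) (hm : Even m) (hm2 : 2 ≤ m) (c : ℚ) (hc0 : 0 < c) (hc1 : c * 2 ^ m ≤ 1)
    (l : List ℕ) : 0 < 1 + c * mu m l := by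
  have h2m : (4 : ℚ) ≤ 2 ^ m := by
    calc (4 : ℚ) = 2 ^ 2 := by norm_num
      _ ≤ 2 ^ m := pow_le_pow_right₀ (by norm_num) hm2
  rcases List.eq_nil_or_concat l with rfl | ⟨l0, a, rfl⟩
  · rw [mu_nil]
    simp
  · rw [List.concat_eq_append, mu_snoc]
    rcases Nat.even_or_odd a with ha | ha
    · rw [ha.neg_one_pow, one_mul]
      have h1 : (0 : ℚ) ≤ (m.choose a : ℚ) := Nat.cast_nonneg _
      nlinarith
    · rw [ha.neg_one_pow]
      have h1 : m.choose a + 2 ≤ 2 ^ m := by
        rw [← Nat.sum_range_choose m]
        by_cases h : a ≤ m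
        · have ha0 : a ≠ 0 := by rintro rfl; exact absurd ha (by decide)
          have ham : a ≠ m := by rintro rfl; exact (Nat.not_odd_iff_even.mpr hm) ha
          have hsub : ({0, a, m} : Finset ℕ) ⊆ Finset.range (m + 1) := by
            intro x hx
            simp only [Finset.mem_insert, Finset.mem_singleton] at hx
            rw [Finset.mem_range]
            omega
          refine le_trans ?_ (Finset.sum_le_sum_of_subset hsub)
          rw [Finset.sum_insert (by simp only [Finset.mem_insert, Finset.mem_singleton]; omega),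
            Finset.sum_insert (by simp only [Finset.mem_singleton]; omega), Finset.sum_singleton,
            Nat.choose_zero_right, Nat.choose_self]
          omega
        · rw [Nat.choose_eq_zero_of_lt (by omega), Nat.sum_range_choose]
          calc 0 + 2 ≤ 2 ^ 1 := by norm_num
            _ ≤ 2 ^ m := Nat.pow_le_pow_right (by norm_num) (by omega)
      have h2 : ((m.choose a : ℚ) + 2) ≤ 2 ^ m := by exact_mod_cast h1
      have h3 : c * ((m.choose a : ℚ) + 2) ≤ 1 := le_trans (mul_le_mul_of_nonneg_left h2 hc0.le) hc1
      nlinarith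

/-- joint injectivity -/
theorem joint_inj {n : ℕ} (m : ℕ) (hm : Even m) (c : ℚ)
    (hc : ∀ l, 1 + c * mu m l ≠ 0) (h : Fin n → A)
    (hh : ∀ i, h i = if i.val = m then c • adp m else 0) (g : Fin n → AY)
    (h0 : ∑ i, opT (h i) (wd [i.val]) (g i) = 0) : ∀ i, g i = 0 := by
  have hE : ∀ i, opT (h i) (wd [i.val]) (g i) = g i * wd [i.val] +
      if i.val = m then c • EE (adp m) (g i) else 0 := by
    intro i
    rw [opT_apply, hh]
    split_ifs with h1
    · rw [map_smul, LinearMap.smul_apply]
    · rw [map_zero, LinearMap.zero_apply]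
  rw [Finset.sum_congr rfl (fun i _ => hE i)] at h0
  have hgm : ∀ i : Fin n, i.val = m → g i = 0 := by
    intro i hi
    apply inj_m m hm c hc
    intro l'
    have h1 := congrArg (fun Q => co Q (l' ++ [m])) h0
    simp only [co_zero] at h1
    rw [co_sum, Finset.sum_eq_single i] at h1
    · rw [co_add, if_pos hi, co_smul, co_mul_wd_snoc, if_pos hi] at h1
      exact h1
    · intro j _ hj
      have hj' : j.val ≠ m := fun h => hj (Fin.ext (h.trans hi.symm))
      rw [co_add, if_neg hj', co_zero, co_mul_wd_snoc, if_neg hj', add_zero]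
    · intro h
      exact absurd (Finset.mem_univ i) h
  intro i
  by_cases hi : i.val = m
  · exact hgm i hi
  · apply al_ext
    intro l'
    have h1 := congrArg (fun Q => co Q (l' ++ [i.val])) h0
    simp only [co_zero] at h1
    rw [co_zero]
    rw [co_sum, Finset.sum_eq_single i] at h1
    · rw [co_add, if_neg hi, co_mul_wd_snoc, if_pos rfl, co_zero, add_zero] at h1
      exact h1
    · intro j _ hj
      have hj' : j.val ≠ i.val := fun h => hj (Fin.ext h)
      rw [co_add, co_mul_wd_snoc, if_neg hj', zero_add]
      split_ifs with h2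
      · rw [hgm j h2, map_zero, smul_zero, co_zero]
      · rw [co_zero]
    · intro h
      exact absurd (Finset.mem_univ i) h

theorem words_inj {n : ℕ} (m : ℕ) (hm : Even m) (c : ℚ)
    (hc : ∀ l, 1 + c * mu m l ≠ 0) (h : Fin n → A)
    (hh : ∀ i, h i = if i.val = m then c • adp m else 0) (P : Al (Fin n))
    (hP : EvT (fun i => opT (h i) (wd [i.val])) P = 0) : P = 0 := by
  refine EvT_inj _ ?_ ?_ P hP
  · intro i g
    rw [opT_apply, co_add, co_mul_wd_nil, zero_add, hh]
    split_ifs with h1
    · rw [map_smul, LinearMap.smul_apply, co_smul, co_EE_adp_nil, mul_zero]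
    · rw [map_zero, LinearMap.zero_apply, co_zero]
  · intro g hg
    exact joint_inj m hm c hc h hh g hg

end Pool.Agent.H492.DG
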