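import Pool.Agent.H492.DG.Span

/-!
# Joint injectivity with one derivation and one multiplication by a quadratic element
-/

set_option autoImplicit false

namespace Pool.Agent.H492.DG

open Pool.Agent.H777R4.DM
open Pool.Agent.H337R3.Lead1 (EE)
open H851R3.DSH (wd_append)

theorem rq_mul (c : ℕ) (P Q : AY) : rq c (P * Q) = P * rq c Q + co Q [] • rq c P := by
  induction Q using al_induction with
  | h1 l =>
    rcases List.eq_nil_or_concat l with rfl | ⟨l0, a, rfl⟩
    · rw [rq_nil, mul_zero, zero_add, co_wd, if_pos rfl, one_smul, wd_one', mul_one]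
    · rw [List.concat_eq_append, wd_append, ← mul_assoc, rq_mul_wd, ← wd_append, rq_snoc, co_wd,
        if_neg (show ¬ l0 ++ [a] = [] by simp), zero_smul, add_zero]
      split_ifs
      · rfl
      · rw [mul_zero]
  | h2 Q R hQ hR => rw [mul_add, map_add, hQ, hR, map_add, co_add, add_smul, mul_add]; abel
  | h3 t Q hQ => rw [mul_smul_comm, map_smul, hQ, map_smul, co_smul, smul_add, mul_smul, mul_smul_comm]

theorem rq_EE (m c : ℕ) (hc : m < c) (B : AY) : rq c (EE (adp m) B) = EE (adp m) (rq c B) +
    ∑ i ∈ Finset.range (m + 1), ((-1 : ℚ) ^ i * (m.choose i : ℚ)) • (rq (c - i) B * wd [m - i]) := by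
  induction B using al_induction with
  | h1 l =>
    rcases List.eq_nil_or_concat l with rfl | ⟨l0, a, rfl⟩
    · rw [EE_nil, map_zero, rq_nil, map_zero, zero_add, Finset.sum_eq_zero]
      intro i _
      rw [rq_nil, zero_mul, smul_zero]
    · rw [List.concat_eq_append, EE_snoc, map_add, rq_mul_wd, rq_snoc]
      congr 1
      · split_ifs
        · rfl
        · rw [map_zero]
      · rw [EE_adp, Finset.mul_sum, map_sum]
        refine Finset.sum_congr rfl fun i hi => ?_
        rw [Finset.mem_range] at hi
        rw [mul_smul_comm, map_smul]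
        congr 1
        rw [mul_sub, wd_mul_pair, wd_mul_pair, map_sub, rq_snoc, rq_snoc, if_neg (show ¬ i = c by omega),
          sub_zero, rq_snoc]
        by_cases h : a = c - i
        · rw [if_pos h, if_pos (by omega), ← wd_append]
        · rw [if_neg h, if_neg (by omega), zero_mul]
  | h2 P Q hP hQ =>
    rw [map_add, map_add, hP, hQ, map_add, map_add]
    have : ∀ i ∈ Finset.range (m + 1), ((-1 : ℚ) ^ i * (m.choose i : ℚ)) • (rq (c - i) (P + Q) * wd [m - i]) =
        ((-1 : ℚ) ^ i * (m.choose i : ℚ)) • (rq (c - i) P * wd [m - i]) +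
        ((-1 : ℚ) ^ i * (m.choose i : ℚ)) • (rq (c - i) Q * wd [m - i]) := by
      intro i _
      rw [map_add, add_mul, smul_add]
    rw [Finset.sum_congr rfl this, Finset.sum_add_distrib]
    abel
  | h3 t P hP =>
    rw [map_smul, map_smul, hP, map_smul, map_smul, smul_add, Finset.smul_sum]
    congr 1
    refine Finset.sum_congr rfl fun i _ => ?_
    rw [map_smul, smul_mul_assoc, smul_comm]

theorem rq_bound (B : AY) : ∃ K, ∀ c, K ≤ c → rq c B = 0 := by
  classical
  refine ⟨(B.coeff.support.sup fun m => (FreeMonoid.toList m).sum) + 1, fun c hc => ?_⟩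
  apply al_ext
  intro w
  rw [co_rq, co_zero]
  by_contra h
  have h1 : FreeMonoid.ofList (w ++ [c]) ∈ B.coeff.support := Finsupp.mem_support_iff.mpr h
  have h2 := Finset.le_sup (f := fun m => (FreeMonoid.toList m).sum) h1
  simp at h2
  omega

theorem mul_wd_eq_zero {P : AY} {a : ℕ} (h : P * wd [a] = 0) : P = 0 := by
  have h1 := rq_mul_wd a a P
  rw [if_pos rfl, h, map_zero] at h1
  exact h1.symm

/-- joint injectivity, `t = 1` -/
theorem JI_one (m : ℕ) (hm : Even m) (h2 : 2 ≤ m) (σ : AY)
    (hσ : ∀ v, co σ v ≠ 0 → v.length = 2 ∧ v.sum = m + 2)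
    (hD : (m : ℚ) * co σ [0, m + 2] + co σ [1, m + 1] ≠ 0) (g1 : ℚ) (hg1 : g1 ≠ 0)
    (B C : AY) (l : ℚ)
    (h : ∀ c, m + 1 ≤ c → rq c (EE (adp m) B + C * σ + l • (g1 • wd [m + 1])) = 0) :
    C = 0 ∧ l = 0 ∧ ∀ c, 1 ≤ c → rq c B = 0 := by
  -- quotients of `σ`
  have hσ0 : co σ [] = 0 := by
    by_contra h
    have := (hσ _ h).1
    simp at this
  have hσc : ∀ c, rq c (C * σ) = C * rq c σ := by
    intro c
    rw [rq_mul, hσ0, zero_smul, add_zero]
  have hσ1 : ∀ c, m + 2 < c → rq c σ = 0 := by
    intro c hc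
    apply al_ext
    intro w
    rw [co_rq, co_zero]
    by_contra h
    have := (hσ _ h).2
    rw [List.sum_append, List.sum_singleton] at this
    omega
  have hσ2 : ∀ a c, a + c = m + 2 → rq c σ = co σ [a, c] • wd [a] := by
    intro a c hac
    apply al_ext
    intro w
    rw [co_rq, co_smul, co_wd]
    by_cases hw : [a] = w
    · rw [if_pos hw, ← hw, mul_one]
      rfl
    · rw [if_neg hw, mul_zero]
      by_contra h
      obtain ⟨h3, h4⟩ := hσ _ h
      rw [List.length_append, List.length_singleton] at h3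
      rw [List.sum_append, List.sum_singleton] at h4
      obtain ⟨b, rfl⟩ := List.length_eq_one_iff.mp (show w.length = 1 by omega)
      rw [List.sum_singleton] at h4
      apply hw
      rw [show a = b by omega]
  -- the equations
  have heq : ∀ c, m + 1 ≤ c → EE (adp m) (rq c B) +
      ∑ i ∈ Finset.range (m + 1), ((-1 : ℚ) ^ i * (m.choose i : ℚ)) • (rq (c - i) B * wd [m - i]) +
      C * rq c σ + l • (g1 • rq c (wd [m + 1] : AY)) = 0 := by
    intro c hc
    have h3 := h c hc
    rw [map_add, map_add, rq_EE m c (by omega), hσc, map_smul, map_smul] at h3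
    exact h3
  have hw : ∀ c, m + 2 ≤ c → rq c (wd [m + 1] : AY) = 0 := by
    intro c hc
    have e : (wd [m + 1] : AY) = 1 * wd [m + 1] := (one_mul _).symm
    rw [e, rq_mul_wd, if_neg (by omega)]
  have hw1 : rq (m + 1) (wd [m + 1] : AY) = 1 := by
    have e : (wd [m + 1] : AY) = 1 * wd [m + 1] := (one_mul _).symm
    rw [e, rq_mul_wd, if_pos rfl]
  -- large letters
  obtain ⟨K, hK⟩ := rq_bound B
  have hbig : ∀ j c, 3 ≤ c → K ≤ c + j → rq c B = 0 := by
    intro j
    induction j with
    | zero => exact fun c _ hc => hK c hc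
    | succ j ih =>
      intro c hc3 hcK
      have h4 := heq (c + m) (by omega)
      rw [hσ1 (c + m) (by omega), hw (c + m) (by omega), mul_zero, smul_zero, smul_zero, add_zero, add_zero,
        ih (c + m) (by omega) (by omega), map_zero, zero_add, Finset.sum_eq_single m] at h4
      · rw [hm.neg_one_pow, Nat.choose_self, Nat.add_sub_cancel, Nat.sub_self] at h4
        simp only [Nat.cast_one, mul_one, one_smul] at h4
        exact mul_wd_eq_zero h4
      · intro i hi him
        rw [Finset.mem_range] at hi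
        rw [ih (c + m - i) (by omega) (by omega), zero_mul, smul_zero]
      · intro h5
        exact absurd (Finset.mem_range.mpr (Nat.lt_succ_self m)) h5
  have h3c : ∀ c, 3 ≤ c → rq c B = 0 := fun c hc => hbig K c hc (by omega)
  -- the letter `m + 2`
  have e2 := heq (m + 2) (by omega)
  rw [hσ2 0 (m + 2) (by omega), hw (m + 2) (by omega), smul_zero, smul_zero, add_zero, h3c (m + 2) (by omega),
    map_zero, zero_add, Finset.sum_eq_single m] at e2
  rotate_left
  · intro i hi him
    rw [Finset.mem_range] at hi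
    rw [h3c (m + 2 - i) (by omega), zero_mul, smul_zero]
  · intro h5
    exact absurd (Finset.mem_range.mpr (Nat.lt_succ_self m)) h5
  rw [hm.neg_one_pow, Nat.choose_self, Nat.sub_self, show m + 2 - m = 2 by omega, mul_smul_comm] at e2
  simp only [Nat.cast_one, mul_one, one_smul] at e2
  rw [← smul_mul_assoc, ← add_mul] at e2
  have hB2 : rq 2 B = -(co σ [0, m + 2] • C) := eq_neg_of_add_eq_zero_left (mul_wd_eq_zero e2)
  -- the letter `m + 1`
  have e1 := heq (m + 1) (by omega)
  have hsum : ∑ i ∈ Finset.range (m + 1), ((-1 : ℚ) ^ i * (m.choose i : ℚ)) •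
      (rq (m + 1 - i) B * wd [m - i]) = rq 1 B * wd [0] - (m : ℚ) • (rq 2 B * wd [1]) := by
    rw [Finset.sum_range_succ, hm.neg_one_pow, Nat.choose_self, Nat.add_sub_cancel_left, Nat.sub_self]
    simp only [Nat.cast_one, mul_one, one_smul]
    rw [Finset.sum_eq_single (m - 1)]
    · have hodd : Odd (m - 1) := by
        obtain ⟨r, hr⟩ := hm
        exact ⟨r - 1, by omega⟩
      have hch : m.choose (m - 1) = m := by
        rw [Nat.choose_symm (show 1 ≤ m by omega)]
        exact Nat.choose_one_right m
      rw [hodd.neg_one_pow, hch, show m + 1 - (m - 1) = 2 by omega, show m - (m - 1) = 1 by omega]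
      rw [neg_one_mul, neg_smul]
      abel
    · intro i hi him
      rw [Finset.mem_range] at hi
      rw [h3c (m + 1 - i) (by omega), zero_mul, smul_zero]
    · intro h5
      exact absurd (Finset.mem_range.mpr (by omega)) h5
  rw [hsum, hσ2 1 (m + 1) (by omega), hw1, h3c (m + 1) (by omega), map_zero, zero_add, hB2] at e1
  -- constant term
  have hl : l = 0 := by
    have h5 := congrArg (fun Q => co Q []) e1
    simp only [co_add, co_sub, co_smul, co_zero, mul_smul_comm] at h5
    rw [co_mul_wd_nil, co_mul_wd_nil, co_mul_wd_nil, ← wd_one', co_wd, if_pos rfl] at h5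
    have h6 : l * g1 = 0 := by linarith
    exact (mul_eq_zero.mp h6).resolve_right hg1
  have hC : C = 0 := by
    have h5 := congrArg (fun Q => rq 1 Q) e1
    simp only [map_add, map_sub, map_smul, map_zero, mul_smul_comm] at h5
    rw [rq_mul_wd, rq_mul_wd, rq_mul_wd, rq_one, if_neg (by omega), if_pos rfl, if_pos rfl, hl,
      zero_smul] at h5
    have h6 : ((m : ℚ) * co σ [0, m + 2] + co σ [1, m + 1]) • C = 0 := by
      rw [add_smul, mul_smul, ← h5, smul_neg]
      abel
    exact (smul_eq_zero.mp h6).resolve_left hD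
  refine ⟨hC, hl, fun c hc => ?_⟩
  rcases Nat.lt_or_ge c 3 with h5 | h5
  · interval_cases c
    · rw [hC, hl] at e1
      simp only [smul_zero, neg_zero, zero_mul, sub_zero, add_zero, zero_smul] at e1
      exact mul_wd_eq_zero e1
    · rw [hB2, hC, smul_zero, neg_zero]
  · exact h3c c h5

end Pool.Agent.H492.DG
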