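import Pool.Agent.H492.DG.Base

/-!
# Independence of the words in operators which are jointly injective
-/

set_option autoImplicit false

namespace Pool.Agent.H492.DG

open Pool.Agent.H777R4.DM

attribute [local instance 100] LieRing.ofAssociativeRing

section quot

variable {α : Type} [DecidableEq α]

/-- remove the first letter `i` -/
noncomputable def lq (i : α) : Al α →ₗ[ℚ] Al α :=
  lext fun w => match w with
    | [] => 0
    | j :: w' => if j = i then wd w' else 0

theorem lq_cons (i j : α) (w : List α) : lq i (wd (j :: w)) = if j = i then wd w else 0 := by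
  unfold lq
  rw [lext_wd]

theorem lq_nil (i : α) : lq i (wd []) = 0 := by
  unfold lq
  rw [lext_wd]

theorem co_lq (i : α) (P : Al α) (w : List α) : co (lq i P) w = co P (i :: w) := by
  induction P using al_induction with
  | h1 l =>
    cases l with
    | nil =>
      rw [lq_nil, co_zero, co_wd, if_neg (by simp)]
    | cons j l =>
      rw [lq_cons, co_wd]
      by_cases h : j = i
      · subst h
        rw [if_pos rfl, co_wd]
        by_cases h2 : l = w
        · rw [if_pos h2, if_pos (by rw [h2])]
        · rw [if_neg h2, if_neg (fun h3 => h2 (List.cons_injective h3))]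
      · rw [if_neg h, co_zero, if_neg]
        intro h3
        exact h (List.cons.inj h3).1
  | h2 P Q hP hQ => rw [map_add, co_add, co_add, hP, hQ]
  | h3 c P hP => rw [map_smul, co_smul, co_smul, hP]

/-- remove the last letter `i` -/
noncomputable def rq (i : α) : Al α →ₗ[ℚ] Al α :=
  lext fun w => match w.getLast? with
    | none => 0
    | some j => if j = i then wd w.dropLast else 0

theorem rq_snoc (i j : α) (w : List α) : rq i (wd (w ++ [j])) = if j = i then wd w else 0 := by
  unfold rq
  rw [lext_wd]
  simp

theorem rq_nil (i : α) : rq i (wd []) = 0 := by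
  unfold rq
  rw [lext_wd]
  simp

theorem co_rq (i : α) (P : Al α) (w : List α) : co (rq i P) w = co P (w ++ [i]) := by
  induction P using al_induction with
  | h1 l =>
    rcases List.eq_nil_or_concat l with rfl | ⟨l, j, rfl⟩
    · rw [rq_nil, co_zero, co_wd, if_neg (by simp)]
    · rw [List.concat_eq_append, rq_snoc, co_wd]
      by_cases h : j = i
      · subst h
        rw [if_pos rfl, co_wd]
        by_cases h2 : l = w
        · rw [if_pos h2, if_pos (by rw [h2])]
        · rw [if_neg h2, if_neg (fun h3 => h2 (List.append_left_injective _ h3))]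
      · rw [if_neg h, co_zero, if_neg]
        intro h3
        have := congrArg List.getLast? h3
        simp at this
        exact h this
  | h2 P Q hP hQ => rw [map_add, co_add, co_add, hP, hQ]
  | h3 c P hP => rw [map_smul, co_smul, co_smul, hP]

theorem co_mul_wd_snoc (P : Al α) (i j : α) (w : List α) :
    co (P * wd [i]) (w ++ [j]) = if i = j then co P w else 0 := by
  induction P using al_induction with
  | h1 l =>
    rw [← H851R3.DSH.wd_append, co_wd, co_wd]
    by_cases h : i = j
    · subst h
      rw [if_pos rfl]
      by_cases h2 : l = w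
      · rw [if_pos h2, if_pos (by rw [h2])]
      · rw [if_neg h2, if_neg (fun h3 => h2 (List.append_left_injective _ h3))]
    · rw [if_neg h, if_neg]
      intro h3
      have := congrArg List.getLast? h3
      simp at this
      exact h this
  | h2 P Q hP hQ => rw [add_mul, co_add, co_add, hP, hQ]; split_ifs <;> ring
  | h3 c P hP => rw [smul_mul_assoc, co_smul, co_smul, hP]; split_ifs <;> ring

theorem co_mul_wd_nil (P : Al α) (i : α) : co (P * wd [i]) [] = 0 := by
  induction P using al_induction with
  | h1 l => rw [← H851R3.DSH.wd_append, co_wd, if_neg (by simp)]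
  | h2 P Q hP hQ => rw [add_mul, co_add, hP, hQ, add_zero]
  | h3 c P hP => rw [smul_mul_assoc, co_smul, hP, mul_zero]

end quot

section joint

variable {n : ℕ}

/-- the word `W` in the operators `T i`, applied to `1` -/
noncomputable def evT (T : Fin n → Module.End ℚ AY) : List (Fin n) → AY
  | [] => 1
  | i :: W => T i (evT T W)

/-- `P ↦ P(T_1, …, T_n) 1` -/
noncomputable def EvT (T : Fin n → Module.End ℚ AY) : Al (Fin n) →ₗ[ℚ] AY := lext (evT T)

theorem EvT_wd (T : Fin n → Module.End ℚ AY) (W : List (Fin n)) : EvT T (wd W) = evT T W :=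
  lext_wd _ _

theorem EvT_cons (T : Fin n → Module.End ℚ AY) (i : Fin n) (P : Al (Fin n)) :
    EvT T (wd [i] * P) = T i (EvT T P) := by
  induction P using al_induction with
  | h1 l => rw [← H851R3.DSH.wd_append, EvT_wd, EvT_wd]; rfl
  | h2 P Q hP hQ => rw [mul_add, map_add, map_add, map_add, hP, hQ]
  | h3 c P hP => rw [mul_smul_comm, map_smul, map_smul, map_smul, hP]

theorem al_expand (P : Al (Fin n)) : P = co P [] • (1 : Al (Fin n)) + ∑ i, wd [i] * lq i P := by
  induction P using al_induction with
  | h1 l =>
    cases l with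
    | nil =>
      rw [co_wd, if_pos rfl, one_smul, Finset.sum_eq_zero, add_zero, Pool.Agent.H337R3.Lead1.wd_nil]
      intro i _
      rw [lq_nil, mul_zero]
    | cons j l =>
      rw [co_wd, if_neg (by simp), zero_smul, zero_add, Finset.sum_eq_single j]
      · rw [lq_cons, if_pos rfl, ← H851R3.DSH.wd_append]
        rfl
      · intro i _ hi
        rw [lq_cons, if_neg (Ne.symm hi), mul_zero]
      · intro h
        exact absurd (Finset.mem_univ j) h
  | h2 P Q hP hQ =>
    conv_lhs => rw [hP, hQ]
    rw [co_add, add_smul]
    have : ∑ i, (wd [i] : Al (Fin n)) * lq i (P + Q) =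
        ∑ i, wd [i] * lq i P + ∑ i, wd [i] * lq i Q := by
      rw [← Finset.sum_add_distrib]
      exact Finset.sum_congr rfl fun i _ => by rw [map_add, mul_add]
    rw [this]
    abel
  | h3 c P hP =>
    conv_lhs => rw [hP]
    rw [co_smul, smul_add, smul_smul, Finset.smul_sum]
    congr 1
    refine Finset.sum_congr rfl fun i _ => ?_
    rw [map_smul, mul_smul_comm]

/-- words in jointly injective operators without constant terms are linearly independent -/
theorem EvT_inj (T : Fin n → Module.End ℚ AY) (h0 : ∀ i g, co (T i g) [] = 0)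
    (hj : ∀ g : Fin n → AY, ∑ i, T i (g i) = 0 → ∀ i, g i = 0) :
    ∀ P : Al (Fin n), EvT T P = 0 → P = 0 := by
  have key : ∀ k : ℕ, ∀ P : Al (Fin n), (∀ w, co P w ≠ 0 → w.length < k) → EvT T P = 0 → P = 0 := by
    intro k
    induction k with
    | zero =>
      intro P hP _
      apply al_ext
      intro w
      rw [co_zero]
      by_contra h
      exact absurd (hP w h) (Nat.not_lt_zero _)
    | succ k ih =>
      intro P hP h
      have h1 : EvT T P = co P [] • (1 : AY) + ∑ i, T i (EvT T (lq i P)) := by
        conv_lhs => rw [al_expand P]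
        rw [map_add, map_smul, map_sum]
        have h2 : EvT T (1 : Al (Fin n)) = 1 := by
          rw [← Pool.Agent.H337R3.Lead1.wd_nil, EvT_wd]; rfl
        rw [h2]
        congr 1
        exact Finset.sum_congr rfl fun i _ => EvT_cons _ _ _
      have h3 : co P [] = 0 := by
        have h4 := congrArg (fun Q => co Q []) (h1.symm.trans h)
        simp only [co_add, co_smul, co_zero] at h4
        rw [co_sum, Finset.sum_eq_zero (fun i _ => h0 i _), add_zero,
          ← Pool.Agent.H337R3.Lead1.wd_nil, co_wd, if_pos rfl, mul_one] at h4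
        exact h4
      rw [h3, zero_smul, zero_add] at h1
      have h5 := hj _ (h1.symm.trans h)
      rw [al_expand P, h3, zero_smul, zero_add]
      refine Finset.sum_eq_zero fun i _ => ?_
      rw [ih (lq i P) ?_ (h5 i), mul_zero]
      intro w hw
      rw [co_lq] at hw
      have := hP _ hw
      simp at this
      omega
  intro P hP
  classical
  refine key ((P.coeff.support.sup fun m => (FreeMonoid.toList m).length) + 1) P ?_ hP
  intro w hw
  rw [Nat.lt_succ_iff]
  have : FreeMonoid.ofList w ∈ P.coeff.support := Finsupp.mem_support_iff.mpr hw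
  exact Finset.le_sup (f := fun m => (FreeMonoid.toList m).length) this

end joint

section lead

open Pool.Agent.H777R4.DM.Lead2 (Ge Ge.mul Ge.add Ge.mono E_ge)
open Pool.Agent.H861R3.DM.LeadN
open Pool.Agent.H337R3.Lead1 (EE EE_hom)

/-- the leading operator -/
noncomputable def opT (h : A) (σ : AY) : Module.End ℚ AY := LinearMap.mulRight ℚ σ + EE h

theorem opT_apply (h : A) (σ g : AY) : opT h σ g = g * σ + EE h g := rfl

theorem EE_exact {q n m : ℕ} {f : A} {g : AY} (hf : ∀ u, co f u ≠ 0 → cw q u = n)
    (hg : ∀ v, co g v ≠ 0 → vw q v = m) : ∀ v, co (EE f g) v ≠ 0 → vw q v = n + m := by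
  intro v hv
  rw [Pool.Agent.H777R4.DM.Lead2.expand f, Pool.Agent.H777R4.DM.Lead2.expand g, map_sum, co_sum] at hv
  obtain ⟨a, _, ha⟩ := Finset.exists_ne_zero_of_sum_ne_zero hv
  rw [map_sum, LinearMap.sum_apply, co_sum] at ha
  obtain ⟨b, _, hb⟩ := Finset.exists_ne_zero_of_sum_ne_zero ha
  rw [map_smul, map_smul, LinearMap.smul_apply, co_smul, co_smul] at hb
  have h1 := left_ne_zero_of_mul hb
  have h2 := right_ne_zero_of_mul hb
  have h3 := left_ne_zero_of_mul h2
  have h4 := right_ne_zero_of_mul h2
  rw [EE_hom q _ _ _ h4, hf _ h3, hg _ h1]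

/-- **Leading terms.** -/
theorem leadE {n₀ : ℕ} (f h : Fin n₀ → A) (σ : Fin n₀ → AY) (N : Fin n₀ → ℕ) (q : ℕ)
    (hf : ∀ i u, co (f i - h i) u ≠ 0 → N i + 1 ≤ cw q u)
    (hh : ∀ i u, co (h i) u ≠ 0 → cw q u = N i)
    (hθ : ∀ i v, co (θ (f i)) v ≠ co (σ i) v → N i + 1 ≤ vw q v)
    (hσ : ∀ i v, co (σ i) v ≠ 0 → vw q v = N i)
    (hinj : ∀ P : Al (Fin n₀), EvT (fun i => opT (h i) (σ i)) P = 0 → P = 0) :
    Function.Injective (PhiN f) := by
  -- the letters
  have hθge : ∀ i, Ge q (N i) (θ (f i)) := by
    intro i v hv
    by_cases h : co (θ (f i)) v = co (σ i) v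
    · rw [h] at hv; exact (hσ i v hv).ge
    · exact (Nat.le_succ _).trans (hθ i v h)
  have hdge : ∀ i, Ge q (N i + 1) (θ (f i) - σ i) := by
    intro i v hv
    rw [co_sub] at hv
    exact hθ i v (fun h => hv (by rw [h, sub_self]))
  have hfge : ∀ i u, co (f i) u ≠ 0 → N i ≤ cw q u := by
    intro i u hu
    by_cases h0 : co (h i) u = 0
    · have : co (f i - h i) u ≠ 0 := by rw [co_sub, h0, sub_zero]; exact hu
      exact (Nat.le_succ _).trans (hf i u this)
    · exact (hh i u h0).ge
  set T : Fin n₀ → Module.End ℚ AY := fun i => opT (h i) (σ i) with hT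
  have hlead : ∀ W v, co (evT T W) v ≠ 0 → vw q v = NWN N W := by
    intro W
    induction W with
    | nil =>
      intro v hv
      unfold evT at hv
      rw [← Pool.Agent.H337R3.Lead1.wd_nil] at hv
      rw [Pool.Agent.H337R3.Lead1.co_wd_ne _ _ hv]; rfl
    | cons i W ih =>
      intro v hv
      have e : evT T (i :: W) = evT T W * σ i + EE (h i) (evT T W) := rfl
      rw [e, co_add] at hv
      by_cases h1 : co (evT T W * σ i) v = 0
      · rw [h1, zero_add] at hv
        rw [EE_exact (hh i) ih v hv, NWN_cons]
      · obtain ⟨a, b, rfl, ha, hb⟩ := Pool.Agent.H777R4.DM.Lead2.co_mul_ne h1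
        rw [Pool.Agent.H777R4.DM.Lead2.vw_append, ih a ha, hσ i b hb, NWN_cons, Nat.add_comm]
  have hmain : ∀ W, Ge q (NWN N W + 1) (θ (evN f W) - evT T W) := by
    intro W
    induction W with
    | nil =>
      intro v hv
      exfalso
      apply hv
      have : θ (evN f []) = evT T [] := by
        unfold evN evT
        exact th_one
      rw [this, sub_self, co_zero]
    | cons i W ih =>
      have hge : Ge q (NWN N W) (θ (evN f W)) := by
        have : θ (evN f W) = (θ (evN f W) - evT T W) + evT T W := by abel
        rw [this]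
        exact (ih.mono (Nat.le_succ _)).add (fun v hv => (hlead W v hv).ge)
      have e : θ (evN f (i :: W)) - evT T (i :: W) =
          (θ (evN f W) - evT T W) * θ (f i) + evT T W * (θ (f i) - σ i) +
            (EE (f i - h i) (θ (evN f W)) + EE (h i) (θ (evN f W) - evT T W)) := by
        have h1 : evN f (i :: W) = s (f i) (evN f W) := rfl
        have h2 : evT T (i :: W) = evT T W * σ i + EE (h i) (evT T W) := rfl
        rw [h1, th_s_eq, h2, map_sub, map_sub, LinearMap.sub_apply]
        noncomm_ring
      rw [e]
      have hN : NWN N (i :: W) = N i + NWN N W := rfl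
      rw [hN]
      refine Ge.add (Ge.add ?_ ?_) (Ge.add ?_ ?_)
      · exact (ih.mul (hθge i)).mono (by omega)
      · have h1 : Ge q (NWN N W) (evT T W) := fun v hv => (hlead W v hv).ge
        exact (h1.mul (hdge i)).mono (by omega)
      · exact (E_ge (fun q u l l' h => EE_hom q u l l' h) (hf i) hge).mono (by omega)
      · exact (E_ge (fun q u l l' h => EE_hom q u l l' h) (fun u hu => (hh i u hu).ge) ih).mono (by omega)
  rw [injective_iff_map_eq_zero]
  intro P hP
  by_contra hP0
  classical
  have hne : P.coeff.support.Nonempty := by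
    rw [Finsupp.support_nonempty_iff]
    intro h
    exact hP0 (MonoidAlgebra.coeff_eq_zero.mp h)
  obtain ⟨m0, hm0, hmin⟩ := Finset.exists_min_image P.coeff.support
    (fun m => NWN N (FreeMonoid.toList m)) hne
  set n := NWN N (FreeMonoid.toList m0) with hn
  set S := P.coeff.support.filter (fun m => NWN N (FreeMonoid.toList m) = n) with hS
  -- the lowest part
  have hlow : ∑ m ∈ S, co P (FreeMonoid.toList m) • evT T (FreeMonoid.toList m) = 0 := by
    apply al_ext
    intro v
    rw [co_zero, co_sum]
    by_cases hv : vw q v = n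
    · have h1 : co (θ (PhiN f P)) v = 0 := by rw [hP, map_zero, co_zero]
      have h2 : θ (PhiN f P) = ∑ m ∈ P.coeff.support,
          co P (FreeMonoid.toList m) • θ (evN f (FreeMonoid.toList m)) := by
        conv_lhs => rw [Pool.Agent.H777R4.DM.Lead2.expand P]
        rw [map_sum, map_sum]
        refine Finset.sum_congr rfl fun m _ => ?_
        rw [map_smul, map_smul, PhiN_wd]
      rw [h2, co_sum] at h1
      rw [← h1, hS, Finset.sum_filter]
      refine Finset.sum_congr rfl fun m hm => ?_
      have hd := hmain (FreeMonoid.toList m)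
      by_cases hmn : NWN N (FreeMonoid.toList m) = n
      · rw [if_pos hmn, co_smul, co_smul]
        congr 1
        by_contra hcon
        have := hd v (by rw [co_sub]; exact fun h => hcon (sub_eq_zero.mp h).symm)
        omega
      · rw [if_neg hmn, co_smul]
        have hlt : n < NWN N (FreeMonoid.toList m) := lt_of_le_of_ne (hmin m hm) (Ne.symm hmn)
        have hz : co (θ (evN f (FreeMonoid.toList m))) v = 0 := by
          by_contra hcon
          have hge : Ge q (NWN N (FreeMonoid.toList m)) (θ (evN f (FreeMonoid.toList m))) := by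
            have : θ (evN f (FreeMonoid.toList m)) =
              (θ (evN f (FreeMonoid.toList m)) - evT T (FreeMonoid.toList m)) +
                evT T (FreeMonoid.toList m) := by abel
            rw [this]
            exact (hd.mono (Nat.le_succ _)).add (fun v hv => (hlead _ v hv).ge)
          have := hge v hcon
          omega
        rw [hz, mul_zero]
    · refine Finset.sum_eq_zero fun m hm => ?_
      rw [co_smul]
      have hmn : NWN N (FreeMonoid.toList m) = n := (Finset.mem_filter.mp hm).2
      have hz : co (evT T (FreeMonoid.toList m)) v = 0 := by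
        by_contra hcon
        exact hv ((hlead _ v hcon).trans hmn)
      rw [hz, mul_zero]
  have hz := hinj (∑ m ∈ S, co P (FreeMonoid.toList m) • wd (FreeMonoid.toList m)) (by
    rw [map_sum, ← hlow]
    refine Finset.sum_congr rfl fun m _ => ?_
    rw [map_smul, EvT_wd])
  have hc : co (∑ m ∈ S, co P (FreeMonoid.toList m) • wd (FreeMonoid.toList m))
      (FreeMonoid.toList m0) = co P (FreeMonoid.toList m0) := by
    rw [co_sum, Finset.sum_eq_single m0]
    · rw [co_smul, co_wd, if_pos rfl, mul_one]
    · intro m _ hne'
      rw [co_smul, co_wd, if_neg, mul_zero]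
      intro h
      exact hne' (FreeMonoid.toList.injective h)
    · intro h
      exact absurd (by rw [hS]; exact Finset.mem_filter.mpr ⟨hm0, hn.symm⟩) h
  rw [hz, co_zero] at hc
  exact (Finsupp.mem_support_iff.mp hm0) hc.symm

end lead

end Pool.Agent.H492.DG
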