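import Pool.Agent.H492.DG.Normal

/-!
# Leading terms of the words in a given set of words
-/

set_option autoImplicit false

namespace Pool.Agent.H492.DG

open Pool.Agent.H777R4.DM
open Pool.Agent.H777R4.DM.Lead2 (Ge Ge.mul Ge.add Ge.mono E_ge)
open Pool.Agent.H861R3.DM.LeadN
open Pool.Agent.H337R3.Lead1 (EE EE_hom)

/-- the weight of a word; the last letter is special -/
def NW2 {n : ℕ} (N N' : Fin n → ℕ) : List (Fin n) → ℕ
  | [] => 0
  | i :: W => if W = [] then N' i else N i + NW2 N N' W

theorem lead2 {n₀ : ℕ} (f h : Fin n₀ → A) (σ τ : Fin n₀ → AY) (N N' : Fin n₀ → ℕ) (q : ℕ)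
    (ok : List (Fin n₀) → Prop)
    (hf : ∀ i u, co (f i - h i) u ≠ 0 → N i + 1 ≤ cw q u)
    (hh : ∀ i u, co (h i) u ≠ 0 → cw q u = N i)
    (hθ : ∀ i v, co (θ (f i)) v ≠ co (σ i) v → N i + 1 ≤ vw q v)
    (hσ : ∀ i v, co (σ i) v ≠ 0 → vw q v = N i)
    (hθ' : ∀ i v, co (θ (f i)) v ≠ co (τ i) v → N' i + 1 ≤ vw q v)
    (hτ : ∀ i v, co (τ i) v ≠ 0 → vw q v = N' i)
    (hinj : ∀ P : Al (Fin n₀), (∀ W, co P W ≠ 0 → ok W) →
      EvL (fun i => opT (h i) (σ i)) τ P = 0 → P = 0) :
    ∀ P : Al (Fin n₀), (∀ W, co P W ≠ 0 → ok W) → PhiN f P = 0 → P = 0 := by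
  have hθge : ∀ i, Ge q (N i) (θ (f i)) := by
    intro i v hv
    by_cases h : co (θ (f i)) v = co (σ i) v
    · rw [h] at hv; exact (hσ i v hv).ge
    · exact (Nat.le_succ _).trans (hθ i v h)
  have hdge : ∀ i, Ge q (N i + 1) (θ (f i) - σ i) := by
    intro i v hv
    rw [co_sub] at hv
    exact hθ i v (fun h => hv (by rw [h, sub_self]))
  have hfge : ∀ i u, co (f i) u ≠ 0 → N i ≤ cw q u := by
    intro i u hu
    by_cases h0 : co (h i) u = 0
    · have : co (f i - h i) u ≠ 0 := by rw [co_sub, h0, sub_zero]; exact hu
      exact (Nat.le_succ _).trans (hf i u this)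
    · exact (hh i u h0).ge
  set T : Fin n₀ → Module.End ℚ AY := fun i => opT (h i) (σ i) with hT
  have hlead : ∀ W v, co (evL T τ W) v ≠ 0 → vw q v = NW2 N N' W := by
    intro W
    induction W with
    | nil =>
      intro v hv
      unfold evL at hv
      rw [← Pool.Agent.H337R3.Lead1.wd_nil] at hv
      rw [Pool.Agent.H337R3.Lead1.co_wd_ne _ _ hv]; rfl
    | cons i W ih =>
      intro v hv
      unfold evL at hv
      unfold NW2
      by_cases hW : W = []
      · rw [if_pos hW] at hv ⊢
        exact hτ i v hv
      · rw [if_neg hW] at hv ⊢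
        have e : T i (evL T τ W) = evL T τ W * σ i + EE (h i) (evL T τ W) := rfl
        rw [e, co_add] at hv
        by_cases h1 : co (evL T τ W * σ i) v = 0
        · rw [h1, zero_add] at hv
          rw [EE_exact (hh i) ih v hv]
        · obtain ⟨a, b, rfl, ha, hb⟩ := Pool.Agent.H777R4.DM.Lead2.co_mul_ne h1
          rw [Pool.Agent.H777R4.DM.Lead2.vw_append, ih a ha, hσ i b hb, Nat.add_comm]
  have hmain : ∀ W, Ge q (NW2 N N' W + 1) (θ (evN f W) - evL T τ W) := by
    intro W
    induction W with
    | nil =>
      intro v hv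
      exfalso
      apply hv
      have : θ (evN f []) = evL T τ [] := by
        unfold evN evL
        exact th_one
      rw [this, sub_self, co_zero]
    | cons i W ih =>
      unfold evL NW2
      by_cases hW : W = []
      · subst hW
        rw [if_pos rfl, if_pos rfl]
        have h1 : evN f [i] = f i := by
          show s (f i) (evN f []) = f i
          unfold evN
          exact H851R3.DSH.s_one _
        rw [h1]
        intro v hv
        rw [co_sub] at hv
        exact hθ' i v (fun h => hv (by rw [h, sub_self]))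
      · rw [if_neg hW, if_neg hW]
        have hge : Ge q (NW2 N N' W) (θ (evN f W)) := by
          have : θ (evN f W) = (θ (evN f W) - evL T τ W) + evL T τ W := by abel
          rw [this]
          exact (ih.mono (Nat.le_succ _)).add (fun v hv => (hlead W v hv).ge)
        have e : θ (evN f (i :: W)) - T i (evL T τ W) =
            (θ (evN f W) - evL T τ W) * θ (f i) + evL T τ W * (θ (f i) - σ i) +
              (EE (f i - h i) (θ (evN f W)) + EE (h i) (θ (evN f W) - evL T τ W)) := by
          have h1 : evN f (i :: W) = s (f i) (evN f W) := rfl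
          have h2 : T i (evL T τ W) = evL T τ W * σ i + EE (h i) (evL T τ W) := rfl
          rw [h1, th_s_eq, h2, map_sub, map_sub, LinearMap.sub_apply]
          noncomm_ring
        rw [e]
        refine Ge.add (Ge.add ?_ ?_) (Ge.add ?_ ?_)
        · exact (ih.mul (hθge i)).mono (by omega)
        · have h1 : Ge q (NW2 N N' W) (evL T τ W) := fun v hv => (hlead W v hv).ge
          exact (h1.mul (hdge i)).mono (by omega)
        · exact (E_ge (fun q u l l' h => EE_hom q u l l' h) (hf i) hge).mono (by omega)
        · exact (E_ge (fun q u l l' h => EE_hom q u l l' h) (fun u hu => (hh i u hu).ge) ih).mono (by omega)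
  intro P hok hP
  by_contra hP0
  classical
  have hne : P.coeff.support.Nonempty := by
    rw [Finsupp.support_nonempty_iff]
    intro h
    exact hP0 (MonoidAlgebra.coeff_eq_zero.mp h)
  obtain ⟨m0, hm0, hmin⟩ := Finset.exists_min_image P.coeff.support
    (fun m => NW2 N N' (FreeMonoid.toList m)) hne
  set n := NW2 N N' (FreeMonoid.toList m0) with hn
  set S := P.coeff.support.filter (fun m => NW2 N N' (FreeMonoid.toList m) = n) with hS
  -- the lowest part
  have hlow : ∑ m ∈ S, co P (FreeMonoid.toList m) • evL T τ (FreeMonoid.toList m) = 0 := by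
    apply al_ext
    intro v
    rw [co_zero, co_sum]
    by_cases hv : vw q v = n
    · have h1 : co (θ (PhiN f P)) v = 0 := by rw [hP, map_zero, co_zero]
      have h2 : θ (PhiN f P) = ∑ m ∈ P.coeff.support,
          co P (FreeMonoid.toList m) • θ (evN f (FreeMonoid.toList m)) := by
        conv_lhs => rw [Pool.Agent.H777R4.DM.Lead2.expand P]
        rw [map_sum, map_sum]
        refine Finset.sum_congr rfl fun m _ => ?_
        rw [map_smul, map_smul, PhiN_wd]
      rw [h2, co_sum] at h1
      rw [← h1, hS, Finset.sum_filter]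
      refine Finset.sum_congr rfl fun m hm => ?_
      have hd := hmain (FreeMonoid.toList m)
      by_cases hmn : NW2 N N' (FreeMonoid.toList m) = n
      · rw [if_pos hmn, co_smul, co_smul]
        congr 1
        by_contra hcon
        have := hd v (by rw [co_sub]; exact fun h => hcon (sub_eq_zero.mp h).symm)
        omega
      · rw [if_neg hmn, co_smul]
        have hlt : n < NW2 N N' (FreeMonoid.toList m) := lt_of_le_of_ne (hmin m hm) (Ne.symm hmn)
        have hz : co (θ (evN f (FreeMonoid.toList m))) v = 0 := by
          by_contra hcon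
          have hge : Ge q (NW2 N N' (FreeMonoid.toList m)) (θ (evN f (FreeMonoid.toList m))) := by
            have : θ (evN f (FreeMonoid.toList m)) =
              (θ (evN f (FreeMonoid.toList m)) - evL T τ (FreeMonoid.toList m)) +
                evL T τ (FreeMonoid.toList m) := by abel
            rw [this]
            exact (hd.mono (Nat.le_succ _)).add (fun v hv => (hlead _ v hv).ge)
          have := hge v hcon
          omega
        rw [hz, mul_zero]
    · refine Finset.sum_eq_zero fun m hm => ?_
      rw [co_smul]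
      have hmn : NW2 N N' (FreeMonoid.toList m) = n := (Finset.mem_filter.mp hm).2
      have hz : co (evL T τ (FreeMonoid.toList m)) v = 0 := by
        by_contra hcon
        exact hv ((hlead _ v hcon).trans hmn)
      rw [hz, mul_zero]
  have hcoef : ∀ W, co (∑ m ∈ S, co P (FreeMonoid.toList m) • wd (FreeMonoid.toList m)) W ≠ 0 →
      co P W ≠ 0 := by
    intro W hW
    rw [co_sum] at hW
    obtain ⟨m, _, hm⟩ := Finset.exists_ne_zero_of_sum_ne_zero hW
    rw [co_smul, co_wd] at hm
    split_ifs at hm with h
    · rw [← h]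
      exact left_ne_zero_of_mul hm
    · rw [mul_zero] at hm
      exact absurd rfl hm
  have hz := hinj (∑ m ∈ S, co P (FreeMonoid.toList m) • wd (FreeMonoid.toList m))
    (fun W hW => hok W (hcoef W hW)) (by
    rw [map_sum, ← hlow]
    refine Finset.sum_congr rfl fun m _ => ?_
    rw [map_smul, EvL_wd])
  have hc : co (∑ m ∈ S, co P (FreeMonoid.toList m) • wd (FreeMonoid.toList m))
      (FreeMonoid.toList m0) = co P (FreeMonoid.toList m0) := by
    rw [co_sum, Finset.sum_eq_single m0]
    · rw [co_smul, co_wd, if_pos rfl, mul_one]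
    · intro m _ hne'
      rw [co_smul, co_wd, if_neg, mul_zero]
      intro h
      exact hne' (FreeMonoid.toList.injective h)
    · intro h
      exact absurd (by rw [hS]; exact Finset.mem_filter.mpr ⟨hm0, hn.symm⟩) h
  rw [hz, co_zero] at hc
  exact (Finsupp.mem_support_iff.mp hm0) hc.symm

end Pool.Agent.H492.DG
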