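import Pool.Agent.H492.DG.Dat

/-!
# A criterion modulo `p`
-/

set_option autoImplicit false

namespace Pool.Agent.H492.DG

open Pool.Agent.H777R4.DM
open Pool.Agent.N568.DSF (Dp)
open Pool.Agent.H337R3.Lead1 (EE EE_hom th_wd)
open H851R3.DSH (wd_append)
open Pool.Agent.H861R3.DM.LeadN (evN PhiN_wd)

/-! ### `θ` and the evaluation -/

theorem th_evN {n : ℕ} (ψ : Fin n → A) : ∀ W : List (Fin n),
    θ (evN ψ W) = evT (fun i => opT (ψ i) (θ (ψ i))) W
  | [] => th_one
  | i :: W => by
      have h1 : evN ψ (i :: W) = s (ψ i) (evN ψ W) := rfl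
      have h2 : evT (fun i => opT (ψ i) (θ (ψ i))) (i :: W) =
        opT (ψ i) (θ (ψ i)) (evT (fun i => opT (ψ i) (θ (ψ i))) W) := rfl
      rw [h1, th_s_eq, h2, opT_apply, th_evN ψ W]

theorem th_PhiN {n : ℕ} (ψ : Fin n → A) (P : Al (Fin n)) :
    θ (PhiN ψ P) = EvT (fun i => opT (ψ i) (θ (ψ i))) P := by
  induction P using al_induction with
  | h1 l => rw [PhiN_wd, EvT_wd, th_evN]
  | h2 P Q hP hQ => rw [map_add, map_add, map_add, hP, hQ]
  | h3 c P hP => rw [map_smul, map_smul, map_smul, hP]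

/-! ### integrality -/

/-- integral combinations of the words of sum `N` -/
noncomputable def Lz (N : ℕ) : AddSubgroup AY := AddSubgroup.closure {x | ∃ u : List ℕ, u.sum = N ∧ x = wd u}

theorem Lz_wd {N : ℕ} (u : List ℕ) (h : u.sum = N) : (wd u : AY) ∈ Lz N :=
  AddSubgroup.subset_closure ⟨u, h, rfl⟩

theorem Lz_mul {a b : ℕ} {x y : AY} (hx : x ∈ Lz a) (hy : y ∈ Lz b) : x * y ∈ Lz (a + b) := by
  induction hx using AddSubgroup.closure_induction with
  | mem x hx =>
    obtain ⟨u, hu, rfl⟩ := hx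
    induction hy using AddSubgroup.closure_induction with
    | mem y hy =>
      obtain ⟨v, hv, rfl⟩ := hy
      rw [← wd_append]
      exact Lz_wd _ (by rw [List.sum_append, hu, hv])
    | zero => rw [mul_zero]; exact (Lz (a + b)).zero_mem
    | add y z _ _ h1 h2 => rw [mul_add]; exact (Lz (a + b)).add_mem h1 h2
    | neg y _ h1 => rw [mul_neg]; exact (Lz (a + b)).neg_mem h1
  | zero => rw [zero_mul]; exact (Lz (a + b)).zero_mem
  | add y z _ _ h1 h2 => rw [add_mul]; exact (Lz (a + b)).add_mem h1 h2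
  | neg y _ h1 => rw [neg_mul]; exact (Lz (a + b)).neg_mem h1

theorem Lz_co {N : ℕ} {x : AY} (hx : x ∈ Lz N) (u : List ℕ) :
    (∃ z : ℤ, co x u = z) ∧ (co x u ≠ 0 → u.sum = N) := by
  induction hx using AddSubgroup.closure_induction with
  | mem x hx =>
    obtain ⟨v, hv, rfl⟩ := hx
    rw [co_wd]
    by_cases h : v = u
    · rw [if_pos h]
      exact ⟨⟨1, by norm_num⟩, fun _ => by rw [← h, hv]⟩
    · rw [if_neg h]
      exact ⟨⟨0, by norm_num⟩, fun h => absurd rfl h⟩
  | zero => exact ⟨⟨0, by rw [co_zero]; norm_num⟩, fun h => absurd (co_zero u) h⟩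
  | add y z _ _ h1 h2 =>
    obtain ⟨⟨a, ha⟩, h3⟩ := h1
    obtain ⟨⟨b, hb⟩, h4⟩ := h2
    refine ⟨⟨a + b, by rw [co_add, ha, hb]; push_cast; ring⟩, fun h => ?_⟩
    rw [co_add] at h
    by_cases h5 : co y u = 0
    · rw [h5, zero_add] at h
      exact h4 h
    · exact h3 h5
  | neg y _ h1 =>
    obtain ⟨⟨a, ha⟩, h3⟩ := h1
    have e : co (-y) u = - co y u := by
      have : (-y : AY) = 0 - y := by abel
      rw [this, co_sub, co_zero, zero_sub]
    refine ⟨⟨-a, by rw [e, ha]; push_cast; ring⟩, fun h => h3 ?_⟩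
    rw [e] at h
    exact neg_ne_zero.mp h

theorem Lz_smul {N : ℕ} {x : AY} (hx : x ∈ Lz N) (z : ℤ) : (z : ℚ) • x ∈ Lz N := by
  rw [Int.cast_smul_eq_zsmul]
  exact (Lz N).zsmul_mem hx z

theorem EE_adp_Lz (m : ℕ) : ∀ v : List ℕ, EE (adp m) (wd v) ∈ Lz (v.sum + m)
  | [] => by
      have h : (wd [] : AY) = 1 := Pool.Agent.H337R3.Lead1.wd_nil
      rw [h, EE_one]
      exact (Lz _).zero_mem
  | a :: v => by
      have h : (wd (a :: v) : AY) = wd [a] * wd v := by rw [← wd_append]; rfl
      rw [h, EE_mul, List.sum_cons]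
      refine (Lz _).add_mem ?_ ?_
      · have h1 : EE (adp m) (wd [a]) ∈ Lz (a + m) := by
          rw [EE_adp]
          refine (Lz _).sum_mem fun i hi => ?_
          rw [Finset.mem_range] at hi
          have e : ((-1 : ℚ) ^ i * (m.choose i : ℚ)) = (((-1) ^ i * (m.choose i : ℤ) : ℤ) : ℚ) := by
            push_cast; ring
          rw [e]
          refine Lz_smul ((Lz _).sub_mem (Lz_wd _ ?_) (Lz_wd _ ?_)) _
          · simp; omega
          · simp; omega
        have h2 := Lz_mul h1 (Lz_wd v rfl)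
        rw [show a + v.sum + m = a + m + v.sum by ring]
        exact h2
      · have h2 := Lz_mul (Lz_wd [a] rfl) (EE_adp_Lz m v)
        rw [show a + v.sum + m = [a].sum + (v.sum + m) by simp; ring]
        exact h2

/-- the derivation modulo `p` -/
theorem EE_dvd {p : ℤ} (d : ℕ) (g : AY) (z : List ℕ → ℤ) (hz : ∀ v, co g v = z v) (u : List ℕ)
    (h : ∀ v, ¬ p ∣ z v → v.sum + d ≠ u.sum) : ∃ t : ℤ, co (EE (adp d) g) u = p * t := by
  have key : ∀ s : Finset (FreeMonoid ℕ), ∃ t : ℤ,
      ∑ m ∈ s, co g (FreeMonoid.toList m) * co (EE (adp d) (wd (FreeMonoid.toList m))) u = p * t := by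
    classical
    intro s
    induction s using Finset.induction_on with
    | empty => exact ⟨0, by simp⟩
    | insert m s hm ih =>
      obtain ⟨t, ht⟩ := ih
      rw [Finset.sum_insert hm, ht]
      obtain ⟨⟨e, he⟩, h2⟩ := Lz_co (EE_adp_Lz d (FreeMonoid.toList m)) u
      by_cases h3 : p ∣ z (FreeMonoid.toList m)
      · obtain ⟨y, hy⟩ := h3
        refine ⟨y * e + t, ?_⟩
        rw [hz, he, hy]
        push_cast
        ring
      · have h4 : co (EE (adp d) (wd (FreeMonoid.toList m))) u = 0 := by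
          by_contra h5
          exact h _ h3 (h2 h5).symm
        refine ⟨t, ?_⟩
        rw [h4, mul_zero, zero_add]
  obtain ⟨t, ht⟩ := key g.coeff.support
  refine ⟨t, ?_⟩
  rw [← ht]
  conv_lhs => rw [Pool.Agent.H777R4.DM.Lead2.expand g]
  rw [map_sum, co_sum]
  refine Finset.sum_congr rfl fun m _ => ?_
  rw [map_smul, co_smul]

theorem co_th_adp' (m k : ℕ) : co (θ (adp m)) [k] = (-1) ^ (m - k) * (m.choose k : ℚ) := by
  rw [th_adp, co_sum]
  by_cases h : k ≤ m
  · rw [Finset.sum_eq_single (m - k)]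
    · rw [co_smul, co_wd, if_pos (by rw [Nat.sub_sub_self h]), mul_one, Nat.choose_symm h]
    · intro i hi hne
      rw [Finset.mem_range] at hi
      rw [co_smul, co_wd, if_neg, mul_zero]
      intro h1
      have h2 : m - i = k := by simpa using h1
      omega
    · intro h1
      exact absurd (Finset.mem_range.mpr (by omega)) h1
  · rw [Nat.choose_eq_zero_of_lt (by omega)]
    rw [Finset.sum_eq_zero]
    · simp
    · intro i hi
      rw [co_smul, co_wd, if_neg, mul_zero]
      intro h1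
      have h2 : m - i = k := by simpa using h1
      omega

/-- multiplication with a combination of letters -/
theorem co_mul_th_adp (g : AY) (m k : ℕ) (v : List ℕ) :
    co (g * θ (adp m)) (v ++ [k]) = co g v * co (θ (adp m)) [k] := by
  have e : ∀ l : ℕ, co (wd [l] : AY) [k] = if l = k then 1 else 0 := by
    intro l
    rw [co_wd]
    by_cases h : l = k
    · rw [if_pos h, if_pos (by rw [h])]
    · rw [if_neg h, if_neg (by simpa using h)]
  rw [th_adp, Finset.mul_sum, co_sum, co_sum, Finset.mul_sum]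
  refine Finset.sum_congr rfl fun i _ => ?_
  rw [mul_smul_comm, co_smul, co_smul, co_mul_wd_snoc, e]
  split_ifs <;> ring

/-- **joint injectivity modulo `p`** -/
theorem JI_mod (p : ℕ) [Fact p.Prime] {n : ℕ} (d : Fin n → ℕ) (K : (Fin n → ZMod p) → ℕ)
    (hK : ∀ c : Fin n → ZMod p, c ≠ 0 → (∀ i, c i ≠ 0 → K c < d i) ∧
      ∑ i, c i * ((-1) ^ (d i - K c) * ((d i).choose (K c) : ZMod p)) ≠ 0)
    (g : Fin n → AY) (z : Fin n → List ℕ → ℤ) (hz : ∀ i v, co (g i) v = z i v)
    (heq : ∀ v k, co (∑ i, opT (adp (d i)) (θ (adp (d i))) (g i)) (v ++ [k]) = 0) :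
    ∀ i v, (p : ℤ) ∣ z i v := by
  by_contra hcon
  push Not at hcon
  set c : List ℕ → Fin n → ZMod p := fun v i => (z i v : ZMod p) with hc
  have hcz : ∀ v i, c v i = 0 ↔ (p : ℤ) ∣ z i v := fun v i => ZMod.intCast_zmod_eq_zero_iff_dvd _ _
  have hex : ∃ N, ∃ v, c v ≠ 0 ∧ v.sum + K (c v) = N := by
    obtain ⟨i, v, h⟩ := hcon
    refine ⟨_, v, fun h1 => h ?_, rfl⟩
    rw [← hcz, h1]
    rfl
  classical
  obtain ⟨v, hv0, hvN⟩ := Nat.find_spec hex
  have hmin : ∀ v', c v' ≠ 0 → Nat.find hex ≤ v'.sum + K (c v') := fun v' h' =>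
    Nat.find_min' hex ⟨v', h', rfl⟩
  set k := K (c v) with hk
  obtain ⟨hK1, hK2⟩ := hK (c v) hv0
  have h1 := heq v k
  rw [co_sum] at h1
  have h2 : ∀ i : Fin n, ∃ t : ℤ, co (EE (adp (d i)) (g i)) (v ++ [k]) = (p : ℤ) * t := by
    intro i
    refine EE_dvd (d i) (g i) (z i) (hz i) (v ++ [k]) ?_
    intro v' hv' hsum
    have h3 : c v' i ≠ 0 := fun h => hv' ((hcz v' i).mp h)
    have h4 : c v' ≠ 0 := fun h => h3 (by rw [h]; rfl)
    have h5 := (hK (c v') h4).1 i h3
    have h6 := hmin v' h4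
    rw [List.sum_append] at hsum
    simp at hsum
    omega
  choose t ht using h2
  have h3 : ∑ i, ((z i v : ℤ) * ((-1) ^ (d i - k) * ((d i).choose k : ℤ)) + (p : ℤ) * t i) = 0 := by
    have h4 : ((∑ i, ((z i v : ℤ) * ((-1) ^ (d i - k) * ((d i).choose k : ℤ)) + (p : ℤ) * t i) : ℤ) : ℚ) = 0 := by
      rw [← h1]
      push_cast
      refine Finset.sum_congr rfl fun i _ => ?_
      rw [opT_apply, co_add, co_mul_th_adp, co_th_adp', hz, ht]
      push_cast
      ring
    exact_mod_cast h4
  apply hK2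
  have h5 := congrArg (Int.cast : ℤ → ZMod p) h3
  push_cast at h5
  rw [← h5]
  refine Finset.sum_congr rfl fun i _ => ?_
  rw [ZMod.natCast_self, zero_mul, add_zero]

/-! ### scaling -/

theorem scaling {ι : Type} (p : ℕ) (hp : 2 ≤ p) (s : Finset ι) (a : ι → ℚ) (ha : ∀ x, a x ≠ 0 → x ∈ s)
    (hne : ∃ x, a x ≠ 0) : ∃ (κ : ℚ) (z : ι → ℤ), κ ≠ 0 ∧ (∀ x, κ * a x = z x) ∧ ∃ x, ¬ (p : ℤ) ∣ z x := by
  classical
  have hex : ∃ N : ℕ, ∃ (κ : ℚ) (z : ι → ℤ), κ ≠ 0 ∧ (∀ x, κ * a x = z x) ∧ ∑ x ∈ s, (z x).natAbs = N := by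
    obtain ⟨b, hb⟩ := IsLocalization.exist_integer_multiples (nonZeroDivisors ℤ) s a
    have hb0 : ((b : ℤ) : ℚ) ≠ 0 := by
      have := nonZeroDivisors.ne_zero b.2
      exact_mod_cast this
    have h1 : ∀ x, ∃ y : ℤ, ((b : ℤ) : ℚ) * a x = y := by
      intro x
      by_cases hx : x ∈ s
      · obtain ⟨y, hy⟩ := hb x hx
        refine ⟨y, ?_⟩
        rw [← zsmul_eq_mul]
        exact hy.symm
      · have : a x = 0 := by
          by_contra h
          exact hx (ha x h)
        exact ⟨0, by rw [this]; simp⟩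
    choose z hz using h1
    exact ⟨_, _, z, hb0, hz, rfl⟩
  obtain ⟨κ, z, hκ, hz, hN⟩ := Nat.find_spec hex
  refine ⟨κ, z, hκ, hz, ?_⟩
  by_contra hcon
  push Not at hcon
  choose y hy using hcon
  have hp0 : (p : ℚ) ≠ 0 := by positivity
  have h1 : ∀ x, (κ / p) * a x = y x := by
    intro x
    have h2 := hz x
    rw [hy x] at h2
    push_cast at h2
    field_simp
    linarith
  have h2 := Nat.find_min' hex ⟨κ / p, y, div_ne_zero hκ hp0, h1, rfl⟩
  rw [← hN] at h2
  obtain ⟨x0, hx0⟩ := hne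
  have hx0s := ha x0 hx0
  have h3 : ∀ x ∈ s, (y x).natAbs ≤ (z x).natAbs := by
    intro x _
    rw [hy x, Int.natAbs_mul, Int.natAbs_natCast]
    exact Nat.le_mul_of_pos_left _ (by omega)
  have h4 : (y x0).natAbs < (z x0).natAbs := by
    have h5 : y x0 ≠ 0 := by
      intro h6
      have := hz x0
      rw [hy x0, h6] at this
      simp at this
      exact (this.resolve_left hκ) |> hx0
    rw [hy x0, Int.natAbs_mul, Int.natAbs_natCast]
    have : 0 < (y x0).natAbs := Int.natAbs_pos.mpr h5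
    nlinarith
  have h5 := Finset.sum_lt_sum h3 ⟨x0, hx0s, h4⟩
  omega

/-! ### words of a length -/

/-- the part of length `r` -/
noncomputable def selL (r : ℕ) : AY →ₗ[ℚ] AY := lext fun w => if w.length = r then wd w else 0

theorem co_selL (r : ℕ) (P : AY) (w : List ℕ) : co (selL r P) w = if w.length = r then co P w else 0 := by
  induction P using al_induction with
  | h1 l =>
    unfold selL
    rw [lext_wd, co_wd]
    by_cases h : l = w
    · rw [if_pos h, h]
      split_ifs
      · rw [co_wd, if_pos rfl]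
      · rw [co_zero]
    · rw [if_neg h]
      split_ifs
      · rw [co_wd, if_neg h]
      · rw [co_wd, if_neg h]
      · rw [co_zero]
      · rw [co_zero]
  | h2 P Q hP hQ =>
    rw [map_add, co_add, hP, hQ, co_add]
    split_ifs <;> ring
  | h3 c P hP =>
    rw [map_smul, co_smul, hP, co_smul]
    split_ifs <;> ring

theorem mul_len {P Q : AY} {a b : ℕ} (hP : ∀ v, co P v ≠ 0 → a ≤ v.length)
    (hQ : ∀ v, co Q v ≠ 0 → b ≤ v.length) : ∀ v, co (P * Q) v ≠ 0 → a + b ≤ v.length := by
  intro v hv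
  obtain ⟨x, y, rfl, hx, hy⟩ := Pool.Agent.H777R4.DM.Lead2.co_mul_ne hv
  rw [List.length_append]
  have := hP x hx
  have := hQ y hy
  omega

/-- **joint injectivity** -/
theorem JI_p (p : ℕ) [Fact p.Prime] {n : ℕ} (d : Fin n → ℕ) (K : (Fin n → ZMod p) → ℕ)
    (hK : ∀ c : Fin n → ZMod p, c ≠ 0 → (∀ i, c i ≠ 0 → K c < d i) ∧
      ∑ i, c i * ((-1) ^ (d i - K c) * ((d i).choose (K c) : ZMod p)) ≠ 0)
    (ψ : Fin n → A) (κ : Fin n → ℚ) (hκ : ∀ i, κ i ≠ 0) (hψ : ∀ i, Dp 2 (ψ i - κ i • adp (d i)))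
    (hψ1 : ∀ i, Dp 1 (ψ i))
    (g : Fin n → AY) (heq : ∑ i, opT (ψ i) (θ (ψ i)) (g i) = 0) : ∀ i, g i = 0 := by
  by_contra hcon
  push Not at hcon
  have hex : ∃ r, ∃ i v, co (g i) v ≠ 0 ∧ v.length = r := by
    obtain ⟨i, hi⟩ := hcon
    by_contra h
    push Not at h
    apply hi
    apply al_ext
    intro v
    rw [co_zero]
    by_contra h1
    exact h v.length i v h1 rfl
  classical
  obtain ⟨i0, v0, h0, hv0⟩ := Nat.find_spec hex
  set r := Nat.find hex with hr
  have hmin : ∀ i v, co (g i) v ≠ 0 → r ≤ v.length := fun i v h => Nat.find_min' hex ⟨i, v, h, rfl⟩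
  set G : Fin n → AY := fun i => κ i • selL r (g i) with hG
  -- the equation for `G`
  have hGeq : ∀ v k, co (∑ i, opT (adp (d i)) (θ (adp (d i))) (G i)) (v ++ [k]) = 0 := by
    intro v k
    by_cases hv : v.length = r
    · have h1 : co (∑ i, opT (ψ i) (θ (ψ i)) (g i)) (v ++ [k]) = 0 := by rw [heq, co_zero]
      rw [← h1, co_sum, co_sum]
      refine Finset.sum_congr rfl fun i _ => ?_
      have hul : (v ++ [k]).length = r + 1 := by simp [hv]
      have hG0 : ∀ w, co (G i) w ≠ 0 → r ≤ w.length := by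
        intro w hw
        simp only [hG] at hw
        rw [co_smul, co_selL] at hw
        have := right_ne_zero_of_mul hw
        split_ifs at this with h2
        · exact h2.ge
        · exact absurd rfl this
      have hd0 : ∀ w, co (g i - selL r (g i)) w ≠ 0 → r + 1 ≤ w.length := by
        intro w hw
        rw [co_sub, co_selL] at hw
        split_ifs at hw with h2
        · rw [sub_self] at hw
          exact absurd rfl hw
        · rw [sub_zero] at hw
          have := hmin i w hw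
          omega
      have hs0 : ∀ w, co (selL r (g i)) w ≠ 0 → r ≤ w.length := by
        intro w hw
        rw [co_selL] at hw
        split_ifs at hw with h2
        · exact h2.ge
        · exact absurd rfl hw
      have e : opT (ψ i) (θ (ψ i)) (g i) = opT (adp (d i)) (θ (adp (d i))) (G i) +
          (selL r (g i) * θ (ψ i - κ i • adp (d i)) + (g i - selL r (g i)) * θ (ψ i) +
            (EE (ψ i - κ i • adp (d i)) (selL r (g i)) + EE (ψ i) (g i - selL r (g i)))) := by
        simp only [hG, opT_apply, map_sub, map_smul, LinearMap.sub_apply, LinearMap.smul_apply,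
          sub_mul, mul_sub, mul_smul_comm]
        module
      rw [e, co_add]
      have h2 : co (selL r (g i) * θ (ψ i - κ i • adp (d i)) + (g i - selL r (g i)) * θ (ψ i) +
            (EE (ψ i - κ i • adp (d i)) (selL r (g i)) + EE (ψ i) (g i - selL r (g i)))) (v ++ [k]) = 0 := by
        rw [co_add, co_add, co_add]
        have a1 : co (selL r (g i) * θ (ψ i - κ i • adp (d i))) (v ++ [k]) = 0 := by
          by_contra h3
          have := mul_len hs0 (th_len (hψ i)) _ h3
          omega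
        have a2 : co ((g i - selL r (g i)) * θ (ψ i)) (v ++ [k]) = 0 := by
          by_contra h3
          have := mul_len hd0 (th_len (hψ1 i)) _ h3
          omega
        have a3 : co (EE (ψ i - κ i • adp (d i)) (selL r (g i))) (v ++ [k]) = 0 := by
          by_contra h3
          have := EE_len (hψ i) hs0 _ h3
          omega
        have a4 : co (EE (ψ i) (g i - selL r (g i))) (v ++ [k]) = 0 := by
          by_contra h3
          have := EE_len (hψ1 i) hd0 _ h3
          omega
        rw [a1, a2, a3, a4]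
        ring
      rw [h2, add_zero]
    · rw [co_sum]
      refine Finset.sum_eq_zero fun i _ => ?_
      by_contra h3
      rw [opT_apply, co_add] at h3
      have hG1 : ∀ w, co (G i) w ≠ 0 → w.length = r := by
        intro w hw
        simp only [hG] at hw
        rw [co_smul, co_selL] at hw
        have := right_ne_zero_of_mul hw
        split_ifs at this with h2
        · exact h2
        · exact absurd rfl this
      have b1 : co (G i * θ (adp (d i))) (v ++ [k]) = 0 := by
        rw [co_mul_th_adp]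
        have : co (G i) v = 0 := by
          by_contra h4
          exact hv (hG1 v h4)
        rw [this, zero_mul]
      have b2 : co (EE (adp (d i)) (G i)) (v ++ [k]) = 0 := by
        by_contra h4
        rw [Pool.Agent.H777R4.DM.Lead2.expand (adp (d i)), Pool.Agent.H777R4.DM.Lead2.expand (G i),
          map_sum, co_sum] at h4
        obtain ⟨a, _, ha⟩ := Finset.exists_ne_zero_of_sum_ne_zero h4
        rw [map_sum, LinearMap.sum_apply, co_sum] at ha
        obtain ⟨b, _, hb⟩ := Finset.exists_ne_zero_of_sum_ne_zero ha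
        rw [map_smul, map_smul, LinearMap.smul_apply, co_smul, co_smul] at hb
        have c1 := left_ne_zero_of_mul hb
        have c2 := right_ne_zero_of_mul hb
        have c3 := left_ne_zero_of_mul c2
        have c4 := right_ne_zero_of_mul c2
        have c5 := (EE_len_wd _ _ _ c4).1
        have c6 := hG1 _ c1
        have c7 := (adp_words _ _ c3).2
        simp at c5
        omega
      rw [b1, b2, add_zero] at h3
      exact h3 rfl
  -- scaling
  set s : Finset (Fin n × List ℕ) := Finset.univ.biUnion fun i =>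
    ((G i).coeff.support.image FreeMonoid.toList).image fun v => (i, v) with hs
  obtain ⟨κ', z, hκ', hz, hp⟩ := scaling p (Fact.out : p.Prime).two_le s
    (fun x : Fin n × List ℕ => co (G x.1) x.2) (by
      rintro ⟨i, v⟩ hx
      rw [hs, Finset.mem_biUnion]
      refine ⟨i, Finset.mem_univ _, ?_⟩
      rw [Finset.mem_image]
      refine ⟨v, ?_, rfl⟩
      rw [Finset.mem_image]
      refine ⟨FreeMonoid.ofList v, ?_, rfl⟩
      rw [Finsupp.mem_support_iff]
      exact hx) ⟨(i0, v0), by
        simp only [hG]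
        rw [co_smul, co_selL, if_pos hv0]
        exact mul_ne_zero (hκ i0) h0⟩
  have h1 := JI_mod p d K hK (fun i => κ' • G i) (fun i v => z (i, v)) (fun i v => by
    rw [co_smul]
    exact hz (i, v)) (by
    intro v k
    have e : ∑ i, opT (adp (d i)) (θ (adp (d i))) (κ' • G i) =
        κ' • ∑ i, opT (adp (d i)) (θ (adp (d i))) (G i) := by
      rw [Finset.smul_sum]
      exact Finset.sum_congr rfl fun i _ => map_smul _ _ _
    rw [e, co_smul, hGeq, mul_zero])
  obtain ⟨⟨i, v⟩, hiv⟩ := hp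
  exact hiv (h1 i v)

/-- **the criterion** -/
theorem crit_p (p : ℕ) [Fact p.Prime] {n : ℕ} (d : Fin n → ℕ) (K : (Fin n → ZMod p) → ℕ)
    (hK : ∀ c : Fin n → ZMod p, c ≠ 0 → (∀ i, c i ≠ 0 → K c < d i) ∧
      ∑ i, c i * ((-1) ^ (d i - K c) * ((d i).choose (K c) : ZMod p)) ≠ 0)
    (ψ : Fin n → A) (κ : Fin n → ℚ) (hκ : ∀ i, κ i ≠ 0) (hψ : ∀ i, Dp 2 (ψ i - κ i • adp (d i)))
    (hψ1 : ∀ i, Dp 1 (ψ i)) : Function.Injective (PhiN ψ) := by
  rw [injective_iff_map_eq_zero]
  intro P hP
  refine EvT_inj (fun i => opT (ψ i) (θ (ψ i))) ?_ ?_ P ?_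
  · intro i g
    rw [opT_apply, co_add]
    have a1 : co (g * θ (ψ i)) [] = 0 := by
      by_contra h3
      have := mul_len (fun v _ => Nat.zero_le v.length) (th_len (hψ1 i)) _ h3
      simp at this
    have a2 : co (EE (ψ i) g) [] = 0 := by
      by_contra h3
      have := EE_len (hψ1 i) (fun v _ => Nat.zero_le v.length) _ h3
      simp at this
    rw [a1, a2, add_zero]
  · exact fun g hg => JI_p p d K hK ψ κ hκ hψ hψ1 g hg
  · rw [← th_PhiN, hP, map_zero]

end Pool.Agent.H492.DG
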