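import Pool.Agent.H492.DG.ModP
import Pool.Agent.H492.DG.ThreeFinal

/-!
# The criterion modulo `p` with polynomials
-/

set_option autoImplicit false

namespace Pool.Agent.H492.DG

open Pool.Agent.H777R4.DM
open Pool.Agent.N568.DSF (Dp Fm Fm_count lie_split)
open Polynomial

attribute [local instance 100] LieRing.ofAssociativeRing

section

variable {F : Type} [Field F] {n : ℕ} (d : Fin n → ℕ) (c : Fin n → F)

/-- the polynomial with the coefficients `c` and the exponents `d` -/
noncomputable def pol : F[X] := ∑ i, C (c i) * X ^ d i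

theorem pol_coeff (hd : Function.Injective d) (i : Fin n) : (pol d c).coeff (d i) = c i := by
  unfold pol
  rw [finsetSum_coeff, Finset.sum_eq_single i]
  · rw [coeff_C_mul, coeff_X_pow, if_pos rfl, mul_one]
  · intro j _ hj
    rw [coeff_C_mul, coeff_X_pow, if_neg (fun h => hj (hd h.symm)), mul_zero]
  · intro h
    exact absurd (Finset.mem_univ i) h

theorem pol_support (m : ℕ) (hm : m ∈ (pol d c).support) : ∃ i, d i = m := by
  rw [mem_support_iff] at hm
  unfold pol at hm
  rw [finsetSum_coeff] at hm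
  obtain ⟨i, _, hi⟩ := Finset.exists_ne_zero_of_sum_ne_zero hm
  rw [coeff_C_mul, coeff_X_pow] at hi
  have := right_ne_zero_of_mul hi
  split_ifs at this with h
  · exact ⟨i, h.symm⟩
  · exact absurd rfl this

theorem pol_taylor (r : F) (k : ℕ) : (taylor r (pol d c)).coeff k =
    ∑ i, c i * (r ^ (d i - k) * ((d i).choose k : F)) := by
  rw [taylor_coeff]
  unfold pol
  rw [map_sum, eval_finsetSum]
  refine Finset.sum_congr rfl fun i _ => ?_
  rw [C_mul_X_pow_eq_monomial, hasseDeriv_monomial, eval_monomial]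
  ring

theorem taylor_mult (r : F) (P : F[X]) (hP : P ≠ 0) : (taylor r P).coeff (P.rootMultiplicity r) ≠ 0 := by
  have h1 : P.rootMultiplicity r = (taylor r P).natTrailingDegree := by
    rw [rootMultiplicity_eq_natTrailingDegree, taylor_apply]
  rw [h1]
  have h2 : taylor r P ≠ 0 := by
    intro h
    apply hP
    exact taylor_injective r (by rw [h, map_zero])
  exact coeff_natTrailingDegree_ne_zero.mpr h2

theorem mult_zero_le (P : F[X]) (_ : P ≠ 0) (m : ℕ) (hm : P.coeff m ≠ 0) : P.rootMultiplicity 0 ≤ m := by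
  by_contra h
  push Not at h
  have h1 : (X - C (0 : F)) ^ P.rootMultiplicity 0 ∣ P := pow_rootMultiplicity_dvd P 0
  rw [C_0, sub_zero, X_pow_dvd_iff] at h1
  exact hm (h1 m h)

end

/-- **The criterion modulo `p`.** -/
theorem crit_poly (p : ℕ) (hp : p.Prime) (n : ℕ) (w : Fin n → ℕ) (hw : Function.Injective w)
    (hcrit : ∀ h : (ZMod p)[X], h ≠ 0 → (∀ m ∈ h.support, ∃ i, w i = m + 1) →
      h.rootMultiplicity (-1) < h.rootMultiplicity 0)
    (ψ : Fin n → A) (hL : ∀ i, ψ i ∈ LieX)
    (hhom : ∀ i u, co (ψ i) u ≠ 0 → u.length = w i)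
    (hne : ∀ i, co (ψ i) (List.replicate (w i - 1) 0 ++ [1]) ≠ 0) : Function.Injective (PhiN ψ) := by
  have : Fact p.Prime := ⟨hp⟩
  have hw1 : ∀ i, 1 ≤ w i := by
    intro i
    have h1 := hhom i _ (hne i)
    rw [← h1]
    simp
  have hw2 : ∀ i, 2 ≤ w i := by
    intro i
    by_contra h
    have h1 : w i = 1 := by have := hw1 i; omega
    have h2 := hcrit 1 one_ne_zero (by
      intro m hm
      refine ⟨i, ?_⟩
      rw [mem_support_iff, coeff_one] at hm
      split_ifs at hm with h3
      · rw [h1, h3]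
      · exact absurd rfl hm)
    have h3 : (1 : (ZMod p)[X]).rootMultiplicity 0 = 0 := by
      have := mult_zero_le (1 : (ZMod p)[X]) one_ne_zero 0 (by rw [coeff_one_zero]; exact one_ne_zero)
      omega
    omega
  set d : Fin n → ℕ := fun i => w i - 1 with hd
  have hdw : ∀ i, w i = d i + 1 := fun i => by
    have := hw1 i
    show w i = w i - 1 + 1
    omega
  have hdinj : Function.Injective d := by
    intro i j hij
    apply hw
    rw [hdw i, hdw j, hij]
  set κ : Fin n → ℚ := fun i => co (ψ i) (wordX [d i]) with hκ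
  have hψ : ∀ i, Dp 2 (ψ i - κ i • adp (d i)) := by
    intro i
    have h1 := lie_split (hL i) (d i) (by have := hw2 i; show 1 ≤ w i - 1; omega) (fun u hu => by
      rw [hhom i u hu, hdw i])
    rw [adp_eq_Fm]
    exact h1
  refine crit_p p d (fun c => (pol d c).rootMultiplicity (-1)) ?_ ψ κ ?_ hψ ?_
  · intro c hc
    have hp0 : pol d c ≠ 0 := by
      intro h
      apply hc
      funext i
      rw [← pol_coeff d c hdinj i, h, coeff_zero]
      rfl
    have h1 := hcrit (pol d c) hp0 (by
      intro m hm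
      obtain ⟨i, hi⟩ := pol_support d c m hm
      exact ⟨i, by rw [hdw i, hi]⟩)
    refine ⟨fun i hi => ?_, ?_⟩
    · refine h1.trans_le (mult_zero_le _ hp0 _ ?_)
      rw [pol_coeff d c hdinj i]
      exact hi
    · rw [← pol_taylor]
      exact taylor_mult _ _ hp0
  · intro i
    exact hne i
  · intro i
    have h1 : ψ i = (ψ i - κ i • adp (d i)) + κ i • adp (d i) := by abel
    rw [h1]
    refine Pool.Agent.N568.DSF.Dp.add ((hψ i).mono (by norm_num)) (Dp_smul _ ?_)
    rw [adp_eq_Fm]
    exact Fm_count _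

end Pool.Agent.H492.DG
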