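import Pool.Agent.H492.DG.Inj

/-!
# Independence of the normal words in the leading operators
-/

set_option autoImplicit false

namespace Pool.Agent.H492.DG

open Pool.Agent.H777R4.DM
open H851R3.DSH (wd_append)

section normal

variable {k : ℕ}

/-- the leading value of a word at `1`; the last letter is special -/
noncomputable def evL (T : Fin k → Module.End ℚ AY) (τ : Fin k → AY) : List (Fin k) → AY
  | [] => 1
  | i :: W => if W = [] then τ i else T i (evL T τ W)

noncomputable def EvL (T : Fin k → Module.End ℚ AY) (τ : Fin k → AY) : Al (Fin k) →ₗ[ℚ] AY :=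
  lext (evL T τ)

theorem EvL_wd (T : Fin k → Module.End ℚ AY) (τ : Fin k → AY) (W : List (Fin k)) :
    EvL T τ (wd W) = evL T τ W := lext_wd _ _

theorem wd_one' {α : Type} : (wd ([] : List α)) = 1 := Pool.Agent.H337R3.Lead1.wd_nil

theorem EvL_one (T : Fin k → Module.End ℚ AY) (τ : Fin k → AY) : EvL T τ 1 = 1 := by
  rw [← wd_one', EvL_wd]
  rfl

theorem EvL_cons (T : Fin k → Module.End ℚ AY) (τ : Fin k → AY) (i : Fin k) (P : Al (Fin k)) :
    EvL T τ (wd [i] * P) = T i (EvL T τ P) + co P [] • (τ i - T i 1) := by
  induction P using al_induction with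
  | h1 l =>
    rw [← wd_append, EvL_wd, EvL_wd, co_wd]
    rcases l with _ | ⟨j, l⟩
    · rw [if_pos rfl, one_smul]
      show (if ([] : List (Fin k)) = [] then τ i else _) = T i 1 + _
      rw [if_pos rfl]
      abel
    · rw [if_neg (by simp), zero_smul, add_zero]
      show (if (j :: l) = [] then τ i else _) = _
      rw [if_neg (by simp)]
      rfl
  | h2 P Q hP hQ =>
    rw [mul_add, map_add, hP, hQ, map_add, map_add, co_add, add_smul]
    abel
  | h3 c P hP =>
    rw [mul_smul_comm, map_smul, hP, map_smul, map_smul, co_smul, smul_add, mul_smul]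

theorem EvL_expand (T : Fin k → Module.End ℚ AY) (τ : Fin k → AY) (P : Al (Fin k)) :
    EvL T τ P = co P [] • (1 : AY) + ∑ i, (T i (EvL T τ (lq i P)) + co P [i] • (τ i - T i 1)) := by
  conv_lhs => rw [al_expand P]
  rw [map_add, map_smul, EvL_one, map_sum]
  congr 1
  refine Finset.sum_congr rfl fun i _ => ?_
  rw [EvL_cons, co_lq]

/-- the first letter is at least `t` -/
def hd (t : ℕ) : List (Fin k) → Prop
  | [] => True
  | j :: _ => t ≤ j.val

/-- normal words: the letter `z` is not followed by a letter below `t` -/
def nrm (z : Fin k) (t : ℕ) : List (Fin k) → Prop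
  | [] => True
  | i :: W => nrm z t W ∧ (i = z → hd t W)

theorem rq_one (c : ℕ) : rq c (1 : AY) = 0 := by
  rw [← wd_one', rq_nil]

theorem rq_mul_wd (c a : ℕ) (P : AY) : rq c (P * wd [a]) = if a = c then P else 0 := by
  apply al_ext
  intro w
  rw [co_rq, co_mul_wd_snoc]
  split_ifs
  · rfl
  · rw [co_zero]

theorem normal_inj (z : Fin k) (t M : ℕ) (htM : t ≤ M) (hz : z.val = M)
    (T : Fin k → Module.End ℚ AY) (τ : Fin k → AY)
    (hT : ∀ i g, i.val < M → T i g = g * wd [i.val])
    (hτ : ∀ i, i ≠ z → τ i = T i 1) (hTz : T z 1 = 0)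
    (JI : ∀ (g : Fin k → AY) (l : ℚ),
      (∀ c, M ≤ c → rq c (∑ i, T i (g i) + l • τ z) = 0) →
      (∀ i, M ≤ i.val → i ≠ z → g i = 0) ∧ l = 0 ∧ ∀ c, t ≤ c → rq c (g z) = 0) :
    ∀ P : Al (Fin k), (∀ W, co P W ≠ 0 → nrm z t W) → EvL T τ P = 0 → P = 0 := by
  classical
  -- expansion
  have hexp : ∀ P : Al (Fin k), EvL T τ P = co P [] • (1 : AY) +
      (∑ i, T i (EvL T τ (lq i P)) + co P [z] • τ z) := by
    intro P
    rw [EvL_expand, Finset.sum_add_distrib]
    congr 2
    rw [Finset.sum_eq_single z]
    · rw [hTz, sub_zero]
    · intro i _ hi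
      rw [hτ i hi, sub_self, smul_zero]
    · intro h
      exact absurd (Finset.mem_univ _) h
  have hrq : ∀ (P : Al (Fin k)) c, rq c (EvL T τ P) =
      rq c (∑ i, T i (EvL T τ (lq i P)) + co P [z] • τ z) := by
    intro P c
    conv_lhs => rw [hexp P]
    rw [map_add, map_smul, rq_one, smul_zero, zero_add]
  have key : ∀ K : ℕ, ∀ P : Al (Fin k), (∀ W, co P W ≠ 0 → nrm z t W) →
      (∀ W, co P W ≠ 0 → W.length < K) →
      (EvL T τ P = 0 → P = 0) ∧
      ((∀ W, co P W ≠ 0 → hd t W) → (∀ c, t ≤ c → rq c (EvL T τ P) = 0) → ∀ W, W ≠ [] → co P W = 0) := by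
    intro K
    induction K with
    | zero =>
      intro P _ hlen
      have h0 : ∀ W, co P W = 0 := by
        intro W
        by_contra h
        exact absurd (hlen W h) (Nat.not_lt_zero _)
      exact ⟨fun _ => al_ext fun W => by rw [h0, co_zero], fun _ _ W _ => h0 W⟩
    | succ K ih =>
      intro P hn hlen
      -- the quotients
      have hqn : ∀ i, ∀ W, co (lq i P) W ≠ 0 → nrm z t W := by
        intro i W hW
        rw [co_lq] at hW
        exact (hn _ hW).1
      have hqz : ∀ W, co (lq z P) W ≠ 0 → hd t W := by
        intro W hW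
        rw [co_lq] at hW
        exact (hn _ hW).2 rfl
      have hql : ∀ i, ∀ W, co (lq i P) W ≠ 0 → W.length < K := by
        intro i W hW
        rw [co_lq] at hW
        have := hlen _ hW
        rw [List.length_cons] at this
        omega
      -- the consequence of `JI`
      have hJ : (∀ c, M ≤ c → rq c (EvL T τ P) = 0) → (∀ i, M ≤ i.val → lq i P = 0) := by
        intro h
        obtain ⟨h1, h2, h3⟩ := JI (fun i => EvL T τ (lq i P)) (co P [z]) (fun c hc => by
          rw [← hrq]
          exact h c hc)
        intro i hi
        by_cases hiz : i = z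
        · subst hiz
          apply al_ext
          intro W
          rw [co_zero]
          by_cases hW : W = []
          · subst hW
            rw [co_lq]
            exact h2
          · exact (ih (lq i P) (hqn i) (hql i)).2 hqz h3 W hW
        · exact (ih (lq i P) (hqn i) (hql i)).1 (h1 i hi hiz)
      -- the letters below `M`
      have hY : (∀ i : Fin k, M ≤ i.val → lq i P = 0) → ∀ i : Fin k, i.val < M →
          rq i.val (EvL T τ P) = 0 → lq i P = 0 := by
        intro h i hi h4
        have h5 : co P [z] = 0 := by
          have := h z (by omega)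
          rw [← co_lq, this, co_zero]
        rw [hrq, h5, zero_smul, add_zero, map_sum, Finset.sum_eq_single i] at h4
        · rw [hT i _ hi, rq_mul_wd, if_pos rfl] at h4
          exact (ih (lq i P) (hqn i) (hql i)).1 h4
        · intro j _ hj
          by_cases hjM : j.val < M
          · rw [hT j _ hjM, rq_mul_wd, if_neg (fun h6 => hj (Fin.ext h6))]
          · rw [h j (by omega), map_zero, map_zero, map_zero]
        · intro h6
          exact absurd (Finset.mem_univ _) h6
      refine ⟨fun h => ?_, fun hhd h => ?_⟩
      · have h1 := hJ (fun c _ => by rw [h, map_zero])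
        have h2 : ∀ i, lq i P = 0 := by
          intro i
          by_cases hi : i.val < M
          · exact hY h1 i hi (by rw [h, map_zero])
          · exact h1 i (by omega)
        have h3 := hexp P
        have h4 : co P [z] = 0 := by rw [← co_lq, h2 z, co_zero]
        rw [h, h4, zero_smul, add_zero, Finset.sum_eq_zero (fun i _ => by rw [h2 i, map_zero, map_zero]),
          add_zero] at h3
        have h5 : co P [] = 0 := by
          have := congrArg (fun Q => co Q []) h3
          simp only [co_zero, co_smul] at this
          rw [← wd_one', co_wd, if_pos rfl, mul_one] at this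
          exact this.symm
        rw [al_expand P, h5, zero_smul, zero_add]
        exact Finset.sum_eq_zero fun i _ => by rw [h2 i, mul_zero]
      · have h1 := hJ (fun c hc => h c (htM.trans hc))
        have h2 : ∀ i, lq i P = 0 := by
          intro i
          by_cases hi : i.val < M
          · by_cases hit : i.val < t
            · apply al_ext
              intro W
              rw [co_zero, co_lq]
              by_contra hne
              have := hhd _ hne
              have h7 : t ≤ i.val := this
              omega
            · exact hY h1 i hi (h _ (by omega))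
          · exact h1 i (by omega)
        intro W hW
        rcases W with _ | ⟨i, W⟩
        · exact absurd rfl hW
        · rw [← co_lq, h2 i, co_zero]
  intro P hn h
  refine (key ((P.coeff.support.sup fun m => (FreeMonoid.toList m).length) + 1) P hn ?_).1 h
  intro w hw
  rw [Nat.lt_succ_iff]
  have : FreeMonoid.ofList w ∈ P.coeff.support := Finsupp.mem_support_iff.mpr hw
  exact Finset.le_sup (f := fun m => (FreeMonoid.toList m).length) this

end normal

end Pool.Agent.H492.DG
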