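import Pool.Agent.H492.DG.Core6

/-!
# The weights `3, 5, 7, 9`: exactly one relation
-/

set_option autoImplicit false

namespace Pool.Agent.H492.DG

open Pool.Agent.H777R4.DM
open Pool.Agent.N568.DSF (Dp)
open Pool.Agent.H358R3.DM (SN SN_wd SN_lie)
open Pool.Agent.H826R3.DM (tau tau_wd tau_comp PhiN_tau)

attribute [local instance 100] LieRing.ofAssociativeRing

/-- the four generators -/
noncomputable def f4 : Fin 4 → A := fun i => adp (2 * i.val + 2)

/-- the relation -/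
noncomputable def rho4 : Al (Fin 4) := brk 0 3 - (3 : ℚ) • brk 1 2

/-- two sided ideals as subspaces -/
def idl {n : ℕ} (I : TwoSidedIdeal (Al (Fin n))) : Submodule ℚ (Al (Fin n)) where
  carrier := {x | x ∈ I}
  zero_mem' := I.zero_mem
  add_mem' := fun hx hy => I.add_mem hx hy
  smul_mem' := by
    intro c x hx
    have h : c • x = (c • (1 : Al (Fin n))) * x := by rw [smul_mul_assoc, one_mul]
    show c • x ∈ I
    rw [h]
    exact I.mul_mem_left _ _ hx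

/-- an ideal generated by a relation of the generators is contained in the kernel -/
theorem ideal_ker {n : ℕ} (f : Fin n → A) (ρ : Al (Fin n)) (hρ : ρ ∈ LieN n) (h0 : PhiN f ρ = 0)
    (x : Al (Fin n)) (hx : x ∈ TwoSidedIdeal.span {ρ}) : SN f x = 0 := by
  have h1 : SN f ρ = 0 := by
    rw [SN_lie f ρ hρ, ← Pool.Agent.H358R3.DM.PhiN_eq, h0]
    exact H851R3.DSH.s_zero
  have h2 : (TwoSidedIdeal.span {ρ} : TwoSidedIdeal (Al (Fin n))) ≤ TwoSidedIdeal.ker (SN f) := by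
    rw [TwoSidedIdeal.span_le]
    intro y hy
    rw [Set.mem_singleton_iff] at hy
    rw [hy]
    exact (TwoSidedIdeal.mem_ker (SN f)).mpr h1
  exact (TwoSidedIdeal.mem_ker (SN f)).mp (h2 hx)

/-- coefficients of the new generators -/
def cE : ℕ → Fin 4 → ℚ
  | 0 => ![0, 6, -8, 3]
  | 1 => ![0, 13/8, -11/4, 9/8]
  | 2 => ![0, 1/4, -1/2, 1/4]
  | _ => 0

def cGE : Fin 4 → ℚ := ![1, -3, 3, -1]

/-- the exponents -/
def d4 : Fin 4 → ℕ := fun i => 2 * i.val + 2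

theorem norm4 : Norm (m := 2) d4 f4 := by
  refine ⟨fun j => ?_, fun j u hu => (adp_words _ u hu).1⟩
  have : f4 j - adp (d4 j) = 0 := sub_self _
  rw [this]
  exact Dp.zero 2

theorem he4 : ∀ i, Even (d4 i) := fun i => ⟨i.val + 1, by unfold d4; omega⟩

noncomputable def FE (l : ℕ) : A := ∑ j, cE l j • f4 j

noncomputable def GE : A := ∑ j, cGE j • f4 j

theorem a4F (l k : ℕ) : co (θ (FE l)) [k] = ∑ j, cE l j * be k (d4 j) := (norm4.datc (cE l)).one he4 k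

theorem a4G (k : ℕ) : co (θ GE) [k] = ∑ j, cGE j * be k (d4 j) := (norm4.datc cGE).one he4 k

theorem beval (k a : ℕ) (c : ℚ) (h : (-1 : ℚ) ^ k * (a.choose k : ℚ) = c) : be k a = c := h

theorem gens4 : Gens 2 4 d4 0 FE GE cE cGE where
  hm := by decide
  hm2 := le_rfl
  hd := he4
  hi0 := rfl
  hdi := by decide
  datF := fun l _ => norm4.datc (cE l)
  datG := norm4.datc cGE
  cF0 := by
    intro l hl
    interval_cases l <;> rfl
  cG0 := rfl
  aF := by
    intro l hl k hk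
    rw [a4F, Fin.sum_univ_four]
    interval_cases l
    · show (0 : ℚ) * be k 2 + 6 * be k 4 + (-8) * be k 6 + 3 * be k 8 = _
      interval_cases k <;> norm_num [be, Nat.choose]
    · show (0 : ℚ) * be k 2 + (13/8) * be k 4 + (-11/4) * be k 6 + (9/8) * be k 8 = _
      interval_cases k <;> norm_num [be, Nat.choose]
    · show (0 : ℚ) * be k 2 + (1/4) * be k 4 + (-1/2) * be k 6 + (1/4) * be k 8 = _
      interval_cases k <;> norm_num [be, Nat.choose]
  aG := by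
    intro k hk
    rw [a4G, Fin.sum_univ_four]
    show (1 : ℚ) * be k 2 + (-3) * be k 4 + 3 * be k 6 + (-1) * be k 8 = _
    interval_cases k <;> norm_num [be, Nat.choose]

theorem g1_4 : co (θ GE) [2 + 1] = 8 := by
  rw [a4G, Fin.sum_univ_four]
  show (1 : ℚ) * be 3 2 + (-3) * be 3 4 + 3 * be 3 6 + (-1) * be 3 8 = _
  norm_num [be, Nat.choose]

/-- the matrix and its inverse -/
def K4 : Fin 4 → Fin 4 → ℚ := ![![0, 6, -8, 3], ![0, 13/8, -11/4, 9/8], ![0, 1/4, -1/2, 1/4], ![1, -3, 3, -1]]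

def N4 : Fin 4 → Fin 4 → ℚ := ![![1, -2, 1, 1], ![1, -4, 6, 0], ![1, -6, 15, 0], ![1, -8, 28, 0]]

theorem NK4 (i j : Fin 4) : ∑ k, N4 i k * K4 k j = if i = j then 1 else 0 := by
  rw [Fin.sum_univ_four]
  fin_cases i <;> fin_cases j
  · show (1 : ℚ) * 0 + (-2) * 0 + 1 * 0 + 1 * 1 = 1
    norm_num
  · show (1 : ℚ) * 6 + (-2) * (13/8) + 1 * (1/4) + 1 * (-3) = 0
    norm_num
  · show (1 : ℚ) * (-8) + (-2) * (-11/4) + 1 * (-1/2) + 1 * 3 = 0
    norm_num
  · show (1 : ℚ) * 3 + (-2) * (9/8) + 1 * (1/4) + 1 * (-1) = 0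
    norm_num
  · show (1 : ℚ) * 0 + (-4) * 0 + 6 * 0 + 0 * 1 = 0
    norm_num
  · show (1 : ℚ) * 6 + (-4) * (13/8) + 6 * (1/4) + 0 * (-3) = 1
    norm_num
  · show (1 : ℚ) * (-8) + (-4) * (-11/4) + 6 * (-1/2) + 0 * 3 = 0
    norm_num
  · show (1 : ℚ) * 3 + (-4) * (9/8) + 6 * (1/4) + 0 * (-1) = 0
    norm_num
  · show (1 : ℚ) * 0 + (-6) * 0 + 15 * 0 + 0 * 1 = 0
    norm_num
  · show (1 : ℚ) * 6 + (-6) * (13/8) + 15 * (1/4) + 0 * (-3) = 0
    norm_num
  · show (1 : ℚ) * (-8) + (-6) * (-11/4) + 15 * (-1/2) + 0 * 3 = 1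
    norm_num
  · show (1 : ℚ) * 3 + (-6) * (9/8) + 15 * (1/4) + 0 * (-1) = 0
    norm_num
  · show (1 : ℚ) * 0 + (-8) * 0 + 28 * 0 + 0 * 1 = 0
    norm_num
  · show (1 : ℚ) * 6 + (-8) * (13/8) + 28 * (1/4) + 0 * (-3) = 0
    norm_num
  · show (1 : ℚ) * (-8) + (-8) * (-11/4) + 28 * (-1/2) + 0 * 3 = 0
    norm_num
  · show (1 : ℚ) * 3 + (-8) * (9/8) + 28 * (1/4) + 0 * (-1) = 1
    norm_num

theorem Fg4 : (fun i => ∑ j, K4 i j • f4 j) = Fg 2 FE GE := by
  funext i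
  unfold Fg gl FE GE
  fin_cases i
  · rfl
  · rfl
  · rfl
  · rfl

theorem hFw4 (q : ℕ) (hq : 3 ≤ q) (l : ℕ) (hl : l ≤ 2) : Cq q (2 + 2 + q) (FE l) := by
  unfold FE
  refine Cq.sum _ _ fun j _ => ?_
  by_cases hj : j = 0
  · have : cE l j = 0 := by
      subst hj
      interval_cases l <;> rfl
    rw [this, zero_smul]
    exact Cq.zero _ _
  · refine Cq.smul _ ((Cq_phi (norm4.2 j) (norm4.Dp1 j) (by omega)).mono ?_)
    have h2 : j.val ≠ 0 := fun h2 => hj (Fin.ext h2)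
    unfold d4
    omega

theorem hGw4 (q : ℕ) (hq : 3 ≤ q) : Cq q (2 + 2 + q) (GE - adp 2) := by
  have e : GE - adp 2 = ∑ j : Fin 3, cGE j.succ • f4 j.succ := by
    unfold GE
    rw [Fin.sum_univ_succ]
    have : cGE 0 • f4 0 = adp 2 := by
      show (1 : ℚ) • adp 2 = adp 2
      rw [one_smul]
    rw [this]
    abel
  rw [e]
  refine Cq.sum _ _ fun j _ => Cq.smul _ ?_
  refine (Cq_phi (norm4.2 j.succ) (norm4.Dp1 j.succ) (by omega)).mono ?_
  unfold d4
  rw [Fin.val_succ]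
  omega

theorem tau_rho : tau K4 (rhoH 2 8 - (-28 : ℚ) • brk (ix 2 (2 + 1)) (ix 2 2)) = rho4 := by
  have h0 : ix 2 0 = (0 : Fin 4) := rfl
  have h1 : ix 2 1 = (1 : Fin 4) := rfl
  have h2 : ix 2 2 = (2 : Fin 4) := rfl
  have h3 : ix 2 (2 + 1) = (3 : Fin 4) := rfl
  have t0 : tau K4 (wd [(0 : Fin 4)]) = (0 : ℚ) • wd [0] + (6 : ℚ) • wd [1] + (-8 : ℚ) • wd [2] + (3 : ℚ) • wd [3] := by
    rw [tau_wd, Fin.sum_univ_four]
    rfl
  have t1 : tau K4 (wd [(1 : Fin 4)]) =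
      (0 : ℚ) • wd [0] + (13/8 : ℚ) • wd [1] + (-11/4 : ℚ) • wd [2] + (9/8 : ℚ) • wd [3] := by
    rw [tau_wd, Fin.sum_univ_four]
    rfl
  have t2 : tau K4 (wd [(2 : Fin 4)]) =
      (0 : ℚ) • wd [0] + (1/4 : ℚ) • wd [1] + (-1/2 : ℚ) • wd [2] + (1/4 : ℚ) • wd [3] := by
    rw [tau_wd, Fin.sum_univ_four]
    rfl
  have t3 : tau K4 (wd [(3 : Fin 4)]) =
      (1 : ℚ) • wd [0] + (-3 : ℚ) • wd [1] + (3 : ℚ) • wd [2] + (-1 : ℚ) • wd [3] := by
    rw [tau_wd, Fin.sum_univ_four]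
    rfl
  unfold rhoH rho4
  rw [Finset.sum_range_succ, Finset.sum_range_one, h3, h0, h1]
  simp only [zero_add, Nat.sub_zero, show (1 + 1 : ℕ) = 2 from rfl]
  rw [h2]
  simp only [brk, map_sub, map_add, map_smul, map_mul, t0, t1, t2, t3]
  simp only [zero_smul, zero_add, one_smul, mul_add, add_mul, smul_mul_assoc, mul_smul_comm]
  generalize (wd [0] : Al (Fin 4)) = a
  generalize (wd [1] : Al (Fin 4)) = b
  generalize (wd [2] : Al (Fin 4)) = c
  generalize (wd [3] : Al (Fin 4)) = d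
  have c1 : ((2 + 1).choose 1 : ℚ) = 3 := by norm_num [Nat.choose]
  have c2 : ((2 + 1).choose 2 : ℚ) = 3 := by norm_num [Nat.choose]
  rw [c1, c2]
  match_scalars <;> norm_num

/-- the kernel of the linearised map -/
theorem PhiN_of_SN {n : ℕ} (f : Fin n → A) (x : Al (Fin n)) (h : SN f x = 0) : PhiN f x = 0 := by
  rw [Pool.Agent.H358R3.DM.PhiN_eq, h]
  rfl

theorem rho4_mem : rho4 ∈ LieN 4 := by
  unfold rho4
  exact (LieN 4).sub_mem (brk_mem _ _) ((LieN 4).smul_mem _ (brk_mem _ _))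

theorem PhiN_rho4 : PhiN f4 rho4 = 0 := by
  unfold rho4
  rw [map_sub, map_smul, PhiN_brk, PhiN_brk, sub_eq_zero]
  exact rel12

theorem one_relation (P : Al (Fin 4)) : PhiN f4 P = 0 ↔ P ∈ (TwoSidedIdeal.span {rho4} : TwoSidedIdeal (Al (Fin 4))) := by
  constructor
  · intro hP
    set I := idl (TwoSidedIdeal.span {rho4} : TwoSidedIdeal (Al (Fin 4))) with hI
    have hMN : (Matrix.of K4) * (Matrix.of N4) = 1 := by
      apply mul_eq_one_comm.mp
      ext i j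
      rw [Matrix.mul_apply, Matrix.one_apply]
      exact NK4 i j
    have hPP : tau K4 (tau N4 P) = P := tau_comp (Matrix.of K4) (Matrix.of N4) (mul_eq_one_comm.mp hMN) P
    have h1 : PhiN (Fg 2 FE GE) (tau N4 P) = 0 := by
      rw [← Fg4, PhiN_tau, hPP, hP]
    have h2 : tau N4 P ∈ I.comap (tau K4).toLinearMap := by
      refine core_ker gens4 hFw4 hGw4 ?_ (I.comap (tau K4).toLinearMap) ?_ ?_ ?_ (-28) ?_ (tau N4 P) h1
      · rw [g1_4]
        norm_num
      · intro a x hx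
        rw [Submodule.mem_comap] at hx ⊢
        show tau K4 (wd [a] * x) ∈ (TwoSidedIdeal.span {rho4} : TwoSidedIdeal (Al (Fin 4)))
        rw [map_mul]
        exact TwoSidedIdeal.mul_mem_left _ _ _ hx
      · intro x hx y
        rw [Submodule.mem_comap] at hx ⊢
        show tau K4 (x * y) ∈ (TwoSidedIdeal.span {rho4} : TwoSidedIdeal (Al (Fin 4)))
        rw [map_mul]
        exact TwoSidedIdeal.mul_mem_right _ _ _ hx
      · intro x hx
        rw [Submodule.mem_comap] at hx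
        rw [← Fg4, PhiN_tau]
        exact PhiN_of_SN _ _ (ideal_ker f4 rho4 rho4_mem PhiN_rho4 _ hx)
      · rw [Submodule.mem_comap, g1_4]
        show tau K4 _ ∈ I
        rw [tau_rho]
        exact TwoSidedIdeal.subset_span rfl
    rw [Submodule.mem_comap] at h2
    have h3 : tau K4 (tau N4 P) ∈ I := h2
    rw [hPP] at h3
    exact h3
  · intro hP
    exact PhiN_of_SN _ _ (ideal_ker f4 rho4 rho4_mem PhiN_rho4 _ hP)

end Pool.Agent.H492.DG
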