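import Pool.Agent.H492.DG.ModPoly
import Mathlib.Data.Nat.Choose.Lucas

/-!
# Binomial coefficients and residues modulo a power of `p`
-/

set_option autoImplicit false

namespace Pool.Agent.H492.DG

open Polynomial

section

variable (p : ℕ) [hpf : Fact p.Prime]

/-- **Lucas's theorem for prime powers** -/
theorem lucas_pow : ∀ (e n k : ℕ), ((n.choose k : ℕ) : ZMod p) =
    ((n % p ^ e).choose (k % p ^ e) : ℕ) * ((n / p ^ e).choose (k / p ^ e) : ℕ)
  | 0, n, k => by
      rw [pow_zero, Nat.mod_one, Nat.mod_one, Nat.div_one, Nat.div_one, Nat.choose_self]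
      simp
  | e + 1, n, k => by
      have hL : ∀ n k : ℕ, ((n.choose k : ℕ) : ZMod p) =
          ((n % p).choose (k % p) : ℕ) * ((n / p).choose (k / p) : ℕ) := by
        intro n k
        have h := Choose.choose_modEq_choose_mod_mul_choose_div_nat (p := p) (n := n) (k := k)
        have h1 := (ZMod.natCast_eq_natCast_iff _ _ _).mpr h
        rw [h1]
        push_cast
        rfl
      have hp := hpf.out.pos
      have e1 : ∀ n : ℕ, n % p ^ (e + 1) % p = n % p := fun n =>
        Nat.mod_mod_of_dvd n (dvd_pow_self p (by omega))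
      have e2 : ∀ n : ℕ, n % p ^ (e + 1) / p = n / p % p ^ e := by
        intro n
        rw [pow_succ', Nat.mod_mul_right_div_self]
      have e3 : ∀ n : ℕ, n / p ^ (e + 1) = n / p / p ^ e := by
        intro n
        rw [pow_succ', Nat.div_div_eq_div_mul]
      rw [hL n k, lucas_pow e (n / p) (k / p), hL (n % p ^ (e + 1)) (k % p ^ (e + 1)), e1, e1, e2, e2,
        e3, e3, mul_assoc]

theorem res_le {e n k : ℕ} (h : ((n.choose k : ℕ) : ZMod p) ≠ 0) :
    k % p ^ e ≤ n % p ^ e ∧ k / p ^ e ≤ n / p ^ e := by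
  rw [lucas_pow p e] at h
  constructor
  · by_contra h1
    push Not at h1
    rw [Nat.choose_eq_zero_of_lt h1] at h
    simp at h
  · by_contra h1
    push Not at h1
    rw [Nat.choose_eq_zero_of_lt h1] at h
    simp at h

theorem res_sub {e n k : ℕ} (h : ((n.choose k : ℕ) : ZMod p) ≠ 0) :
    (n - k) % p ^ e = n % p ^ e - k % p ^ e := by
  obtain ⟨h1, h2⟩ := res_le p (e := e) h
  have hq : 0 < p ^ e := pow_pos hpf.out.pos e
  have h3 := Nat.mod_add_div n (p ^ e)
  have h4 := Nat.mod_add_div k (p ^ e)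
  have h5 : p ^ e * (k / p ^ e) ≤ p ^ e * (n / p ^ e) := Nat.mul_le_mul_left _ h2
  have h6 : n - k = (n % p ^ e - k % p ^ e) + p ^ e * (n / p ^ e - k / p ^ e) := by
    rw [Nat.mul_sub]
    omega
  rw [h6, Nat.add_mul_mod_self_left]
  exact Nat.mod_eq_of_lt (lt_of_le_of_lt (Nat.sub_le _ _) (Nat.mod_lt n hq))

theorem neg_one_q (e : ℕ) : ((-1 : ZMod p)) ^ (p ^ e) = -1 := by
  induction e with
  | zero => simp
  | succ e ih => rw [pow_succ, pow_mul, ih, ZMod.pow_card]

theorem sign_lucas {e κ k1 : ℕ} (hκ : κ < p ^ e) (d : ℕ) :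
    ((-1 : ZMod p)) ^ (d - (κ + p ^ e * k1)) * ((d.choose (κ + p ^ e * k1) : ℕ) : ZMod p) =
      ((-1) ^ (d % p ^ e - κ) * ((d % p ^ e).choose κ : ℕ)) *
        ((-1) ^ (d / p ^ e - k1) * ((d / p ^ e).choose k1 : ℕ)) := by
  have hq : 0 < p ^ e := pow_pos hpf.out.pos e
  have e1 : (κ + p ^ e * k1) % p ^ e = κ := by
    rw [Nat.add_mul_mod_self_left, Nat.mod_eq_of_lt hκ]
  have e2 : (κ + p ^ e * k1) / p ^ e = k1 := by
    rw [Nat.add_mul_div_left _ _ hq, Nat.div_eq_of_lt hκ, zero_add]
  by_cases h : ((d.choose (κ + p ^ e * k1) : ℕ) : ZMod p) = 0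
  · rw [h, mul_zero]
    rw [lucas_pow p e, e1, e2] at h
    rw [mul_mul_mul_comm, h, mul_zero]
  · obtain ⟨h1, h2⟩ := res_le p (e := e) h
    rw [e1] at h1
    rw [e2] at h2
    have h3 := Nat.mod_add_div d (p ^ e)
    have h5 : p ^ e * k1 ≤ p ^ e * (d / p ^ e) := Nat.mul_le_mul_left _ h2
    have h6 : d - (κ + p ^ e * k1) = (d % p ^ e - κ) + p ^ e * (d / p ^ e - k1) := by
      rw [Nat.mul_sub]
      omega
    rw [lucas_pow p e d, e1, e2, h6, pow_add, pow_mul, neg_one_q]
    ring

/-- the letter at which a combination is tested -/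
theorem test_letter {n e : ℕ} (d : Fin n → ℕ) (hd : Function.Injective d)
    (hcrit : ∀ g : (ZMod p)[X], g ≠ 0 → (∀ m ∈ g.support, ∃ i, d i % p ^ e = m) →
      g.rootMultiplicity (-1) < g.rootMultiplicity 0)
    (c : Fin n → ZMod p) (hc : c ≠ 0) : ∃ k : ℕ, (∀ i, c i ≠ 0 → k % p ^ e < d i % p ^ e) ∧
      ∑ i, c i * ((-1) ^ (d i - k) * ((d i).choose k : ZMod p)) ≠ 0 := by
  classical
  have hq : 0 < p ^ e := pow_pos hpf.out.pos e
  obtain ⟨i0, hi0⟩ : ∃ i, c i ≠ 0 := by
    by_contra h
    push Not at h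
    exact hc (funext h)
  obtain ⟨i1, hi1, hmin⟩ := Finset.exists_min_image (Finset.univ.filter fun i => c i ≠ 0)
    (fun i => d i % p ^ e) ⟨i0, by simpa using hi0⟩
  rw [Finset.mem_filter] at hi1
  have hmin' : ∀ i, c i ≠ 0 → d i1 % p ^ e ≤ d i % p ^ e := fun i hi => hmin i (by simpa using hi)
  -- the quotients
  set c' : Fin n → ZMod p := fun i => if d i % p ^ e = d i1 % p ^ e then c i else 0 with hc'
  have hG : (pol (fun i => d i / p ^ e) c').coeff (d i1 / p ^ e) = c i1 := by
    unfold pol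
    rw [finsetSum_coeff, Finset.sum_eq_single i1]
    · rw [coeff_C_mul, coeff_X_pow, if_pos rfl, mul_one]
      simp [hc']
    · intro j _ hj
      rw [coeff_C_mul, coeff_X_pow]
      simp only [hc']
      by_cases h1 : d j % p ^ e = d i1 % p ^ e
      · have h3 : ¬ (d i1 / p ^ e = d j / p ^ e) := by
          intro h2
          apply hj
          apply hd
          rw [← Nat.mod_add_div (d j) (p ^ e), ← Nat.mod_add_div (d i1) (p ^ e), h1, h2]
        rw [if_pos h1, if_neg h3, mul_zero]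
      · rw [if_neg h1, zero_mul]
    · intro h
      exact absurd (Finset.mem_univ _) h
  have hG0 : pol (fun i => d i / p ^ e) c' ≠ 0 := by
    intro h
    rw [h, coeff_zero] at hG
    exact hi1.2 hG.symm
  set k1 := (pol (fun i => d i / p ^ e) c').rootMultiplicity (-1) with hk1
  have h1 := taylor_mult (-1) _ hG0
  rw [pol_taylor, ← hk1] at h1
  -- the residues
  set b : Fin n → ZMod p := fun i => c i * ((-1) ^ (d i / p ^ e - k1) * ((d i / p ^ e).choose k1 : ZMod p))
    with hb
  have hg1 : (pol (fun i => d i % p ^ e) b).coeff (d i1 % p ^ e) ≠ 0 := by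
    unfold pol
    rw [finsetSum_coeff]
    have : ∀ i, (C (b i) * X ^ (d i % p ^ e)).coeff (d i1 % p ^ e) =
        c' i * ((-1) ^ (d i / p ^ e - k1) * ((d i / p ^ e).choose k1 : ZMod p)) := by
      intro i
      rw [coeff_C_mul, coeff_X_pow]
      simp only [hc', hb]
      by_cases h : d i % p ^ e = d i1 % p ^ e
      · rw [if_pos h, if_pos h.symm, mul_one]
      · rw [if_neg h, if_neg (fun h' => h h'.symm), zero_mul, mul_zero]
    rw [Finset.sum_congr rfl fun i _ => this i]
    exact h1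
  have hg0 : pol (fun i => d i % p ^ e) b ≠ 0 := by
    intro h
    rw [h, coeff_zero] at hg1
    exact hg1 rfl
  have h2 := hcrit _ hg0 (fun m hm => pol_support _ _ m hm)
  have h3 := mult_zero_le _ hg0 _ hg1
  set κ := (pol (fun i => d i % p ^ e) b).rootMultiplicity (-1) with hκ
  have hκq : κ < p ^ e := by
    have := Nat.mod_lt (d i1) hq
    omega
  have h4 := taylor_mult (-1) _ hg0
  rw [pol_taylor, ← hκ] at h4
  refine ⟨κ + p ^ e * k1, ?_, ?_⟩
  · intro i hi
    rw [Nat.add_mul_mod_self_left, Nat.mod_eq_of_lt hκq]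
    have := hmin' i hi
    omega
  · intro h5
    apply h4
    rw [← h5]
    refine Finset.sum_congr rfl fun i _ => ?_
    rw [sign_lucas p hκq (d i)]
    simp only [hb]
    ring

end

/-- windows of residues -/
theorem window_crit {F : Type} [Field F] (m : ℕ) (g : F[X]) (hg : g ≠ 0)
    (h : ∀ k ∈ g.support, m ≤ k ∧ k < 2 * m) : g.rootMultiplicity (-1) < g.rootMultiplicity 0 := by
  set a := g.rootMultiplicity 0 with ha
  have h1 : (X - C (0 : F)) ^ a ∣ g := pow_rootMultiplicity_dvd g 0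
  rw [C_0, sub_zero] at h1
  obtain ⟨g', hg'⟩ := h1
  have hg'0 : g' ≠ 0 := by
    rintro rfl
    rw [mul_zero] at hg'
    exact hg hg'
  have hdeg : g.natDegree = a + g'.natDegree := by
    rw [hg', natDegree_mul (pow_ne_zero _ X_ne_zero) hg'0, natDegree_X_pow]
  have h2 : g.natDegree < 2 * m := by
    have := h g.natDegree (by
      rw [mem_support_iff]
      exact leadingCoeff_ne_zero.mpr hg)
    exact this.2
  have h3 : m ≤ a := by
    by_contra h4
    push Not at h4
    have h5 : g.coeff a ≠ 0 := by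
      have := taylor_mult 0 g hg
      rwa [← ha, taylor_zero] at this
    have := (h a (mem_support_iff.mpr h5)).1
    omega
  have h4 : g.rootMultiplicity (-1) = g'.rootMultiplicity (-1) := by
    have h0 : g ≠ 0 := hg
    rw [hg'] at h0 ⊢
    rw [rootMultiplicity_mul h0]
    have h5 : (X ^ a : F[X]).rootMultiplicity (-1) = 0 := by
      rw [rootMultiplicity_eq_zero_iff]
      intro h6
      exfalso
      rw [IsRoot.def, eval_pow, eval_X] at h6
      exact (pow_ne_zero a (by simp : (-1 : F) ≠ 0)) h6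
    rw [h5, zero_add]
  have h5 : g'.rootMultiplicity (-1) ≤ g'.natDegree := by
    have h6 : (X - C (-1 : F)) ^ g'.rootMultiplicity (-1) ∣ g' := pow_rootMultiplicity_dvd g' (-1)
    have h7 := natDegree_le_of_dvd h6 hg'0
    rwa [natDegree_pow, natDegree_X_sub_C, mul_one] at h7
  omega

end Pool.Agent.H492.DG
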