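import Pool.Agent.H492.DG.Res1

/-!
# The sum of the residues of the letters
-/

set_option autoImplicit false

namespace Pool.Agent.H492.DG

open Pool.Agent.H777R4.DM
open Pool.Agent.H337R3.Lead1 (EE EE_hom th_wd)
open H851R3.DSH (wd_append)

/-- the sum of the residues of the letters -/
def rs (q : ℕ) (v : List ℕ) : ℕ := (v.map (fun a => a % q)).sum

theorem rs_append (q : ℕ) (u v : List ℕ) : rs q (u ++ v) = rs q u + rs q v := by
  simp [rs]

theorem rs_one (q a : ℕ) : rs q [a] = a % q := by simp [rs]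

/-- combinations of words, with coefficients in `ℤ`, modulo `p` only of words with residue sum in `S` -/
noncomputable def Lp (p q : ℕ) (S : ℕ → Prop) : AddSubgroup AY :=
  AddSubgroup.closure {x | (∃ u : List ℕ, S (rs q u) ∧ x = wd u) ∨ ∃ u : List ℕ, x = (p : ℚ) • wd u}

variable {p q : ℕ}

theorem Lp_wd {S : ℕ → Prop} (u : List ℕ) (h : S (rs q u)) : (wd u : AY) ∈ Lp p q S :=
  AddSubgroup.subset_closure (Or.inl ⟨u, h, rfl⟩)

theorem Lp_p {S : ℕ → Prop} (u : List ℕ) : (p : ℚ) • (wd u : AY) ∈ Lp p q S :=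
  AddSubgroup.subset_closure (Or.inr ⟨u, rfl⟩)

theorem Lp_mono {S T : ℕ → Prop} (h : ∀ a, S a → T a) : Lp p q S ≤ Lp p q T := by
  apply AddSubgroup.closure_mono
  rintro x (⟨u, hu, rfl⟩ | ⟨u, rfl⟩)
  · exact Or.inl ⟨u, h _ hu, rfl⟩
  · exact Or.inr ⟨u, rfl⟩

theorem Lp_zsmul {S : ℕ → Prop} {x : AY} (hx : x ∈ Lp p q S) (z : ℤ) : (z : ℚ) • x ∈ Lp p q S := by
  rw [Int.cast_smul_eq_zsmul]
  exact (Lp p q S).zsmul_mem hx z

theorem Lp_mul {S T R : ℕ → Prop} (h : ∀ a b, S a → T b → R (a + b)) {x y : AY}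
    (hx : x ∈ Lp p q S) (hy : y ∈ Lp p q T) : x * y ∈ Lp p q R := by
  induction hx using AddSubgroup.closure_induction with
  | mem x hx =>
    induction hy using AddSubgroup.closure_induction with
    | mem y hy =>
      rcases hx with ⟨u, hu, rfl⟩ | ⟨u, rfl⟩
      · rcases hy with ⟨v, hv, rfl⟩ | ⟨v, rfl⟩
        · rw [← wd_append]
          exact Lp_wd _ (by rw [rs_append]; exact h _ _ hu hv)
        · rw [mul_smul_comm, ← wd_append]
          exact Lp_p _
      · rcases hy with ⟨v, hv, rfl⟩ | ⟨v, rfl⟩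
        · rw [smul_mul_assoc, ← wd_append]
          exact Lp_p _
        · rw [smul_mul_assoc, mul_smul_comm, ← wd_append]
          have := Lp_zsmul (p := p) (q := q) (S := R) (Lp_p (u ++ v)) (p : ℤ)
          simpa using this
    | zero => rw [mul_zero]; exact (Lp p q R).zero_mem
    | add y z _ _ h1 h2 => rw [mul_add]; exact (Lp p q R).add_mem h1 h2
    | neg y _ h1 => rw [mul_neg]; exact (Lp p q R).neg_mem h1
  | zero => rw [zero_mul]; exact (Lp p q R).zero_mem
  | add y z _ _ h1 h2 => rw [add_mul]; exact (Lp p q R).add_mem h1 h2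
  | neg y _ h1 => rw [neg_mul]; exact (Lp p q R).neg_mem h1

theorem co_neg (x : AY) (u : List ℕ) : co (-x) u = - co x u := by
  have : (-x : AY) = 0 - x := by abel
  rw [this, co_sub, co_zero, zero_sub]

theorem Lp_co {S : ℕ → Prop} {x : AY} (hx : x ∈ Lp p q S) (u : List ℕ) :
    ∃ z : ℤ, co x u = z ∧ (¬ (p : ℤ) ∣ z → S (rs q u)) := by
  induction hx using AddSubgroup.closure_induction with
  | mem x hx =>
    rcases hx with ⟨v, hv, rfl⟩ | ⟨v, rfl⟩
    · rw [co_wd]
      by_cases h : v = u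
      · rw [if_pos h]
        exact ⟨1, by norm_num, fun _ => by rw [← h]; exact hv⟩
      · rw [if_neg h]
        exact ⟨0, by norm_num, fun h => absurd (dvd_zero _) h⟩
    · rw [co_smul, co_wd]
      by_cases h : v = u
      · rw [if_pos h]
        exact ⟨p, by norm_num, fun h => absurd (dvd_refl _) h⟩
      · rw [if_neg h]
        exact ⟨0, by norm_num, fun h => absurd (dvd_zero _) h⟩
  | zero => exact ⟨0, by rw [co_zero]; norm_num, fun h => absurd (dvd_zero _) h⟩
  | add y z _ _ h1 h2 =>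
    obtain ⟨a, ha, ha'⟩ := h1
    obtain ⟨b, hb, hb'⟩ := h2
    refine ⟨a + b, by rw [co_add, ha, hb]; push_cast; ring, fun h => ?_⟩
    by_cases h3 : (p : ℤ) ∣ a
    · exact hb' fun h4 => h (dvd_add h3 h4)
    · exact ha' h3
  | neg y _ h1 =>
    obtain ⟨a, ha, ha'⟩ := h1
    refine ⟨-a, by rw [co_neg, ha]; push_cast; ring, fun h => ha' fun h3 => h (dvd_neg.mpr h3)⟩

/-- a multiple of a word by an integer which is divisible by `p`, or the word is allowed -/
theorem Lp_cwd {S : ℕ → Prop} (z : ℤ) (u : List ℕ) (h : ¬ (p : ℤ) ∣ z → S (rs q u)) :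
    (z : ℚ) • (wd u : AY) ∈ Lp p q S := by
  by_cases h1 : (p : ℤ) ∣ z
  · obtain ⟨t, rfl⟩ := h1
    have h2 := Lp_zsmul (p := p) (q := q) (S := S) (Lp_p u) t
    rw [smul_smul] at h2
    have e : (((p : ℤ) * t : ℤ) : ℚ) = (t : ℚ) * p := by push_cast; ring
    rw [e]
    exact h2
  · exact Lp_zsmul (Lp_wd u (h h1)) z

theorem Lz_Lp {N : ℕ} {x : AY} (hx : x ∈ Lz N) : x ∈ Lp p q (fun _ => True) := by
  induction hx using AddSubgroup.closure_induction with
  | mem x hx =>
    obtain ⟨u, _, rfl⟩ := hx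
    exact Lp_wd _ trivial
  | zero => exact (Lp p q _).zero_mem
  | add y z _ _ h1 h2 => exact (Lp p q _).add_mem h1 h2
  | neg y _ h1 => exact (Lp p q _).neg_mem h1

/-- integral elements times `p` -/
theorem Lp_smul_p {S : ℕ → Prop} {x : AY} (hx : x ∈ Lp p q (fun _ => True)) : (p : ℚ) • x ∈ Lp p q S := by
  induction hx using AddSubgroup.closure_induction with
  | mem x hx =>
    rcases hx with ⟨u, _, rfl⟩ | ⟨u, rfl⟩
    · exact Lp_p u
    · have := Lp_zsmul (p := p) (q := q) (S := S) (Lp_p u) (p : ℤ)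
      simpa using this
  | zero => rw [smul_zero]; exact (Lp p q S).zero_mem
  | add y z _ _ h1 h2 => rw [smul_add]; exact (Lp p q S).add_mem h1 h2
  | neg y _ h1 => rw [smul_neg]; exact (Lp p q S).neg_mem h1

section

variable {e : ℕ} [hpf : Fact p.Prime]

theorem not_dvd_choose {d i : ℕ} (h : ¬ (p : ℤ) ∣ ((-1) ^ i * (d.choose i : ℤ))) :
    ((d.choose i : ℕ) : ZMod p) ≠ 0 := by
  intro h1
  apply h
  rw [ZMod.natCast_eq_zero_iff] at h1
  exact dvd_mul_of_dvd_right (by exact_mod_cast h1) _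

theorem EE_adp_one (d a : ℕ) (h : a % p ^ e + d % p ^ e < p ^ e) :
    EE (adp d) (wd [a]) ∈ Lp p (p ^ e) (fun N => N = a % p ^ e + d % p ^ e) := by
  rw [EE_adp]
  refine (Lp p (p ^ e) _).sum_mem fun i hi => ?_
  have e1 : ((-1 : ℚ) ^ i * (d.choose i : ℚ)) = (((-1) ^ i * (d.choose i : ℤ) : ℤ) : ℚ) := by
    push_cast; ring
  rw [e1, smul_sub]
  have key : ∀ x y : ℕ, x % p ^ e + y % p ^ e < p ^ e → (x + y) % p ^ e = x % p ^ e + y % p ^ e := by
    intro x y hxy
    rw [Nat.add_mod, Nat.mod_eq_of_lt hxy]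
  refine (Lp p (p ^ e) _).sub_mem (Lp_cwd _ _ fun h1 => ?_) (Lp_cwd _ _ fun h1 => ?_)
  · have h2 := not_dvd_choose h1
    have h3 := (res_le p (e := e) h2).1
    have h4 := res_sub p (e := e) h2
    have h5 := key a i (by omega)
    show rs (p ^ e) [d - i, a + i] = _
    simp only [rs, List.map_cons, List.map_nil, List.sum_cons, List.sum_nil]
    omega
  · have h2 := not_dvd_choose h1
    have h3 := (res_le p (e := e) h2).1
    have h4 := res_sub p (e := e) h2
    have h6 := Nat.zero_le (i % p ^ e)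
    have h5 := key a (d - i) (by omega)
    show rs (p ^ e) [a + (d - i), i] = _
    simp only [rs, List.map_cons, List.map_nil, List.sum_cons, List.sum_nil]
    omega

theorem EE_adp_Lp (d : ℕ) : ∀ v : List ℕ, rs (p ^ e) v + d % p ^ e < p ^ e →
    EE (adp d) (wd v) ∈ Lp p (p ^ e) (fun N => N = rs (p ^ e) v + d % p ^ e)
  | [], _ => by
      have h : (wd [] : AY) = 1 := Pool.Agent.H337R3.Lead1.wd_nil
      rw [h, EE_one]
      exact (Lp p (p ^ e) _).zero_mem
  | a :: v, hv => by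
      have h : (wd (a :: v) : AY) = wd [a] * wd v := by rw [← wd_append]; rfl
      have hrs : rs (p ^ e) (a :: v) = a % p ^ e + rs (p ^ e) v := by simp [rs]
      rw [hrs] at hv ⊢
      have h7 := Nat.zero_le (a % p ^ e)
      rw [h, EE_mul]
      refine (Lp p (p ^ e) _).add_mem ?_ ?_
      · refine Lp_mul (S := fun N => N = a % p ^ e + d % p ^ e) (T := fun N => N = rs (p ^ e) v) ?_
          (EE_adp_one d a (by omega)) (Lp_wd v rfl)
        intro x y hx hy
        show x + y = _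
        omega
      · refine Lp_mul (S := fun N => N = a % p ^ e) (T := fun N => N = rs (p ^ e) v + d % p ^ e) ?_
          (Lp_wd [a] (rs_one _ _)) (EE_adp_Lp d v (by omega))
        intro x y hx hy
        show x + y = _
        omega

/-- the derivation modulo `p`, with residues -/
theorem EE_dvd_rs (d : ℕ) (g : AY) (z : List ℕ → ℤ) (hz : ∀ v, co g v = z v) (u : List ℕ)
    (h : ∀ v, ¬ (p : ℤ) ∣ z v → rs (p ^ e) v + d % p ^ e < p ^ e ∧ rs (p ^ e) v + d % p ^ e ≠ rs (p ^ e) u) :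
    ∃ t : ℤ, co (EE (adp d) g) u = p * t := by
  have key : ∀ s : Finset (FreeMonoid ℕ), ∃ t : ℤ,
      ∑ m ∈ s, co g (FreeMonoid.toList m) * co (EE (adp d) (wd (FreeMonoid.toList m))) u = p * t := by
    classical
    intro s
    induction s using Finset.induction_on with
    | empty => exact ⟨0, by simp⟩
    | insert m s hm ih =>
      obtain ⟨t, ht⟩ := ih
      rw [Finset.sum_insert hm, ht]
      by_cases h3 : (p : ℤ) ∣ z (FreeMonoid.toList m)
      · obtain ⟨⟨e', he⟩, _⟩ := Lz_co (EE_adp_Lz d (FreeMonoid.toList m)) u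
        obtain ⟨y, hy⟩ := h3
        refine ⟨y * e' + t, ?_⟩
        rw [hz, he, hy]
        push_cast
        ring
      · obtain ⟨h4, h5⟩ := h _ h3
        obtain ⟨w, hw, hw'⟩ := Lp_co (EE_adp_Lp d _ h4) u
        have h6 : (p : ℤ) ∣ w := by
          by_contra h7
          exact h5 (hw' h7).symm
        obtain ⟨y, hy⟩ := h6
        refine ⟨z (FreeMonoid.toList m) * y + t, ?_⟩
        rw [hz, hw, hy]
        push_cast
        ring
  obtain ⟨t, ht⟩ := key g.coeff.support
  refine ⟨t, ?_⟩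
  rw [← ht]
  conv_lhs => rw [Pool.Agent.H777R4.DM.Lead2.expand g]
  rw [map_sum, co_sum]
  refine Finset.sum_congr rfl fun m _ => ?_
  rw [map_smul, co_smul]

/-- **joint injectivity modulo `p`, with residues** -/
theorem JI_rs {n : ℕ} (d : Fin n → ℕ)
    (hK : ∀ c : Fin n → ZMod p, c ≠ 0 → ∃ k : ℕ, (∀ i, c i ≠ 0 → k % p ^ e < d i % p ^ e) ∧
      ∑ i, c i * ((-1) ^ (d i - k) * ((d i).choose k : ZMod p)) ≠ 0)
    (g : Fin n → AY) (z : Fin n → List ℕ → ℤ) (hz : ∀ i v, co (g i) v = z i v)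
    (hlt : ∀ i v, ¬ (p : ℤ) ∣ z i v → rs (p ^ e) v + d i % p ^ e < p ^ e)
    (heq : ∀ v k, ∃ t : ℤ, co (∑ i, opT (adp (d i)) (θ (adp (d i))) (g i)) (v ++ [k]) = p * t) :
    ∀ i v, (p : ℤ) ∣ z i v := by
  by_contra hcon
  push Not at hcon
  choose! K hK1 hK2 using hK
  set c : List ℕ → Fin n → ZMod p := fun v i => (z i v : ZMod p) with hc
  have hcz : ∀ v i, c v i = 0 ↔ (p : ℤ) ∣ z i v := fun v i => ZMod.intCast_zmod_eq_zero_iff_dvd _ _
  have hex : ∃ N, ∃ v, c v ≠ 0 ∧ rs (p ^ e) v + K (c v) % p ^ e = N := by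
    obtain ⟨i, v, h⟩ := hcon
    refine ⟨_, v, fun h1 => h ?_, rfl⟩
    rw [← hcz, h1]
    rfl
  classical
  obtain ⟨v, hv0, hvN⟩ := Nat.find_spec hex
  have hmin : ∀ v', c v' ≠ 0 → Nat.find hex ≤ rs (p ^ e) v' + K (c v') % p ^ e := fun v' h' =>
    Nat.find_min' hex ⟨v', h', rfl⟩
  set k := K (c v) with hk
  obtain ⟨t0, h1⟩ := heq v k
  rw [co_sum] at h1
  have h2 : ∀ i : Fin n, ∃ t : ℤ, co (EE (adp (d i)) (g i)) (v ++ [k]) = (p : ℤ) * t := by
    intro i
    refine EE_dvd_rs (e := e) (d i) (g i) (z i) (hz i) (v ++ [k]) ?_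
    intro v' hv'
    refine ⟨hlt i v' hv', ?_⟩
    intro hsum
    have h3 : c v' i ≠ 0 := fun h => hv' ((hcz v' i).mp h)
    have h4 : c v' ≠ 0 := fun h => h3 (by rw [h]; rfl)
    have h5 := hK1 (c v') h4 i h3
    have h6 := hmin v' h4
    rw [rs_append, rs_one] at hsum
    omega
  choose t ht using h2
  have h3 : ∑ i, ((z i v : ℤ) * ((-1) ^ (d i - k) * ((d i).choose k : ℤ)) + (p : ℤ) * t i) = p * t0 := by
    have h4 : ((∑ i, ((z i v : ℤ) * ((-1) ^ (d i - k) * ((d i).choose k : ℤ)) + (p : ℤ) * t i) : ℤ) : ℚ) =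
        ((p * t0 : ℤ) : ℚ) := by
      push_cast
      rw [← h1]
      refine Finset.sum_congr rfl fun i _ => ?_
      rw [opT_apply, co_add, co_mul_th_adp, co_th_adp', hz, ht]
      push_cast
      ring
    exact_mod_cast h4
  apply hK2 (c v) hv0
  have h5 := congrArg (Int.cast : ℤ → ZMod p) h3
  push_cast at h5
  rw [ZMod.natCast_self, zero_mul] at h5
  rw [← h5]
  refine Finset.sum_congr rfl fun i _ => ?_
  rw [zero_mul, add_zero]

/-! ### the operators on words -/

theorem th_adp_Lp (d : ℕ) : θ (adp d) ∈ Lp p (p ^ e) (fun N => N ≤ d % p ^ e) := by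
  rw [th_adp]
  refine (Lp p (p ^ e) _).sum_mem fun i hi => ?_
  have e1 : ((-1 : ℚ) ^ i * (d.choose i : ℚ)) = (((-1) ^ i * (d.choose i : ℤ) : ℤ) : ℚ) := by
    push_cast; ring
  rw [e1]
  refine Lp_cwd _ _ fun h1 => ?_
  have h2 := not_dvd_choose h1
  have h4 := res_sub p (e := e) h2
  show rs (p ^ e) [d - i] ≤ _
  rw [rs_one, h4]
  exact Nat.sub_le _ _

omit hpf in
theorem EE_Lp_true (d : ℕ) {x : AY} (hx : x ∈ Lp p q (fun _ => True)) :
    EE (adp d) x ∈ Lp p q (fun _ => True) := by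
  induction hx using AddSubgroup.closure_induction with
  | mem x hx =>
    rcases hx with ⟨u, _, rfl⟩ | ⟨u, rfl⟩
    · exact Lz_Lp (EE_adp_Lz d u)
    · rw [map_smul]
      exact Lp_smul_p (Lz_Lp (EE_adp_Lz d u))
  | zero => rw [map_zero]; exact (Lp p q _).zero_mem
  | add y z _ _ h1 h2 => rw [map_add]; exact (Lp p q _).add_mem h1 h2
  | neg y _ h1 => rw [map_neg]; exact (Lp p q _).neg_mem h1

theorem EE_Lp_le (d N : ℕ) (hN : N + d % p ^ e < p ^ e) {x : AY} (hx : x ∈ Lp p (p ^ e) (fun M => M ≤ N)) :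
    EE (adp d) x ∈ Lp p (p ^ e) (fun M => M ≤ N + d % p ^ e) := by
  induction hx using AddSubgroup.closure_induction with
  | mem x hx =>
    rcases hx with ⟨u, hu, rfl⟩ | ⟨u, rfl⟩
    · refine Lp_mono ?_ (EE_adp_Lp d u (by omega))
      intro a ha
      omega
    · rw [map_smul]
      exact Lp_smul_p (Lz_Lp (EE_adp_Lz d u))
  | zero => rw [map_zero]; exact (Lp p _ _).zero_mem
  | add y z _ _ h1 h2 => rw [map_add]; exact (Lp p _ _).add_mem h1 h2
  | neg y _ h1 => rw [map_neg]; exact (Lp p _ _).neg_mem h1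

variable {n : ℕ} (d : Fin n → ℕ)

/-- the operators of `(ad x₀)^{d_i} x₁` -/
noncomputable def TT (i : Fin n) : Module.End ℚ AY := opT (adp (d i)) (θ (adp (d i)))

omit hpf in
theorem ev_true : ∀ W : List (Fin n), evT (TT d) W ∈ Lp p q (fun _ => True)
  | [] => by
      show (1 : AY) ∈ _
      have h : (wd [] : AY) = 1 := Pool.Agent.H337R3.Lead1.wd_nil
      rw [← h]
      exact Lp_wd _ trivial
  | i :: W => by
      show TT d i (evT (TT d) W) ∈ _
      rw [TT, opT_apply]
      refine (Lp p q _).add_mem ?_ (EE_Lp_true _ (ev_true W))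
      refine Lp_mul (S := fun _ => True) (T := fun _ => True) (fun _ _ _ _ => trivial) (ev_true W) ?_
      rw [th_adp]
      refine (Lp p q _).sum_mem fun j _ => ?_
      have e1 : ((-1 : ℚ) ^ j * ((d i).choose j : ℚ)) = (((-1) ^ j * ((d i).choose j : ℤ) : ℤ) : ℚ) := by
        push_cast; ring
      rw [e1]
      exact Lp_cwd _ _ fun _ => trivial

/-- the sum of the residues of the exponents -/
def rw' (q : ℕ) (W : List (Fin n)) : ℕ := (W.map (fun i => d i % q)).sum

theorem ev_le : ∀ W : List (Fin n), rw' d (p ^ e) W < p ^ e →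
    evT (TT d) W ∈ Lp p (p ^ e) (fun N => N ≤ rw' d (p ^ e) W)
  | [], _ => by
      show (1 : AY) ∈ _
      have h : (wd [] : AY) = 1 := Pool.Agent.H337R3.Lead1.wd_nil
      rw [← h]
      exact Lp_wd _ (by simp [rs])
  | i :: W, hW => by
      have hrs : rw' d (p ^ e) (i :: W) = d i % p ^ e + rw' d (p ^ e) W := by simp [rw']
      rw [hrs] at hW ⊢
      show TT d i (evT (TT d) W) ∈ _
      rw [TT, opT_apply]
      have h7 := Nat.zero_le (d i % p ^ e)
      have ih := ev_le W (by omega)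
      refine (Lp p (p ^ e) _).add_mem ?_ ?_
      · refine Lp_mul (S := fun N => N ≤ rw' d (p ^ e) W) (T := fun N => N ≤ d i % p ^ e) ?_ ih
          (th_adp_Lp (d i))
        intro a b ha hb
        show a + b ≤ _
        omega
      · refine Lp_mono ?_ (EE_Lp_le (d i) (rw' d (p ^ e) W) (by omega) ih)
        intro a ha
        omega

end

end Pool.Agent.H492.DG
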