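import Pool.Agent.H492.DG.ModPoly

/-!
# Joint injectivity for two thirds of the elements of depth one
-/

set_option autoImplicit false

namespace Pool.Agent.H492.DG

open Pool.Agent.H777R4.DM
open Pool.Agent.N568.DSF (Dp)
open Pool.Agent.H337R3.Lead1 (EE EE_hom th_wd)
open H851R3.DSH (wd_append)
open Pool.Agent.H861R3.DM.LeadN (evN PhiN_wd)
open Polynomial

/-- the coefficients of `(t² - 1) ^ k` -/
def hc (k i : ℕ) : ℚ := (-1) ^ (k - i) * (k.choose i : ℚ)

/-- the element of `t ^ (2 (⌊k/2⌋ + 1)) (t² - 1) ^ k` -/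
noncomputable def FK (k : ℕ) : A := ∑ i ∈ Finset.range (k + 1), hc k i • adp (2 * (k / 2 + 1 + i))

noncomputable def QK (k : ℕ) : ℚ[X] := ∑ i ∈ Finset.range (k + 1), C (hc k i) * X ^ (2 * (k / 2 + 1 + i))

theorem QK_eq (k : ℕ) : QK k = X ^ (2 * (k / 2 + 1)) * (X ^ 2 - 1) ^ k := by
  unfold QK
  rw [sub_eq_add_neg, add_pow, Finset.mul_sum]
  refine Finset.sum_congr rfl fun i _ => ?_
  unfold hc
  rw [mul_add 2 (k / 2 + 1) i, pow_add, pow_mul]
  simp only [map_mul, map_pow, map_neg, map_one, map_natCast]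
  ring

theorem QK_taylor (k : ℕ) : taylor (-1) (QK k) =
    X ^ k * ((X - 1) ^ (2 * (k / 2 + 1)) * (X - 2) ^ k) := by
  rw [QK_eq, taylor_mul, taylor_pow, taylor_pow, map_sub, taylor_pow, taylor_X, taylor_one, C_neg, C_1]
  have h : ((X + -1) ^ 2 - 1 : ℚ[X]) = X * (X - 2) := by ring
  rw [h, mul_pow]
  ring

theorem QK_coeff (k l : ℕ) : (taylor (-1) (QK k)).coeff l =
    ∑ i ∈ Finset.range (k + 1), hc k i *
      ((-1) ^ (2 * (k / 2 + 1 + i) - l) * ((2 * (k / 2 + 1 + i)).choose l : ℚ)) := by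
  rw [taylor_coeff]
  unfold QK
  rw [map_sum, eval_finsetSum]
  refine Finset.sum_congr rfl fun i _ => ?_
  rw [C_mul_X_pow_eq_monomial, hasseDeriv_monomial, eval_monomial]
  ring

theorem co_th_FK (k l : ℕ) : co (θ (FK k)) [l] = (taylor (-1) (QK k)).coeff l := by
  rw [QK_coeff]
  unfold FK
  rw [map_sum, co_sum]
  refine Finset.sum_congr rfl fun i _ => ?_
  rw [map_smul, co_smul, co_th_adp']

theorem co_th_FK_lt {k l : ℕ} (h : l < k) : co (θ (FK k)) [l] = 0 := by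
  rw [co_th_FK, QK_taylor, coeff_X_pow_mul', if_neg (by omega)]

theorem co_th_FK_eq (k : ℕ) : co (θ (FK k)) [k] ≠ 0 := by
  rw [co_th_FK, QK_taylor, coeff_X_pow_mul', if_pos le_rfl, Nat.sub_self, coeff_zero_eq_eval_zero]
  simp

theorem co_mul_th_FK (g : AY) (k l : ℕ) (v : List ℕ) :
    co (g * θ (FK k)) (v ++ [l]) = co g v * co (θ (FK k)) [l] := by
  unfold FK
  rw [map_sum, Finset.mul_sum, co_sum, co_sum, Finset.mul_sum]
  refine Finset.sum_congr rfl fun i _ => ?_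
  rw [map_smul, mul_smul_comm, co_smul, co_smul, co_mul_th_adp]
  ring

theorem EE_words {f : A} {g : AY} {u : List ℕ} (h : co (EE f g) u ≠ 0) :
    ∃ a b, co f a ≠ 0 ∧ co g b ≠ 0 ∧ u.length = a.count 1 + b.length ∧
      u.sum + a.count 1 = a.length + b.sum := by
  rw [Pool.Agent.H777R4.DM.Lead2.expand f, Pool.Agent.H777R4.DM.Lead2.expand g, map_sum, co_sum] at h
  obtain ⟨a, _, ha⟩ := Finset.exists_ne_zero_of_sum_ne_zero h
  rw [map_sum, LinearMap.sum_apply, co_sum] at ha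
  obtain ⟨b, _, hb⟩ := Finset.exists_ne_zero_of_sum_ne_zero ha
  rw [map_smul, map_smul, LinearMap.smul_apply, co_smul, co_smul] at hb
  have h1 := left_ne_zero_of_mul hb
  have h2 := right_ne_zero_of_mul hb
  have h3 := left_ne_zero_of_mul h2
  have h4 := right_ne_zero_of_mul h2
  exact ⟨_, _, h3, h1, EE_len_wd _ _ _ h4⟩

theorem FK_words {k : ℕ} {u : List (Fin 2)} (h : co (FK k) u ≠ 0) :
    u.count 1 = 1 ∧ 2 * (k / 2 + 1) + 1 ≤ u.length := by
  unfold FK at h
  rw [co_sum] at h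
  obtain ⟨i, _, hi⟩ := Finset.exists_ne_zero_of_sum_ne_zero h
  rw [co_smul] at hi
  have := adp_words _ _ (right_ne_zero_of_mul hi)
  omega

/-- **joint injectivity** -/
theorem JI_F (S : Finset ℕ) (Ψ : ℕ → A) (hΨ : ∀ k ∈ S, Dp 2 (Ψ k - FK k)) (g : ℕ → AY)
    (h : ∑ k ∈ S, opT (Ψ k) (θ (Ψ k)) (g k) = 0) : ∀ k ∈ S, g k = 0 := by
  by_contra hcon
  push Not at hcon
  classical
  have hex : ∃ r, ∃ k ∈ S, ∃ v, co (g k) v ≠ 0 ∧ v.length = r := by
    obtain ⟨k, hk, hne⟩ := hcon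
    by_contra h1
    push Not at h1
    apply hne
    apply al_ext
    intro v
    rw [co_zero]
    by_contra h2
    exact h1 v.length k hk v h2 rfl
  obtain ⟨k0, hk0, v0, h0, hv0⟩ := Nat.find_spec hex
  set r := Nat.find hex with hr
  have hmin : ∀ k ∈ S, ∀ v, co (g k) v ≠ 0 → r ≤ v.length := fun k hk v h =>
    Nat.find_min' hex ⟨k, hk, v, h, rfl⟩
  have hex2 : ∃ N, ∃ k ∈ S, ∃ v, co (g k) v ≠ 0 ∧ v.length = r ∧ v.sum + k = N :=
    ⟨_, k0, hk0, v0, h0, hv0, rfl⟩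
  obtain ⟨k, hk, v, hv, hvr, hvN⟩ := Nat.find_spec hex2
  have hmin2 : ∀ k' ∈ S, ∀ v', co (g k') v' ≠ 0 → v'.length = r → v.sum + k ≤ v'.sum + k' := by
    intro k' hk' v' h1 h2
    rw [hvN]
    exact Nat.find_min' hex2 ⟨k', hk', v', h1, h2, rfl⟩
  -- the coefficient
  have key : ∀ k' ∈ S, co (opT (Ψ k') (θ (Ψ k')) (g k')) (v ++ [k]) =
      if k' = k then co (g k) v * co (θ (FK k)) [k] else 0 := by
    intro k' hk'
    have hul : (v ++ [k]).length = r + 1 := by simp [hvr]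
    have e : opT (Ψ k') (θ (Ψ k')) (g k') = g k' * θ (FK k') + (EE (FK k') (g k') +
        (g k' * θ (Ψ k' - FK k') + EE (Ψ k' - FK k') (g k'))) := by
      simp only [opT_apply, map_sub, LinearMap.sub_apply, mul_sub]
      abel
    have a1 : co (g k' * θ (Ψ k' - FK k')) (v ++ [k]) = 0 := by
      by_contra h3
      have := mul_len (hmin k' hk') (th_len (hΨ k' hk')) _ h3
      omega
    have a2 : co (EE (Ψ k' - FK k') (g k')) (v ++ [k]) = 0 := by
      by_contra h3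
      have := EE_len (hΨ k' hk') (hmin k' hk') _ h3
      omega
    have a3 : co (EE (FK k') (g k')) (v ++ [k]) = 0 := by
      by_contra h3
      obtain ⟨a, b, ha, hb, h4, h5⟩ := EE_words h3
      obtain ⟨h6, h7⟩ := FK_words ha
      have h8 := hmin2 k' hk' b hb (by omega)
      rw [List.sum_append, List.sum_singleton] at h5
      omega
    rw [e, co_add, co_add, co_add, a1, a2, a3, co_mul_th_FK, add_zero, add_zero, add_zero]
    by_cases hkk : k' = k
    · rw [if_pos hkk, hkk]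
    · rw [if_neg hkk]
      rcases lt_or_gt_of_ne hkk with h1 | h1
      · have h2 : co (g k') v = 0 := by
          by_contra h3
          have := hmin2 k' hk' v h3 hvr
          omega
        rw [h2, zero_mul]
      · rw [co_th_FK_lt h1, mul_zero]
  have h1 : co (∑ k' ∈ S, opT (Ψ k') (θ (Ψ k')) (g k')) (v ++ [k]) = 0 := by rw [h, co_zero]
  rw [co_sum, Finset.sum_congr rfl key, Finset.sum_ite_eq' S k, if_pos hk] at h1
  exact mul_ne_zero hv (co_th_FK_eq k) h1

end Pool.Agent.H492.DG
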