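import Pool.Agent.H492.DG.Res2
import Pool.Agent.H492.DG.TT1

/-!
# Independence of the words with a small sum of residues
-/

set_option autoImplicit false

namespace Pool.Agent.H492.DG

open Pool.Agent.H777R4.DM
open Pool.Agent.N568.DSF (Dp Fm Fm_count lie_split)
open Pool.Agent.H337R3.Lead1 (EE EE_hom th_wd s_apply)
open H851R3.DSH (wd_append)
open Pool.Agent.H861R3.DM.LeadN (evN PhiN_wd)

attribute [local instance 100] LieRing.ofAssociativeRing

variable {p e n : ℕ} [hpf : Fact p.Prime] (d : Fin n → ℕ)

omit hpf in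
theorem rw'_cons (q : ℕ) (i : Fin n) (W : List (Fin n)) : rw' d q (i :: W) = d i % q + rw' d q W := by
  simp [rw']

theorem EvT_Lp (P : Al (Fin n)) (z : List (Fin n) → ℤ) (hz : ∀ W, co P W = z W) (ρ : ℕ)
    (h : ∀ W, ¬ (p : ℤ) ∣ z W → rw' d (p ^ e) W + ρ < p ^ e) :
    EvT (TT d) P ∈ Lp p (p ^ e) (fun N => N + ρ < p ^ e) := by
  rw [Lead2.expand P, map_sum]
  refine (Lp p (p ^ e) _).sum_mem fun m _ => ?_
  rw [map_smul, EvT_wd, hz]
  by_cases h1 : (p : ℤ) ∣ z (FreeMonoid.toList m)
  · obtain ⟨t, ht⟩ := h1
    have h2 := Lp_zsmul (Lp_smul_p (p := p) (q := p ^ e) (S := fun N => N + ρ < p ^ e)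
      (ev_true d (FreeMonoid.toList m))) t
    rw [smul_smul] at h2
    have e1 : ((z (FreeMonoid.toList m) : ℤ) : ℚ) = (t : ℚ) * p := by rw [ht]; push_cast; ring
    rw [e1]
    exact h2
  · have h2 := h _ h1
    refine Lp_zsmul (Lp_mono ?_ (ev_le d _ (by omega))) _
    intro a ha
    omega

theorem mod_words (hK : ∀ c : Fin n → ZMod p, c ≠ 0 → ∃ k : ℕ, (∀ i, c i ≠ 0 → k % p ^ e < d i % p ^ e) ∧
      ∑ i, c i * ((-1) ^ (d i - k) * ((d i).choose k : ZMod p)) ≠ 0) :
    ∀ (r : ℕ) (P : Al (Fin n)) (z : List (Fin n) → ℤ), (∀ W, co P W = z W) →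
      (∀ W, co P W ≠ 0 → W.length = r) → (∀ W, ¬ (p : ℤ) ∣ z W → rw' d (p ^ e) W < p ^ e) →
      (∀ u, ∃ t : ℤ, co (EvT (TT d) P) u = p * t) → ∀ W, (p : ℤ) ∣ z W
  | 0, P, z, hz, hlen, _, heq, W => by
      by_cases hW : W = []
      · subst hW
        have h1 : P = co P [] • (1 : Al (Fin n)) := by
          apply al_ext
          intro w
          rw [co_smul]
          have h2 : co (1 : Al (Fin n)) w = if w = [] then 1 else 0 := by
            rw [← Pool.Agent.H337R3.Lead1.wd_nil, co_wd]
            by_cases h3 : w = []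
            · rw [if_pos h3, if_pos h3.symm]
            · rw [if_neg h3, if_neg (fun h4 => h3 h4.symm)]
          rw [h2]
          by_cases h3 : w = []
          · rw [if_pos h3, h3, mul_one]
          · rw [if_neg h3, mul_zero]
            by_contra h4
            exact h3 (List.length_eq_zero_iff.mp (hlen w h4))
        obtain ⟨t, ht⟩ := heq []
        rw [h1, map_smul, co_smul] at ht
        have h2 : EvT (TT d) (1 : Al (Fin n)) = 1 := by
          rw [← Pool.Agent.H337R3.Lead1.wd_nil, EvT_wd]; rfl
        have h3 : co (1 : AY) [] = 1 := by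
          rw [← Pool.Agent.H337R3.Lead1.wd_nil, co_wd, if_pos rfl]
        rw [h2, h3, mul_one, hz] at ht
        exact ⟨t, by exact_mod_cast ht⟩
      · have h1 : co P W = 0 := by
          by_contra h2
          exact hW (List.length_eq_zero_iff.mp (hlen W h2))
        rw [hz] at h1
        have h2 : z W = 0 := by exact_mod_cast h1
        rw [h2]
        exact dvd_zero _
  | r + 1, P, z, hz, hlen, hres, heq, W => by
      have h0 : co P [] = 0 := by
        by_contra h
        have := hlen _ h
        simp at this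
      have h1 : EvT (TT d) P = ∑ i, TT d i (EvT (TT d) (lq i P)) := by
        conv_lhs => rw [al_expand P, h0, zero_smul, zero_add]
        rw [map_sum]
        exact Finset.sum_congr rfl fun i _ => EvT_cons _ _ _
      have hi : ∀ i v, ∃ ζ : ℤ, co (EvT (TT d) (lq i P)) v = ζ ∧
          (¬ (p : ℤ) ∣ ζ → rs (p ^ e) v + d i % p ^ e < p ^ e) := by
        intro i v
        refine Lp_co (EvT_Lp d (lq i P) (fun W => z (i :: W)) (fun W => ?_) (d i % p ^ e) ?_) v
        · rw [co_lq]
          exact hz _
        · intro W hW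
          have := hres _ hW
          rw [rw'_cons] at this
          omega
      choose ζ hζ1 hζ2 using hi
      have h2 := JI_rs (e := e) d hK (fun i => EvT (TT d) (lq i P)) ζ hζ1 hζ2 (by
        intro v k
        have := heq (v ++ [k])
        rw [h1] at this
        exact this)
      rcases W with _ | ⟨i, W⟩
      · rw [hz] at h0
        have h3 : z [] = 0 := by exact_mod_cast h0
        rw [h3]
        exact dvd_zero _
      · refine mod_words hK r (lq i P) (fun W => z (i :: W)) (fun W => ?_) (fun W hW => ?_)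
          (fun W hW => ?_) (fun v => ?_) W
        · rw [co_lq]
          exact hz _
        · rw [co_lq] at hW
          have := hlen _ hW
          simpa using this
        · have := hres _ hW
          rw [rw'_cons] at this
          exact lt_of_le_of_lt (Nat.le_add_left _ _) this
        · obtain ⟨t, ht⟩ := h2 i v
          exact ⟨t, by rw [hζ1, ht]; push_cast; ring⟩

/-! ### the leading parts -/

/-- the product of the numbers `κ` -/
def kap (κ : Fin n → ℚ) (W : List (Fin n)) : ℚ := (W.map κ).prod

theorem kap_cons (κ : Fin n → ℚ) (i : Fin n) (W : List (Fin n)) : kap κ (i :: W) = κ i * kap κ W := by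
  simp [kap]

theorem kap_ne {κ : Fin n → ℚ} (hκ : ∀ i, κ i ≠ 0) : ∀ W : List (Fin n), kap κ W ≠ 0
  | [] => by simp [kap]
  | i :: W => by
      rw [kap_cons]
      exact mul_ne_zero (hκ i) (kap_ne hκ W)

/-- the part of length `r`, with factors -/
noncomputable def selP (κ : Fin n → ℚ) (r : ℕ) : Al (Fin n) →ₗ[ℚ] Al (Fin n) :=
  lext fun W => if W.length = r then kap κ W • wd W else 0

theorem selP_wd (κ : Fin n → ℚ) (r : ℕ) (W : List (Fin n)) :
    selP κ r (wd W) = if W.length = r then kap κ W • wd W else 0 := by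
  unfold selP
  rw [lext_wd]

theorem co_selP (κ : Fin n → ℚ) (r : ℕ) (P : Al (Fin n)) (w : List (Fin n)) :
    co (selP κ r P) w = if w.length = r then kap κ w * co P w else 0 := by
  induction P using al_induction with
  | h1 l =>
    rw [selP_wd, co_wd]
    by_cases h : l = w
    · rw [if_pos h, h]
      split_ifs
      · rw [co_smul, co_wd, if_pos rfl]
      · rw [co_zero]
    · rw [if_neg h, mul_zero]
      split_ifs
      · rw [co_smul, co_wd, if_neg h, mul_zero]
      · rw [co_smul, co_wd, if_neg h, mul_zero]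
      · rw [co_zero]
      · rw [co_zero]
  | h2 P Q hP hQ =>
    rw [map_add, co_add, hP, hQ, co_add]
    split_ifs <;> ring
  | h3 c P hP =>
    rw [map_smul, co_smul, hP, co_smul]
    split_ifs <;> ring

omit hpf in
theorem TT_len (i : Fin n) {g : AY} {r : ℕ} (hg : ∀ v, co g v ≠ 0 → v.length = r) :
    ∀ v, co (TT d i g) v ≠ 0 → v.length = r + 1 := by
  intro v hv
  rw [TT, opT_apply, co_add] at hv
  by_cases h1 : co (g * θ (adp (d i))) v = 0
  · rw [h1, zero_add] at hv
    obtain ⟨a, b, ha, hb, h4, _⟩ := EE_words hv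
    have h5 := (adp_words _ _ ha).2
    have h6 := hg b hb
    omega
  · obtain ⟨a, b, rfl, ha, hb⟩ := Lead2.co_mul_ne h1
    have h2 := hg a ha
    rw [th_adp, co_sum] at hb
    obtain ⟨j, _, hj⟩ := Finset.exists_ne_zero_of_sum_ne_zero hb
    rw [co_smul, co_wd] at hj
    have h3 := right_ne_zero_of_mul hj
    split_ifs at h3 with h4
    · rw [← h4]
      simp [h2]
    · exact absurd rfl h3

omit hpf in
theorem ev_len : ∀ (W : List (Fin n)) (v : List ℕ), co (evT (TT d) W) v ≠ 0 → v.length = W.length
  | [], v, hv => by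
      have h : (1 : AY) = wd [] := Pool.Agent.H337R3.Lead1.wd_nil.symm
      change co (1 : AY) v ≠ 0 at hv
      rw [h, co_wd] at hv
      split_ifs at hv with h1
      · rw [← h1]
        rfl
      · exact absurd rfl hv
  | i :: W, v, hv => TT_len d i (ev_len W) v hv

variable {d} {ψ : Fin n → A} {κ : Fin n → ℚ}

omit hpf in
theorem th_ev (hψ : ∀ i, Dp 2 (ψ i - κ i • adp (d i))) (hψ1 : ∀ i, Dp 1 (ψ i)) :
    ∀ (W : List (Fin n)) (v : List ℕ), co (θ (evN ψ W) - kap κ W • evT (TT d) W) v ≠ 0 →
      W.length + 1 ≤ v.length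
  | [], v, hv => by
      exfalso
      apply hv
      have h1 : θ (evN ψ ([] : List (Fin n))) = 1 := th_one
      have h2 : evT (TT d) ([] : List (Fin n)) = 1 := rfl
      have h3 : kap κ ([] : List (Fin n)) = 1 := by simp [kap]
      rw [h1, h2, h3, one_smul, sub_self, co_zero]
  | i :: W, v, hv => by
      have ih := th_ev hψ hψ1 W
      set g := θ (evN ψ W) with hg
      set g' := kap κ W • evT (TT d) W with hg'
      have h1 : θ (evN ψ (i :: W)) = g * θ (ψ i) + EE (ψ i) g := th_s_eq (ψ i) (evN ψ W)
      have h2 : kap κ (i :: W) • evT (TT d) (i :: W) = g' * θ (κ i • adp (d i)) + EE (κ i • adp (d i)) g' := by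
        rw [kap_cons]
        show (κ i * kap κ W) • (TT d i (evT (TT d) W)) = _
        rw [TT, opT_apply, hg']
        simp only [map_smul, LinearMap.smul_apply, smul_mul_assoc, mul_smul_comm]
        module
      have e : θ (evN ψ (i :: W)) - kap κ (i :: W) • evT (TT d) (i :: W) =
          ((g - g') * θ (ψ i) + EE (ψ i) (g - g')) +
            (g' * θ (ψ i - κ i • adp (d i)) + EE (ψ i - κ i • adp (d i)) g') := by
        rw [h1, h2]
        simp only [map_sub, LinearMap.sub_apply, mul_sub, sub_mul]
        abel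
      have hg'l : ∀ v, co g' v ≠ 0 → W.length ≤ v.length := by
        intro v hv
        rw [hg', co_smul] at hv
        exact (ev_len d W v (right_ne_zero_of_mul hv)).ge
      rw [List.length_cons]
      by_contra hcon
      apply hv
      rw [e, co_add, co_add, co_add]
      have a1 : co ((g - g') * θ (ψ i)) v = 0 := by
        by_contra h3
        have := mul_len ih (th_len (hψ1 i)) _ h3
        omega
      have a2 : co (EE (ψ i) (g - g')) v = 0 := by
        by_contra h3
        have := EE_len (hψ1 i) ih _ h3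
        omega
      have a3 : co (g' * θ (ψ i - κ i • adp (d i))) v = 0 := by
        by_contra h3
        have := mul_len hg'l (th_len (hψ i)) _ h3
        omega
      have a4 : co (EE (ψ i - κ i • adp (d i)) g') v = 0 := by
        by_contra h3
        have := EE_len (hψ i) hg'l _ h3
        omega
      rw [a1, a2, a3, a4]
      ring

/-- **the main theorem** -/
theorem res_main (hK : ∀ c : Fin n → ZMod p, c ≠ 0 → ∃ k : ℕ, (∀ i, c i ≠ 0 → k % p ^ e < d i % p ^ e) ∧
      ∑ i, c i * ((-1) ^ (d i - k) * ((d i).choose k : ZMod p)) ≠ 0)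
    (hκ : ∀ i, κ i ≠ 0) (hψ : ∀ i, Dp 2 (ψ i - κ i • adp (d i))) (hψ1 : ∀ i, Dp 1 (ψ i))
    (P : Al (Fin n)) (hP : PhiN ψ P = 0) (hW : ∀ W, co P W ≠ 0 → rw' d (p ^ e) W < p ^ e) : P = 0 := by
  by_contra hne
  classical
  have hex : ∃ r, ∃ W, co P W ≠ 0 ∧ W.length = r := by
    obtain ⟨W, h⟩ := exists_co_ne hne
    exact ⟨_, W, h, rfl⟩
  obtain ⟨W0, h0, hW0⟩ := Nat.find_spec hex
  set r := Nat.find hex with hr
  have hmin : ∀ W, co P W ≠ 0 → r ≤ W.length := fun W h => Nat.find_min' hex ⟨W, h, rfl⟩
  have hzero : EvT (TT d) (selP κ r P) = 0 := by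
    apply al_ext
    intro u
    rw [co_zero]
    have h1 : co (EvT (TT d) (selP κ r P)) u = ∑ m ∈ P.coeff.support, co P (FreeMonoid.toList m) *
        co (EvT (TT d) (selP κ r (wd (FreeMonoid.toList m)))) u := by
      conv_lhs => rw [Lead2.expand P]
      rw [map_sum, map_sum, co_sum]
      refine Finset.sum_congr rfl fun m _ => ?_
      rw [map_smul, map_smul, co_smul]
    have h2 : ∀ m : FreeMonoid (Fin n), co (EvT (TT d) (selP κ r (wd (FreeMonoid.toList m)))) u =
        if (FreeMonoid.toList m).length = r then kap κ (FreeMonoid.toList m) *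
          co (evT (TT d) (FreeMonoid.toList m)) u else 0 := by
      intro m
      rw [selP_wd]
      split_ifs
      · rw [map_smul, EvT_wd, co_smul]
      · rw [map_zero, co_zero]
    rw [h1]
    by_cases hu : u.length = r
    · have h3 : co (θ (PhiN ψ P)) u = 0 := by rw [hP, map_zero, co_zero]
      have h4 : co (θ (PhiN ψ P)) u = ∑ m ∈ P.coeff.support, co P (FreeMonoid.toList m) *
          co (θ (evN ψ (FreeMonoid.toList m))) u := by
        conv_lhs => rw [Lead2.expand P]
        rw [map_sum, map_sum, co_sum]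
        refine Finset.sum_congr rfl fun m _ => ?_
        rw [map_smul, map_smul, co_smul, PhiN_wd]
      rw [← h3, h4]
      refine Finset.sum_congr rfl fun m hm => ?_
      rw [h2]
      congr 1
      have h5 := hmin (FreeMonoid.toList m) (Finsupp.mem_support_iff.mp hm)
      have h6 : co (θ (evN ψ (FreeMonoid.toList m))) u =
          kap κ (FreeMonoid.toList m) * co (evT (TT d) (FreeMonoid.toList m)) u := by
        have h7 : co (θ (evN ψ (FreeMonoid.toList m)) -
            kap κ (FreeMonoid.toList m) • evT (TT d) (FreeMonoid.toList m)) u = 0 := by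
          by_contra h8
          have := th_ev hψ hψ1 _ u h8
          omega
        rw [co_sub, co_smul, sub_eq_zero] at h7
        exact h7
      rw [h6]
      split_ifs with h7
      · rfl
      · have h8 : co (evT (TT d) (FreeMonoid.toList m)) u = 0 := by
          by_contra h9
          have := ev_len d _ u h9
          omega
        rw [h8, mul_zero]
    · refine Finset.sum_eq_zero fun m _ => ?_
      rw [h2]
      split_ifs with h7
      · have h8 : co (evT (TT d) (FreeMonoid.toList m)) u = 0 := by
          by_contra h9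
          have := ev_len d _ u h9
          omega
        rw [h8, mul_zero, mul_zero]
      · rw [mul_zero]
  obtain ⟨κ', z, hκ', hz, W1, hp⟩ := scaling p (Fact.out : p.Prime).two_le
    ((selP κ r P).coeff.support.image FreeMonoid.toList) (fun W => co (selP κ r P) W) (by
      intro W hW
      rw [Finset.mem_image]
      exact ⟨FreeMonoid.ofList W, Finsupp.mem_support_iff.mpr hW, rfl⟩) ⟨W0, by
        show co (selP κ r P) W0 ≠ 0
        rw [co_selP, if_pos hW0]
        exact mul_ne_zero (kap_ne hκ W0) h0⟩
  refine hp (mod_words d hK r (κ' • selP κ r P) z (fun W => ?_) (fun W hW' => ?_) (fun W hW' => ?_)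
    (fun u => ?_) W1)
  · rw [co_smul]
    exact hz W
  · rw [co_smul, co_selP] at hW'
    have := right_ne_zero_of_mul hW'
    split_ifs at this with h
    · exact h
    · exact absurd rfl this
  · have h1 : z W ≠ 0 := by
      rintro h2
      rw [h2] at hW'
      exact hW' (dvd_zero _)
    have h2 : κ' * co (selP κ r P) W ≠ 0 := by
      rw [hz]
      exact_mod_cast h1
    rw [co_selP] at h2
    have h3 := right_ne_zero_of_mul h2
    split_ifs at h3 with h
    · exact hW W (right_ne_zero_of_mul h3)
    · exact absurd rfl h3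
  · refine ⟨0, ?_⟩
    rw [map_smul, hzero, smul_zero, co_zero]
    norm_num

/-- **words with a small sum of residues, weights with residues in a window** -/
theorem res_window (p : ℕ) (hp : p.Prime) (e m n : ℕ) (w : Fin n → ℕ) (hw : Function.Injective w)
    (hwin : ∀ i, 1 ≤ w i ∧ m ≤ (w i - 1) % p ^ e ∧ (w i - 1) % p ^ e < 2 * m)
    (ψ : Fin n → A) (hL : ∀ i, ψ i ∈ LieX)
    (hhom : ∀ i u, co (ψ i) u ≠ 0 → u.length = w i)
    (hne : ∀ i, co (ψ i) (List.replicate (w i - 1) 0 ++ [1]) ≠ 0)
    (P : Al (Fin n)) (hP : PhiN ψ P = 0)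
    (hW : ∀ W, co P W ≠ 0 → (W.map fun i => (w i - 1) % p ^ e).sum < p ^ e) : P = 0 := by
  have : Fact p.Prime := ⟨hp⟩
  set d : Fin n → ℕ := fun i => w i - 1 with hd
  have hdw : ∀ i, w i = d i + 1 := fun i => by
    have := (hwin i).1
    show w i = w i - 1 + 1
    omega
  have hd1 : ∀ i, 1 ≤ d i := by
    intro i
    obtain ⟨_, h2, h3⟩ := hwin i
    have h4 : (w i - 1) % p ^ e ≤ w i - 1 := Nat.mod_le _ _
    show 1 ≤ w i - 1
    omega
  have hdinj : Function.Injective d := by
    intro i j hij
    apply hw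
    rw [hdw i, hdw j, hij]
  set κ : Fin n → ℚ := fun i => co (ψ i) (wordX [d i]) with hκ
  have hψ : ∀ i, Dp 2 (ψ i - κ i • adp (d i)) := by
    intro i
    have h1 := lie_split (hL i) (d i) (hd1 i) (fun u hu => by
      rw [hhom i u hu, hdw i])
    rw [adp_eq_Fm]
    exact h1
  refine res_main (e := e) (d := d) (κ := κ) ?_ (fun i => hne i) hψ ?_ P hP hW
  · intro c hc
    refine test_letter p (e := e) d hdinj ?_ c hc
    intro g hg hs
    refine window_crit m g hg ?_
    intro k hk
    obtain ⟨i, hi⟩ := hs k hk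
    rw [← hi]
    exact (hwin i).2
  · intro i
    have h1 : ψ i = (ψ i - κ i • adp (d i)) + κ i • adp (d i) := by abel
    rw [h1]
    refine Pool.Agent.N568.DSF.Dp.add ((hψ i).mono (by norm_num)) (Dp_smul _ ?_)
    rw [adp_eq_Fm]
    exact Fm_count _

end Pool.Agent.H492.DG
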