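import Pool.Agent.H492.DG.Lead2

/-!
# The normal words span
-/

set_option autoImplicit false

namespace Pool.Agent.H492.DG

open Pool.Agent.H777R4.DM
open Pool.Agent.H826R3.DM (lift_wdN algHom_ext_wd)
open Pool.Agent.H358R3.DM (SN SN_wd SN_lie)
open H851R3.DSH (wd_append)

section span

variable {n k : ℕ}

/-- the substitution `X i ↦ ρ i` -/
noncomputable def sub (ρ : Fin k → Al (Fin n)) : Al (Fin k) →ₐ[ℚ] Al (Fin n) :=
  MonoidAlgebra.lift ℚ (Al (Fin n)) (FreeMonoid (Fin k)) (FreeMonoid.lift ρ)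

theorem sub_wd (ρ : Fin k → Al (Fin n)) (i : Fin k) : sub ρ (wd [i]) = ρ i := lift_wdN ρ i

theorem sub_cons (ρ : Fin k → Al (Fin n)) (i : Fin k) (V : List (Fin k)) :
    sub ρ (wd (i :: V)) = ρ i * sub ρ (wd V) := by
  have h : (wd (i :: V) : Al (Fin k)) = wd [i] * wd V := by
    rw [← wd_append]; rfl
  rw [h, map_mul, sub_wd]

/-- combinations of normal words -/
def Nsp (z : Fin k) (t : ℕ) : Submodule ℚ (Al (Fin k)) where
  carrier := {P | ∀ W, co P W ≠ 0 → nrm z t W}
  zero_mem' := fun W h => absurd (co_zero W) h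
  add_mem' := by
    intro P Q hP hQ W hW
    rw [co_add] at hW
    by_cases h : co P W = 0
    · rw [h, zero_add] at hW
      exact hQ W hW
    · exact hP W h
  smul_mem' := by
    intro c P hP W hW
    rw [co_smul] at hW
    exact hP W (right_ne_zero_of_mul hW)

theorem wd_Nsp {z : Fin k} {t : ℕ} {V : List (Fin k)} (h : nrm z t V) : wd V ∈ Nsp z t := by
  intro W hW
  rw [co_wd] at hW
  split_ifs at hW with h1
  · rw [← h1]
    exact h
  · exact absurd rfl hW

theorem Nsp_expand {z : Fin k} {t : ℕ} {P : Al (Fin k)} (h : P ∈ Nsp z t) :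
    P ∈ Submodule.span ℚ {Q | ∃ V, nrm z t V ∧ Q = wd V} := by
  rw [Pool.Agent.H777R4.DM.Lead2.expand P]
  refine Submodule.sum_mem _ fun m hm => Submodule.smul_mem _ _ (Submodule.subset_span ?_)
  exact ⟨_, h _ (Finsupp.mem_support_iff.mp hm), rfl⟩

variable (ρ : Fin k → Al (Fin n)) (z : Fin n) (z' : Fin k) (t : ℕ) (I : Submodule ℚ (Al (Fin n)))

/-- the right hand sides of the rewriting rules -/
def Rset : Set (Al (Fin n)) :=
  {r | (∃ j : Fin k, n ≤ j.val ∧ r = ρ j) ∨ (∃ a b : Fin n, a ≠ z ∧ r = wd [a, b]) ∨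
    (∃ b : Fin n, b ≠ z ∧ t ≤ b.val ∧ r = wd [z, b]) ∨ r ∈ I}

/-- the normal words and the ideal -/
def Gset : Set (Al (Fin n)) := {x | (∃ V, nrm z' t V ∧ x = sub ρ (wd V)) ∨ x ∈ I}

theorem span_all (hnk : n ≤ k) (hρ : ∀ i : Fin n, ρ (Fin.castLE hnk i) = wd [i])
    (hz : z' = Fin.castLE hnk z) (htz : t ≤ z.val)
    (hl : ∀ (a : Fin n), ∀ x ∈ I, wd [a] * x ∈ I) (hr : ∀ x ∈ I, ∀ y, x * y ∈ I)
    (hR : ∀ i : Fin n, i.val < t → wd [z, i] ∈ Submodule.span ℚ (Rset ρ z t I)) :
    ∀ P : Al (Fin n), P ∈ Submodule.span ℚ (Gset ρ z' t I) := by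
  set S := Submodule.span ℚ (Gset ρ z' t I) with hS
  have hmem : ∀ V, nrm z' t V → sub ρ (wd V) ∈ S := fun V hV =>
    Submodule.subset_span (Or.inl ⟨V, hV, rfl⟩)
  have hI : ∀ x ∈ I, x ∈ S := fun x hx => Submodule.subset_span (Or.inr hx)
  -- multiplication by `X_a`, `a ≠ z`
  have hA : ∀ a : Fin n, a ≠ z → ∀ V, nrm z' t V → wd [a] * sub ρ (wd V) ∈ S := by
    intro a ha V hV
    rw [← hρ a, ← sub_cons]
    refine hmem _ ⟨hV, fun h => ?_⟩
    exfalso
    apply ha
    rw [hz] at h
    exact Fin.castLE_injective hnk h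
  have hA' : ∀ a : Fin n, a ≠ z → ∀ x ∈ S, wd [a] * x ∈ S := by
    intro a ha
    have h : S ≤ S.comap (LinearMap.mulLeft ℚ (wd [a] : Al (Fin n))) := by
      rw [hS, Submodule.span_le]
      rintro x (⟨V, hV, rfl⟩ | hx)
      · exact hA a ha V hV
      · exact hI _ (hl a x hx)
    exact fun x hx => h hx
  -- multiplication by `X_z`
  have hZ : ∀ K : ℕ, ∀ V, V.length < K → nrm z' t V → wd [z] * sub ρ (wd V) ∈ S := by
    intro K
    induction K with
    | zero => exact fun V h => absurd h (Nat.not_lt_zero _)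
    | succ K ih =>
      intro V hlen hV
      by_cases hhd : hd t V
      · rw [← hρ z, ← sub_cons]
        exact hmem _ ⟨hV, fun _ => hhd⟩
      · rcases V with _ | ⟨i', V⟩
        · exact absurd trivial hhd
        · have hi' : i'.val < t := not_le.mp hhd
          set i : Fin n := ⟨i'.val, by have := z.isLt; omega⟩ with hi
          have hii : i' = Fin.castLE hnk i := Fin.ext rfl
          have hV1 : nrm z' t V := hV.1
          have hlen' : V.length < K := by
            rw [List.length_cons] at hlen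
            omega
          rw [sub_cons, hii, hρ i, ← mul_assoc, ← wd_append]
          show wd [z, i] * _ ∈ S
          have h := hR i hi'
          have h2 : Submodule.span ℚ (Rset ρ z t I) ≤
              S.comap (LinearMap.mulRight ℚ (sub ρ (wd V))) := by
            rw [Submodule.span_le]
            rintro r (⟨j, hj, rfl⟩ | ⟨a, b, hab, rfl⟩ | ⟨b, hb, htb, rfl⟩ | hr')
            · show ρ j * sub ρ (wd V) ∈ S
              rw [← sub_cons]
              refine hmem _ ⟨hV1, fun h3 => ?_⟩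
              exfalso
              have h4 := z.isLt
              rw [h3, hz] at hj
              exact absurd hj (not_le.mpr h4)
            · show wd [a, b] * sub ρ (wd V) ∈ S
              have e : (wd [a, b] : Al (Fin n)) = wd [a] * wd [b] := by
                rw [← wd_append]; rfl
              rw [e, mul_assoc]
              refine hA' a hab _ ?_
              by_cases hbz : b = z
              · rw [hbz]
                exact ih V hlen' hV1
              · exact hA b hbz V hV1
            · show wd [z, b] * sub ρ (wd V) ∈ S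
              have e : (wd [z, b] : Al (Fin n)) = wd [z] * wd [b] := by
                rw [← wd_append]; rfl
              rw [e, mul_assoc, ← hρ b, ← sub_cons, ← hρ z, ← sub_cons]
              refine hmem _ ⟨⟨hV1, fun h3 => ?_⟩, fun _ => htb⟩
              exfalso
              apply hb
              rw [hz] at h3
              exact Fin.castLE_injective hnk h3
            · exact hI _ (hr r hr' _)
          exact h2 h
  have hZ' : ∀ x ∈ S, wd [z] * x ∈ S := by
    have h : S ≤ S.comap (LinearMap.mulLeft ℚ (wd [z] : Al (Fin n))) := by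
      rw [hS, Submodule.span_le]
      rintro x (⟨V, hV, rfl⟩ | hx)
      · exact hZ (V.length + 1) V (Nat.lt_succ_self _) hV
      · exact hI _ (hl z x hx)
    exact fun x hx => h hx
  have hwd : ∀ W : List (Fin n), wd W ∈ S := by
    intro W
    induction W with
    | nil =>
      have h := hmem [] trivial
      rw [wd_one', map_one] at h
      rw [wd_one']
      exact h
    | cons a W ih =>
      have e : (wd (a :: W) : Al (Fin n)) = wd [a] * wd W := by
        rw [← wd_append]; rfl
      rw [e]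
      by_cases ha : a = z
      · rw [ha]
        exact hZ' _ ih
      · exact hA' a ha _ ih
  intro P
  rw [Pool.Agent.H777R4.DM.Lead2.expand P]
  exact Submodule.sum_mem _ fun m _ => Submodule.smul_mem _ _ (hwd _)

theorem span_split {P : Al (Fin n)} (h : P ∈ Submodule.span ℚ (Gset ρ z' t I)) :
    ∃ Q ∈ Nsp z' t, P - sub ρ Q ∈ I := by
  induction h using Submodule.span_induction with
  | mem x hx =>
    rcases hx with ⟨V, hV, rfl⟩ | hx
    · exact ⟨wd V, wd_Nsp hV, by rw [sub_self]; exact I.zero_mem⟩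
    · exact ⟨0, (Nsp z' t).zero_mem, by rw [map_zero, sub_zero]; exact hx⟩
  | zero => exact ⟨0, (Nsp z' t).zero_mem, by rw [map_zero, sub_zero]; exact I.zero_mem⟩
  | add a b _ _ ha hb =>
    obtain ⟨Q, hQ, h1⟩ := ha
    obtain ⟨R, hR, h2⟩ := hb
    refine ⟨Q + R, (Nsp z' t).add_mem hQ hR, ?_⟩
    have e : a + b - sub ρ (Q + R) = (a - sub ρ Q) + (b - sub ρ R) := by
      rw [map_add]; abel
    rw [e]
    exact I.add_mem h1 h2
  | smul c a _ ha =>
    obtain ⟨Q, hQ, h1⟩ := ha
    refine ⟨c • Q, (Nsp z' t).smul_mem c hQ, ?_⟩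
    have e : c • a - sub ρ (c • Q) = c • (a - sub ρ Q) := by
      rw [map_smul, smul_sub]
    rw [e]
    exact I.smul_mem c h1

/-- **the kernel** -/
theorem kernel (hnk : n ≤ k) (hρ : ∀ i : Fin n, ρ (Fin.castLE hnk i) = wd [i])
    (hz : z' = Fin.castLE hnk z) (htz : t ≤ z.val)
    (hl : ∀ (a : Fin n), ∀ x ∈ I, wd [a] * x ∈ I) (hr : ∀ x ∈ I, ∀ y, x * y ∈ I)
    (hR : ∀ i : Fin n, i.val < t → wd [z, i] ∈ Submodule.span ℚ (Rset ρ z t I))
    (F : Fin n → A) (f : Fin k → A) (hF : ∀ i, SN F (ρ i) = s (f i)) (hI : ∀ x ∈ I, PhiN F x = 0)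
    (hinj : ∀ P : Al (Fin k), (∀ W, co P W ≠ 0 → nrm z' t W) → PhiN f P = 0 → P = 0) :
    ∀ P : Al (Fin n), PhiN F P = 0 → P ∈ I := by
  intro P hP
  obtain ⟨Q, hQ, h1⟩ := span_split ρ z' t I
    (span_all ρ z z' t I hnk hρ hz htz hl hr hR P)
  have h2 : (SN F).comp (sub ρ) = SN f := by
    apply algHom_ext_wd
    intro i
    rw [AlgHom.comp_apply, sub_wd, hF, SN_wd]
  have h3 : PhiN F (sub ρ Q) = PhiN f Q := by
    rw [Pool.Agent.H358R3.DM.PhiN_eq, Pool.Agent.H358R3.DM.PhiN_eq, ← h2, AlgHom.comp_apply]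
  have h4 : PhiN f Q = 0 := by
    rw [← h3]
    have h5 := hI _ h1
    rw [map_sub, hP, zero_sub, neg_eq_zero] at h5
    exact h5
  have h6 := hinj Q hQ h4
  rw [h6, map_zero, sub_zero] at h1
  exact h1

end span

end Pool.Agent.H492.DG
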