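import Pool.Agent.H492.DG.TT1
import Pool.Graph.R_seed8.H777R4.DM.R0

/-!
# Deleting the trailing letters `x₀` is injective on the kernel of `∂₀`
-/

set_option autoImplicit false

namespace Pool.Agent.H492.DG

open Pool.Agent.H777R4.DM
open Pool.Agent.H777R4.DM.R0 (d0 d0_mul d0_dm run_d0 run_wd strip_word word_strip dl_wd d0_wd)
open Pool.Agent.H337R3.Lead1 (th_wd s_apply)
open H851R3.DSH (der_mul der_x0 der_x1 der_one wd_append)

attribute [local instance 100] LieRing.ofAssociativeRing

theorem dlW_sum : ∀ (v w : List ℕ), co (dlW v) w ≠ 0 → v.sum = w.sum + 1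
  | [], w, h => absurd (by show co (0 : AY) w = 0; exact co_zero w) h
  | k :: v, w, h => by
      unfold dlW at h
      rw [co_add] at h
      by_cases h1 : co ((k : ℚ) • (wd ((k - 1) :: v) : AY)) w = 0
      · rw [h1, zero_add] at h
        obtain ⟨a, b, rfl, ha, hb⟩ := Lead2.co_mul_ne h
        have h2 := dlW_sum v b hb
        rw [co_wd] at ha
        split_ifs at ha with h3
        · rw [← h3, List.sum_append, List.sum_singleton, List.sum_cons, h2]
          ring
        · exact absurd rfl ha
      · rw [co_smul, co_wd] at h1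
        have h2 := left_ne_zero_of_mul h1
        have h3 := right_ne_zero_of_mul h1
        split_ifs at h3 with h4
        · rw [← h4, List.sum_cons, List.sum_cons]
          have : k ≠ 0 := by
            intro h5
            rw [h5] at h2
            exact h2 (by norm_num)
          omega
        · exact absurd rfl h3

theorem dl_sum {P : AY} {v : List ℕ} (h : co (dl P) v ≠ 0) : ∃ u, co P u ≠ 0 ∧ u.sum = v.sum + 1 := by
  rw [Lead2.expand P, map_sum, co_sum] at h
  obtain ⟨m, _, hm⟩ := Finset.exists_ne_zero_of_sum_ne_zero h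
  rw [map_smul, co_smul, dl_wd] at hm
  exact ⟨_, left_ne_zero_of_mul hm, dlW_sum _ _ (right_ne_zero_of_mul hm)⟩

theorem co_run (k : ℕ) (g : A) (v : List ℕ) : co (run k g) v = co g (wordX v ++ List.replicate k 0) := by
  induction g using al_induction with
  | h1 u =>
    rw [run_wd, co_wd]
    by_cases h : u = wordX v ++ List.replicate k 0
    · rw [if_pos h, h, strip_word, if_pos rfl, co_wd, if_pos rfl]
    · rw [if_neg h]
      split_ifs with h1
      · rw [co_wd, if_neg]
        intro h2
        apply h
        rw [← h1, ← h2]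
        exact word_strip u
      · exact co_zero v
  | h2 P Q hP hQ => rw [map_add, co_add, hP, hQ, co_add]
  | h3 c P hP => rw [map_smul, co_smul, hP, co_smul]

theorem th_run (g : A) : ∃ K, ∀ K', K ≤ K' → θ g = ∑ k ∈ Finset.range K', run k g := by
  induction g using al_induction with
  | h1 u =>
    refine ⟨(strip u).2 + 1, fun K' hK' => ?_⟩
    rw [th_wd]
    have : ∀ k ∈ Finset.range K', run k (wd u) = if (strip u).2 = k then wd (strip u).1 else 0 :=
      fun k _ => run_wd k u
    rw [Finset.sum_congr rfl this, Finset.sum_ite_eq, if_pos (Finset.mem_range.mpr (by omega))]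
  | h2 P Q hP hQ =>
    obtain ⟨K1, h1⟩ := hP
    obtain ⟨K2, h2⟩ := hQ
    refine ⟨max K1 K2, fun K' hK' => ?_⟩
    rw [map_add, h1 K' ((le_max_left _ _).trans hK'), h2 K' ((le_max_right _ _).trans hK'),
      ← Finset.sum_add_distrib]
    exact Finset.sum_congr rfl fun k _ => (map_add _ _ _).symm
  | h3 c P hP =>
    obtain ⟨K1, h1⟩ := hP
    refine ⟨K1, fun K' hK' => ?_⟩
    rw [map_smul, h1 K' hK', Finset.smul_sum]
    exact Finset.sum_congr rfl fun k _ => (map_smul _ _ _).symm

/-- **`θ` is injective on the kernel of `∂₀`** -/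
theorem th_inj {g : A} (h0 : d0 g = 0) (h : θ g = 0) : g = 0 := by
  have hrun : ∀ k : ℕ, ((k : ℚ) + 1) • run (k + 1) g = - dl (run k g) := by
    intro k
    have h1 := run_d0 k g
    rw [h0, map_zero] at h1
    exact eq_neg_of_add_eq_zero_right h1.symm
  have hk0 : ∀ k : ℕ, ((k : ℚ) + 1) ≠ 0 := fun k => by positivity
  have hs : ∀ (k : ℕ) (v : List ℕ), co (run k g) v ≠ 0 → ∃ u, co (run 0 g) u ≠ 0 ∧ u.sum = v.sum + k := by
    intro k
    induction k with
    | zero => exact fun v hv => ⟨v, hv, rfl⟩
    | succ k ih =>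
      intro v hv
      have h1 : co (((k : ℚ) + 1) • run (k + 1) g) v ≠ 0 := by
        rw [co_smul]
        exact mul_ne_zero (hk0 k) hv
      rw [hrun] at h1
      have h2 : co (dl (run k g)) v ≠ 0 := by
        intro h3
        apply h1
        have e : - dl (run k g) = (-1 : ℚ) • dl (run k g) := by simp
        rw [e, co_smul, h3, mul_zero]
      obtain ⟨u, hu, hus⟩ := dl_sum h2
      obtain ⟨w, hw, hws⟩ := ih u hu
      exact ⟨w, hw, by omega⟩
  by_cases hr : ∀ u, co (run 0 g) u = 0
  · apply al_ext
    intro u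
    rw [co_zero]
    by_contra h1
    have h2 := co_run (strip u).2 g (strip u).1
    rw [← word_strip u] at h2
    rw [← h2] at h1
    obtain ⟨w, hw, _⟩ := hs _ _ h1
    exact hw (hr w)
  · exfalso
    push Not at hr
    obtain ⟨u0, hu0⟩ := hr
    obtain ⟨m, hm, hmax⟩ := Finset.exists_max_image (run 0 g).coeff.support
      (fun m => (FreeMonoid.toList m).sum) ⟨FreeMonoid.ofList u0, by
        rw [Finsupp.mem_support_iff]
        exact hu0⟩
    set v := FreeMonoid.toList m with hv
    have hv1 : co (run 0 g) v ≠ 0 := by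
      rw [Finsupp.mem_support_iff] at hm
      exact hm
    have hv2 : ∀ u, co (run 0 g) u ≠ 0 → u.sum ≤ v.sum := by
      intro u hu
      exact hmax (FreeMonoid.ofList u) (by rw [Finsupp.mem_support_iff]; exact hu)
    obtain ⟨K, hK⟩ := th_run g
    have h1 := hK (K + 1) (by omega)
    rw [h] at h1
    have h2 : co (∑ k ∈ Finset.range (K + 1), run k g) v = co (run 0 g) v := by
      rw [co_sum, Finset.sum_eq_single 0]
      · intro k _ hk
        by_contra h3
        obtain ⟨u, hu, hus⟩ := hs k v h3
        have := hv2 u hu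
        omega
      · intro h3
        exact absurd (Finset.mem_range.mpr (by omega)) h3
    rw [← h1, co_zero] at h2
    exact hv1 h2.symm

theorem d0_x0 : d0 (x 0) = 1 := by
  have : (x 0 : A) = wd [0] := rfl
  rw [this, d0_wd]
  show (if (0 : Fin 2) = 1 then 0 else wd []) + x 0 * (0 : A) = 1
  rw [if_neg (by decide), mul_zero, add_zero]
  exact Pool.Agent.H337R3.Lead1.wd_nil

theorem d0_x1 : d0 (x 1) = 0 := by
  have : (x 1 : A) = wd [1] := rfl
  rw [this, d0_wd]
  show (if (1 : Fin 2) = 1 then 0 else wd []) + x 1 * (0 : A) = 0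
  rw [if_pos rfl, mul_zero, add_zero]

theorem d0_one : d0 (1 : A) = 0 := by
  have h : (1 : A) = wd [] := Pool.Agent.H337R3.Lead1.wd_nil.symm
  rw [h, d0_wd]
  rfl

theorem d0_der {f : A} (hf : d0 f = 0) (g : A) : d0 (der f g) = der f (d0 g) := by
  induction g using al_induction with
  | h1 u =>
    induction u with
    | nil =>
      have h : (wd [] : A) = 1 := Pool.Agent.H337R3.Lead1.wd_nil
      rw [h, der_one, d0_one, map_zero, map_zero]
    | cons i u ih =>
      have h : (wd (i :: u) : A) = x i * wd u := by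
        have : i :: u = [i] ++ u := rfl
        rw [this, wd_append]
        rfl
      have hi : d0 (der f (x i)) = der f (d0 (x i)) := by
        rcases (by omega : i = 0 ∨ i = 1) with rfl | rfl
        · rw [der_x0, d0_x0, der_one, map_zero]
        · rw [der_x1, d0_x1, map_zero, map_sub, d0_mul, d0_mul, hf, d0_x1]
          simp
      rw [h, der_mul, map_add, d0_mul, d0_mul, d0_mul, hi, ih, map_add, der_mul, der_mul]
      abel
  | h2 P Q hP hQ => rw [map_add, map_add, hP, hQ, map_add, map_add]
  | h3 c P hP => rw [map_smul, map_smul, hP, map_smul, map_smul]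

theorem d0_s {f : A} (hf : d0 f = 0) {g : A} (hg : d0 g = 0) : d0 (s f g) = 0 := by
  rw [s_apply, map_add, d0_mul, d0_der hf, hf, hg, map_zero]
  simp

end Pool.Agent.H492.DG
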