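import Pool.Agent.H492.DG.TT2

/-!
# The spaces of the products
-/

set_option autoImplicit false

namespace Pool.Agent.H492.DG

open Pool.Agent.H777R4.DM
open Pool.Agent.H777R4.DM.R0 (d0 d0_dm)
open Pool.Agent.N568.DSF (Dp Fm Fm_count lie_split)
open Pool.Agent.H337R3.Lead1 (th_wd s_apply)
open Module

attribute [local instance 100] LieRing.ofAssociativeRing

/-- the products `ψ_{n_1} ∘ (ψ_{n_2} ∘ ⋯ )` -/
noncomputable def wo (ψ : ℕ → A) : List ℕ → A
  | [] => 1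
  | n :: W => s (ψ n) (wo ψ W)

/-- the span of the products of a set of words -/
noncomputable def Sp (ψ : ℕ → A) (p : List ℕ → Prop) : Submodule ℚ A :=
  Submodule.span ℚ {g | ∃ W, p W ∧ g = wo ψ W}

theorem Sp_finite (ψ : ℕ → A) (p : List ℕ → Prop) (hp : {W | p W}.Finite) : Module.Finite ℚ (Sp ψ p) := by
  apply FiniteDimensional.span_of_finite
  have : {g | ∃ W, p W ∧ g = wo ψ W} = (wo ψ) '' {W | p W} := by
    ext g
    constructor
    · rintro ⟨W, hW, rfl⟩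
      exact ⟨W, hW, rfl⟩
    · rintro ⟨W, hW, rfl⟩
      exact ⟨W, hW, rfl⟩
  rw [this]
  exact hp.image _

/-- what is used of the elements -/
structure DatN (ψ : ℕ → A) (κ : ℕ → ℚ) : Prop where
  hκ : ∀ n, 1 ≤ n → κ n ≠ 0
  hψ : ∀ n, 1 ≤ n → Dp 2 (ψ n - κ n • adp (2 * n))
  hd : ∀ n, 1 ≤ n → d0 (ψ n) = 0

variable {ψ : ℕ → A} {κ : ℕ → ℚ}

theorem d0_Sp (h : DatN ψ κ) {p : List ℕ → Prop} (hp : ∀ W, p W → ∀ n ∈ W, 1 ≤ n) {g : A}
    (hg : g ∈ Sp ψ p) : d0 g = 0 := by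
  have key : ∀ W : List ℕ, (∀ n ∈ W, 1 ≤ n) → d0 (wo ψ W) = 0 := by
    intro W
    induction W with
    | nil => exact fun _ => d0_one
    | cons n W ih =>
      intro hW
      exact d0_s (h.hd n (hW n (by simp))) (ih fun m hm => hW m (by simp [hm]))
  unfold Sp at hg
  induction hg using Submodule.span_induction with
  | mem x hx =>
    obtain ⟨W, hW, rfl⟩ := hx
    exact key W (hp W hW)
  | zero => exact map_zero _
  | add x y _ _ hx hy => rw [map_add, hx, hy, add_zero]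
  | smul c x _ hx => rw [map_smul, hx, smul_zero]

/-- the combinations of the elements -/
noncomputable def Ps (ψ : ℕ → A) (κ : ℕ → ℚ) (k : ℕ) : A :=
  ∑ i ∈ Finset.range (k + 1), (hc k i * (κ (k / 2 + 1 + i))⁻¹) • ψ (k / 2 + 1 + i)

theorem Ps_dp (h : DatN ψ κ) (k : ℕ) : Dp 2 (Ps ψ κ k - FK k) := by
  have e : Ps ψ κ k - FK k = ∑ i ∈ Finset.range (k + 1), (hc k i * (κ (k / 2 + 1 + i))⁻¹) •
      (ψ (k / 2 + 1 + i) - κ (k / 2 + 1 + i) • adp (2 * (k / 2 + 1 + i))) := by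
    unfold Ps FK
    rw [← Finset.sum_sub_distrib]
    refine Finset.sum_congr rfl fun i _ => ?_
    rw [smul_sub, smul_smul, mul_assoc, inv_mul_cancel₀ (h.hκ _ (by omega)), mul_one]
  intro u hu
  rw [e, co_sum] at hu
  obtain ⟨i, _, hi⟩ := Finset.exists_ne_zero_of_sum_ne_zero hu
  rw [co_smul] at hi
  exact h.hψ _ (by omega) u (right_ne_zero_of_mul hi)

theorem s_Ps (k : ℕ) (g : A) : s (Ps ψ κ k) g =
    ∑ i ∈ Finset.range (k + 1), (hc k i * (κ (k / 2 + 1 + i))⁻¹) • s (ψ (k / 2 + 1 + i)) g := by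
  unfold Ps
  have key : ∀ t : Finset ℕ, s (∑ i ∈ t, (hc k i * (κ (k / 2 + 1 + i))⁻¹) • ψ (k / 2 + 1 + i)) g =
      ∑ i ∈ t, (hc k i * (κ (k / 2 + 1 + i))⁻¹) • s (ψ (k / 2 + 1 + i)) g := by
    intro t
    induction t using Finset.induction_on with
    | empty =>
      rw [Finset.sum_empty, Finset.sum_empty]
      have := s_smul 0 (0 : A)
      rw [zero_smul, zero_smul] at this
      rw [this]
      rfl
    | insert a t ha ih =>
      rw [Finset.sum_insert ha, Finset.sum_insert ha, s_add, LinearMap.add_apply, ih, s_smul,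
        LinearMap.smul_apply]
  exact key _

theorem s_Ps_mem {k : ℕ} {p q : List ℕ → Prop}
    (hpq : ∀ n, 1 ≤ n → n ≤ 3 * k / 2 + 1 → ∀ W, p W → q (n :: W)) {g : A} (hg : g ∈ Sp ψ p) :
    s (Ps ψ κ k) g ∈ Sp ψ q := by
  unfold Sp at hg
  induction hg using Submodule.span_induction with
  | mem x hx =>
    obtain ⟨W, hW, rfl⟩ := hx
    rw [s_Ps]
    refine Submodule.sum_mem _ fun i hi => Submodule.smul_mem _ _ (Submodule.subset_span ?_)
    rw [Finset.mem_range] at hi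
    exact ⟨(k / 2 + 1 + i) :: W, hpq _ (by omega) (by omega) W hW, rfl⟩
  | zero =>
    rw [map_zero]
    exact Submodule.zero_mem _
  | add x y _ _ hx hy =>
    rw [map_add]
    exact Submodule.add_mem _ hx hy
  | smul c x _ hx =>
    rw [map_smul]
    exact Submodule.smul_mem _ _ hx

/-- **the recursion** -/
theorem Sp_rec (h : DatN ψ κ) (S : Finset ℕ) (p : ℕ → List ℕ → Prop) (q : List ℕ → Prop)
    (hp : ∀ k, {W | p k W}.Finite) (hq : {W | q W}.Finite)
    (hpos : ∀ k W, p k W → ∀ n ∈ W, 1 ≤ n)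
    (hpq : ∀ k ∈ S, ∀ n, 1 ≤ n → n ≤ 3 * k / 2 + 1 → ∀ W, p k W → q (n :: W)) :
    ∑ k ∈ S, finrank ℚ (Sp ψ (p k)) ≤ finrank ℚ (Sp ψ q) := by
  have : ∀ k, Module.Finite ℚ (Sp ψ (p k)) := fun k => Sp_finite ψ _ (hp k)
  have : Module.Finite ℚ (Sp ψ q) := Sp_finite ψ _ hq
  set L : (∀ k : S, Sp ψ (p k)) →ₗ[ℚ] A :=
    ∑ k : S, (s (Ps ψ κ k)) ∘ₗ (Sp ψ (p k)).subtype ∘ₗ LinearMap.proj k with hL
  have hLa : ∀ g, L g = ∑ k : S, s (Ps ψ κ k) (g k : A) := by
    intro g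
    rw [hL, LinearMap.sum_apply]
    rfl
  have hr : LinearMap.range L ≤ Sp ψ q := by
    rintro _ ⟨g, rfl⟩
    rw [hLa]
    exact Submodule.sum_mem _ fun k _ => s_Ps_mem (hpq k k.2) (g k).2
  have hinj : Function.Injective L := by
    rw [injective_iff_map_eq_zero]
    intro g hg
    classical
    rw [hLa] at hg
    set G : ℕ → A := fun k => if hk : k ∈ S then (g ⟨k, hk⟩ : A) else 0 with hG
    have hGk : ∀ k : S, G k = (g k : A) := by
      intro k
      simp only [hG]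
      rw [dif_pos k.2]
    have h1 : ∑ k ∈ S, s (Ps ψ κ k) (G k) = 0 := by
      rw [← Finset.sum_coe_sort S (fun k => s (Ps ψ κ k) (G k)), ← hg]
      exact Finset.sum_congr rfl fun k _ => by rw [hGk]
    have h2 := JI_F S (Ps ψ κ) (fun k _ => Ps_dp h k) (fun k => θ (G k)) (by
      have h3 := congrArg θ h1
      rw [map_sum, map_zero] at h3
      rw [← h3]
      refine Finset.sum_congr rfl fun k _ => ?_
      rw [th_s_eq, opT_apply])
    funext k
    apply Subtype.ext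
    have h3 := h2 k k.2
    rw [hGk] at h3
    exact th_inj (d0_Sp h (hpos k) (g k).2) h3
  calc ∑ k ∈ S, finrank ℚ (Sp ψ (p k)) = ∑ k : S, finrank ℚ (Sp ψ (p k)) :=
        (Finset.sum_coe_sort S (fun k => finrank ℚ (Sp ψ (p k)))).symm
    _ = finrank ℚ (∀ k : S, Sp ψ (p k)) := (Module.finrank_pi_fintype ℚ).symm
    _ = finrank ℚ (LinearMap.range L) := (LinearMap.finrank_range_of_inj hinj).symm
    _ ≤ finrank ℚ (Sp ψ q) := Submodule.finrank_mono hr

end Pool.Agent.H492.DG
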