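import Pool.Agent.H492.DG.TT3

/-!
# Lower bounds for the dimension of the spaces of the products
-/

set_option autoImplicit false

namespace Pool.Agent.H492.DG

open Pool.Agent.H777R4.DM
open Pool.Agent.H777R4.DM.R0 (d0 d0_dm)
open Pool.Agent.N568.DSF (Dp Fm Fm_count lie_split)
open Pool.Agent.H337R3.Lead1 (th_wd s_apply)
open H851R3.DSH (der_mul der_x0 der_x1 der_one wd_append)
open Module

attribute [local instance 100] LieRing.ofAssociativeRing

/-- the weight of a word -/
def wtW (W : List ℕ) : ℕ := (W.map fun n => 2 * n + 1).sum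

theorem wtW_cons (n : ℕ) (W : List ℕ) : wtW (n :: W) = 2 * n + 1 + wtW W := by
  simp [wtW]

theorem le_wtW : ∀ (W : List ℕ), ∀ n ∈ W, 2 * n + 1 ≤ wtW W
  | [], n, h => by simp at h
  | m :: W, n, h => by
      rw [wtW_cons]
      rcases List.mem_cons.mp h with rfl | h
      · omega
      · have := le_wtW W n h
        omega

/-- words of length `r` and weight at most `N` -/
def pw (r N : ℕ) (W : List ℕ) : Prop := W.length = r ∧ (∀ n ∈ W, 1 ≤ n) ∧ wtW W ≤ N

/-- words of length `r` in the letters `1, …, m` -/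
def bw (r m : ℕ) (W : List ℕ) : Prop := W.length = r ∧ ∀ n ∈ W, 1 ≤ n ∧ n ≤ m

theorem fin_lists (N : ℕ) : ∀ r : ℕ, {W : List ℕ | W.length = r ∧ ∀ n ∈ W, n ≤ N}.Finite
  | 0 => by
      refine Set.Finite.subset (Set.finite_singleton []) ?_
      rintro W ⟨h, _⟩
      exact List.length_eq_zero_iff.mp h
  | r + 1 => by
      refine Set.Finite.subset ((Set.finite_Iic N).image2 (fun n W => n :: W) (fin_lists N r)) ?_
      rintro W ⟨h, h1⟩
      rcases W with _ | ⟨n, W⟩
      · simp at h
      · refine ⟨n, h1 n (by simp), W, ⟨by simpa using h, fun m hm => h1 m (by simp [hm])⟩, rfl⟩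

theorem pw_finite (r N : ℕ) : {W | pw r N W}.Finite := by
  refine (fin_lists N r).subset ?_
  rintro W ⟨h1, _, h3⟩
  refine ⟨h1, fun n hn => ?_⟩
  have := le_wtW W n hn
  omega

theorem bw_finite (r m : ℕ) : {W | bw r m W}.Finite := by
  refine (fin_lists m r).subset ?_
  rintro W ⟨h1, h2⟩
  exact ⟨h1, fun n hn => (h2 n hn).2⟩

variable {ψ : ℕ → A} {κ : ℕ → ℚ}

theorem rec_pw (h : DatN ψ κ) (r N : ℕ) :
    ∑ n ∈ (Finset.range (N + 1)).filter (fun n => ¬ 3 ∣ n ∧ 2 * n + 1 ≤ N),
      finrank ℚ (Sp ψ (pw r (N - (2 * n + 1)))) ≤ finrank ℚ (Sp ψ (pw (r + 1) N)) := by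
  have h1 := Sp_rec h ((Finset.range N).filter (fun k => 2 * (3 * k / 2 + 1) + 1 ≤ N))
    (fun k => pw r (N - (2 * (3 * k / 2 + 1) + 1))) (pw (r + 1) N) (fun k => pw_finite _ _)
    (pw_finite _ _) (fun k W hW => hW.2.1) (by
      intro k hk n hn1 hn2 W hW
      rw [Finset.mem_filter] at hk
      obtain ⟨h1, h2, h3⟩ := hW
      refine ⟨by simp [h1], ?_, ?_⟩
      · intro m hm
        rcases List.mem_cons.mp hm with rfl | hm
        · exact hn1
        · exact h2 m hm
      · rw [wtW_cons]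
        omega)
  refine le_of_eq_of_le ?_ h1
  symm
  refine Finset.sum_nbij (fun k => 3 * k / 2 + 1) ?_ ?_ ?_ ?_
  · intro k hk
    rw [Finset.mem_filter, Finset.mem_range] at hk ⊢
    refine ⟨by omega, by omega, by omega⟩
  · intro k _ k' _ hkk
    have : 3 * k / 2 + 1 = 3 * k' / 2 + 1 := hkk
    omega
  · intro n hn
    rw [Finset.mem_coe, Finset.mem_filter, Finset.mem_range] at hn
    refine ⟨n - 1 - n / 3, ?_, ?_⟩
    · rw [Finset.mem_coe, Finset.mem_filter, Finset.mem_range]
      omega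
    · show 3 * (n - 1 - n / 3) / 2 + 1 = n
      omega
  · intro k _
    rfl

theorem rec_bw (h : DatN ψ κ) (r m : ℕ) :
    (m - m / 3) * finrank ℚ (Sp ψ (bw r m)) ≤ finrank ℚ (Sp ψ (bw (r + 1) m)) := by
  have h1 := Sp_rec h (Finset.range (m - m / 3)) (fun _ => bw r m) (bw (r + 1) m)
    (fun k => bw_finite _ _) (bw_finite _ _) (fun k W hW n hn => (hW.2 n hn).1) (by
      intro k hk n hn1 hn2 W hW
      rw [Finset.mem_range] at hk
      refine ⟨by simp [hW.1], ?_⟩
      intro l hl
      rcases List.mem_cons.mp hl with rfl | hl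
      · exact ⟨hn1, by omega⟩
      · exact hW.2 l hl)
  rwa [Finset.sum_const, Finset.card_range, smul_eq_mul] at h1

/-- depth one -/
theorem one_le (κ : ℕ → ℚ) (hκ : ∀ n, 1 ≤ n → κ n ≠ 0)
    (hco : ∀ n m, 1 ≤ n → 1 ≤ m → co (ψ n) (wordX [2 * m]) = if n = m then κ n else 0)
    (F : Finset ℕ) (hF : ∀ n ∈ F, 1 ≤ n) (p : List ℕ → Prop) (hp : {W | p W}.Finite)
    (hpF : ∀ n ∈ F, p [n]) : F.card ≤ finrank ℚ (Sp ψ p) := by
  have : Module.Finite ℚ (Sp ψ p) := Sp_finite ψ _ hp
  have hw : ∀ n, wo ψ [n] = ψ n := by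
    intro n
    show s (ψ n) 1 = ψ n
    rw [s_apply, der_one, mul_one, add_zero]
  set v : F → Sp ψ p := fun n => ⟨ψ n, Submodule.subset_span ⟨[n.1], hpF n n.2, (hw n).symm⟩⟩ with hv
  have hli : LinearIndependent ℚ v := by
    rw [Fintype.linearIndependent_iff]
    intro c hc m
    have h1 := congrArg (Submodule.subtype _) hc
    rw [map_sum, map_zero] at h1
    have h2 := congrArg (fun P => co P (wordX [2 * m.1])) h1
    simp only [co_sum, co_zero] at h2
    have h3 : ∀ n : F, co ((Submodule.subtype _) (c n • v n)) (wordX [2 * m.1]) =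
        if n = m then c m * κ m else 0 := by
      intro n
      rw [map_smul, co_smul]
      show c n * co (ψ n) (wordX [2 * m.1]) = _
      rw [hco n m (hF n n.2) (hF m m.2)]
      by_cases h : n = m
      · rw [if_pos (by rw [h]), if_pos h, h]
      · rw [if_neg (fun h' => h (Subtype.ext h')), if_neg h, mul_zero]
    rw [Finset.sum_congr rfl (fun n _ => h3 n), Finset.sum_ite_eq' Finset.univ m,
      if_pos (Finset.mem_univ m)] at h2
    exact (mul_eq_zero.mp h2).resolve_right (hκ m (hF m m.2))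
  have h := hli.fintype_card_le_finrank
  rwa [Fintype.card_coe] at h

theorem one_mem_Sp {p : List ℕ → Prop} (hp : {W | p W}.Finite) (h : p []) : 1 ≤ finrank ℚ (Sp ψ p) := by
  have : Module.Finite ℚ (Sp ψ p) := Sp_finite ψ _ hp
  have h1 : (1 : A) ∈ Sp ψ p := Submodule.subset_span ⟨[], h, rfl⟩
  have h2 : Sp ψ p ≠ ⊥ := by
    intro h3
    rw [h3, Submodule.mem_bot] at h1
    exact one_ne_zero h1
  rw [Nat.one_le_iff_ne_zero]
  intro h3
  exact h2 (Submodule.finrank_eq_zero.mp h3)

/-- the words which are counted -/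
def Af : ℕ → ℕ → Finset (List ℕ)
  | 0, _ => {[]}
  | 1, N => ((Finset.range (N + 1)).filter (fun n => 1 ≤ n ∧ 2 * n + 1 ≤ N)).image (fun n => [n])
  | r + 2, N => ((Finset.range (N + 1)).filter (fun n => ¬ 3 ∣ n ∧ 2 * n + 1 ≤ N)).biUnion
      fun n => (Af (r + 1) (N - (2 * n + 1))).image (fun W => n :: W)

theorem mem_Af : ∀ (r N : ℕ) (W : List ℕ), W.length = r → (∀ n ∈ W, 1 ≤ n) →
    (∀ n ∈ W.dropLast, ¬ 3 ∣ n) → wtW W ≤ N → W ∈ Af r N
  | 0, N, W, h, _, _, _ => by
      unfold Af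
      rw [Finset.mem_singleton]
      exact List.length_eq_zero_iff.mp h
  | 1, N, W, h, h1, _, h3 => by
      unfold Af
      obtain ⟨n, rfl⟩ := List.length_eq_one_iff.mp h
      rw [Finset.mem_image]
      have : wtW [n] = 2 * n + 1 := by simp [wtW]
      refine ⟨n, ?_, rfl⟩
      rw [Finset.mem_filter, Finset.mem_range]
      have := h1 n (by simp)
      omega
  | r + 2, N, W, h, h1, h2, h3 => by
      unfold Af
      rcases W with _ | ⟨n, _ | ⟨m, W⟩⟩
      · simp at h
      · simp at h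
      · rw [Finset.mem_biUnion]
        rw [List.dropLast_cons_of_ne_nil (by simp)] at h2
        have h4 := h2 n (by simp)
        rw [wtW_cons] at h3
        refine ⟨n, ?_, ?_⟩
        · rw [Finset.mem_filter, Finset.mem_range]
          omega
        · rw [Finset.mem_image]
          refine ⟨m :: W, mem_Af (r + 1) _ _ (by simpa using h) (fun l hl => h1 l (by simp [hl]))
            (fun l hl => h2 l (by simp [hl])) (by omega), rfl⟩

theorem card_Af (h : DatN ψ κ)
    (hco : ∀ n m, 1 ≤ n → 1 ≤ m → co (ψ n) (wordX [2 * m]) = if n = m then κ n else 0) :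
    ∀ r N : ℕ, (Af r N).card ≤ finrank ℚ (Sp ψ (pw r N))
  | 0, N => by
      unfold Af
      rw [Finset.card_singleton]
      exact one_mem_Sp (pw_finite _ _) ⟨rfl, by simp, by simp [wtW]⟩
  | 1, N => by
      unfold Af
      refine Finset.card_image_le.trans ?_
      refine one_le κ h.hκ hco _ ?_ _ (pw_finite _ _) ?_
      · intro n hn
        rw [Finset.mem_filter] at hn
        exact hn.2.1
      · intro n hn
        rw [Finset.mem_filter] at hn
        refine ⟨rfl, ?_, ?_⟩
        · intro m hm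
          rw [List.mem_singleton] at hm
          rw [hm]
          exact hn.2.1
        · have : wtW [n] = 2 * n + 1 := by simp [wtW]
          rw [this]
          exact hn.2.2
  | r + 2, N => by
      unfold Af
      refine Finset.card_biUnion_le.trans ?_
      refine le_trans (Finset.sum_le_sum fun n _ => ?_) (rec_pw h (r + 1) N)
      exact Finset.card_image_le.trans (card_Af h hco (r + 1) _)

theorem count_pw (h : DatN ψ κ)
    (hco : ∀ n m, 1 ≤ n → 1 ≤ m → co (ψ n) (wordX [2 * m]) = if n = m then κ n else 0) (r N : ℕ) :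
    {W : List ℕ | W.length = r ∧ (∀ n ∈ W, 1 ≤ n) ∧ (∀ n ∈ W.dropLast, ¬ 3 ∣ n) ∧ wtW W ≤ N}.ncard ≤
      finrank ℚ (Sp ψ (pw r N)) := by
  refine le_trans ?_ (card_Af h hco r N)
  rw [← Set.ncard_coe_finset]
  refine Set.ncard_le_ncard ?_ (Finset.finite_toSet _)
  rintro W ⟨h1, h2, h3, h4⟩
  exact mem_Af r N W h1 h2 h3 h4

theorem count_bw (h : DatN ψ κ)
    (hco : ∀ n m, 1 ≤ n → 1 ≤ m → co (ψ n) (wordX [2 * m]) = if n = m then κ n else 0) (m : ℕ) :
    ∀ r : ℕ, (m - m / 3) ^ r * m ≤ finrank ℚ (Sp ψ (bw (r + 1) m))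
  | 0 => by
      rw [pow_zero, one_mul]
      have h1 := one_le κ h.hκ hco (Finset.Icc 1 m) (fun n hn => (Finset.mem_Icc.mp hn).1)
        (bw 1 m) (bw_finite _ _) (by
          intro n hn
          refine ⟨rfl, ?_⟩
          intro l hl
          rw [List.mem_singleton] at hl
          rw [hl]
          exact Finset.mem_Icc.mp hn)
      simpa using h1
  | r + 1 => by
      refine le_trans ?_ (rec_bw h (r + 1) m)
      rw [pow_succ, mul_comm _ (m - m / 3), mul_assoc]
      exact Nat.mul_le_mul_left _ (count_bw h hco m r)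

end Pool.Agent.H492.DG
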