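import Pool.Agent.H492.DG.Inj
import Pool.Agent.H492.DG.Mat
import Pool.Graph.R_pool_sql_team_seeded_63374d34.N568.BK.DS2

/-!
# Lie elements which are not zero in depth one: as many as the smallest weight
-/

set_option autoImplicit false

namespace Pool.Agent.H492.DG

open Pool.Agent.H777R4.DM
open Pool.Agent.N568.DSF (Dp Fm co_Fm Fm_count lie_split lie_one lie_zero)

attribute [local instance 100] LieRing.ofAssociativeRing

section

variable {n : ℕ} {ψ : Fin n → A} {d : Fin n → ℕ}

/-- the depth one part -/
theorem co_depth_one {ψ : A} {D : ℕ} (hD : 1 ≤ D) (hL : ψ ∈ LieX)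
    (hhom : ∀ u, co ψ u ≠ 0 → u.length = D + 1) (a k : ℕ) :
    co ψ (wordX [a] ++ List.replicate k 0) =
      if a + k = D then (-1) ^ k * (D.choose k : ℚ) * co ψ (wordX [D]) else 0 := by
  have h0 : co ψ [0] = 0 := by
    by_contra h
    have := hhom _ h
    simp at this
    omega
  split_ifs with h
  · rw [lie_one hL h0, h]
  · by_contra hne
    have := hhom _ hne
    simp [wordX] at this
    omega

theorem co_depth_zero {ψ : A} {D : ℕ} (hD : 1 ≤ D) (hL : ψ ∈ LieX)
    (hhom : ∀ u, co ψ u ≠ 0 → u.length = D + 1) (k : ℕ) : co ψ (List.replicate k 0) = 0 := by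
  have h0 : co ψ [0] = 0 := by
    by_contra h
    have := hhom _ h
    simp at this
    omega
  rcases k with _ | k
  · by_contra h
    have := hhom _ h
    simp at this
  · exact lie_zero hL h0 k

theorem adp_coeff (m a k : ℕ) : co (adp m) (wordX [a] ++ List.replicate k 0) =
    if a + k = m then (-1) ^ k * (m.choose k : ℚ) else 0 := by
  have h : adp m = Fm m := by
    rw [adp_sum]
    rfl
  rw [h, co_Fm]
  split_ifs with h
  · rw [h]
  · rfl

theorem adp_count (m : ℕ) (u : List (Fin 2)) (hu : co (adp m) u ≠ 0) : u.count 1 = 1 := (adp_words m u hu).2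

/-- **Main theorem.** -/
theorem three (n : ℕ) (d : Fin n → ℕ) (hd : StrictMono d) (he : ∀ i, Even (d i)) (h2 : ∀ i, 2 ≤ d i)
    (hn : ∀ i, n ≤ d i + 1) (ψ : Fin n → A) (hL : ∀ i, ψ i ∈ LieX)
    (hhom : ∀ i u, co (ψ i) u ≠ 0 → u.length = d i + 1)
    (hne : ∀ i, co (ψ i) (wordX [d i]) ≠ 0) : Function.Injective (PhiN ψ) := by
  classical
  -- the matrices
  set κ : Fin n → ℚ := fun i => co (ψ i) (wordX [d i]) with hκ
  have hV := Vm_det d hd.injective
  set M : Matrix (Fin n) (Fin n) ℚ := (Vm d)⁻¹ with hM
  have hMV : M * Vm d = 1 := Matrix.nonsing_inv_mul _ (isUnit_iff_ne_zero.mpr hV)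
  have hVM : Vm d * M = 1 := Matrix.mul_nonsing_inv _ (isUnit_iff_ne_zero.mpr hV)
  have hκ0 : ∀ i, κ i ≠ 0 := hne
  set K : Fin n → Fin n → ℚ := fun l i => M l i / κ i with hK
  set F : Fin n → A := fun l => ∑ i, K l i • ψ i with hF
  have hKli : LinearIndependent ℚ K := by
    have hu : IsUnit (Matrix.of K) := by
      refine IsUnit.of_mul_eq_one (Matrix.of fun i l => κ i * Vm d i l) ?_
      ext l l'
      rw [Matrix.mul_apply, ← hMV, Matrix.mul_apply]
      refine Finset.sum_congr rfl fun i _ => ?_
      rw [Matrix.of_apply, Matrix.of_apply]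
      have := hκ0 i
      show M l i / κ i * (κ i * Vm d i l') = _
      field_simp
    exact (Matrix.linearIndependent_rows_iff_isUnit).mpr hu
  refine Pool.Agent.H826R3.DM.taskShearN n ψ K hKli ?_
  show Function.Injective (PhiN F)
  -- coefficients of `F`
  have hF0 : ∀ l k, co (F l) (List.replicate k 0) = 0 := by
    intro l k
    rw [hF, co_sum]
    refine Finset.sum_eq_zero fun i _ => ?_
    rw [co_smul, co_depth_zero (by have := h2 i; omega) (hL i) (hhom i), mul_zero]
  have hF1 : ∀ l a k, co (F l) (wordX [a] ++ List.replicate k 0) =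
      ∑ i, if a + k = d i then (-1) ^ k * M l i * ((d i).choose k : ℚ) else 0 := by
    intro l a k
    rw [hF, co_sum]
    refine Finset.sum_congr rfl fun i _ => ?_
    rw [co_smul, co_depth_one (by have := h2 i; omega) (hL i) (hhom i)]
    split_ifs with h
    · have := hκ0 i
      show M l i / κ i * ((-1) ^ k * ((d i).choose k : ℚ) * κ i) = _
      field_simp
    · rw [mul_zero]
  -- `θ F` in depth one
  have hθ0 : ∀ l, co (θ (F l)) [] = 0 := by
    intro l
    have e : θ (F l) = ∑ i, K l i • θ (ψ i) := by
      rw [hF]
      simp only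
      rw [map_sum]
      exact Finset.sum_congr rfl fun j _ => by rw [map_smul]
    rw [e, co_sum]
    refine Finset.sum_eq_zero fun i _ => ?_
    rw [co_smul, co_theta (hhom i)]
    have : co (ψ i) (wordX [] ++ List.replicate (d i + 1 - (([] : List ℕ).sum + ([] : List ℕ).length)) 0) = 0 :=
      co_depth_zero (by have := h2 i; omega) (hL i) (hhom i) _
    rw [this]
    simp
  have hθ1 : ∀ l a, co (θ (F l)) [a] = ∑ i, M l i * ((-1) ^ (d i - a) * ((d i).choose a : ℚ)) := by
    intro l a
    have e : θ (F l) = ∑ i, K l i • θ (ψ i) := by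
      rw [hF]
      simp only
      rw [map_sum]
      exact Finset.sum_congr rfl fun j _ => by rw [map_smul]
    rw [e, co_sum]
    refine Finset.sum_congr rfl fun i _ => ?_
    rw [co_smul, co_theta (hhom i)]
    have hsl : ([a] : List ℕ).sum + ([a] : List ℕ).length = a + 1 := by simp
    rw [hsl]
    by_cases h : a ≤ d i
    · rw [if_pos (show a + 1 ≤ d i + 1 by omega), co_depth_one (by have := h2 i; omega) (hL i) (hhom i),
        if_pos (by omega)]
      rw [show d i + 1 - (a + 1) = d i - a by omega, Nat.choose_symm h]
      have := hκ0 i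
      show M l i / κ i * ((-1) ^ (d i - a) * ((d i).choose a : ℚ) * κ i) = _
      field_simp
    · rw [if_neg (show ¬ a + 1 ≤ d i + 1 by omega), Nat.choose_eq_zero_of_lt (by omega)]
      simp
  have hθl : ∀ l l' : Fin n, co (θ (F l)) [l'.val] = if l = l' then 1 else 0 := by
    intro l l'
    have h1 : (M * Vm d) l l' = if l = l' then 1 else 0 := by rw [hMV, Matrix.one_apply]
    rw [hθ1, ← h1, Matrix.mul_apply]
    refine Finset.sum_congr rfl fun i _ => ?_
    congr 1
    unfold Vm
    rw [Matrix.of_apply]
    by_cases h : l'.val ≤ d i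
    · congr 1
      have h3 : (-1 : ℚ) ^ (d i - l'.val) * (-1) ^ l'.val = 1 := by
        rw [← pow_add, Nat.sub_add_cancel h]
        exact (he i).neg_one_pow
      have h5 : (-1 : ℚ) ^ l'.val * (-1) ^ l'.val = 1 := by
        rw [← mul_pow]; simp
      have h6 : (-1 : ℚ) ^ l'.val ≠ 0 := pow_ne_zero _ (by norm_num)
      exact mul_right_cancel₀ h6 (h3.trans h5.symm)
    · rw [Nat.choose_eq_zero_of_lt (by omega)]
      simp
  -- the constant
  obtain ⟨m, hm, hm2, hmn, hmd, c, hc0, hc1, hcM⟩ : ∃ m : ℕ, Even m ∧ 2 ≤ m ∧ n ≤ m + 1 ∧ (∀ i, m ≤ d i) ∧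
      ∃ c : ℚ, 0 < c ∧ c * 2 ^ m ≤ 1 ∧ ∀ l : Fin n, l.val = m → ∃ i0, d i0 = m ∧ M l i0 = c := by
    rcases n with _ | n
    · exact ⟨2, by decide, le_rfl, by omega, fun i => Fin.elim0 i, 1 / 4, by norm_num, by norm_num,
        fun l => Fin.elim0 l⟩
    · by_cases hnm : n = d 0
      · have hent : M (Fin.last n) 0 * ∏ j : Fin n, ((d j.succ : ℚ) - d 0) = (n.factorial : ℚ) :=
          inv_entry (by rw [hnm]; exact he 0) d M hMV
        have hcb := c_bound d hd he _ hent
        refine ⟨d 0, he 0, h2 0, by omega, fun i => hd.monotone (Fin.zero_le i), M (Fin.last n) 0, hcb.1,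
          by rw [← hnm]; exact hcb.2, ?_⟩
        intro l hl
        refine ⟨0, rfl, ?_⟩
        congr 1
        exact Fin.ext (by rw [hl, ← hnm]; rfl)
      · have h3 := hn 0
        refine ⟨d 0, he 0, h2 0, by omega, fun i => hd.monotone (Fin.zero_le i), 1 / 2 ^ (d 0), by positivity,
          ?_, ?_⟩
        · rw [one_div, inv_mul_cancel₀ (by positivity)]
        · intro l hl
          exfalso
          have := l.isLt
          omega
  have hmu : ∀ l, 1 + c * mu m l ≠ 0 := fun l => (mu_bound m hm hm2 c hc0 hc1 l).ne'
  refine leadE F (fun i => if i.val = m then c • adp m else 0) (fun i => wd [i.val]) (fun l => l.val + (m + 1))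
    (m + 1) ?_ ?_ ?_ ?_ ?_
  · -- the action part
    intro l u hu
    have hl := l.isLt
    have hs := wordX_strip u
    generalize (strip u).1 = v at hs
    generalize (strip u).2 = k at hs
    subst hs
    have hcw := cw_eq (m + 1) (wordX v ++ List.replicate k 0)
    rw [word_count, word_length] at hcw
    show l.val + (m + 1) + 1 ≤ _
    rcases v with _ | ⟨a, v⟩
    · exfalso
      apply hu
      have h3 : wordX [] ++ List.replicate k 0 = (List.replicate k 0 : List (Fin 2)) := rfl
      rw [h3, co_sub, hF0]
      split_ifs with h4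
      · rw [co_smul]
        have : co (adp m) (List.replicate k 0) = 0 := by
          by_contra hcon
          have h5 := adp_count m (List.replicate k 0) hcon
          rw [List.count_replicate, if_neg (by decide)] at h5
          exact absurd h5 (by decide)
        rw [this]
        simp
      · rw [co_zero, sub_zero]
    · rcases v with _ | ⟨a', v⟩
      · simp only [List.length_singleton, List.sum_cons, List.sum_nil, Nat.add_zero, Nat.mul_one] at hcw
        by_contra hcon
        apply hu
        have hak : a + k ≤ l.val := by omega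
        by_cases h4 : l.val = m
        · obtain ⟨i0, hi0, hMi0⟩ := hcM l h4
          rw [if_pos h4, co_sub, co_smul, adp_coeff, hF1]
          by_cases h5 : a + k = m
          · rw [if_pos h5, Finset.sum_eq_single i0]
            · rw [if_pos (by rw [h5, hi0]), hMi0, hi0]
              ring
            · intro j _ hj
              rw [if_neg]
              intro h6
              exact hj (hd.injective (by rw [← h6, h5, hi0]))
            · intro h
              exact absurd (Finset.mem_univ _) h
          · rw [if_neg h5, Finset.sum_eq_zero]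
            · simp
            · intro j _
              have := hmd j
              rw [if_neg (by omega)]
        · rw [if_neg h4, co_sub, co_zero, hF1, Finset.sum_eq_zero]
          · simp
          · intro j _
            have := hmd j
            rw [if_neg (by omega)]
      · simp only [List.length_cons, List.sum_cons] at hcw
        have h6 : (m + 1) * (v.length + 1 + 1) = (m + 1) * v.length + (m + 1) + (m + 1) := by ring
        rw [h6] at hcw
        have h7 : 0 ≤ (m + 1) * v.length := Nat.zero_le _
        omega
  · -- the weight of `h`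
    intro l u hu
    split_ifs at hu with h4
    · rw [co_smul] at hu
      have h5 := right_ne_zero_of_mul hu
      have h6 := adp_words m u h5
      have hcw := cw_eq (m + 1) u
      rw [h6.1, h6.2] at hcw
      show _ = l.val + (m + 1)
      omega
    · rw [co_zero] at hu
      exact absurd rfl hu
  · -- `θ F`
    intro l v hv
    have hl := l.isLt
    rw [vw_eq]
    show l.val + (m + 1) + 1 ≤ _
    rcases v with _ | ⟨a, v⟩
    · exfalso
      apply hv
      rw [hθ0, co_wd, if_neg (by simp)]
    · rcases v with _ | ⟨a', v⟩
      · simp only [List.length_singleton, List.sum_cons, List.sum_nil, Nat.add_zero, Nat.mul_one]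
        by_contra hcon
        apply hv
        have h8 : a < n := by omega
        have h9 := hθl l ⟨a, h8⟩
        simp only at h9
        rw [h9, co_wd]
        by_cases h10 : l.val = a
        · rw [if_pos (Fin.ext h10), if_pos (by rw [h10])]
        · rw [if_neg (fun h => h10 (congrArg Fin.val h)), if_neg (by simpa using h10)]
      · simp only [List.length_cons, List.sum_cons]
        have h6 : (m + 1) * (v.length + 1 + 1) = (m + 1) * v.length + (m + 1) + (m + 1) := by ring
        rw [h6]
        omega
  · intro l v hv
    rw [co_wd] at hv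
    split_ifs at hv with h4
    · rw [← h4, vw_eq]
      simp
    · exact absurd rfl hv
  · intro P hP
    exact words_inj m hm c hmu _ (fun i => rfl) P hP

end

end Pool.Agent.H492.DG
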